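import Pool.Agent.Lib.H96S.Defs

/-!
# Products of Sylow subgroups over lists: basic lemmas
-/

namespace H96S

open scoped Pointwise
open Subgroup

section pr

variable {G : Type} [Group G]

/-- the complete Sylow product over a list -/
def pr (Q : (p : ℕ) → Sylow p G) (l : List ℕ) : Set G :=
  (l.map (fun p => ((Q p : Subgroup G) : Set G))).prod

lemma pr_nil (Q : (p : ℕ) → Sylow p G) : pr Q [] = 1 := rfl

lemma pr_cons (Q : (p : ℕ) → Sylow p G) (p : ℕ) (l : List ℕ) :
    pr Q (p :: l) = ((Q p : Subgroup G) : Set G) * pr Q l := rfl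

lemma pr_append (Q : (p : ℕ) → Sylow p G) (l l' : List ℕ) :
    pr Q (l ++ l') = pr Q l * pr Q l' := by
  simp [pr]

lemma pr_subset (Q : (p : ℕ) → Sylow p G) (M : Subgroup G) (l : List ℕ)
    (h : ∀ p ∈ l, (Q p : Subgroup G) ≤ M) : pr Q l ⊆ M := by
  induction l with
  | nil =>
    rw [pr_nil]; intro x hx; rw [Set.mem_one] at hx; subst hx; exact M.one_mem
  | cons p l ih =>
    rw [pr_cons]
    rintro x ⟨a, ha, b, hb, rfl⟩
    exact M.mul_mem (h p (by simp) ha) (ih (fun q hq => h q (by simp [hq])) hb)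

lemma one_mem_pr (Q : (p : ℕ) → Sylow p G) (l : List ℕ) : (1 : G) ∈ pr Q l := by
  induction l with
  | nil => rw [pr_nil]; exact Set.mem_one.mpr rfl
  | cons p l ih =>
    rw [pr_cons]
    exact ⟨1, (Q p : Subgroup G).one_mem, 1, ih, by simp⟩

lemma pr_inv (Q : (p : ℕ) → Sylow p G) (l : List ℕ) : (pr Q l)⁻¹ = pr Q l.reverse := by
  induction l with
  | nil => rw [List.reverse_nil, pr_nil]; simp
  | cons p l ih =>
    rw [pr_cons, List.reverse_cons, pr_append, ← ih, pr_cons, pr_nil, mul_inv_rev, mul_one]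
    congr 1
    ext x
    simp

lemma pr_reverse_univ (Q : (p : ℕ) → Sylow p G) (l : List ℕ) (h : pr Q l.reverse = Set.univ) :
    pr Q l = Set.univ := by
  rw [← pr_inv] at h
  have := congrArg (fun s : Set G => s⁻¹) h
  simpa using this

lemma pr_congr (Q Q' : (p : ℕ) → Sylow p G) (l : List ℕ) (h : ∀ p ∈ l, Q p = Q' p) :
    pr Q l = pr Q' l := by
  unfold pr
  congr 1
  apply List.map_congr_left
  intro p hp
  rw [h p hp]

/-- image of a product -/
lemma exists_pr_map {H : Type} [Group H] (f : G →* H) (Q : (p : ℕ) → Sylow p G)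
    (R : (p : ℕ) → Sylow p H) (l : List ℕ)
    (h : ∀ p ∈ l, (Q p : Subgroup G).map f = (R p : Subgroup H)) :
    f '' (pr Q l) = pr R l := by
  induction l with
  | nil => rw [pr_nil, pr_nil, ← Set.singleton_one, Set.image_singleton, map_one, Set.singleton_one]
  | cons p l ih =>
    rw [pr_cons, pr_cons, Set.image_mul, ih (fun q hq => h q (by simp [hq])),
      ← h p (by simp)]
    rfl

end pr

/-- existence of the factorisation for a list -/
def Fac (G : Type) [Group G] (l : List ℕ) : Prop := ∃ Q : (p : ℕ) → Sylow p G, pr Q l = Set.univ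

lemma Fac.of_reverse {G : Type} [Group G] {l : List ℕ} (h : Fac G l.reverse) : Fac G l := by
  obtain ⟨Q, hQ⟩ := h
  exact ⟨Q, pr_reverse_univ Q l hQ⟩

lemma star_iff_fac (G : Type) [Group G] : Star G ↔
    ∀ l : List ℕ, l.Nodup → (∀ p, p ∈ l ↔ p ∈ (Nat.card G).primeFactors) → Fac G l := Iff.rfl

section sylow

variable {G : Type} [Group G] [Finite G]

lemma sylow_eq_bot {p : ℕ} (hp : p.Prime) (h : ¬ p ∣ Nat.card G) (P : Sylow p G) :
    (P : Subgroup G) = ⊥ := by
  have := Fact.mk hp
  have h1 := P.card_eq_multiplicity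
  rw [Nat.factorization_eq_zero_of_not_dvd h, pow_zero] at h1
  exact Subgroup.card_eq_one.mp h1

/-- removing trivial factors -/
lemma pr_filter (Q : (p : ℕ) → Sylow p G) (l : List ℕ) (hl : ∀ p ∈ l, p.Prime) :
    pr Q (l.filter (fun p => p ∈ (Nat.card G).primeFactors)) = pr Q l := by
  induction l with
  | nil => rfl
  | cons p l ih =>
    have ih' := ih (fun q hq => hl q (by simp [hq]))
    by_cases h : p ∈ (Nat.card G).primeFactors
    · rw [List.filter_cons_of_pos (by simpa using h), pr_cons, pr_cons, ih']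
    · rw [List.filter_cons_of_neg (by simpa using h), ih', pr_cons]
      have hp : p.Prime := hl p (by simp)
      have : ¬ p ∣ Nat.card G := fun hd =>
        h (Nat.mem_primeFactors.mpr ⟨hp, hd, Nat.card_pos.ne'⟩)
      rw [sylow_eq_bot hp this]
      simp

/-- `Star` gives the factorisation for all lists of primes containing the prime divisors -/
lemma Star.fac (h : Star G) (l : List ℕ) (hn : l.Nodup) (hl : ∀ p ∈ l, p.Prime)
    (hG : ∀ p ∈ (Nat.card G).primeFactors, p ∈ l) : Fac G l := by
  obtain ⟨Q, hQ⟩ := h (l.filter (fun p => p ∈ (Nat.card G).primeFactors)) (hn.filter _)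
    (by
      intro p
      rw [List.mem_filter]
      constructor
      · rintro ⟨_, h2⟩; simpa using h2
      · intro h2; exact ⟨hG p h2, by simpa using h2⟩)
  refine ⟨Q, ?_⟩
  rw [← pr_filter Q l hl]
  exact hQ

omit [Finite G] in
/-- conjugation description of the action on Sylow subgroups -/
lemma mem_smul_sylow {p : ℕ} (g x : G) (P : Sylow p G) :
    x ∈ ((g • P : Sylow p G) : Subgroup G) ↔ g⁻¹ * x * g ∈ (P : Subgroup G) := by
  have : ((g • P : Sylow p G) : Subgroup G) = MulAut.conj g • (P : Subgroup G) := rfl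
  rw [this, Subgroup.mem_pointwise_smul_iff_inv_smul_mem]
  simp [MulAut.smul_def, mul_assoc]

/-- If the index of `H` is a power of `p` then `G = H P` for every Sylow `p`-subgroup. -/
lemma exists_mul_sylow {p : ℕ} [hp : Fact p.Prime] (H : Subgroup G) (k : ℕ)
    (hH : H.index = p ^ k) (P : Sylow p G) (n : G) :
    ∃ h ∈ H, ∃ x ∈ (P : Subgroup G), n = h * x := by
  classical
  have key : ∀ c : G ⧸ H, ∃ x : (P : Subgroup G), x • ((1 : G) : G ⧸ H) = c := by
    set D := MulAction.stabilizer (P : Subgroup G) ((1 : G) : G ⧸ H) with hD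
    have h1 : D.index = (MulAction.orbit (P : Subgroup G) ((1 : G) : G ⧸ H)).ncard :=
      MulAction.index_stabilizer _ _
    have h2 : Nat.card D * D.index = Nat.card (P : Subgroup G) := Subgroup.card_mul_index D
    have h3 : Nat.card D ∣ Nat.card H := by
      have hle : D.map (P : Subgroup G).subtype ≤ H := by
        rintro _ ⟨x, hx, rfl⟩
        have hx' : x • ((1 : G) : G ⧸ H) = ((1 : G) : G ⧸ H) := hx
        have : (((x : G) * 1 : G) : G ⧸ H) = ((1 : G) : G ⧸ H) := hx'
        rw [mul_one, eq_comm, QuotientGroup.eq] at this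
        simpa using this
      have := Subgroup.card_dvd_of_le hle
      rwa [Subgroup.card_map_of_injective (P : Subgroup G).subtype_injective] at this
    have h4 := P.card_eq_multiplicity
    have h5 : Nat.card H * p ^ k = Nat.card G := by rw [← hH]; exact Subgroup.card_mul_index H
    have hp' := hp.out
    have h6 : (Nat.card G).factorization p = (Nat.card H).factorization p + k := by
      rw [← h5, Nat.factorization_mul Nat.card_pos.ne' (pow_ne_zero _ hp'.ne_zero),
        hp'.factorization_pow]
      simp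
    have h7 : Nat.card D ∣ p ^ (Nat.card G).factorization p := by
      rw [← h4, ← h2]; exact dvd_mul_right _ _
    obtain ⟨d, hd, hd'⟩ := (Nat.dvd_prime_pow hp').mp h7
    have h8 : d ≤ (Nat.card H).factorization p := by
      rw [hd'] at h3
      exact (hp'.pow_dvd_iff_le_factorization Nat.card_pos.ne').mp h3
    have h9 : p ^ k ≤ D.index := by
      have : p ^ d * D.index = p ^ d * p ^ ((Nat.card G).factorization p - d) := by
        rw [← pow_add, Nat.add_sub_cancel' hd, ← h4, ← h2, hd']
      have h10 := Nat.eq_of_mul_eq_mul_left (pow_pos hp'.pos d) this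
      rw [h10]
      apply Nat.pow_le_pow_right hp'.pos
      omega
    have h11 : MulAction.orbit (P : Subgroup G) ((1 : G) : G ⧸ H) = Set.univ := by
      apply Set.eq_of_subset_of_ncard_le (Set.subset_univ _)
      rw [Set.ncard_univ, ← h1, ← Subgroup.index_eq_card, hH]
      exact h9
    intro c
    have : c ∈ MulAction.orbit (P : Subgroup G) ((1 : G) : G ⧸ H) := by rw [h11]; trivial
    exact this
  obtain ⟨x, hx⟩ := key ((n⁻¹ : G) : G ⧸ H)
  have hx' : (((x : G) * 1 : G) : G ⧸ H) = ((n⁻¹ : G) : G ⧸ H) := hx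
  rw [mul_one, QuotientGroup.eq] at hx'
  refine ⟨n * x, ?_, (x : G)⁻¹, (P : Subgroup G).inv_mem x.2, by group⟩
  have := H.inv_mem hx'
  simpa [mul_assoc] using this

end sylow

end H96S
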