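import Pool.Agent.Lib.H96S.B9

/-!
# Part (A): inheritance by normal subgroups and composition factors
-/

namespace H96S

open scoped Pointwise
open Subgroup

section uniq

variable {H : Type} [Group H] [Finite H]

lemma ncard_pr_le (R : (p : ℕ) → Sylow p H) (l : List ℕ) :
    (pr R l).ncard ≤ (l.map (fun p => Nat.card (R p : Subgroup H))).prod := by
  induction l with
  | nil => rw [pr_nil, ← Set.singleton_one, Set.ncard_singleton]; simp
  | cons p l ih =>
    rw [pr_cons, List.map_cons, List.prod_cons, ← Set.image_mul_prod]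
    refine (Set.ncard_image_le (Set.toFinite _)).trans ?_
    rw [Set.ncard_prod]
    exact Nat.mul_le_mul (le_of_eq (Nat.card_coe_set_eq _).symm) ih

lemma prod_card_pos (R : (p : ℕ) → Sylow p H) (l : List ℕ) :
    0 < (l.map (fun p => Nat.card (R p : Subgroup H))).prod := by
  apply List.prod_pos
  intro a ha
  rw [List.mem_map] at ha
  obtain ⟨p, _, rfl⟩ := ha
  exact Nat.card_pos

/-- equality of cardinalities: the factorisation is unique, also for the tail -/
lemma uniq_cons (R : (p : ℕ) → Sylow p H) (p : ℕ) (l : List ℕ)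
    (h : (pr R (p :: l)).ncard = ((p :: l).map (fun p => Nat.card (R p : Subgroup H))).prod) :
    (pr R l).ncard = (l.map (fun p => Nat.card (R p : Subgroup H))).prod ∧
    ∀ a ∈ (R p : Subgroup H), ∀ b ∈ pr R l, a * b = 1 → a = 1 ∧ b = 1 := by
  have h1 := ncard_pr_le R l
  have hcard : ((R p : Subgroup H) : Set H).ncard = Nat.card (R p : Subgroup H) :=
    (Nat.card_coe_set_eq _).symm
  have h2 : (pr R (p :: l)).ncard ≤ Nat.card (R p : Subgroup H) * (pr R l).ncard := by
    rw [pr_cons, ← Set.image_mul_prod]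
    refine (Set.ncard_image_le (Set.toFinite _)).trans ?_
    rw [Set.ncard_prod, hcard]
  rw [List.map_cons, List.prod_cons] at h
  have hpos : 0 < Nat.card (R p : Subgroup H) := Nat.card_pos
  have h3 : (pr R l).ncard = (l.map (fun p => Nat.card (R p : Subgroup H))).prod := by
    apply le_antisymm h1
    rw [h] at h2
    exact Nat.le_of_mul_le_mul_left h2 hpos
  refine ⟨h3, ?_⟩
  have hinj : Set.InjOn (fun x : H × H => x.1 * x.2) (((R p : Subgroup H) : Set H) ×ˢ pr R l) := by
    rw [← Set.ncard_image_iff (Set.toFinite _), Set.image_mul_prod, Set.ncard_prod, hcard, h3]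
    exact h
  intro a ha b hb hab
  have := hinj (x₁ := (a, b)) ⟨ha, hb⟩ (x₂ := (1, 1)) ⟨(R p : Subgroup H).one_mem, one_mem_pr R l⟩
    (by simpa using hab)
  simpa using this

lemma prod_card_eq (R : (p : ℕ) → Sylow p H) (l : List ℕ) (hn : l.Nodup) (hl : ∀ p ∈ l, p.Prime)
    (hH : ∀ p ∈ (Nat.card H).primeFactors, p ∈ l) :
    (l.map (fun p => Nat.card (R p : Subgroup H))).prod = Nat.card H := by
  have h1 : l.map (fun p => Nat.card (R p : Subgroup H)) =
      l.map (fun p => p ^ (Nat.card H).factorization p) := by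
    apply List.map_congr_left
    intro p hp
    have := Fact.mk (hl p hp)
    exact (R p).card_eq_multiplicity
  rw [h1, ← List.prod_toFinset _ hn]
  have h2 := Nat.prod_factorization_pow_eq_self (n := Nat.card H) Nat.card_pos.ne'
  conv_rhs => rw [← h2]
  rw [Finsupp.prod_of_support_subset (s := l.toFinset)]
  · rw [Nat.support_factorization]
    intro p hp
    rw [List.mem_toFinset]
    exact hH p hp
  · intro p _
    simp

end uniq

/-- the elements of `N` in a product with unique images factor inside `N` -/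
lemma mem_pr_inf {G : Type} [Group G] [Finite G] (N : Subgroup G) [N.Normal]
    (Q : (p : ℕ) → Sylow p G) (R : (p : ℕ) → Sylow p (G ⧸ N)) (T : (p : ℕ) → Sylow p N)
    (l : List ℕ)
    (hR : ∀ p ∈ l, (Q p : Subgroup G).map (QuotientGroup.mk' N) = (R p : Subgroup (G ⧸ N)))
    (hT : ∀ p ∈ l, (T p : Subgroup N) = (Q p : Subgroup G).subgroupOf N)
    (hc : (pr R l).ncard = (l.map (fun p => Nat.card (R p : Subgroup (G ⧸ N)))).prod) :
    ∀ n : N, (n : G) ∈ pr Q l → n ∈ pr T l := by
  induction l with
  | nil =>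
    intro n hn
    rw [pr_nil, Set.mem_one] at hn ⊢
    exact Subtype.ext hn
  | cons p l ih =>
    obtain ⟨hc', huniq⟩ := uniq_cons R p l hc
    intro n hn
    rw [pr_cons] at hn ⊢
    obtain ⟨a, ha, b, hb, hab⟩ := hn
    have hab' : a * b = (n : G) := hab
    have h1 : (QuotientGroup.mk' N) a * (QuotientGroup.mk' N) b = 1 := by
      rw [← map_mul, hab', ← MonoidHom.mem_ker, QuotientGroup.ker_mk']
      exact n.2
    have ha' : (QuotientGroup.mk' N) a ∈ (R p : Subgroup (G ⧸ N)) := by
      rw [← hR p (by simp)]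
      exact Subgroup.mem_map_of_mem _ ha
    have hb' : (QuotientGroup.mk' N) b ∈ pr R l := by
      rw [← exists_pr_map (QuotientGroup.mk' N) Q R l (fun q hq => hR q (by simp [hq]))]
      exact ⟨b, hb, rfl⟩
    obtain ⟨ha1, hb1⟩ := huniq _ ha' _ hb' h1
    rw [← MonoidHom.mem_ker, QuotientGroup.ker_mk'] at ha1 hb1
    refine ⟨⟨a, ha1⟩, ?_, ⟨b, hb1⟩, ?_, Subtype.ext hab'⟩
    · have := hT p (by simp)
      change (⟨a, ha1⟩ : N) ∈ (T p : Subgroup N)
      rw [this, Subgroup.mem_subgroupOf]
      exact ha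
    · exact ih (fun q hq => hR q (by simp [hq])) (fun q hq => hT q (by simp [hq])) hc' ⟨b, hb1⟩ hb

theorem star_normal {G : Type} [Group G] [Finite G] (N : Subgroup G) [N.Normal] (h : Star G) :
    Star N := by
  intro l hn hl
  obtain ⟨l', h1, h2, h3⟩ := exists_extend l (Nat.card G).primeFactors hn
  have hp : ∀ p ∈ l ++ l', p.Prime := by
    intro p hp
    rcases List.mem_append.mp hp with h | h
    · exact Nat.prime_of_mem_primeFactors ((hl p).mp h)
    · exact Nat.prime_of_mem_primeFactors (h3 p h).1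
  obtain ⟨Q, hQ⟩ := h.fac (l ++ l') h1 hp h2
  obtain ⟨R, hR⟩ := choose_sylow (G := G ⧸ N) (l ++ l')
    (fun p (R : Sylow p (G ⧸ N)) => (Q p : Subgroup G).map (QuotientGroup.mk' N) =
      (R : Subgroup (G ⧸ N))) (fun p hp' => by
      have := Fact.mk (hp p hp')
      exact ⟨(Q p).mapSurjective (QuotientGroup.mk'_surjective N), rfl⟩)
  obtain ⟨T, hT⟩ := choose_sylow (G := N) (l ++ l')
    (fun p (T : Sylow p N) => (T : Subgroup N) = (Q p : Subgroup G).subgroupOf N) (fun p hp' => by
      have := Fact.mk (hp p hp')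
      exact ⟨sylInf (Q p) N, rfl⟩)
  have hRuniv : pr R (l ++ l') = Set.univ := by
    rw [← exists_pr_map (QuotientGroup.mk' N) Q R (l ++ l') hR, hQ]
    exact Set.image_univ_of_surjective (QuotientGroup.mk'_surjective N)
  have hc : (pr R (l ++ l')).ncard =
      ((l ++ l').map (fun p => Nat.card (R p : Subgroup (G ⧸ N)))).prod := by
    rw [hRuniv, Set.ncard_univ, prod_card_eq R (l ++ l') h1 hp]
    intro p hp'
    apply h2
    rw [Nat.mem_primeFactors] at hp' ⊢
    exact ⟨hp'.1, hp'.2.1.trans (Subgroup.card_quotient_dvd_card N), Nat.card_pos.ne'⟩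
  have hTu : pr T (l ++ l') = Set.univ := by
    rw [Set.eq_univ_iff_forall]
    intro n
    exact mem_pr_inf N Q R T (l ++ l') hR hT hc n (by rw [hQ]; trivial)
  exact Fac.filter hl (fun p hp' => ⟨hp p (List.mem_append_right _ hp'), (h3 p hp').2⟩) ⟨T, hTu⟩

theorem star_subnormal {G : Type} [Group G] [Finite G] (h : Star G) (H : Subgroup G)
    (hH : H.IsSubnormal) : Star H := by
  induction hH with
  | top => exact h.of_equiv Subgroup.topEquiv.symm
  | step A B hAB hB hN ih =>
    have h1 : Star (A.subgroupOf B) := star_normal (A.subgroupOf B) ih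
    exact h1.of_equiv (Subgroup.subgroupOfEquivOfLe hAB)

/-- every composition factor of a group with (∗) has (∗) -/
theorem star_compFactor {G : Type} [Group G] [Finite G] (h : Star G) {S : Type} [Group S]
    (hS : IsCompFactor G S) : Star S := by
  obtain ⟨_, H, hH, f, hf⟩ := hS
  exact (star_subnormal h H hH).map f hf

end H96S
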