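import Pool.Agent.Lib.H96S.B10

/-!
# Part (B): extensions by groups whose nonabelian composition factors are `PSL(2,7)`
-/

namespace H96S

open scoped Pointwise
open Subgroup

/-- adding one more homomorphism onto a simple group -/
lemma subdirect_step {N S : Type} [Group N] [Group S] [IsSimpleGroup S] {r : ℕ}
    (φ : N →* (Fin r → S)) (hφ : Function.Surjective φ) (ψ : N →* S)
    (hψ : Function.Surjective ψ) :
    ∃ (r' : ℕ) (θ : N →* (Fin r' → S)), Function.Surjective θ ∧ θ.ker = φ.ker ⊓ ψ.ker := by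
  by_cases h : φ.ker ≤ ψ.ker
  · exact ⟨r, φ, hφ, (inf_eq_left.mpr h).symm⟩
  · have hn : (φ.ker.map ψ).Normal := Subgroup.Normal.map inferInstance ψ hψ
    have htop : φ.ker.map ψ = ⊤ := by
      rcases hn.eq_bot_or_eq_top with h1 | h1
      · exact absurd ((Subgroup.map_eq_bot_iff _).mp h1) h
      · exact h1
    let θ : N →* (Fin (r + 1) → S) :=
      { toFun := fun x => Fin.cons (ψ x) (φ x)
        map_one' := by
          funext i
          refine Fin.cases ?_ (fun j => ?_) i
          · simp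
          · simp
        map_mul' := by
          intro x y
          funext i
          refine Fin.cases ?_ (fun j => ?_) i
          · simp
          · simp }
    refine ⟨r + 1, θ, ?_, ?_⟩
    · intro v
      obtain ⟨x, hx⟩ := hφ (Fin.tail v)
      have h2 : (ψ x)⁻¹ * v 0 ∈ φ.ker.map ψ := by rw [htop]; trivial
      obtain ⟨m, hm, hmx⟩ := h2
      refine ⟨x * m, ?_⟩
      funext i
      refine Fin.cases ?_ (fun j => ?_) i
      · change ψ (x * m) = v 0
        rw [map_mul, hmx]; group
      · change φ (x * m) j = v j.succ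
        rw [map_mul, (MonoidHom.mem_ker.mp hm), mul_one, hx]
        rfl
    · ext x
      rw [Subgroup.mem_inf, MonoidHom.mem_ker, MonoidHom.mem_ker, MonoidHom.mem_ker]
      constructor
      · intro hx
        constructor
        · funext j
          exact congrFun hx j.succ
        · exact congrFun hx 0
      · rintro ⟨h1, h2⟩
        funext i
        refine Fin.cases ?_ (fun j => ?_) i
        · exact h2
        · exact congrFun h1 j

/-- a finite family of homomorphisms onto a simple group -/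
lemma subdirect {N S ι : Type} [Group N] [Group S] [IsSimpleGroup S] (s : Finset ι)
    (ψ : ι → (N →* S)) (hψ : ∀ i, Function.Surjective (ψ i)) :
    ∃ (r : ℕ) (θ : N →* (Fin r → S)), Function.Surjective θ ∧
      ∀ x, x ∈ θ.ker ↔ ∀ i ∈ s, x ∈ (ψ i).ker := by
  classical
  induction s using Finset.induction_on with
  | empty =>
    refine ⟨0, 1, ?_, ?_⟩
    · intro v
      exact ⟨1, Subsingleton.elim _ _⟩
    · intro x
      simp [MonoidHom.mem_ker]
  | insert a s _ ih =>
    obtain ⟨r, θ, hθ, hk⟩ := ih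
    obtain ⟨r', θ', hθ', hk'⟩ := subdirect_step θ hθ (ψ a) (hψ a)
    refine ⟨r', θ', hθ', ?_⟩
    intro x
    rw [hk', Subgroup.mem_inf, hk, Finset.forall_mem_insert, and_comm]

/-- existence of minimal normal subgroups -/
lemma exists_minimal_normal {G : Type} [Group G] [Finite G] (N0 : Subgroup G) (h0 : N0.Normal)
    (h : N0 ≠ ⊥) : ∃ N : Subgroup G, N.Normal ∧ N ≤ N0 ∧ N ≠ ⊥ ∧
      ∀ K : Subgroup G, K.Normal → K ≤ N → K ≠ ⊥ → K = N := by
  obtain ⟨N, hN⟩ := Set.Finite.exists_minimal (s := {N : Subgroup G | N.Normal ∧ N ≤ N0 ∧ N ≠ ⊥})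
    (Set.toFinite _) ⟨N0, h0, le_rfl, h⟩
  refine ⟨N, hN.1.1, hN.1.2.1, hN.1.2.2, ?_⟩
  intro K hK hKN hKb
  exact le_antisymm hKN (hN.2 ⟨hK, hKN.trans hN.1.2.1, hKb⟩ hKN)

/-- existence of simple quotients -/
lemma exists_simple_quotient (N : Type) [Group N] [Finite N] [Nontrivial N] :
    ∃ (L : Subgroup N) (_ : L.Normal), L ≠ ⊤ ∧ IsSimpleGroup (N ⧸ L) := by
  obtain ⟨L, hL⟩ := Set.Finite.exists_maximal (s := {L : Subgroup N | L.Normal ∧ L ≠ ⊤})
    (Set.toFinite _) ⟨⊥, inferInstance, bot_ne_top⟩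
  have hLn : L.Normal := hL.1.1
  refine ⟨L, hLn, hL.1.2, ?_⟩
  have hnt : Nontrivial (N ⧸ L) := QuotientGroup.nontrivial_iff.mpr hL.1.2
  refine ⟨fun K hK => ?_⟩
  have h1 : L ≤ K.comap (QuotientGroup.mk' L) := by
    intro x hx
    rw [Subgroup.mem_comap]
    have : (QuotientGroup.mk' L) x = 1 := by
      rw [← MonoidHom.mem_ker, QuotientGroup.ker_mk']; exact hx
    rw [this]; exact K.one_mem
  by_cases h2 : K.comap (QuotientGroup.mk' L) = ⊤
  · right
    rw [eq_top_iff]
    intro x _
    obtain ⟨y, rfl⟩ := QuotientGroup.mk'_surjective L x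
    have : y ∈ K.comap (QuotientGroup.mk' L) := by rw [h2]; trivial
    exact this
  · left
    have h3 : (K.comap (QuotientGroup.mk' L)).Normal := hK.comap _
    have h4 := hL.2 ⟨h3, h2⟩ h1
    rw [eq_bot_iff]
    intro x hx
    obtain ⟨y, rfl⟩ := QuotientGroup.mk'_surjective L x
    have : y ∈ L := h4 hx
    rw [Subgroup.mem_bot, ← MonoidHom.mem_ker, QuotientGroup.ker_mk']
    exact this

/-- the hypothesis on composition factors -/
def Factors27 (N : Type) [Group N] : Prop :=
  ∀ (S : Type) [Group S], IsCompFactor N S → (∀ x y : S, x * y = y * x) ∨ Nonempty (S ≃* PSL27)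

end H96S
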