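import Pool.Agent.Lib.H96S.B11

/-!
# Part (B): the main theorem
-/

namespace H96S

open scoped Pointwise commutatorElement
open Subgroup

/-- a minimal normal subgroup with the condition on composition factors is a `p`-group or `Good` -/
lemma minimal_normal_cases {G : Type} [Group G] [Finite G] (N : Subgroup G) [hNn : N.Normal]
    (hNb : N ≠ ⊥) (hmin : ∀ K : Subgroup G, K.Normal → K ≤ N → K ≠ ⊥ → K = N)
    (hF : Factors27 N) : (∃ p : ℕ, p.Prime ∧ p ∣ Nat.card N ∧ IsPGroup p N) ∨ Good N := by
  have hnt : Nontrivial N := (Subgroup.nontrivial_iff_ne_bot N).mpr hNb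
  by_cases hc : commutator N = ⊥
  · -- abelian case
    left
    have hcomm : ∀ x y : N, x * y = y * x := by
      intro x y
      have h1 : ⁅x, y⁆ ∈ commutator N := Subgroup.commutator_mem_commutator trivial trivial
      rw [hc, Subgroup.mem_bot] at h1
      exact commutatorElement_eq_one_iff_mul_comm.mp h1
    have hcard : Nat.card N ≠ 1 := by
      intro h
      have := (Nat.card_eq_one_iff_unique.mp h).1
      exact not_subsingleton N this
    obtain ⟨p, hp, hpd⟩ := Nat.exists_prime_and_dvd hcard
    have fp := Fact.mk hp
    let P : Sylow p N := Sylow.nonempty.some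
    have hPn : (P : Subgroup N).Normal := by
      refine ⟨fun x hx g => ?_⟩
      rw [hcomm g x, mul_assoc, mul_inv_cancel, mul_one]
      exact hx
    have hPc : (P : Subgroup N).Characteristic := P.characteristic_of_normal hPn
    have hn2 : ((P : Subgroup N).map N.subtype).Normal :=
      ConjAct.normal_of_characteristic_of_normal
    have hPb : (P : Subgroup N) ≠ ⊥ := P.ne_bot_of_dvd_card hpd
    have h3 := hmin _ hn2 (Subgroup.map_subtype_le _) (by
      intro h
      exact hPb ((Subgroup.map_eq_bot_iff_of_injective _ N.subtype_injective).mp h))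
    refine ⟨p, hp, hpd, ?_⟩
    have h4 : IsPGroup p ((P : Subgroup N).map N.subtype) := P.2.map N.subtype
    rwa [h3] at h4
  · -- perfect case
    right
    have hcn : ((commutator N).map N.subtype).Normal :=
      ConjAct.normal_of_characteristic_of_normal
    have hctop : commutator N = ⊤ := by
      have h1 := hmin _ hcn (Subgroup.map_subtype_le _) (by
        intro h
        exact hc ((Subgroup.map_eq_bot_iff_of_injective _ N.subtype_injective).mp h))
      rw [eq_top_iff]
      intro x _
      have h2 : (x : G) ∈ (commutator N).map N.subtype := by rw [h1]; exact x.2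
      obtain ⟨y, hy, hyx⟩ := h2
      have : y = x := Subtype.ext hyx
      rwa [← this]
    obtain ⟨L, hLn, hLt, hS⟩ := exists_simple_quotient N
    have hcf : IsCompFactor N (N ⧸ L) :=
      ⟨hS, ⊤, Subgroup.IsSubnormal.top, (QuotientGroup.mk' L).comp Subgroup.topEquiv.toMonoidHom,
        fun x => by
          obtain ⟨y, rfl⟩ := QuotientGroup.mk'_surjective L x
          exact ⟨⟨y, trivial⟩, rfl⟩⟩
    rcases hF (N ⧸ L) hcf with hab | ⟨⟨e⟩⟩
    · exfalso
      apply hLt
      rw [eq_top_iff, ← hctop, commutator_eq_closure, Subgroup.closure_le]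
      rintro _ ⟨x, y, rfl⟩
      have h1 : (QuotientGroup.mk' L) ⁅x, y⁆ = 1 := by
        rw [map_commutatorElement, commutatorElement_eq_one_iff_mul_comm]
        exact hab _ _
      rw [← MonoidHom.mem_ker, QuotientGroup.ker_mk'] at h1
      exact h1
    · -- the family of conjugates
      let ψ : G → (N →* (N ⧸ L)) := fun g =>
        (QuotientGroup.mk' L).comp (MulAut.conjNormal g : MulAut N).toMonoidHom
      have hψ : ∀ g, Function.Surjective (ψ g) := fun g =>
        (QuotientGroup.mk'_surjective L).comp (MulEquiv.surjective _)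
      have := Fintype.ofFinite G
      obtain ⟨r, θ, hθ, hk⟩ := subdirect (Finset.univ : Finset G) ψ hψ
      have hKn : (θ.ker.map N.subtype).Normal := by
        refine ⟨?_⟩
        rintro _ ⟨x, hx, rfl⟩ g
        refine ⟨MulAut.conjNormal g x, ?_, by simp⟩
        change MulAut.conjNormal g x ∈ θ.ker
        rw [hk]
        intro h _
        have h1 := (hk x).mp hx (h * g) (Finset.mem_univ _)
        rw [MonoidHom.mem_ker] at h1 ⊢
        change (QuotientGroup.mk' L) ((MulAut.conjNormal h : MulAut N) ((MulAut.conjNormal g : MulAut N) x)) = 1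
        change (QuotientGroup.mk' L) ((MulAut.conjNormal (h * g) : MulAut N) x) = 1 at h1
        rw [map_mul] at h1
        exact h1
      have hKb : θ.ker = ⊥ := by
        by_contra hne
        have h1 := hmin _ hKn (Subgroup.map_subtype_le _) (by
          intro h
          exact hne ((Subgroup.map_eq_bot_iff_of_injective _ N.subtype_injective).mp h))
        apply hLt
        rw [eq_top_iff]
        intro x _
        have h2 : (x : G) ∈ θ.ker.map N.subtype := by rw [h1]; exact x.2
        obtain ⟨y, hy, hyx⟩ := h2
        have hyx' : y = x := Subtype.ext hyx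
        rw [hyx'] at hy
        have h3 := (hk x).mp hy 1 (Finset.mem_univ _)
        rw [MonoidHom.mem_ker] at h3
        change (QuotientGroup.mk' L) ((MulAut.conjNormal (1 : G) : MulAut N) x) = 1 at h3
        rw [map_one] at h3
        rw [← MonoidHom.mem_ker, QuotientGroup.ker_mk'] at h3
        exact h3
      have hinj : Function.Injective θ := (MonoidHom.ker_eq_bot_iff θ).mp hKb
      let e1 : N ≃* (Fin r → (N ⧸ L)) := MulEquiv.ofBijective θ ⟨hinj, hθ⟩
      let e2 : (Fin r → (N ⧸ L)) ≃* (Fin r → PSL27) := MulEquiv.piCongrRight (fun _ => e)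
      have hr : r ≠ 0 := by
        rintro rfl
        have : Subsingleton N := e1.toEquiv.subsingleton
        exact not_subsingleton N this
      exact Good.of_equiv (e1.trans e2) (good_pi r hr)

lemma Factors27.of_subnormal {G : Type} [Group G] {K : Subgroup G} (hK : K.IsSubnormal)
    (h : Factors27 G) : Factors27 K := fun S _ hS => h S (hS.of_subnormal hK)

lemma Factors27.of_surjective {G G' : Type} [Group G] [Group G'] (φ : G →* G')
    (hφ : Function.Surjective φ) (h : Factors27 G) : Factors27 G' :=
  fun S _ hS => h S (hS.of_surjective φ hφ)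

/-- Part (B), induction -/
lemma star_ext_aux (n : ℕ) : ∀ (G : Type) [Group G] [Finite G] (N0 : Subgroup G) [N0.Normal],
    Nat.card N0 = n → Factors27 N0 → Star (G ⧸ N0) → Star G := by
  induction n using Nat.strong_induction_on with
  | _ n ih =>
    intro G _ _ N0 hN0 hn hF hS
    by_cases hb : N0 = ⊥
    · subst hb
      exact hS.of_equiv (QuotientGroup.quotientBot (G := G))
    · obtain ⟨N, hNn, hNN0, hNb, hmin⟩ := exists_minimal_normal N0 hN0 hb
      -- the image of N0 in G / N
      let φ : N0 →* (N0.map (QuotientGroup.mk' N)) := (QuotientGroup.mk' N).subgroupMap N0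
      have hφ : Function.Surjective φ := (QuotientGroup.mk' N).subgroupMap_surjective N0
      have hN1 : (N0.map (QuotientGroup.mk' N)).Normal :=
        hN0.map _ (QuotientGroup.mk'_surjective N)
      have hlt : Nat.card (N0.map (QuotientGroup.mk' N)) < n := by
        rw [← hn]
        have hle : Nat.card (N0.map (QuotientGroup.mk' N)) ≤ Nat.card N0 :=
          Nat.card_le_card_of_surjective _ hφ
        apply lt_of_le_of_ne hle
        intro heq
        have hbij : Function.Bijective φ :=
          (Nat.bijective_iff_surjective_and_card _).mpr ⟨hφ, heq.symm⟩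
        apply hNb
        rw [Subgroup.eq_bot_iff_forall]
        intro x hx
        have h1 : φ ⟨x, hNN0 hx⟩ = φ 1 := by
          rw [map_one]
          apply Subtype.ext
          change (QuotientGroup.mk' N) x = 1
          rw [← MonoidHom.mem_ker, QuotientGroup.ker_mk']
          exact hx
        exact congrArg Subtype.val (hbij.1 h1)
      have hSN : Star (G ⧸ N) := by
        refine ih _ hlt (G ⧸ N) (N0.map (QuotientGroup.mk' N)) rfl (hF.of_surjective φ hφ) ?_
        exact hS.of_equiv (QuotientGroup.quotientQuotientEquivQuotient N N0 hNN0).symm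
      have hFN : Factors27 N := by
        have hsub : (N.subgroupOf N0).Normal := hNn.subgroupOf N0
        have h1 : Factors27 (N.subgroupOf N0) := hF.of_subnormal hsub.isSubnormal
        exact h1.of_surjective (Subgroup.subgroupOfEquivOfLe hNN0).toMonoidHom
          (Subgroup.subgroupOfEquivOfLe hNN0).surjective
      have hFac : ∀ l : List ℕ, (∀ q ∈ l, q.Prime) → l.Nodup →
          (∀ p ∈ (Nat.card G).primeFactors, p ∈ l) → Fac (G ⧸ N) l := by
        intro l hl hn' hG
        apply hSN.fac l hn' hl
        intro p hp
        apply hG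
        rw [Nat.mem_primeFactors] at hp ⊢
        exact ⟨hp.1, hp.2.1.trans (Subgroup.card_quotient_dvd_card N), Nat.card_pos.ne'⟩
      apply star_of_fac
      intro l hl hn' hG
      rcases minimal_normal_cases N hNb hmin hFN with ⟨p, hp, hpd, hpN⟩ | hgood
      · refine step_pgroup N p hpN l hl (hG p ?_) (hFac l hl hn' hG)
        rw [Nat.mem_primeFactors]
        exact ⟨hp, hpd.trans (Subgroup.card_subgroup_dvd_card N), Nat.card_pos.ne'⟩
      · exact step_good N hgood hFac l hl hn' hG

/-- Part (B): if `N` is normal in `G`, every nonabelian composition factor of `N` is isomorphic to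
`PSL(2,7)`, and `G / N` has (∗), then `G` has (∗). -/
theorem star_ext {G : Type} [Group G] [Finite G] (N : Subgroup G) [N.Normal]
    (hF : ∀ (S : Type) [Group S], IsCompFactor N S →
      (∀ x y : S, x * y = y * x) ∨ Nonempty (S ≃* PSL27))
    (h : Star (G ⧸ N)) : Star G :=
  star_ext_aux (Nat.card N) G N rfl hF h

/-- the trivial group has (∗) -/
lemma star_of_subsingleton (G : Type) [Group G] [Subsingleton G] : Star G := by
  intro l _ hl
  have hl' : l = [] := by
    rw [List.eq_nil_iff_forall_not_mem]
    intro p hp
    have h1 := (hl p).mp hp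
    rw [Nat.card_of_subsingleton (1 : G)] at h1
    simp at h1
  subst hl'
  refine ⟨fun p => (Sylow.nonempty (p := p)).some, ?_⟩
  rw [Set.eq_univ_iff_forall]
  intro x
  rw [Subsingleton.elim x 1]
  simp

/-- all nonabelian composition factors `PSL(2,7)` => (∗) -/
theorem star_of_compFactors {G : Type} [Group G] [Finite G]
    (hF : ∀ (S : Type) [Group S], IsCompFactor G S →
      (∀ x y : S, x * y = y * x) ∨ Nonempty (S ≃* PSL27)) : Star G := by
  have hq : Subsingleton (G ⧸ (⊤ : Subgroup G)) := QuotientGroup.subsingleton_quotient_top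
  exact star_ext (⊤ : Subgroup G)
    (fun S _ hS => hF S (hS.of_subnormal Subgroup.IsSubnormal.top))
    (star_of_subsingleton _)

end H96S
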