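import Pool.Agent.Lib.H96S.B1

/-!
# Lifting Sylow subgroups through quotients
-/

namespace H96S

open scoped Pointwise
open Subgroup

variable {G : Type} [Group G] [Finite G]

lemma relIndex_normal_eq (Q N : Subgroup G) [N.Normal] : Q.relIndex N = Q.relIndex (Q ⊔ N) := by
  have h1 : N.relIndex (Q ⊔ N) = N.relIndex Q := relIndex_sup_right Q N
  have h2 : Nat.card (Q ⊓ N : Subgroup G) * Q.relIndex N = Nat.card N := by
    have := Subgroup.card_mul_index (Q.subgroupOf N)
    rw [← this]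
    congr 1
    rw [← Subgroup.card_map_of_injective N.subtype_injective (K := Q.subgroupOf N),
      Subgroup.subgroupOf_map_subtype]
  have h3 : Nat.card (Q ⊓ N : Subgroup G) * N.relIndex Q = Nat.card Q := by
    have := Subgroup.card_mul_index (N.subgroupOf Q)
    rw [← this]
    congr 1
    rw [← Subgroup.card_map_of_injective Q.subtype_injective (K := N.subgroupOf Q),
      Subgroup.subgroupOf_map_subtype, inf_comm]
  have h4 : Nat.card N * N.relIndex (Q ⊔ N) = Nat.card (Q ⊔ N : Subgroup G) := by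
    have := Subgroup.card_mul_index (N.subgroupOf (Q ⊔ N))
    rw [← this]
    congr 1
    rw [← Subgroup.card_map_of_injective (Q ⊔ N).subtype_injective (K := N.subgroupOf (Q ⊔ N)),
      Subgroup.subgroupOf_map_subtype, inf_eq_left.mpr le_sup_right]
  have h5 : Nat.card Q * Q.relIndex (Q ⊔ N) = Nat.card (Q ⊔ N : Subgroup G) := by
    have := Subgroup.card_mul_index (Q.subgroupOf (Q ⊔ N))
    rw [← this]
    congr 1
    rw [← Subgroup.card_map_of_injective (Q ⊔ N).subtype_injective (K := Q.subgroupOf (Q ⊔ N)),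
      Subgroup.subgroupOf_map_subtype, inf_eq_left.mpr le_sup_left]
  rw [h1] at h4
  have hi : 0 < Nat.card (Q ⊓ N : Subgroup G) := Nat.card_pos
  have hb : 0 < N.relIndex Q := by
    rcases Nat.eq_zero_or_pos (N.relIndex Q) with h | h
    · rw [h, mul_zero] at h3
      exact absurd h3.symm Nat.card_pos.ne'
    · exact h
  have h6 : Nat.card (Q ⊓ N : Subgroup G) * N.relIndex Q * Q.relIndex N =
      Nat.card (Q ⊓ N : Subgroup G) * N.relIndex Q * Q.relIndex (Q ⊔ N) := by
    calc _ = (Nat.card (Q ⊓ N : Subgroup G) * Q.relIndex N) * N.relIndex Q := by ring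
      _ = Nat.card N * N.relIndex Q := by rw [h2]
      _ = Nat.card Q * Q.relIndex (Q ⊔ N) := by rw [h4, h5]
      _ = _ := by rw [h3]
  exact Nat.eq_of_mul_eq_mul_left (Nat.mul_pos hi hb) h6

/-- intersection of a Sylow subgroup with a normal subgroup -/
noncomputable def sylInf {p : ℕ} [hp : Fact p.Prime] (Q : Sylow p G) (N : Subgroup G) [N.Normal] :
    Sylow p N :=
  (show IsPGroup p ((Q : Subgroup G).subgroupOf N) from Q.2.comap_subtype).toSylow (by
    intro h
    have h1 : ((Q : Subgroup G).subgroupOf N).index = (Q : Subgroup G).relIndex ((Q : Subgroup G) ⊔ N) :=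
      relIndex_normal_eq (Q : Subgroup G) N
    rw [h1] at h
    exact Q.not_dvd_index (h.trans (relIndex_dvd_index_of_le le_sup_left)))

lemma coe_sylInf {p : ℕ} [hp : Fact p.Prime] (Q : Sylow p G) (N : Subgroup G) [N.Normal] :
    ((sylInf Q N : Sylow p N) : Subgroup N) = (Q : Subgroup G).subgroupOf N := rfl

/-- (E1) every Sylow subgroup of the quotient lifts -/
lemma lift1 {p : ℕ} [Fact p.Prime] (N : Subgroup G) [N.Normal] (R : Sylow p (G ⧸ N)) :
    ∃ Q : Sylow p G, (Q : Subgroup G).map (QuotientGroup.mk' N) = (R : Subgroup (G ⧸ N)) := by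
  obtain ⟨Q, hQ⟩ := Sylow.mapSurjective_surjective (QuotientGroup.mk'_surjective N) p R
  exact ⟨Q, by rw [← hQ, Sylow.coe_mapSurjective]⟩

/-- (E2) ... inside a supplement of index prime to `p` -/
lemma lift2 {p : ℕ} [Fact p.Prime] (N : Subgroup G) [N.Normal] (M : Subgroup G) (hM : M ⊔ N = ⊤)
    (hp : ¬ p ∣ M.index) (R : Sylow p (G ⧸ N)) :
    ∃ Q : Sylow p G, (Q : Subgroup G) ≤ M ∧
      (Q : Subgroup G).map (QuotientGroup.mk' N) = (R : Subgroup (G ⧸ N)) := by
  have hf : Function.Surjective ((QuotientGroup.mk' N).comp M.subtype) := by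
    intro x
    obtain ⟨g, rfl⟩ := QuotientGroup.mk'_surjective N x
    have hg : g ∈ M ⊔ N := by rw [hM]; trivial
    obtain ⟨m, hm, n, hn, rfl⟩ := Subgroup.mem_sup_of_normal_right.mp hg
    refine ⟨⟨m, hm⟩, ?_⟩
    simp only [MonoidHom.coe_comp, Function.comp_apply, Subgroup.coe_subtype, map_mul]
    have : (QuotientGroup.mk' N) n = 1 := by
      rw [← MonoidHom.mem_ker, QuotientGroup.ker_mk']; exact hn
    rw [this, mul_one]
  obtain ⟨Q, hQ⟩ := Sylow.mapSurjective_surjective hf p R
  have hpQ : IsPGroup p ((Q : Subgroup M).map M.subtype) := Q.2.map M.subtype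
  have hi : ¬ p ∣ ((Q : Subgroup M).map M.subtype).index := by
    rw [Subgroup.index_map_subtype]
    exact Nat.Prime.not_dvd_mul Fact.out Q.not_dvd_index hp
  refine ⟨hpQ.toSylow hi, ?_, ?_⟩
  · exact Subgroup.map_subtype_le _
  · rw [← hQ, Sylow.coe_mapSurjective]
    exact Subgroup.map_map _ _ _

omit [Finite G] in
lemma map_smul_mem {p : ℕ} [Fact p.Prime] (N : Subgroup G) [N.Normal] (Q : Sylow p G) (n : G)
    (hn : n ∈ N) : ((n • Q : Sylow p G) : Subgroup G).map (QuotientGroup.mk' N) =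
      (Q : Subgroup G).map (QuotientGroup.mk' N) := by
  have h1 : (QuotientGroup.mk' N) n = 1 := by
    rw [← MonoidHom.mem_ker, QuotientGroup.ker_mk']; exact hn
  ext x
  simp only [Subgroup.mem_map]
  constructor
  · rintro ⟨y, hy, rfl⟩
    rw [mem_smul_sylow] at hy
    refine ⟨_, hy, ?_⟩
    simp only [map_mul, map_inv, h1]; simp
  · rintro ⟨y, hy, rfl⟩
    refine ⟨n * y * n⁻¹, ?_, ?_⟩
    · rw [mem_smul_sylow]; simpa [mul_assoc] using hy
    · simp only [map_mul, map_inv, h1]; simp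

/-- (E3) ... with prescribed intersection with `N` -/
lemma lift3 {p : ℕ} [Fact p.Prime] (N : Subgroup G) [N.Normal] (A : Sylow p N)
    (R : Sylow p (G ⧸ N)) :
    ∃ Q : Sylow p G, (Q : Subgroup G).subgroupOf N = (A : Subgroup N) ∧
      (Q : Subgroup G).map (QuotientGroup.mk' N) = (R : Subgroup (G ⧸ N)) := by
  obtain ⟨Q, hQ⟩ := lift1 N R
  obtain ⟨n, hn⟩ := MulAction.exists_smul_eq N (sylInf Q N) A
  refine ⟨(n : G) • Q, ?_, ?_⟩
  · rw [← hn]
    ext x
    rw [Subgroup.mem_subgroupOf, mem_smul_sylow, mem_smul_sylow, coe_sylInf,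
      Subgroup.mem_subgroupOf]
    simp
  · rw [map_smul_mem N Q n n.2, hQ]

end H96S
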