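import Pool.Agent.Lib.H96S.B2

/-!
# The extension steps: normal `p`-subgroups, and normal subgroups of type `PSL(2,7)^k`
-/

namespace H96S

open scoped Pointwise
open Subgroup

variable {G : Type} [Group G] [Finite G]

omit [Finite G] in
lemma cover (N : Subgroup G) [N.Normal] (Q : (p : ℕ) → Sylow p G)
    (R : (p : ℕ) → Sylow p (G ⧸ N)) (l : List ℕ)
    (h : ∀ p ∈ l, (Q p : Subgroup G).map (QuotientGroup.mk' N) = (R p : Subgroup (G ⧸ N)))
    (hR : pr R l = Set.univ)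
    (hN : ∀ n ∈ N, ∀ x ∈ pr Q l, n * x ∈ pr Q l) : pr Q l = Set.univ := by
  rw [Set.eq_univ_iff_forall]
  intro g
  have h1 : (QuotientGroup.mk' N) g ∈ pr R l := by rw [hR]; trivial
  rw [← exists_pr_map (QuotientGroup.mk' N) Q R l h] at h1
  obtain ⟨x, hx, hxg⟩ := h1
  have h2 : g * x⁻¹ ∈ N := by
    have : (QuotientGroup.mk' N) (g * x⁻¹) = 1 := by rw [map_mul, map_inv, hxg]; simp
    rwa [← MonoidHom.mem_ker, QuotientGroup.ker_mk'] at this
  have := hN _ h2 x hx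
  simpa using this

omit [Finite G] in
/-- a choice of Sylow subgroups given a property for the primes in a list -/
lemma choose_sylow (l : List ℕ) (P : (p : ℕ) → Sylow p G → Prop)
    (h : ∀ p ∈ l, ∃ Q : Sylow p G, P p Q) : ∃ Q : (p : ℕ) → Sylow p G, ∀ p ∈ l, P p (Q p) := by
  classical
  refine ⟨fun p => if hp : p ∈ l then (h p hp).choose else (Sylow.nonempty (p := p)).some, ?_⟩
  intro p hp
  simp only [dif_pos hp]
  exact (h p hp).choose_spec

omit [Finite G] in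
lemma normal_pgroup_le {p : ℕ} (A : Subgroup G) (hA : IsPGroup p A) (Q : Sylow p G)
    (hQ : (Q : Subgroup G) ≤ normalizer (A : Set G)) : A ≤ (Q : Subgroup G) := by
  have h1 : IsPGroup p ((Q : Subgroup G) ⊔ A : Subgroup G) := Q.2.to_sup_of_normal_right' hA hQ
  have h2 := Q.3 h1 le_sup_left
  rw [← h2]
  exact le_sup_right

/-- extension by a normal `p`-subgroup -/
lemma step_pgroup (N : Subgroup G) [N.Normal] (p : ℕ) (hN : IsPGroup p N) (l : List ℕ)
    (hl : ∀ q ∈ l, q.Prime) (hp : p ∈ l) (hF : Fac (G ⧸ N) l) : Fac G l := by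
  obtain ⟨R, hR⟩ := hF
  obtain ⟨Q, hQ⟩ := choose_sylow (G := G) l
    (fun q (Q : Sylow q G) => (Q : Subgroup G).map (QuotientGroup.mk' N) = (R q : Subgroup (G ⧸ N)))
    (fun q hq => by
      have := Fact.mk (hl q hq)
      exact lift1 N (R q))
  refine ⟨Q, cover N Q R l hQ hR ?_⟩
  intro n hn x hx
  obtain ⟨l1, l2, rfl⟩ := List.append_of_mem hp
  rw [pr_append, pr_cons] at hx ⊢
  obtain ⟨a, ha, _, ⟨q, hq, b, hb, rfl⟩, rfl⟩ := hx
  have hNQ : N ≤ (Q p : Subgroup G) := normal_pgroup_le N hN (Q p) (by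
    rw [normalizer_eq_top_iff.mpr inferInstance]; exact le_top)
  refine ⟨a, ha, (a⁻¹ * n * a * q) * b, ⟨a⁻¹ * n * a * q, ?_, b, hb, rfl⟩, by
    simp only [mul_assoc, mul_inv_cancel_left]⟩
  refine (Q p : Subgroup G).mul_mem (hNQ ?_) hq
  have := (inferInstance : N.Normal).conj_mem n hn a⁻¹
  simpa using this

/-- `x, y, z` occur in this order in the list -/
def Ord3 (x y z : ℕ) (l : List ℕ) : Prop :=
  ∃ l1 l2 l3 l4 : List ℕ, l = l1 ++ x :: (l2 ++ y :: (l3 ++ z :: l4))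

lemma Ord3.reverse {x y z : ℕ} {l : List ℕ} (h : Ord3 x y z l) : Ord3 z y x l.reverse := by
  obtain ⟨l1, l2, l3, l4, rfl⟩ := h
  exact ⟨l4.reverse, l3.reverse, l2.reverse, l1.reverse, by simp⟩

lemma ord2 {x y : ℕ} {l : List ℕ} (hx : x ∈ l) (hy : y ∈ l) (hxy : x ≠ y) :
    (∃ l1 l2 l3 : List ℕ, l = l1 ++ x :: (l2 ++ y :: l3)) ∨
    (∃ l1 l2 l3 : List ℕ, l = l1 ++ y :: (l2 ++ x :: l3)) := by
  obtain ⟨s, t, rfl⟩ := List.append_of_mem hx
  rw [List.mem_append, List.mem_cons] at hy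
  rcases hy with hy | hy | hy
  · obtain ⟨s1, s2, rfl⟩ := List.append_of_mem hy
    exact Or.inr ⟨s1, s2, t, by simp⟩
  · exact absurd hy.symm hxy
  · obtain ⟨t1, t2, rfl⟩ := List.append_of_mem hy
    exact Or.inl ⟨s, t1, t2, by simp⟩

lemma ord3 {x y z : ℕ} {l : List ℕ} (hx : x ∈ l) (hy : y ∈ l) (hz : z ∈ l) (hxy : x ≠ y)
    (hxz : x ≠ z) (hyz : y ≠ z) :
    Ord3 x y z l ∨ Ord3 x z y l ∨ Ord3 y x z l ∨ Ord3 y z x l ∨ Ord3 z x y l ∨ Ord3 z y x l := by
  rcases ord2 hx hy hxy with ⟨a, b, c, rfl⟩ | ⟨a, b, c, rfl⟩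
  · simp only [List.mem_append, List.mem_cons] at hz
    rcases hz with hz | hz | hz | hz | hz
    · obtain ⟨s, t, rfl⟩ := List.append_of_mem hz
      exact Or.inr (Or.inr (Or.inr (Or.inr (Or.inl ⟨s, t, b, c, by simp⟩))))
    · exact absurd hz.symm hxz
    · obtain ⟨s, t, rfl⟩ := List.append_of_mem hz
      exact Or.inr (Or.inl ⟨a, s, t, c, by simp⟩)
    · exact absurd hz.symm hyz
    · obtain ⟨s, t, rfl⟩ := List.append_of_mem hz
      exact Or.inl ⟨a, b, s, t, by simp⟩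
  · simp only [List.mem_append, List.mem_cons] at hz
    rcases hz with hz | hz | hz | hz | hz
    · obtain ⟨s, t, rfl⟩ := List.append_of_mem hz
      exact Or.inr (Or.inr (Or.inr (Or.inr (Or.inr ⟨s, t, b, c, by simp⟩))))
    · exact absurd hz.symm hyz
    · obtain ⟨s, t, rfl⟩ := List.append_of_mem hz
      exact Or.inr (Or.inr (Or.inr (Or.inl ⟨a, s, t, c, by simp⟩)))
    · exact absurd hz.symm hxz
    · obtain ⟨s, t, rfl⟩ := List.append_of_mem hz
      exact Or.inr (Or.inr (Or.inl ⟨a, b, s, t, by simp⟩))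

/-- the facts about `N = PSL(2,7)^k` which are used -/
structure Good (N : Type) [Group N] : Prop where
  primes : (Nat.card N).primeFactors = {2, 3, 7}
  norm7 : ∀ A : Sylow 7 N, ∃ k, (normalizer (A : Set N)).index = 2 ^ k
  odd7 : ∀ A : Sylow 7 N, Odd (Nat.card (normalizer (A : Set N)))
  hall : ∃ Y : Subgroup N, (∃ k, Y.index = 7 ^ k) ∧ ¬ 7 ∣ Nat.card Y

end H96S
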