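import Pool.Agent.Lib.H96S.B3

/-!
# Extension by `PSL(2,7)^k`: the orderings with 2 after 3 and 7
-/

namespace H96S

open scoped Pointwise
open Subgroup

variable {G : Type} [Group G] [Finite G]

/-- index of a supplement -/
lemma index_supplement (N M : Subgroup G) [N.Normal] (hM : M ⊔ N = ⊤) :
    M.index = (M.subgroupOf N).index := by
  have h := relIndex_normal_eq M N
  rw [hM, relIndex_top_right] at h
  exact h.symm

omit [Finite G] in
lemma card_subgroupOf_inf (A N : Subgroup G) :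
    Nat.card (A.subgroupOf N) = Nat.card (A ⊓ N : Subgroup G) := by
  rw [← Subgroup.card_map_of_injective N.subtype_injective (K := A.subgroupOf N),
      Subgroup.subgroupOf_map_subtype]

/-- the prime factorisation of the order of a group with `Good` -/
lemma Good.card_eq {N : Type} [Group N] [Finite N] (h : Good N) :
    Nat.card N = 2 ^ (Nat.card N).factorization 2 * 3 ^ (Nat.card N).factorization 3 *
      7 ^ (Nat.card N).factorization 7 := by
  conv_lhs => rw [← Nat.prod_factorization_pow_eq_self (n := Nat.card N) Nat.card_pos.ne']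
  rw [Finsupp.prod, Nat.support_factorization, h.primes]
  simp [mul_assoc]

/-- in a group with `Good`: the normaliser `X` of a Sylow 7-subgroup `A` is `T A`,
`T` any Sylow 3-subgroup of `N` contained in it -/
lemma Good.norm7_eq {N : Type} [Group N] [Finite N] (h : Good N) (A : Sylow 7 N) (T : Sylow 3 N)
    (hT : (T : Subgroup N) ≤ normalizer ((A : Subgroup N) : Set N)) (x : N)
    (hx : x ∈ normalizer ((A : Subgroup N) : Set N)) :
    ∃ t ∈ (T : Subgroup N), ∃ a ∈ (A : Subgroup N), x = t * a := by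
  have h3 : Fact (Nat.Prime 3) := ⟨by norm_num⟩
  have h7 : Fact (Nat.Prime 7) := ⟨by norm_num⟩
  set X := normalizer ((A : Subgroup N) : Set N) with hX
  have hAX : (A : Subgroup N) ≤ X := le_normalizer
  set Z := (T : Subgroup N) ⊔ (A : Subgroup N) with hZ
  have hZX : Z ≤ X := sup_le hT hAX
  have hodd : Odd (Nat.card X) := h.odd7 A
  have hXdvd : Nat.card X ∣ 3 ^ (Nat.card N).factorization 3 * 7 ^ (Nat.card N).factorization 7 := by
    have h1 : Nat.card X ∣ Nat.card N := Subgroup.card_subgroup_dvd_card X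
    rw [h.card_eq, mul_assoc] at h1
    refine Nat.Coprime.dvd_of_dvd_mul_left ?_ h1
    apply Nat.Coprime.pow_right
    exact (Nat.coprime_two_right.mpr hodd)
  have hZcard : 3 ^ (Nat.card N).factorization 3 * 7 ^ (Nat.card N).factorization 7 ∣ Nat.card Z := by
    apply Nat.Coprime.mul_dvd_of_dvd_of_dvd
    · apply Nat.Coprime.pow; norm_num
    · rw [← T.card_eq_multiplicity]; exact Subgroup.card_dvd_of_le le_sup_left
    · rw [← A.card_eq_multiplicity]; exact Subgroup.card_dvd_of_le le_sup_right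
  have hZeq : Z = X := by
    apply Subgroup.eq_of_le_of_card_ge hZX
    exact Nat.le_of_dvd Nat.card_pos (hXdvd.trans hZcard)
  have hx' : x ∈ ((Z : Subgroup N) : Set N) := by rw [hZeq]; exact hx
  rw [hZ, Subgroup.coe_mul_of_left_le_normalizer_right _ _ hT] at hx'
  obtain ⟨t, ht, a, ha, hta⟩ := hx'
  exact ⟨t, ht, a, ha, hta.symm⟩


/-- the data for orderings with 2 last -/
structure DataA (N : Subgroup G) [N.Normal] (Q : (p : ℕ) → Sylow p G) (l : List ℕ) : Prop where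
  ex : ∃ (M A : Subgroup G), A ≤ N ∧ M ≤ normalizer (A : Set G) ∧ A ≤ (Q 7 : Subgroup G) ∧
    (∀ p ∈ l, p ≠ 2 → (Q p : Subgroup G) ≤ M) ∧
    (∀ x ∈ N, x ∈ M → ∃ t ∈ (Q 3 : Subgroup G), t ∈ N ∧ t ∈ M ∧ ∃ a ∈ A, x = t * a) ∧
    (∀ n ∈ N, ∃ x ∈ M, x ∈ N ∧ ∃ y ∈ (Q 2 : Subgroup G), n = x * y)

lemma exists_dataA (N : Subgroup G) [N.Normal] (hN : Good N) (l : List ℕ) (hl : ∀ q ∈ l, q.Prime)
    (h2 : 2 ∈ l) (h3 : 3 ∈ l) (h7 : 7 ∈ l)
    (R : (p : ℕ) → Sylow p (G ⧸ N)) : ∃ Q : (p : ℕ) → Sylow p G, DataA N Q l ∧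
      ∀ p ∈ l, (Q p : Subgroup G).map (QuotientGroup.mk' N) = (R p : Subgroup (G ⧸ N)) := by
  have f2 : Fact (Nat.Prime 2) := ⟨by norm_num⟩
  have f3 : Fact (Nat.Prime 3) := ⟨by norm_num⟩
  have f7 : Fact (Nat.Prime 7) := ⟨by norm_num⟩
  let A7 : Sylow 7 N := Sylow.nonempty.some
  set A : Subgroup G := (A7 : Subgroup N).map N.subtype with hA
  set M : Subgroup G := normalizer (A : Set G) with hM
  have hAN : A ≤ N := Subgroup.map_subtype_le _
  have hsup : M ⊔ N = ⊤ := A7.normalizer_sup_eq_top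
  have hAsub : A.subgroupOf N = (A7 : Subgroup N) := by
    rw [hA]
    ext x
    rw [Subgroup.mem_subgroupOf, Subgroup.mem_map]
    constructor
    · rintro ⟨y, hy, hyx⟩
      have : y = x := Subtype.ext hyx
      rwa [← this]
    · intro hx
      exact ⟨x, hx, rfl⟩
  have hMsub : M.subgroupOf N = normalizer ((A7 : Subgroup N) : Set N) := by
    rw [hM, Subgroup.subgroupOf_normalizer_eq hAN, hAsub]
  obtain ⟨k, hk⟩ := hN.norm7 A7
  have hMidx : M.index = 2 ^ k := by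
    rw [index_supplement N M hsup, hMsub]; exact hk
  obtain ⟨Q, hQ⟩ := choose_sylow (G := G) l
    (fun q (Q : Sylow q G) => (Q : Subgroup G).map (QuotientGroup.mk' N) =
      (R q : Subgroup (G ⧸ N)) ∧ (q ≠ 2 → (Q : Subgroup G) ≤ M))
    (fun q hq => by
      have fq := Fact.mk (hl q hq)
      by_cases h : q = 2
      · obtain ⟨Q, hQ⟩ := lift1 N (R q)
        exact ⟨Q, hQ, fun h' => absurd h h'⟩
      · obtain ⟨Q, hQM, hQ⟩ := lift2 N M hsup (by
          rw [hMidx]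
          intro hd
          exact h ((Nat.prime_dvd_prime_iff_eq (hl q hq) f2.out).mp
            ((hl q hq).dvd_of_dvd_pow hd))) (R q)
        exact ⟨Q, hQ, fun _ => hQM⟩)
  have hA7p : IsPGroup 7 A := A7.2.map N.subtype
  refine ⟨Q, ⟨M, A, hAN, le_rfl, ?_, fun p hp h => (hQ p hp).2 h, ?_, ?_⟩, fun p hp => (hQ p hp).1⟩
  · exact normal_pgroup_le A hA7p (Q 7) ((hQ 7 h7).2 (by norm_num))
  · intro x hxN hxM
    have hT : ((sylInf (Q 3) N : Sylow 3 N) : Subgroup N) ≤ normalizer ((A7 : Subgroup N) : Set N) := by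
      rw [← hMsub, coe_sylInf]
      intro y hy
      rw [Subgroup.mem_subgroupOf] at hy ⊢
      exact (hQ 3 h3).2 (by norm_num) hy
    obtain ⟨t, ht, a, ha, hta⟩ := hN.norm7_eq A7 (sylInf (Q 3) N) hT ⟨x, hxN⟩
      (by rw [← hMsub, Subgroup.mem_subgroupOf]; exact hxM)
    have ht' : (t : G) ∈ (Q 3 : Subgroup G) := by
      rw [coe_sylInf, Subgroup.mem_subgroupOf] at ht; exact ht
    refine ⟨t, ht', t.2, (hQ 3 h3).2 (by norm_num) ht', a, ?_, ?_⟩
    · rw [hA]; exact Subgroup.mem_map_of_mem N.subtype ha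
    · have := congrArg (fun z : N => (z : G)) hta
      simpa using this
  · intro n hn
    obtain ⟨x, hx, y, hy, hxy⟩ := exists_mul_sylow (normalizer ((A7 : Subgroup N) : Set N)) k hk
      (sylInf (Q 2) N) ⟨n, hn⟩
    rw [← hMsub, Subgroup.mem_subgroupOf] at hx
    rw [coe_sylInf, Subgroup.mem_subgroupOf] at hy
    refine ⟨x, hx, x.2, y, hy, ?_⟩
    have := congrArg (fun z : N => (z : G)) hxy
    simpa using this

lemma stepA_core (N : Subgroup G) [hNn : N.Normal] (Q : (p : ℕ) → Sylow p G) (l : List ℕ)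
    (hn : l.Nodup) (hD : DataA N Q l) (h : Ord3 3 7 2 l ∨ Ord3 7 3 2 l) :
    ∀ n ∈ N, ∀ x ∈ pr Q l, n * x ∈ pr Q l := by
  obtain ⟨M, A, hAN, hMA, hA7, hQM, hX, hY⟩ := hD.ex
  have hconjN : ∀ g n : G, n ∈ N → g⁻¹ * n * g ∈ N := by
    intro g n hn
    have := hNn.conj_mem n hn g⁻¹
    simpa using this
  have hconjN' : ∀ g n : G, n ∈ N → g * n * g⁻¹ ∈ N := fun g n hn => hNn.conj_mem n hn g
  have hconjA : ∀ g ∈ M, ∀ a ∈ A, g⁻¹ * a * g ∈ A := by
    intro g hg a ha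
    have h1 := (Subgroup.mem_normalizer_iff.mp (hMA (M.inv_mem hg)) a).mp ha
    simpa using h1
  have hconjA' : ∀ g ∈ M, ∀ a ∈ A, g * a * g⁻¹ ∈ A := by
    intro g hg a ha
    exact (Subgroup.mem_normalizer_iff.mp (hMA hg) a).mp ha
  intro n hnN x hx
  rcases h with ⟨l1, l2, l3, l4, rfl⟩ | ⟨l1, l2, l3, l4, rfl⟩
  · have hnd := hn
    simp only [List.nodup_append, List.nodup_cons, List.mem_append, List.mem_cons] at hnd
    have hM1 : pr Q l1 ⊆ M := pr_subset Q M l1 (fun p hp => hQM p (by simp [hp]) (by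
      rintro rfl
      exact hnd.2.2 2 hp 2 (by simp) rfl))
    have hM2 : pr Q l2 ⊆ M := pr_subset Q M l2 (fun p hp => hQM p (by simp [hp]) (by
      rintro rfl
      exact hnd.2.1.2.2.2 2 hp 2 (by simp) rfl))
    have hM3 : pr Q l3 ⊆ M := pr_subset Q M l3 (fun p hp => hQM p (by simp [hp]) (by
      rintro rfl
      exact hnd.2.1.2.2.1.2.2.2 2 hp 2 (by simp) rfl))
    have hM33 : (Q 3 : Subgroup G) ≤ M := hQM 3 (by simp) (by norm_num)
    have hM77 : (Q 7 : Subgroup G) ≤ M := hQM 7 (by simp) (by norm_num)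
    rw [pr_append, pr_cons, pr_append, pr_cons, pr_append, pr_cons] at hx ⊢
    obtain ⟨a, ha, _, ⟨q3, hq3, _, ⟨b, hb, _, ⟨q7, hq7, _, ⟨c, hc, _, ⟨q2, hq2, d, hd, rfl⟩, rfl⟩,
      rfl⟩, rfl⟩, rfl⟩, rfl⟩ := hx
    have haM := hM1 ha
    have hbM := hM2 hb
    have hcM := hM3 hc
    have hq3M := hM33 hq3
    have hq7M := hM77 hq7
    set h := a * (q3 * (b * (q7 * c))) with hh
    have hhM : h ∈ M := M.mul_mem haM (M.mul_mem hq3M (M.mul_mem hbM (M.mul_mem hq7M hcM)))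
    obtain ⟨x, hxM, hxN, y, hy, hxy⟩ := hY (h⁻¹ * n * h) (hconjN h n hnN)
    set g := q3 * (b * (q7 * c)) with hg
    have hgM : g ∈ M := M.mul_mem hq3M (M.mul_mem hbM (M.mul_mem hq7M hcM))
    obtain ⟨t, ht, htN, htM, α, hα, hx1⟩ := hX (g * x * g⁻¹) (hconjN' g x hxN)
      (M.mul_mem (M.mul_mem hgM hxM) (M.inv_mem hgM))
    have hqb : q3 * b ∈ M := M.mul_mem hq3M hbM
    have hα' := hA7 (hconjA (q3 * b) hqb α hα)
    refine ⟨a, ha, (t * q3) * (b * (((q3 * b)⁻¹ * α * (q3 * b) * q7) * (c * ((y * q2) * d)))),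
      ⟨t * q3, (Q 3 : Subgroup G).mul_mem ht hq3, _, ⟨b, hb, _, ⟨_, (Q 7 : Subgroup G).mul_mem hα' hq7,
        _, ⟨c, hc, _, ⟨y * q2, (Q 2 : Subgroup G).mul_mem hy hq2, d, hd, rfl⟩, rfl⟩, rfl⟩, rfl⟩, rfl⟩, ?_⟩
    have e1 : n * h = h * (x * y) := by rw [← hxy]; group
    have e2 : g * x = t * α * g := by rw [← hx1]; group
    calc a * ((t * q3) * (b * (((q3 * b)⁻¹ * α * (q3 * b) * q7) * (c * ((y * q2) * d)))))
        = a * (t * α * g) * y * q2 * d := by rw [hg]; group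
      _ = a * (g * x) * y * q2 * d := by rw [e2]
      _ = h * (x * y) * q2 * d := by rw [hh, hg]; group
      _ = n * h * q2 * d := by rw [e1]
      _ = n * (a * (q3 * (b * (q7 * (c * (q2 * d)))))) := by rw [hh, hg]; group
  · have hnd := hn
    simp only [List.nodup_append, List.nodup_cons, List.mem_append, List.mem_cons] at hnd
    have hM1 : pr Q l1 ⊆ M := pr_subset Q M l1 (fun p hp => hQM p (by simp [hp]) (by
      rintro rfl
      exact hnd.2.2 2 hp 2 (by simp) rfl))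
    have hM2 : pr Q l2 ⊆ M := pr_subset Q M l2 (fun p hp => hQM p (by simp [hp]) (by
      rintro rfl
      exact hnd.2.1.2.2.2 2 hp 2 (by simp) rfl))
    have hM3 : pr Q l3 ⊆ M := pr_subset Q M l3 (fun p hp => hQM p (by simp [hp]) (by
      rintro rfl
      exact hnd.2.1.2.2.1.2.2.2 2 hp 2 (by simp) rfl))
    have hM33 : (Q 3 : Subgroup G) ≤ M := hQM 3 (by simp) (by norm_num)
    have hM77 : (Q 7 : Subgroup G) ≤ M := hQM 7 (by simp) (by norm_num)
    rw [pr_append, pr_cons, pr_append, pr_cons, pr_append, pr_cons] at hx ⊢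
    obtain ⟨a, ha, _, ⟨q7, hq7, _, ⟨b, hb, _, ⟨q3, hq3, _, ⟨c, hc, _, ⟨q2, hq2, d, hd, rfl⟩, rfl⟩,
      rfl⟩, rfl⟩, rfl⟩, rfl⟩ := hx
    have haM := hM1 ha
    have hbM := hM2 hb
    have hcM := hM3 hc
    have hq3M := hM33 hq3
    have hq7M := hM77 hq7
    set h := a * (q7 * (b * (q3 * c))) with hh
    have hhM : h ∈ M := M.mul_mem haM (M.mul_mem hq7M (M.mul_mem hbM (M.mul_mem hq3M hcM)))
    obtain ⟨x, hxM, hxN, y, hy, hxy⟩ := hY (h⁻¹ * n * h) (hconjN h n hnN)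
    set g := q3 * c with hg
    have hgM : g ∈ M := M.mul_mem hq3M hcM
    obtain ⟨t, ht, htN, htM, α, hα, hx1⟩ := hX (g * x * g⁻¹) (hconjN' g x hxN)
      (M.mul_mem (M.mul_mem hgM hxM) (M.inv_mem hgM))
    -- t * α = (t α t⁻¹) * t
    have hβ : t * α * t⁻¹ ∈ A := hconjA' t htM α hα
    have hβ' := hA7 (hconjA' b hbM _ hβ)
    refine ⟨a, ha, (q7 * (b * (t * α * t⁻¹) * b⁻¹)) * (b * ((t * q3) * (c * ((y * q2) * d)))),
      ⟨_, (Q 7 : Subgroup G).mul_mem hq7 hβ', _, ⟨b, hb, _, ⟨_, (Q 3 : Subgroup G).mul_mem ht hq3,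
        _, ⟨c, hc, _, ⟨y * q2, (Q 2 : Subgroup G).mul_mem hy hq2, d, hd, rfl⟩, rfl⟩, rfl⟩, rfl⟩, rfl⟩, ?_⟩
    have e1 : n * h = h * (x * y) := by rw [← hxy]; group
    have e2 : g * x = t * α * g := by rw [← hx1]; group
    calc a * ((q7 * (b * (t * α * t⁻¹) * b⁻¹)) * (b * ((t * q3) * (c * ((y * q2) * d)))))
        = a * q7 * b * (t * α * g) * y * q2 * d := by rw [hg]; group
      _ = a * q7 * b * (g * x) * y * q2 * d := by rw [e2]
      _ = h * (x * y) * q2 * d := by rw [hh, hg]; group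
      _ = n * h * q2 * d := by rw [e1]
      _ = n * (a * (q7 * (b * (q3 * (c * (q2 * d)))))) := by rw [hh, hg]; group

/-- orderings with 2 after 3 and 7 -/
lemma stepA (N : Subgroup G) [N.Normal] (hN : Good N) (l : List ℕ) (hl : ∀ q ∈ l, q.Prime)
    (hn : l.Nodup) (h : Ord3 3 7 2 l ∨ Ord3 7 3 2 l) (hF : Fac (G ⧸ N) l) : Fac G l := by
  have hmem : 2 ∈ l ∧ 3 ∈ l ∧ 7 ∈ l := by
    rcases h with ⟨l1, l2, l3, l4, rfl⟩ | ⟨l1, l2, l3, l4, rfl⟩ <;> simp
  obtain ⟨R, hR⟩ := hF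
  obtain ⟨Q, hD, hQ⟩ := exists_dataA N hN l hl hmem.1 hmem.2.1 hmem.2.2 R
  exact ⟨Q, cover N Q R l hQ hR (stepA_core N Q l hn hD h)⟩

end H96S
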