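import Pool.Agent.Lib.H96S.B4

/-!
# Extension by `PSL(2,7)^k`: the orderings with 2 between 3 and 7; all orderings
-/

namespace H96S

open scoped Pointwise
open Subgroup

variable {G : Type} [Group G] [Finite G]

/-- the Hall `{2,3}`-subgroup `Y` of `N` is the product of a Sylow 3- and a Sylow 2-subgroup of `N` -/
lemma Good.hall_eq {N : Type} [Group N] [Finite N] (h : Good N) :
    ∃ (Y : Subgroup N) (S3 : Sylow 3 N) (S2 : Sylow 2 N), (∃ k, Y.index = 7 ^ k) ∧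
      ∀ y ∈ Y, ∃ a ∈ (S3 : Subgroup N), ∃ b ∈ (S2 : Subgroup N), y = a * b := by
  have f2 : Fact (Nat.Prime 2) := ⟨by norm_num⟩
  have f3 : Fact (Nat.Prime 3) := ⟨by norm_num⟩
  obtain ⟨Y, ⟨k, hk⟩, h7⟩ := h.hall
  let T3 : Sylow 3 Y := Sylow.nonempty.some
  let T2 : Sylow 2 Y := Sylow.nonempty.some
  have hi : ∀ (p : ℕ) [Fact p.Prime] (_ : p ≠ 7) (T : Sylow p Y),
      ¬ p ∣ ((T : Subgroup Y).map Y.subtype).index := by
    intro p hp hp7 T
    rw [Subgroup.index_map_subtype, hk]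
    refine Nat.Prime.not_dvd_mul hp.out T.not_dvd_index ?_
    intro hd
    exact hp7 ((Nat.prime_dvd_prime_iff_eq hp.out (by norm_num)).mp (hp.out.dvd_of_dvd_pow hd))
  let S3 : Sylow 3 N := (T3.2.map Y.subtype).toSylow (hi 3 (by norm_num) T3)
  let S2 : Sylow 2 N := (T2.2.map Y.subtype).toSylow (hi 2 (by norm_num) T2)
  refine ⟨Y, S3, S2, ⟨k, hk⟩, ?_⟩
  -- cardinality of Y
  have hYdvd : Nat.card Y ∣ 3 ^ (Nat.card Y).factorization 3 * 2 ^ (Nat.card Y).factorization 2 := by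
    have h1 : (Nat.card Y).primeFactors ⊆ {2, 3} := by
      intro p hp
      have hp1 : p ∈ (Nat.card N).primeFactors := by
        rw [Nat.mem_primeFactors] at hp ⊢
        exact ⟨hp.1, hp.2.1.trans (Subgroup.card_subgroup_dvd_card Y), Nat.card_pos.ne'⟩
      rw [h.primes] at hp1
      simp only [Finset.mem_insert, Finset.mem_singleton] at hp1 ⊢
      rcases hp1 with rfl | rfl | rfl
      · left; rfl
      · right; rfl
      · exact absurd (Nat.dvd_of_mem_primeFactors hp) h7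
    conv_lhs => rw [← Nat.prod_factorization_pow_eq_self (n := Nat.card Y) Nat.card_pos.ne']
    rw [Finsupp.prod, Nat.support_factorization]
    calc ∏ a ∈ (Nat.card Y).primeFactors, a ^ (Nat.card Y).factorization a
        ∣ ∏ a ∈ ({2, 3} : Finset ℕ), a ^ (Nat.card Y).factorization a :=
          Finset.prod_dvd_prod_of_subset _ _ _ h1
      _ = _ := by simp [mul_comm]
  have hc3 := T3.card_eq_multiplicity
  have hc2 := T2.card_eq_multiplicity
  have hcop : Nat.Coprime (Nat.card (T3 : Subgroup Y)) (Nat.card (T2 : Subgroup Y)) := by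
    rw [hc3, hc2]; apply Nat.Coprime.pow; norm_num
  have hmul : Nat.card (T3 : Subgroup Y) * Nat.card (T2 : Subgroup Y) = Nat.card Y := by
    apply Nat.dvd_antisymm
    · exact hcop.mul_dvd_of_dvd_of_dvd (Subgroup.card_subgroup_dvd_card _)
        (Subgroup.card_subgroup_dvd_card _)
    · rw [hc3, hc2]; exact hYdvd
  have hcomp := Subgroup.isComplement'_of_coprime hmul hcop
  intro y hy
  obtain ⟨⟨a, b⟩, hab⟩ := hcomp.2 ⟨y, hy⟩
  refine ⟨(a : Y), ⟨a, a.2, rfl⟩, (b : Y), ⟨b, b.2, rfl⟩, ?_⟩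
  have := congrArg (fun z : Y => (z : N)) hab
  simpa using this.symm


/-- orderings 3 .. 2 .. 7 -/
lemma stepB (N : Subgroup G) [hNn : N.Normal] (hN : Good N) (l : List ℕ) (hl : ∀ q ∈ l, q.Prime)
    (hn : l.Nodup) (h : Ord3 3 2 7 l) (hF : Fac (G ⧸ N) l) : Fac G l := by
  have f2 : Fact (Nat.Prime 2) := ⟨by norm_num⟩
  have f3 : Fact (Nat.Prime 3) := ⟨by norm_num⟩
  have f7 : Fact (Nat.Prime 7) := ⟨by norm_num⟩
  obtain ⟨R, hR⟩ := hF
  obtain ⟨Y, S3, S2, ⟨k, hk⟩, hY⟩ := hN.hall_eq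
  set A : Subgroup G := (S3 : Subgroup N).map N.subtype with hA
  set M : Subgroup G := normalizer (A : Set G) with hM
  have hAN : A ≤ N := Subgroup.map_subtype_le _
  have hsup : M ⊔ N = ⊤ := S3.normalizer_sup_eq_top
  have hMidx : ∀ q : ℕ, q.Prime → q ≠ 2 → q ≠ 3 → q ≠ 7 → ¬ q ∣ M.index := by
    intro q hq h2 h3 h7 hd
    rw [index_supplement N M hsup] at hd
    have h1 : q ∈ (Nat.card N).primeFactors := by
      rw [Nat.mem_primeFactors]
      exact ⟨hq, hd.trans (Subgroup.index_dvd_card _), Nat.card_pos.ne'⟩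
    rw [hN.primes] at h1
    simp only [Finset.mem_insert, Finset.mem_singleton] at h1
    tauto
  obtain ⟨Q, hQ⟩ := choose_sylow (G := G) l
    (fun q (Q : Sylow q G) => (Q : Subgroup G).map (QuotientGroup.mk' N) =
      (R q : Subgroup (G ⧸ N)) ∧ (q ≠ 2 → q ≠ 3 → q ≠ 7 → (Q : Subgroup G) ≤ M) ∧
      (q = 3 → (Q : Subgroup G).subgroupOf N = (S3 : Subgroup N)) ∧
      (q = 2 → (Q : Subgroup G).subgroupOf N = (S2 : Subgroup N)))
    (fun q hq => by
      have fq := Fact.mk (hl q hq)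
      by_cases h3 : q = 3
      · subst h3
        obtain ⟨Q, hQ1, hQ2⟩ := lift3 N S3 (R 3)
        exact ⟨Q, hQ2, fun _ h' => absurd rfl h', fun _ => hQ1, fun h' => absurd h' (by norm_num)⟩
      by_cases h2 : q = 2
      · subst h2
        obtain ⟨Q, hQ1, hQ2⟩ := lift3 N S2 (R 2)
        exact ⟨Q, hQ2, fun h' => absurd rfl h', fun h' => absurd h' (by norm_num), fun _ => hQ1⟩
      by_cases h7 : q = 7
      · subst h7
        obtain ⟨Q, hQ⟩ := lift1 N (R 7)
        exact ⟨Q, hQ, fun _ _ h' => absurd rfl h', fun h' => absurd h' h3, fun h' => absurd h' h2⟩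
      · obtain ⟨Q, hQM, hQ⟩ := lift2 N M hsup (hMidx q (hl q hq) h2 h3 h7) (R q)
        exact ⟨Q, hQ, fun _ _ _ => hQM, fun h' => absurd h' h3, fun h' => absurd h' h2⟩)
  refine ⟨Q, cover N Q R l (fun p hp => (hQ p hp).1) hR ?_⟩
  intro n hnN x hx
  obtain ⟨l1, l2, l3, l4, rfl⟩ := h
  have hnd := hn
  simp only [List.nodup_append, List.nodup_cons, List.mem_append, List.mem_cons] at hnd
  have hM2 : pr Q l2 ⊆ M := pr_subset Q M l2 (fun p hp => (hQ p (by simp [hp])).2.1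
    (by
      rintro rfl
      exact hnd.2.1.2.2.2 2 hp 2 (by simp) rfl)
    (by
      rintro rfl
      exact hnd.2.1.1 (by simp [hp]))
    (by
      rintro rfl
      exact hnd.2.1.2.2.2 7 hp 7 (by simp) rfl))
  have h3sub := (hQ 3 (by simp)).2.2.1 rfl
  have h2sub := (hQ 2 (by simp)).2.2.2 rfl
  rw [pr_append, pr_cons, pr_append, pr_cons, pr_append, pr_cons] at hx ⊢
  obtain ⟨a, ha, _, ⟨q3, hq3, _, ⟨b, hb, _, ⟨q2, hq2, _, ⟨c, hc, _, ⟨q7, hq7, d, hd, rfl⟩, rfl⟩,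
    rfl⟩, rfl⟩, rfl⟩, rfl⟩ := hx
  have hbM := hM2 hb
  have hconjN : ∀ g n : G, n ∈ N → g⁻¹ * n * g ∈ N := by
    intro g n hn
    have := hNn.conj_mem n hn g⁻¹
    simpa using this
  -- n2 := (a q3 b)⁻¹ n (a q3 b)
  set g := a * (q3 * b) with hg
  obtain ⟨y, hy, s, hs, hys⟩ := exists_mul_sylow Y k hk (sylInf ((q2 * c) • Q 7) N)
    ⟨g⁻¹ * n * g, hconjN g n hnN⟩
  obtain ⟨a3, ha3, a2, ha2, hya⟩ := hY y hy
  rw [coe_sylInf, Subgroup.mem_subgroupOf, mem_smul_sylow] at hs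
  rw [← h3sub, Subgroup.mem_subgroupOf] at ha3
  rw [← h2sub, Subgroup.mem_subgroupOf] at ha2
  have e0 : g⁻¹ * n * g = a3 * a2 * s := by
    have := congrArg (fun z : N => (z : G)) hys
    simp only [Subgroup.coe_mul] at this
    rw [this, hya]
    simp
  have ha3A : (a3 : G) ∈ A := by
    rw [hA]
    refine ⟨a3, ?_, rfl⟩
    rw [← h3sub]
    exact ha3
  have hb3 : b * a3 * b⁻¹ ∈ A := (Subgroup.mem_normalizer_iff.mp hbM _).mp ha3A
  have hAQ : A ≤ (Q 3 : Subgroup G) := by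
    rw [hA, ← h3sub, Subgroup.subgroupOf_map_subtype]
    exact inf_le_left
  have hb3' := hAQ hb3
  refine ⟨a, ha, (q3 * (b * a3 * b⁻¹)) * (b * ((a2 * q2) * (c * (((q2 * c)⁻¹ * s * (q2 * c) * q7) * d)))),
    ⟨_, (Q 3 : Subgroup G).mul_mem hq3 hb3', _, ⟨b, hb, _, ⟨_, (Q 2 : Subgroup G).mul_mem ha2 hq2,
      _, ⟨c, hc, _, ⟨_, (Q 7 : Subgroup G).mul_mem hs hq7, d, hd, rfl⟩, rfl⟩, rfl⟩, rfl⟩, rfl⟩, ?_⟩
  have e1 : n * g = g * (a3 * a2 * s) := by rw [← e0]; group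
  calc a * ((q3 * (b * a3 * b⁻¹)) * (b * ((a2 * q2) * (c * (((q2 * c)⁻¹ * s * (q2 * c) * q7) * d)))))
      = g * (a3 * a2 * s) * q2 * c * q7 * d := by rw [hg]; group
    _ = n * g * q2 * c * q7 * d := by rw [e1]
    _ = n * (a * (q3 * (b * (q2 * (c * (q7 * d)))))) := by rw [hg]; group

/-- the extension step for a normal subgroup with `Good` -/
lemma step_good (N : Subgroup G) [hNn : N.Normal] (hN : Good N)
    (hF : ∀ l : List ℕ, (∀ q ∈ l, q.Prime) → l.Nodup →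
      (∀ p ∈ (Nat.card G).primeFactors, p ∈ l) → Fac (G ⧸ N) l)
    (l : List ℕ) (hl : ∀ q ∈ l, q.Prime)
    (hn : l.Nodup) (hG : ∀ p ∈ (Nat.card G).primeFactors, p ∈ l) : Fac G l := by
  have hmem : ∀ p ∈ ({2, 3, 7} : Finset ℕ), p ∈ l := by
    intro p hp
    apply hG
    rw [← hN.primes, Nat.mem_primeFactors] at hp
    rw [Nat.mem_primeFactors]
    exact ⟨hp.1, hp.2.1.trans (Subgroup.card_subgroup_dvd_card N), Nat.card_pos.ne'⟩
  have hF1 := hF l hl hn hG
  have hF2 := hF l.reverse (fun q hq => hl q (List.mem_reverse.mp hq)) (List.nodup_reverse.mpr hn)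
    (fun p hp => List.mem_reverse.mpr (hG p hp))
  have hlr : ∀ q ∈ l.reverse, q.Prime := fun q hq => hl q (List.mem_reverse.mp hq)
  rcases ord3 (x := 2) (y := 3) (z := 7) (l := l) (hmem 2 (by simp)) (hmem 3 (by simp))
    (hmem 7 (by simp)) (by norm_num) (by norm_num) (by norm_num) with h | h | h | h | h | h
  · exact Fac.of_reverse (stepA N hN l.reverse hlr (List.nodup_reverse.mpr hn)
      (Or.inr h.reverse) hF2)
  · exact Fac.of_reverse (stepA N hN l.reverse hlr (List.nodup_reverse.mpr hn)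
      (Or.inl h.reverse) hF2)
  · exact stepB N hN l hl hn h hF1
  · exact stepA N hN l hl hn (Or.inl h) hF1
  · exact Fac.of_reverse (stepB N hN l.reverse hlr (List.nodup_reverse.mpr hn) h.reverse hF2)
  · exact stepA N hN l hl hn (Or.inr h) hF1

end H96S
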