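import Pool.Agent.Lib.H96S.Defs

/-!
# Facts about `PSL(2,7)`: order, a subgroup of index 7, the normaliser of a Sylow 7-subgroup
-/

namespace H96S

open Subgroup Matrix

/-- SL(2,7) -/
abbrev SL27 : Type := Matrix.SpecialLinearGroup (Fin 2) (ZMod 7)

lemma card_SL27 : Nat.card SL27 = 336 := by
  rw [Nat.card_eq_fintype_card]
  decide +kernel

/-- the binary octahedral group in SL(2,7): the second row `(c, d)`, coded by `7 c + d`, is a
function of the first row `(a, b)`, coded by `7 a + b` (nearfield of order 49) -/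
def octT : List ℕ :=
  [49, 45, 25, 14, 35, 31, 11, 1, 33, 48, 37, 27, 13, 20, 46, 34, 12, 26, 15, 4, 40, 47, 32, 21, 38, 17, 5, 7, 9, 42, 2, 39, 18, 28, 24, 10, 16, 3, 41, 30, 44, 22, 6, 36, 43, 29, 19, 8, 23]

def oct (i : ℕ) : ℕ := octT.getD i 49

/-- membership for the four entries (natural numbers below 7) -/
def octM (a b c d : ℕ) : Prop := oct (7 * a + b) = 7 * c + d

instance (a b c d : ℕ) : Decidable (octM a b c d) := inferInstanceAs (Decidable (_ = _))

lemma oct_mul_aux : ∀ i < 49, ∀ j < 49, i ≠ 0 → j ≠ 0 →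
    octM (((i / 7) * (j / 7) + (i % 7) * (oct j / 7)) % 7)
      (((i / 7) * (j % 7) + (i % 7) * (oct j % 7)) % 7)
      (((oct i / 7) * (j / 7) + (oct i % 7) * (oct j / 7)) % 7)
      (((oct i / 7) * (j % 7) + (oct i % 7) * (oct j % 7)) % 7) := by
  decide +kernel

lemma oct_inv_aux : ∀ i < 49, i ≠ 0 →
    octM ((oct i % 7)) ((7 - i % 7) % 7) ((7 - oct i / 7) % 7) (i / 7) := by
  decide +kernel

lemma oct_det_aux : ∀ i < 49, i ≠ 0 →
    (i / 7) * (oct i % 7) % 7 = ((i % 7) * (oct i / 7) + 1) % 7 ∧ oct i < 49 := by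
  decide +kernel

lemma octM.ne_zero {a b c d : ℕ} (hc : c < 7) (hd : d < 7) (h : octM a b c d) :
    7 * a + b ≠ 0 := by
  intro h0
  rw [octM, h0] at h
  have : oct 0 = 49 := by decide
  omega

lemma octM_mul {a b c d e f g k : ℕ} (ha : a < 7) (hb : b < 7) (hc : c < 7) (hd : d < 7)
    (he : e < 7) (hf : f < 7) (hg : g < 7) (hk : k < 7) (h1 : octM a b c d)
    (h2 : octM e f g k) :
    octM ((a * e + b * g) % 7) ((a * f + b * k) % 7) ((c * e + d * g) % 7)
      ((c * f + d * k) % 7) := by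
  have := oct_mul_aux (7 * a + b) (by omega) (7 * e + f) (by omega) (h1.ne_zero hc hd)
    (h2.ne_zero hg hk)
  rw [octM] at h1 h2
  rw [h1, h2] at this
  have r1 : (7 * a + b) / 7 = a := by omega
  have r2 : (7 * a + b) % 7 = b := by omega
  have r3 : (7 * c + d) / 7 = c := by omega
  have r4 : (7 * c + d) % 7 = d := by omega
  have r5 : (7 * e + f) / 7 = e := by omega
  have r6 : (7 * e + f) % 7 = f := by omega
  have r7 : (7 * g + k) / 7 = g := by omega
  have r8 : (7 * g + k) % 7 = k := by omega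
  rw [r1, r2, r3, r4, r5, r6, r7, r8] at this
  exact this

lemma octM_inv {a b c d : ℕ} (ha : a < 7) (hb : b < 7) (hc : c < 7) (hd : d < 7)
    (h1 : octM a b c d) : octM d ((7 - b) % 7) ((7 - c) % 7) a := by
  have := oct_inv_aux (7 * a + b) (by omega) (h1.ne_zero hc hd)
  rw [octM] at h1
  rw [h1] at this
  have r1 : (7 * a + b) / 7 = a := by omega
  have r2 : (7 * a + b) % 7 = b := by omega
  have r3 : (7 * c + d) / 7 = c := by omega
  have r4 : (7 * c + d) % 7 = d := by omega
  rw [r1, r2, r3, r4] at this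
  exact this

end H96S
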