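import Pool.Agent.Lib.H96S.B6

/-!
# `PSL(2,7)`: a subgroup of index 7
-/

namespace H96S

open Subgroup Matrix

/-- the entries of a matrix in SL(2,7) as natural numbers -/
def octA (A : SL27) : Prop :=
  octM (ZMod.val (A.1 0 0)) (ZMod.val (A.1 0 1)) (ZMod.val (A.1 1 0)) (ZMod.val (A.1 1 1))

lemma val_lt7 (x : ZMod 7) : ZMod.val x < 7 := ZMod.val_lt x

lemma val_mul_add (x y z w : ZMod 7) :
    ZMod.val (x * y + z * w) = (ZMod.val x * ZMod.val y + ZMod.val z * ZMod.val w) % 7 := by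
  rw [ZMod.val_add, ZMod.val_mul, ZMod.val_mul]
  omega

lemma val_neg7 (x : ZMod 7) : ZMod.val (-x) = (7 - ZMod.val x) % 7 := by
  revert x; decide +kernel

lemma coe_mul_apply (A B : SL27) (i j : Fin 2) :
    (A * B).1 i j = A.1 i 0 * B.1 0 j + A.1 i 1 * B.1 1 j := by
  change ((A.1 * B.1 : Matrix _ _ _) i j) = _
  rw [Matrix.mul_apply, Fin.sum_univ_two]

lemma coe_inv_entries (A : SL27) : (A⁻¹).1 0 0 = A.1 1 1 ∧ (A⁻¹).1 0 1 = - A.1 0 1 ∧
    (A⁻¹).1 1 0 = - A.1 1 0 ∧ (A⁻¹).1 1 1 = A.1 0 0 := by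
  have h : (A⁻¹).1 = A.1.adjugate := rfl
  rw [h, Matrix.adjugate_fin_two]
  simp

/-- the binary octahedral subgroup of SL(2,7) -/
def octSL : Subgroup SL27 where
  carrier := {A | octA A}
  mul_mem' := by
    intro A B hA hB
    change octA (A * B)
    have h := octM_mul (val_lt7 _) (val_lt7 _) (val_lt7 _) (val_lt7 _) (val_lt7 _) (val_lt7 _)
      (val_lt7 _) (val_lt7 _) hA hB
    unfold octA
    rw [coe_mul_apply, coe_mul_apply, coe_mul_apply, coe_mul_apply, val_mul_add, val_mul_add,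
      val_mul_add, val_mul_add]
    exact h
  one_mem' := by
    change octM (ZMod.val ((1 : Matrix (Fin 2) (Fin 2) (ZMod 7)) 0 0))
      (ZMod.val ((1 : Matrix (Fin 2) (Fin 2) (ZMod 7)) 0 1))
      (ZMod.val ((1 : Matrix (Fin 2) (Fin 2) (ZMod 7)) 1 0))
      (ZMod.val ((1 : Matrix (Fin 2) (Fin 2) (ZMod 7)) 1 1))
    decide +kernel
  inv_mem' := by
    intro A hA
    change octA A⁻¹
    have h := octM_inv (val_lt7 _) (val_lt7 _) (val_lt7 _) (val_lt7 _) hA
    unfold octA
    obtain ⟨h1, h2, h3, h4⟩ := coe_inv_entries A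
    rw [h1, h2, h3, h4, val_neg7, val_neg7]
    exact h

lemma octA_iff (A : SL27) : A ∈ octSL ↔ octA A := Iff.rfl

/-- the matrix with first row coded by `i` -/
def octMat (i : ℕ) (hi : i < 49) (h0 : i ≠ 0) : SL27 :=
  ⟨!![((i / 7 : ℕ) : ZMod 7), ((i % 7 : ℕ) : ZMod 7);
      ((oct i / 7 : ℕ) : ZMod 7), ((oct i % 7 : ℕ) : ZMod 7)], by
    rw [Matrix.det_fin_two_of]
    have h := (oct_det_aux i hi h0).1
    have h2 : (((i / 7) * (oct i % 7) : ℕ) : ZMod 7) = (((i % 7) * (oct i / 7) + 1 : ℕ) : ZMod 7) :=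
      (ZMod.natCast_eq_natCast_iff' _ _ 7).mpr h
    push_cast at h2
    rw [h2]
    ring⟩

lemma octMat_eq (A : SL27) (hA : octA A)
    (hi : 7 * ZMod.val (A.1 0 0) + ZMod.val (A.1 0 1) < 49)
    (h0 : 7 * ZMod.val (A.1 0 0) + ZMod.val (A.1 0 1) ≠ 0) :
    octMat (7 * ZMod.val (A.1 0 0) + ZMod.val (A.1 0 1)) hi h0 = A := by
  have hA' : oct (7 * ZMod.val (A.1 0 0) + ZMod.val (A.1 0 1)) =
    7 * ZMod.val (A.1 1 0) + ZMod.val (A.1 1 1) := hA
  have v1 := val_lt7 (A.1 0 0)
  have v2 := val_lt7 (A.1 0 1)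
  have v3 := val_lt7 (A.1 1 0)
  have v4 := val_lt7 (A.1 1 1)
  have key : ∀ (x y : ℕ), x < 7 → y < 7 → (7 * x + y) / 7 = x ∧ (7 * x + y) % 7 = y := by
    intro x y hx hy; constructor <;> omega
  have k1 := key _ _ v1 v2
  have k2 := key _ _ v3 v4
  have hval : ∀ x : ZMod 7, ((ZMod.val x : ℕ) : ZMod 7) = x := fun x => ZMod.natCast_zmod_val x
  apply Subtype.ext
  ext i j
  fin_cases i <;> fin_cases j
  · change (((7 * ZMod.val (A.1 0 0) + ZMod.val (A.1 0 1)) / 7 : ℕ) : ZMod 7) = A.1 0 0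
    rw [k1.1, hval]
  · change (((7 * ZMod.val (A.1 0 0) + ZMod.val (A.1 0 1)) % 7 : ℕ) : ZMod 7) = A.1 0 1
    rw [k1.2, hval]
  · change ((oct (7 * ZMod.val (A.1 0 0) + ZMod.val (A.1 0 1)) / 7 : ℕ) : ZMod 7) = A.1 1 0
    rw [hA', k2.1, hval]
  · change ((oct (7 * ZMod.val (A.1 0 0) + ZMod.val (A.1 0 1)) % 7 : ℕ) : ZMod 7) = A.1 1 1
    rw [hA', k2.2, hval]

lemma card_octSL : Nat.card octSL = 48 := by
  let e : octSL ≃ {i : Fin 49 // i ≠ 0} :=
    { toFun := fun A => ⟨⟨7 * ZMod.val (A.1.1 0 0) + ZMod.val (A.1.1 0 1), by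
        have := val_lt7 (A.1.1 0 0); have := val_lt7 (A.1.1 0 1); omega⟩, by
        intro h
        have := octM.ne_zero (val_lt7 _) (val_lt7 _) A.2
        exact this (by simpa using congrArg Fin.val h)⟩
      invFun := fun i => ⟨octMat i.1.1 i.1.2 (by
          intro h; exact i.2 (Fin.ext h)), by
        rw [octA_iff]
        have h0 : i.1.1 ≠ 0 := by intro h; exact i.2 (Fin.ext h)
        have h49 := (oct_det_aux i.1.1 i.1.2 h0).2
        have hi := i.1.2
        unfold octA octMat octM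
        simp only [Matrix.of_apply, Matrix.cons_val', Matrix.cons_val_zero, Matrix.cons_val_one,
          Matrix.cons_val_fin_one]
        rw [ZMod.val_natCast, ZMod.val_natCast, ZMod.val_natCast, ZMod.val_natCast]
        have e1 : 7 * (i.1.1 / 7 % 7) + i.1.1 % 7 % 7 = i.1.1 := by omega
        rw [e1]
        omega⟩
      left_inv := by
        intro A
        apply Subtype.ext
        exact octMat_eq A.1 A.2 (by
          have := val_lt7 (A.1.1 0 0); have := val_lt7 (A.1.1 0 1); omega)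
          (octM.ne_zero (val_lt7 _) (val_lt7 _) A.2)
      right_inv := by
        intro i
        apply Subtype.ext
        apply Fin.ext
        have hi := i.1.2
        change 7 * ZMod.val ((i.1.1 / 7 : ℕ) : ZMod 7) + ZMod.val ((i.1.1 % 7 : ℕ) : ZMod 7) = i.1.1
        rw [ZMod.val_natCast, ZMod.val_natCast]
        omega }
  rw [Nat.card_congr e, Nat.card_eq_fintype_card]
  decide +kernel

lemma center_le_octSL : Subgroup.center SL27 ≤ octSL := by
  intro A hA
  rw [Matrix.SpecialLinearGroup.mem_center_iff] at hA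
  obtain ⟨r, hr, hA⟩ := hA
  have h1 : ∀ r : ZMod 7, r ^ 2 = 1 → octM (ZMod.val r) (ZMod.val (0 : ZMod 7))
      (ZMod.val (0 : ZMod 7)) (ZMod.val r) := by
    decide +kernel
  have h2 := h1 r (by simpa using hr)
  rw [octA_iff]
  unfold octA
  rw [← hA]
  exact h2

/-- the matrix -1 -/
def negI : SL27 := ⟨!![-1, 0; 0, -1], by decide +kernel⟩

lemma card_center_SL27 : Nat.card (Subgroup.center SL27) = 2 := by
  have h : ((Subgroup.center SL27 : Subgroup SL27) : Set SL27) = {1, negI} := by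
    ext A
    rw [SetLike.mem_coe, Matrix.SpecialLinearGroup.mem_center_iff]
    constructor
    · rintro ⟨r, hr, hA⟩
      have h1 : ∀ r : ZMod 7, r ^ 2 = 1 → r = 1 ∨ r = -1 := by decide +kernel
      rcases h1 r (by simpa using hr) with rfl | rfl
      · left
        apply Subtype.ext
        rw [← hA]
        ext i j
        fin_cases i <;> fin_cases j <;> rfl
      · right
        apply Subtype.ext
        rw [← hA]
        ext i j
        fin_cases i <;> fin_cases j <;> rfl
    · rintro (rfl | rfl)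
      · exact ⟨1, by simp, by ext i j; fin_cases i <;> fin_cases j <;> rfl⟩
      · exact ⟨-1, by simp, by ext i j; fin_cases i <;> fin_cases j <;> rfl⟩
  have hne : (1 : SL27) ≠ negI := by
    intro h
    have := congrArg (fun A : SL27 => A.1 0 0) h
    revert this
    change ((1 : Matrix (Fin 2) (Fin 2) (ZMod 7)) 0 0 = -1) → False
    decide +kernel
  change Nat.card ((Subgroup.center SL27 : Subgroup SL27) : Set SL27) = 2
  rw [h, Nat.card_coe_set_eq, Set.ncard_pair hne]

lemma card_PSL27 : Nat.card PSL27 = 168 := by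
  have h := Subgroup.card_mul_index (Subgroup.center SL27)
  rw [card_center_SL27, card_SL27, Subgroup.index_eq_card] at h
  have : Nat.card PSL27 = Nat.card (SL27 ⧸ Subgroup.center SL27) := rfl
  omega

instance : Finite PSL27 := by
  apply Nat.finite_of_card_ne_zero
  rw [card_PSL27]; norm_num

/-- PSL(2,7) has a subgroup of index 7 -/
lemma exists_index7 : ∃ Y : Subgroup PSL27, Y.index = 7 := by
  refine ⟨octSL.map (QuotientGroup.mk' (Subgroup.center SL27)), ?_⟩
  rw [Subgroup.index_map, QuotientGroup.ker_mk', QuotientGroup.range_mk', Subgroup.index_top,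
    mul_one, sup_eq_left.mpr center_le_octSL]
  have h := Subgroup.card_mul_index octSL
  rw [card_octSL, card_SL27] at h
  omega


/-- two elements of order 7 in PSL(2,7) which do not commute -/
def uniU : SL27 := ⟨!![1, 1; 0, 1], by decide +kernel⟩

def uniL : SL27 := ⟨!![1, 0; 1, 1], by decide +kernel⟩

lemma uniU_pow : uniU ^ 7 = 1 := by decide +kernel

lemma uniL_pow : uniL ^ 7 = 1 := by decide +kernel

lemma not_comm : (QuotientGroup.mk' (Subgroup.center SL27)) uniU *
    (QuotientGroup.mk' (Subgroup.center SL27)) uniL ≠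
    (QuotientGroup.mk' (Subgroup.center SL27)) uniL *
    (QuotientGroup.mk' (Subgroup.center SL27)) uniU := by
  intro h
  rw [← map_mul, ← map_mul] at h
  have h1 : (uniU * uniL)⁻¹ * (uniL * uniU) ∈ Subgroup.center SL27 := by
    rw [← QuotientGroup.eq]
    exact h
  have h2 : (uniU * uniL)⁻¹ * (uniL * uniU) ∈ ((Subgroup.center SL27 : Subgroup SL27) : Set SL27) := h1
  rw [Matrix.SpecialLinearGroup.mem_center_iff] at h1
  obtain ⟨r, hr, hA⟩ := h1
  have h3 : ((uniU * uniL)⁻¹ * (uniL * uniU)).1 0 1 = 0 := by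
    rw [← hA]; rfl
  revert h3
  decide +kernel

/-- the number of Sylow 7-subgroups of PSL(2,7) -/
lemma card_sylow7 : Nat.card (Sylow 7 PSL27) = 8 := by
  have f7 : Fact (Nat.Prime 7) := ⟨by norm_num⟩
  have h1 : Nat.card (Sylow 7 PSL27) ≡ 1 [MOD 7] := card_sylow_modEq_one 7 PSL27
  let P : Sylow 7 PSL27 := Sylow.nonempty.some
  have hP : Nat.card (P : Subgroup PSL27) = 7 := by
    rw [P.card_eq_multiplicity, card_PSL27]
    have : (168 : ℕ) = 7 ^ 1 * 24 := by norm_num
    rw [this, Nat.factorization_mul (by norm_num) (by norm_num), Nat.Prime.factorization_pow f7.out]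
    have h24 : (24 : ℕ).factorization 7 = 0 := Nat.factorization_eq_zero_of_not_dvd (by norm_num)
    simp [h24]
  have h2 : Nat.card (Sylow 7 PSL27) ∣ 24 := by
    have h3 := P.card_dvd_index
    have h4 := Subgroup.card_mul_index (P : Subgroup PSL27)
    rw [hP, card_PSL27] at h4
    have : (P : Subgroup PSL27).index = 24 := by omega
    rwa [this] at h3
  have h5 : Nat.card (Sylow 7 PSL27) ≠ 1 := by
    intro h
    have huniq : ∀ Q R : Sylow 7 PSL27, Q = R := by
      have := (Nat.card_eq_one_iff_unique.mp h).1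
      exact fun Q R => Subsingleton.elim Q R
    have hmem : ∀ x : PSL27, x ^ 7 = 1 → x ∈ (P : Subgroup PSL27) := by
      intro x hx
      have hp : IsPGroup 7 (Subgroup.zpowers x) := by
        rw [IsPGroup.iff_card]
        rw [Nat.card_zpowers]
        have : orderOf x ∣ 7 ^ 1 := by rw [pow_one]; exact orderOf_dvd_of_pow_eq_one hx
        obtain ⟨k, _, hk⟩ := (Nat.dvd_prime_pow f7.out).mp this
        exact ⟨k, hk⟩
      obtain ⟨Q, hQ⟩ := hp.exists_le_sylow
      rw [huniq P Q]
      exact hQ (Subgroup.mem_zpowers x)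
    have hu := hmem ((QuotientGroup.mk' (Subgroup.center SL27)) uniU)
      (by rw [← map_pow, uniU_pow, map_one])
    have hl := hmem ((QuotientGroup.mk' (Subgroup.center SL27)) uniL)
      (by rw [← map_pow, uniL_pow, map_one])
    have hcyc : IsCyclic (P : Subgroup PSL27) := isCyclic_of_prime_card (p := 7) hP
    have hcomm := (IsCyclic.isMulCommutative (α := (P : Subgroup PSL27))).is_comm.comm ⟨_, hu⟩ ⟨_, hl⟩
    exact not_comm (congrArg Subtype.val hcomm)
  have h6 : Nat.card (Sylow 7 PSL27) ≤ 24 := Nat.le_of_dvd (by norm_num) h2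
  generalize Nat.card (Sylow 7 PSL27) = n at *
  rw [Nat.ModEq] at h1
  interval_cases n <;> omega

end H96S
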