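import Pool.Agent.Lib.H96S.B3
import Pool.Agent.Lib.H96S.B7

/-!
# `Good (PSL(2,7)^r)`
-/

namespace H96S

open Subgroup

section

variable {S : Type} [Group S] {r : ℕ}

lemma mem_pi_univ (H : Subgroup S) (x : Fin r → S) :
    x ∈ Subgroup.pi Set.univ (fun _ : Fin r => H) ↔ ∀ i, x i ∈ H := by
  rw [Subgroup.mem_pi]
  simp

lemma normalizer_pi_univ (P : Subgroup S) :
    normalizer ((Subgroup.pi Set.univ (fun _ : Fin r => P) : Subgroup (Fin r → S)) : Set (Fin r → S)) =
      Subgroup.pi Set.univ (fun _ : Fin r => normalizer (P : Set S)) := by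
  ext x
  rw [mem_pi_univ, Subgroup.mem_normalizer_iff]
  constructor
  · intro h i
    rw [Subgroup.mem_normalizer_iff]
    intro y
    have h1 := h (Pi.mulSingle i y)
    rw [mem_pi_univ, mem_pi_univ] at h1
    constructor
    · intro hy
      have h2 := h1.mp (by
        intro j
        by_cases hj : j = i
        · subst hj; simpa using hy
        · simp [Pi.mulSingle_eq_of_ne hj, P.one_mem]) i
      simpa using h2
    · intro hy
      have h2 := h1.mpr (by
        intro j
        by_cases hj : j = i
        · subst hj; simpa using hy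
        · simp [Pi.mulSingle_eq_of_ne hj, P.one_mem]) i
      simpa using h2
  · intro h y
    rw [mem_pi_univ, mem_pi_univ]
    constructor
    · intro hy i
      exact (Subgroup.mem_normalizer_iff.mp (h i) (y i)).mp (hy i)
    · intro hy i
      exact (Subgroup.mem_normalizer_iff.mp (h i) (y i)).mpr (hy i)

end

lemma card_pi_PSL27 (r : ℕ) : Nat.card (Fin r → PSL27) = 168 ^ r := by
  rw [Nat.card_pi]
  simp only [card_PSL27, Finset.prod_const, Finset.card_univ, Fintype.card_fin]

lemma card_sylow7_pi (r : ℕ) : Nat.card (Sylow 7 (Fin r → PSL27)) = 8 ^ r := by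
  have f7 : Fact (Nat.Prime 7) := ⟨by norm_num⟩
  let P : Sylow 7 PSL27 := Sylow.nonempty.some
  have hi : (normalizer ((P : Subgroup PSL27) : Set PSL27)).index = 8 := by
    rw [← card_sylow7]; exact (Sylow.card_eq_index_normalizer P).symm
  have hPi : (P : Subgroup PSL27).index ≠ 0 := Subgroup.index_ne_zero_of_finite
  have hp : IsPGroup 7 (Subgroup.pi Set.univ (fun _ : Fin r => (P : Subgroup PSL27))) := by
    rw [IsPGroup.iff_card]
    obtain ⟨n, hn⟩ := IsPGroup.iff_card.mp P.2
    refine ⟨n * r, ?_⟩
    have h1 := Subgroup.card_mul_index (Subgroup.pi Set.univ (fun _ : Fin r => (P : Subgroup PSL27)))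
    rw [Subgroup.index_pi, card_pi_PSL27] at h1
    simp only [Finset.prod_const, Finset.card_univ, Fintype.card_fin] at h1
    have h2 := Subgroup.card_mul_index (P : Subgroup PSL27)
    rw [hn, card_PSL27] at h2
    rw [← h2, mul_pow, ← pow_mul] at h1
    exact Nat.eq_of_mul_eq_mul_right (pow_pos (Nat.pos_of_ne_zero hPi) r) h1
  have hidx : ¬ 7 ∣ (Subgroup.pi Set.univ (fun _ : Fin r => (P : Subgroup PSL27))).index := by
    rw [Subgroup.index_pi]
    simp only [Finset.prod_const, Finset.card_univ, Fintype.card_fin]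
    intro hd
    exact P.not_dvd_index (f7.out.dvd_of_dvd_pow hd)
  have h3 := Sylow.card_eq_index_normalizer (hp.toSylow hidx)
  rw [h3]
  change (normalizer ((Subgroup.pi Set.univ (fun _ : Fin r => (P : Subgroup PSL27)) :
    Subgroup (Fin r → PSL27)) : Set (Fin r → PSL27))).index = 8 ^ r
  rw [normalizer_pi_univ, Subgroup.index_pi]
  simp only [Finset.prod_const, Finset.card_univ, Fintype.card_fin]
  exact congrArg (fun z : ℕ => z ^ r) hi

lemma good_pi (r : ℕ) (hr : r ≠ 0) : Good (Fin r → PSL27) := by
  have f7 : Fact (Nat.Prime 7) := ⟨by norm_num⟩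
  have hidx : ∀ A : Sylow 7 (Fin r → PSL27),
      (normalizer ((A : Subgroup (Fin r → PSL27)) : Set (Fin r → PSL27))).index = 8 ^ r := by
    intro A
    rw [← card_sylow7_pi]
    exact (Sylow.card_eq_index_normalizer A).symm
  refine ⟨?_, ?_, ?_, ?_⟩
  · rw [card_pi_PSL27, Nat.primeFactors_pow _ hr]
    decide +kernel
  · intro A
    refine ⟨3 * r, ?_⟩
    rw [pow_mul]
    exact hidx A
  · intro A
    have h1 := Subgroup.card_mul_index
      (normalizer ((A : Subgroup (Fin r → PSL27)) : Set (Fin r → PSL27)))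
    rw [hidx A, card_pi_PSL27] at h1
    have h2 : (168 : ℕ) ^ r = 21 ^ r * 8 ^ r := by rw [← mul_pow]; norm_num
    rw [h2] at h1
    have h3 := Nat.eq_of_mul_eq_mul_right (pow_pos (by norm_num) r) h1
    have h4 : Nat.card (normalizer ((A : Subgroup (Fin r → PSL27)) : Set (Fin r → PSL27))) = 21 ^ r := h3
    change Odd (Nat.card (normalizer ((A : Subgroup (Fin r → PSL27)) : Set (Fin r → PSL27))))
    rw [h4]
    exact Odd.pow (by decide)
  · obtain ⟨Y, hY⟩ := exists_index7
    refine ⟨Subgroup.pi Set.univ (fun _ : Fin r => Y), ⟨r, ?_⟩, ?_⟩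
    · rw [Subgroup.index_pi]; simp [hY]
    · have h1 := Subgroup.card_mul_index (Subgroup.pi Set.univ (fun _ : Fin r => Y))
      rw [Subgroup.index_pi, card_pi_PSL27] at h1
      simp only [hY, Finset.prod_const, Finset.card_univ, Fintype.card_fin] at h1
      have h2 : (168 : ℕ) ^ r = 24 ^ r * 7 ^ r := by rw [← mul_pow]; norm_num
      rw [h2] at h1
      have h3 := Nat.eq_of_mul_eq_mul_right (pow_pos (by norm_num) r) h1
      rw [h3]
      intro hd
      have := f7.out.dvd_of_dvd_pow hd
      omega

/-- `Good` is invariant under isomorphism -/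
lemma Good.of_equiv {N N' : Type} [Group N] [Group N'] [Finite N] (e : N ≃* N') (h : Good N') :
    Good N := by
  have f7 : Fact (Nat.Prime 7) := ⟨by norm_num⟩
  have hcard : Nat.card N = Nat.card N' := Nat.card_congr e.toEquiv
  have key : ∀ A : Sylow 7 N, ∃ A' : Sylow 7 N',
      (normalizer ((A : Subgroup N) : Set N)).map e.toMonoidHom =
        normalizer ((A' : Subgroup N') : Set N') := by
    intro A
    refine ⟨A.mapSurjective (f := e.toMonoidHom) e.surjective, ?_⟩
    rw [Sylow.coe_mapSurjective]
    exact Subgroup.map_equiv_normalizer_eq _ e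
  refine ⟨by rw [hcard]; exact h.primes, ?_, ?_, ?_⟩
  · intro A
    obtain ⟨A', hA⟩ := key A
    obtain ⟨k, hk⟩ := h.norm7 A'
    refine ⟨k, ?_⟩
    rw [← hk]
    change (normalizer ((A : Subgroup N) : Set N)).index =
      (normalizer ((A' : Subgroup N') : Set N')).index
    rw [← hA]
    exact (Subgroup.index_map_of_bijective (f := e.toMonoidHom) e.bijective _).symm
  · intro A
    obtain ⟨A', hA⟩ := key A
    have := h.odd7 A'
    change Odd (Nat.card (normalizer ((A' : Subgroup N') : Set N'))) at this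
    rw [← hA, Subgroup.card_map_of_injective (f := e.toMonoidHom) e.injective] at this
    exact this
  · obtain ⟨Y, ⟨k, hk⟩, h7⟩ := h.hall
    refine ⟨Y.comap e.toMonoidHom, ⟨k, ?_⟩, ?_⟩
    · rw [← hk]
      exact Subgroup.index_comap_of_surjective Y (f := e.toMonoidHom) e.surjective
    · intro hd
      apply h7
      exact hd.trans (Subgroup.card_comap_dvd_of_injective Y e.toMonoidHom e.injective)

end H96S
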