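import Pool.Agent.Lib.H96S.B5
import Pool.Agent.Lib.H96S.B8

/-!
# Composition factors; transport; part (A): normal subgroups and quotients
-/

namespace H96S

open scoped Pointwise
open Subgroup

/-! ### composition factors -/

lemma IsCompFactor.of_subnormal {G : Type} [Group G] {K : Subgroup G} (hK : K.IsSubnormal)
    {S : Type} [Group S] (h : IsCompFactor K S) : IsCompFactor G S := by
  obtain ⟨hS, H, hH, f, hf⟩ := h
  refine ⟨hS, H.map K.subtype, hH.trans' hK,
    f.comp (H.equivMapOfInjective K.subtype K.subtype_injective).symm.toMonoidHom, ?_⟩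
  exact hf.comp (MulEquiv.surjective _)

lemma IsCompFactor.of_surjective {G G' : Type} [Group G] [Group G'] (φ : G →* G')
    (hφ : Function.Surjective φ) {S : Type} [Group S] (h : IsCompFactor G' S) :
    IsCompFactor G S := by
  obtain ⟨hS, H, hH, f, hf⟩ := h
  refine ⟨hS, H.comap φ, hH.comap φ, f.comp (φ.subgroupComap H), ?_⟩
  refine hf.comp ?_
  rintro ⟨y, hy⟩
  obtain ⟨x, rfl⟩ := hφ y
  exact ⟨⟨x, hy⟩, rfl⟩

/-! ### transport -/

lemma Fac.map {G H : Type} [Group G] [Group H] [Finite G] (f : G →* H)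
    (hf : Function.Surjective f) {l : List ℕ} (hl : ∀ p ∈ l, p.Prime) (h : Fac G l) : Fac H l := by
  obtain ⟨Q, hQ⟩ := h
  obtain ⟨R, hR⟩ := choose_sylow (G := H) l
    (fun p (R : Sylow p H) => (Q p : Subgroup G).map f = (R : Subgroup H)) (fun p hp => by
      have := Fact.mk (hl p hp)
      exact ⟨(Q p).mapSurjective hf, rfl⟩)
  refine ⟨R, ?_⟩
  rw [← exists_pr_map f Q R l hR, hQ]
  exact Set.image_univ_of_surjective hf

lemma star_of_fac {G : Type} [Group G]
    (h : ∀ l : List ℕ, (∀ q ∈ l, q.Prime) → l.Nodup →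
      (∀ p ∈ (Nat.card G).primeFactors, p ∈ l) → Fac G l) : Star G := by
  intro l hn hl
  exact h l (fun q hq => Nat.prime_of_mem_primeFactors ((hl q).mp hq)) hn (fun p hp => (hl p).mpr hp)

/-- extension of an ordering -/
lemma exists_extend (l : List ℕ) (s : Finset ℕ) (hn : l.Nodup) :
    ∃ l' : List ℕ, (l ++ l').Nodup ∧ (∀ p ∈ s, p ∈ l ++ l') ∧ (∀ p ∈ l', p ∈ s ∧ p ∉ l) := by
  refine ⟨(s.filter (fun p => p ∉ l)).toList, ?_, ?_, ?_⟩
  · rw [List.nodup_append]
    refine ⟨hn, Finset.nodup_toList _, ?_⟩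
    intro a ha b hb hab
    rw [Finset.mem_toList, Finset.mem_filter] at hb
    exact hb.2 (hab ▸ ha)
  · intro p hp
    rw [List.mem_append, Finset.mem_toList, Finset.mem_filter]
    by_cases h : p ∈ l
    · exact Or.inl h
    · exact Or.inr ⟨hp, h⟩
  · intro p hp
    rw [Finset.mem_toList, Finset.mem_filter] at hp
    exact hp

/-- dropping the primes which do not divide the order -/
lemma Fac.filter {G : Type} [Group G] [Finite G] {l l' : List ℕ}
    (hl : ∀ p, p ∈ l ↔ p ∈ (Nat.card G).primeFactors)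
    (hl' : ∀ p ∈ l', p.Prime ∧ p ∉ l) (h : Fac G (l ++ l')) : Fac G l := by
  obtain ⟨Q, hQ⟩ := h
  refine ⟨Q, ?_⟩
  rw [← hQ, ← pr_filter Q (l ++ l') (by
    intro p hp
    rcases List.mem_append.mp hp with h | h
    · exact Nat.prime_of_mem_primeFactors ((hl p).mp h)
    · exact (hl' p h).1)]
  congr 1
  rw [List.filter_append]
  have h1 : l.filter (fun p => decide (p ∈ (Nat.card G).primeFactors)) = l := by
    rw [List.filter_eq_self]
    intro p hp
    simpa using (hl p).mp hp
  have h2 : l'.filter (fun p => decide (p ∈ (Nat.card G).primeFactors)) = [] := by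
    rw [List.filter_eq_nil_iff]
    intro p hp h
    exact (hl' p hp).2 ((hl p).mpr (by simpa using h))
  rw [h1, h2, List.append_nil]

theorem Star.map {G H : Type} [Group G] [Group H] [Finite G] (f : G →* H)
    (hf : Function.Surjective f) (h : Star G) : Star H := by
  have : Finite H := Finite.of_surjective f hf
  intro l hn hl
  obtain ⟨l', h1, h2, h3⟩ := exists_extend l (Nat.card G).primeFactors hn
  have hp : ∀ p ∈ l ++ l', p.Prime := by
    intro p hp
    rcases List.mem_append.mp hp with h | h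
    · exact Nat.prime_of_mem_primeFactors ((hl p).mp h)
    · exact Nat.prime_of_mem_primeFactors (h3 p h).1
  have hF := (Fac.map f hf hp (h.fac (l ++ l') h1 hp h2))
  exact Fac.filter hl (fun p hp' => ⟨hp p (List.mem_append_right _ hp'), (h3 p hp').2⟩) hF

theorem star_quotient {G : Type} [Group G] [Finite G] (N : Subgroup G) [N.Normal] (h : Star G) :
    Star (G ⧸ N) := h.map (QuotientGroup.mk' N) (QuotientGroup.mk'_surjective N)

theorem Star.of_equiv {G H : Type} [Group G] [Group H] [Finite G] (e : G ≃* H) (h : Star G) :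
    Star H := h.map e.toMonoidHom e.surjective

end H96S
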