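import Mathlib

/-!
# BN-pairs: length, Bruhat decomposition
-/

namespace H96S

variable {G : Type} [Group G]

/-- the double coset `B n B` -/
def dc (B : Subgroup G) (n : G) : Set G := {x | ∃ b ∈ B, ∃ b' ∈ B, x = b * n * b'}

/-- `(B, N)` is a BN-pair (Tits system) in `G`; `S` is a set of representatives in `N` of the
distinguished generators of the Weyl group `N / (B ⊓ N)`. -/
structure IsBNPair (B N : Subgroup G) (S : Set G) : Prop where
  gen : B ⊔ N = ⊤
  norm : ∀ n ∈ N, ∀ t ∈ B ⊓ N, n * t * n⁻¹ ∈ B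
  genN : Subgroup.closure S ⊔ (B ⊓ N) = N
  sq : ∀ s ∈ S, s * s ∈ B
  not_mem : ∀ s ∈ S, s ∉ B
  cell : ∀ s ∈ S, ∀ n ∈ N, ∀ b ∈ B, s * b * n ∈ dc B n ∨ s * b * n ∈ dc B (s * n)
  nontriv : ∀ s ∈ S, ∃ b ∈ B, s * b * s⁻¹ ∉ B

variable {B N : Subgroup G} {S : Set G}

lemma mem_dc_self (n : G) : n ∈ dc B n := ⟨1, B.one_mem, 1, B.one_mem, by simp⟩

lemma dc_mul {n x : G} (hx : x ∈ dc B n) {b b' : G} (hb : b ∈ B) (hb' : b' ∈ B) :
    b * x * b' ∈ dc B n := by
  obtain ⟨c, hc, c', hc', rfl⟩ := hx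
  exact ⟨b * c, B.mul_mem hb hc, c' * b', B.mul_mem hc' hb', by group⟩

lemma dc_left {n x : G} (hx : x ∈ dc B n) {b : G} (hb : b ∈ B) : b * x ∈ dc B n := by
  have := dc_mul hx hb B.one_mem
  rwa [mul_one] at this

lemma dc_right {n x : G} (hx : x ∈ dc B n) {b : G} (hb : b ∈ B) : x * b ∈ dc B n := by
  have := dc_mul hx B.one_mem hb
  rwa [one_mul] at this

lemma dc_symm {n x : G} (hx : x ∈ dc B n) : n ∈ dc B x := by
  obtain ⟨b, hb, b', hb', rfl⟩ := hx
  exact ⟨b⁻¹, B.inv_mem hb, b'⁻¹, B.inv_mem hb', by group⟩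

lemma dc_trans {n x y : G} (hx : x ∈ dc B n) (hy : y ∈ dc B x) : y ∈ dc B n := by
  obtain ⟨b, hb, b', hb', rfl⟩ := hy
  exact dc_mul hx hb hb'

lemma dc_eq {n x : G} (hx : x ∈ dc B n) : dc B x = dc B n :=
  Set.Subset.antisymm (fun _ hy => dc_trans hx hy) (fun _ hy => dc_trans (dc_symm hx) hy)

lemma dc_inv {n x : G} (hx : x ∈ dc B n) : x⁻¹ ∈ dc B n⁻¹ := by
  obtain ⟨b, hb, b', hb', rfl⟩ := hx
  exact ⟨b'⁻¹, B.inv_mem hb', b⁻¹, B.inv_mem hb, by group⟩

namespace IsBNPair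

variable (h : IsBNPair B N S)
include h

lemma S_sub {s : G} (hs : s ∈ S) : s ∈ N := by
  rw [← h.genN]
  exact Subgroup.mem_sup_left (Subgroup.subset_closure hs)

lemma sqT {s : G} (hs : s ∈ S) : s * s ∈ B ⊓ N :=
  ⟨h.sq s hs, N.mul_mem (h.S_sub hs) (h.S_sub hs)⟩

lemma normT {n t : G} (hn : n ∈ N) (ht : t ∈ B ⊓ N) : n * t * n⁻¹ ∈ B ⊓ N :=
  ⟨h.norm n hn t ht, N.mul_mem (N.mul_mem hn ht.2) (N.inv_mem hn)⟩

lemma normT' {n t : G} (hn : n ∈ N) (ht : t ∈ B ⊓ N) : n⁻¹ * t * n ∈ B ⊓ N := by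
  have := h.normT (N.inv_mem hn) ht
  rwa [inv_inv] at this

/-- `s⁻¹ = s t = t s` modulo `T` -/
lemma inv_eq {s : G} (hs : s ∈ S) : ∃ t ∈ B ⊓ N, s⁻¹ = s * t :=
  ⟨(s * s)⁻¹, (B ⊓ N).inv_mem (h.sqT hs), by group⟩

lemma dc_mul_T {n t : G} (ht : t ∈ B ⊓ N) : dc B (n * t) = dc B n :=
  dc_eq (dc_right (mem_dc_self n) ht.1)

lemma dc_T_mul {n t : G} (ht : t ∈ B ⊓ N) : dc B (t * n) = dc B n :=
  dc_eq (dc_left (mem_dc_self n) ht.1)

/-- the right version of the cell axiom -/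
lemma cellR {s n b : G} (hs : s ∈ S) (hn : n ∈ N) (hb : b ∈ B) :
    n * b * s ∈ dc B n ∨ n * b * s ∈ dc B (n * s) := by
  obtain ⟨t, ht, hst⟩ := h.inv_eq hs
  have h1 := h.cell s hs n⁻¹ (N.inv_mem hn) (t * b⁻¹) (B.mul_mem ht.1 (B.inv_mem hb))
  have e : s * (t * b⁻¹) * n⁻¹ = (n * b * s)⁻¹ := by
    rw [mul_inv_rev, mul_inv_rev, hst]; group
  rw [e] at h1
  rcases h1 with h1 | h1
  · left
    have h2 := dc_inv h1
    rwa [inv_inv, inv_inv] at h2
  · right
    have h2 := dc_inv h1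
    rw [inv_inv, mul_inv_rev, inv_inv, hst, ← mul_assoc, h.dc_mul_T ht] at h2
    exact h2

end IsBNPair

/-- `w` is a product of `k` elements of `S` and an element of `T`. -/
def IsWord (B N : Subgroup G) (S : Set G) (k : ℕ) (w : G) : Prop :=
  ∃ L : List G, L.length = k ∧ (∀ s ∈ L, s ∈ S) ∧ ∃ t ∈ B ⊓ N, w = L.prod * t

open Classical in
/-- the length -/
noncomputable def blen (B N : Subgroup G) (S : Set G) (w : G) : ℕ :=
  sInf {k | IsWord B N S k w}

namespace IsBNPair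

variable (h : IsBNPair B N S)
include h

lemma prod_mem {L : List G} (hL : ∀ s ∈ L, s ∈ S) : L.prod ∈ N :=
  N.list_prod_mem fun s hs => h.S_sub (hL s hs)

lemma word_mul_T {k : ℕ} {w t : G} (hw : IsWord B N S k w) (ht : t ∈ B ⊓ N) :
    IsWord B N S k (w * t) := by
  obtain ⟨L, hk, hL, t', ht', rfl⟩ := hw
  exact ⟨L, hk, hL, t' * t, (B ⊓ N).mul_mem ht' ht, by group⟩

lemma word_T_mul {k : ℕ} {w t : G} (hw : IsWord B N S k w) (ht : t ∈ B ⊓ N) :
    IsWord B N S k (t * w) := by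
  obtain ⟨L, hk, hL, t', ht', rfl⟩ := hw
  refine ⟨L, hk, hL, (L.prod⁻¹ * t * L.prod) * t', (B ⊓ N).mul_mem (h.normT' (h.prod_mem hL) ht) ht', ?_⟩
  group

lemma word_S_mul {k : ℕ} {w s : G} (hw : IsWord B N S k w) (hs : s ∈ S) :
    IsWord B N S (k + 1) (s * w) := by
  obtain ⟨L, hk, hL, t', ht', rfl⟩ := hw
  refine ⟨s :: L, by simp [hk], ?_, t', ht', by simp [mul_assoc]⟩
  intro x hx
  rcases List.mem_cons.1 hx with rfl | hx
  · exact hs
  · exact hL x hx

lemma word_mul_S {k : ℕ} {w s : G} (hw : IsWord B N S k w) (hs : s ∈ S) :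
    IsWord B N S (k + 1) (w * s) := by
  obtain ⟨L, hk, hL, t', ht', rfl⟩ := hw
  refine ⟨L ++ [s], by simp [hk], ?_, s⁻¹ * t' * s, h.normT' (h.S_sub hs) ht', ?_⟩
  · intro x hx
    rcases List.mem_append.1 hx with hx | hx
    · exact hL x hx
    · rw [List.mem_singleton.1 hx]; exact hs
  · rw [List.prod_append, List.prod_singleton]
    group

lemma word_inv_mul {k : ℕ} {w s : G} (hw : IsWord B N S k w) (hs : s ∈ S) :
    IsWord B N S (k + 1) (s⁻¹ * w) := by
  obtain ⟨t, ht, hst⟩ := h.inv_eq hs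
  rw [hst, mul_assoc]
  exact h.word_S_mul (h.word_T_mul hw ht) hs

lemma word_mem {k : ℕ} {w : G} (hw : IsWord B N S k w) : w ∈ N := by
  obtain ⟨L, _, hL, t', ht', rfl⟩ := hw
  exact N.mul_mem (h.prod_mem hL) ht'.2

lemma word_one : IsWord B N S 0 (1 : G) := ⟨[], rfl, by simp, 1, (B ⊓ N).one_mem, by simp⟩

lemma exists_word {w : G} (hw : w ∈ N) : ∃ k, IsWord B N S k w := by
  -- the subgroup of the elements whose left multiplication preserves the words
  let H : Subgroup G :=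
    { carrier := {g | (∀ x, (∃ k, IsWord B N S k x) → ∃ k, IsWord B N S k (g * x)) ∧
        (∀ x, (∃ k, IsWord B N S k x) → ∃ k, IsWord B N S k (g⁻¹ * x))}
      one_mem' := by
        refine ⟨fun x hx => by rwa [one_mul], fun x hx => by rwa [inv_one, one_mul]⟩
      mul_mem' := by
        rintro a b ⟨ha, ha'⟩ ⟨hb, hb'⟩
        refine ⟨fun x hx => ?_, fun x hx => ?_⟩
        · rw [mul_assoc]; exact ha _ (hb _ hx)
        · rw [mul_inv_rev, mul_assoc]; exact hb' _ (ha' _ hx)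
      inv_mem' := by
        rintro a ⟨ha, ha'⟩
        refine ⟨ha', fun x hx => ?_⟩
        rw [inv_inv]; exact ha _ hx }
  have hS : Subgroup.closure S ≤ H := by
    rw [Subgroup.closure_le]
    intro s hs
    exact ⟨fun x ⟨k, hk⟩ => ⟨k + 1, h.word_S_mul hk hs⟩,
      fun x ⟨k, hk⟩ => ⟨k + 1, h.word_inv_mul hk hs⟩⟩
  have hT : B ⊓ N ≤ H := by
    intro t ht
    exact ⟨fun x ⟨k, hk⟩ => ⟨k, h.word_T_mul hk ht⟩,
      fun x ⟨k, hk⟩ => ⟨k, h.word_T_mul hk ((B ⊓ N).inv_mem ht)⟩⟩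
  have hN : N ≤ H := by
    rw [← h.genN]
    exact sup_le hS hT
  have h1 := (hN hw).1 1 ⟨0, h.word_one⟩
  rwa [mul_one] at h1

lemma len_spec {w : G} (hw : w ∈ N) : IsWord B N S (blen B N S w) w :=
  Nat.sInf_mem (h.exists_word hw)

omit h in
lemma len_le {k : ℕ} {w : G} (hw : IsWord B N S k w) : blen B N S w ≤ k := Nat.sInf_le hw

lemma len_mul_T {w t : G} (hw : w ∈ N) (ht : t ∈ B ⊓ N) : blen B N S (w * t) = blen B N S w := by
  apply le_antisymm
  · exact len_le (h.word_mul_T (h.len_spec hw) ht)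
  · have h1 := len_le (h.word_mul_T (h.len_spec (N.mul_mem hw ht.2)) ((B ⊓ N).inv_mem ht))
    rwa [mul_inv_cancel_right] at h1

lemma len_mul_S_le {w s : G} (hw : w ∈ N) (hs : s ∈ S) :
    blen B N S (w * s) ≤ blen B N S w + 1 :=
  len_le (h.word_mul_S (h.len_spec hw) hs)

lemma len_S_mul_le {w s : G} (hw : w ∈ N) (hs : s ∈ S) :
    blen B N S (s * w) ≤ blen B N S w + 1 :=
  len_le (h.word_S_mul (h.len_spec hw) hs)

lemma len_inv_mul_le {w s : G} (hw : w ∈ N) (hs : s ∈ S) :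
    blen B N S (s⁻¹ * w) ≤ blen B N S w + 1 :=
  len_le (h.word_inv_mul (h.len_spec hw) hs)

lemma len_zero {w : G} (hw : w ∈ N) (h0 : blen B N S w = 0) : w ∈ B ⊓ N := by
  obtain ⟨L, hk, _, t, ht, hw'⟩ := h.len_spec hw
  rw [h0] at hk
  rw [List.length_eq_zero_iff.1 hk, List.prod_nil, one_mul] at hw'
  rw [hw']; exact ht

lemma len_T {t : G} (ht : t ∈ B ⊓ N) : blen B N S t = 0 := by
  have h1 := len_le (h.word_mul_T h.word_one ht)
  rw [one_mul] at h1
  omega

lemma len_succ {k : ℕ} {w : G} (hw : w ∈ N) (hk : blen B N S w = k + 1) :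
    ∃ s ∈ S, ∃ v ∈ N, w = s * v ∧ blen B N S v = k := by
  obtain ⟨L, hL, hLS, t, ht, hw'⟩ := h.len_spec hw
  rw [hk] at hL
  match L, hL, hLS, hw' with
  | s :: L', hL, hLS, hw' =>
    have hs : s ∈ S := hLS s (by simp)
    have hL'S : ∀ x ∈ L', x ∈ S := fun x hx => hLS x (by simp [hx])
    have hv : IsWord B N S k (L'.prod * t) := ⟨L', by simpa using hL, hL'S, t, ht, rfl⟩
    refine ⟨s, hs, L'.prod * t, h.word_mem hv, by rw [hw', List.prod_cons, mul_assoc], ?_⟩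
    apply le_antisymm (len_le hv)
    have h1 := h.len_S_mul_le (h.word_mem hv) hs
    rw [← mul_assoc, ← List.prod_cons, ← hw', hk] at h1
    omega

lemma len_succR {k : ℕ} {w : G} (hw : w ∈ N) (hk : blen B N S w = k + 1) :
    ∃ s ∈ S, ∃ v ∈ N, w = v * s ∧ blen B N S v = k := by
  obtain ⟨L, hL, hLS, t, ht, hw'⟩ := h.len_spec hw
  rw [hk] at hL
  have hne : L ≠ [] := by
    rintro rfl
    simp at hL
  obtain ⟨L', s, rfl⟩ : ∃ L' s, L = L' ++ [s] :=
    ⟨L.dropLast, L.getLast hne, (List.dropLast_append_getLast hne).symm⟩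
  have hs : s ∈ S := hLS s (by simp)
  have hL'S : ∀ x ∈ L', x ∈ S := fun x hx => hLS x (by simp [hx])
  have hv : IsWord B N S k (L'.prod * (s * t * s⁻¹)) :=
    ⟨L', by simpa using hL, hL'S, _, h.normT (h.S_sub hs) ht, rfl⟩
  have hw2 : w = L'.prod * (s * t * s⁻¹) * s := by
    rw [hw', List.prod_append, List.prod_singleton]; group
  refine ⟨s, hs, _, h.word_mem hv, hw2, ?_⟩
  apply le_antisymm (len_le hv)
  have h1 := h.len_mul_S_le (h.word_mem hv) hs
  rw [← hw2, hk] at h1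
  omega

/-- Bruhat decomposition: covering -/
lemma bruhat (g : G) : ∃ n ∈ N, g ∈ dc B n := by
  let H : Subgroup G :=
    { carrier := {g | (∀ x, (∃ n ∈ N, x ∈ dc B n) → ∃ n ∈ N, g * x ∈ dc B n) ∧
        (∀ x, (∃ n ∈ N, x ∈ dc B n) → ∃ n ∈ N, g⁻¹ * x ∈ dc B n)}
      one_mem' := by
        refine ⟨fun x hx => by rwa [one_mul], fun x hx => by rwa [inv_one, one_mul]⟩
      mul_mem' := by
        rintro a b ⟨ha, ha'⟩ ⟨hb, hb'⟩
        refine ⟨fun x hx => ?_, fun x hx => ?_⟩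
        · rw [mul_assoc]; exact ha _ (hb _ hx)
        · rw [mul_inv_rev, mul_assoc]; exact hb' _ (ha' _ hx)
      inv_mem' := by
        rintro a ⟨ha, ha'⟩
        refine ⟨ha', fun x hx => ?_⟩
        rw [inv_inv]; exact ha _ hx }
  have hB : B ≤ H := by
    intro b hb
    refine ⟨?_, ?_⟩
    · rintro x ⟨n, hn, hx⟩
      exact ⟨n, hn, dc_left hx hb⟩
    · rintro x ⟨n, hn, hx⟩
      exact ⟨n, hn, dc_left hx (B.inv_mem hb)⟩
  have hS1 : ∀ s ∈ S, ∀ x, (∃ n ∈ N, x ∈ dc B n) → ∃ n ∈ N, s * x ∈ dc B n := by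
    rintro s hs x ⟨n, hn, b, hb, b', hb', rfl⟩
    have e : s * (b * n * b') = s * b * n * b' := by group
    rw [e]
    rcases h.cell s hs n hn b hb with h1 | h1
    · exact ⟨n, hn, dc_right h1 hb'⟩
    · exact ⟨s * n, N.mul_mem (h.S_sub hs) hn, dc_right h1 hb'⟩
  have hS : Subgroup.closure S ≤ H := by
    rw [Subgroup.closure_le]
    intro s hs
    refine ⟨hS1 s hs, ?_⟩
    rintro x ⟨n, hn, hx⟩
    obtain ⟨t, ht, hst⟩ := h.inv_eq hs
    rw [hst, mul_assoc]
    exact hS1 s hs _ ⟨n, hn, dc_left hx ht.1⟩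
  have hT : B ⊓ N ≤ H := inf_le_left.trans hB
  have hN : N ≤ H := by
    conv_lhs => rw [← h.genN]
    exact sup_le hS hT
  have htop : (⊤ : Subgroup G) ≤ H := by
    rw [← h.gen]
    exact sup_le hB hN
  have h1 := (htop (Subgroup.mem_top g)).1 1 ⟨1, N.one_mem, mem_dc_self 1⟩
  rwa [mul_one] at h1

/-- Bruhat decomposition: uniqueness -/
lemma bruhat_unique_aux (k : ℕ) : ∀ w ∈ N, ∀ w' ∈ N, blen B N S w = k → k ≤ blen B N S w' →
    w' ∈ dc B w → w⁻¹ * w' ∈ B ⊓ N := by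
  induction k with
  | zero =>
    intro w hw w' hw' hk _ hd
    have hwT := h.len_zero hw hk
    obtain ⟨b, hb, b', hb', rfl⟩ := hd
    refine (B ⊓ N).mul_mem ((B ⊓ N).inv_mem hwT) ⟨?_, hw'⟩
    exact B.mul_mem (B.mul_mem hb hwT.1) hb'
  | succ k ih =>
    intro w hw w' hw' hk hle hd
    obtain ⟨s, hs, v, hv, rfl, hvk⟩ := h.len_succ hw hk
    obtain ⟨b1, hb1, b2, hb2, hw2⟩ := hd
    obtain ⟨t, ht, hst⟩ := h.inv_eq hs
    have hv2 : v = s * (t * b1⁻¹) * w' * b2⁻¹ := by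
      have e1 : v = s⁻¹ * b1⁻¹ * w' * b2⁻¹ := by rw [hw2]; group
      rw [hst] at e1
      rw [e1]; group
    rcases h.cell s hs w' hw' (t * b1⁻¹) (B.mul_mem ht.1 (B.inv_mem hb1)) with h1 | h1
    · exfalso
      have h2 : v ∈ dc B w' := by rw [hv2]; exact dc_right h1 (B.inv_mem hb2)
      have h3 := ih v hv w' hw' hvk (by omega) (dc_symm h2)
      have h4 : blen B N S w' = k := by
        have e : w' = v * (v⁻¹ * w') := by group
        rw [e, h.len_mul_T hv h3, hvk]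
      omega
    · have h2 : v ∈ dc B (s * w') := by rw [hv2]; exact dc_right h1 (B.inv_mem hb2)
      have hlen : k ≤ blen B N S (s * w') := by
        have h3 := h.len_inv_mul_le (N.mul_mem (h.S_sub hs) hw') hs
        rw [inv_mul_cancel_left] at h3
        omega
      have h3 := ih v hv (s * w') (N.mul_mem (h.S_sub hs) hw') hvk hlen (dc_symm h2)
      have e : (s * v)⁻¹ * w' = (v⁻¹ * (s * s)⁻¹ * v) * (v⁻¹ * (s * w')) := by group
      rw [e]
      exact (B ⊓ N).mul_mem (h.normT' hv ((B ⊓ N).inv_mem (h.sqT hs))) h3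

lemma bruhat_unique {w w' : G} (hw : w ∈ N) (hw' : w' ∈ N) (hd : w' ∈ dc B w) :
    w⁻¹ * w' ∈ B ⊓ N := by
  rcases le_total (blen B N S w) (blen B N S w') with hle | hle
  · exact h.bruhat_unique_aux _ w hw w' hw' rfl hle hd
  · have h1 := h.bruhat_unique_aux _ w' hw' w hw rfl hle (dc_symm hd)
    have h2 := (B ⊓ N).inv_mem h1
    rwa [mul_inv_rev, inv_inv] at h2

lemma len_of_dc {w w' : G} (hw : w ∈ N) (hw' : w' ∈ N) (hd : w' ∈ dc B w) :
    blen B N S w' = blen B N S w := by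
  have h1 := h.bruhat_unique hw hw' hd
  have e : w' = w * (w⁻¹ * w') := by group
  rw [e, h.len_mul_T hw h1]

/-- if `ws` is not shorter than `w`, then `w B s ⊆ B w s B` -/
lemma cell_up_aux (k : ℕ) : ∀ w ∈ N, ∀ s ∈ S, blen B N S w = k → k ≤ blen B N S (w * s) →
    ∀ b ∈ B, w * b * s ∈ dc B (w * s) := by
  induction k with
  | zero =>
    intro w hw s hs hk _ b hb
    have hwT := h.len_zero hw hk
    refine ⟨w * b * w⁻¹, B.mul_mem (B.mul_mem hwT.1 hb) (B.inv_mem hwT.1), 1, B.one_mem, by group⟩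
  | succ k ih =>
    intro w hw s hs hk hle b hb
    obtain ⟨t, ht, w', hw', rfl, hk'⟩ := h.len_succ hw hk
    rcases h.cellR hs hw hb with h1 | h1
    · exfalso
      obtain ⟨b1, hb1, b2, hb2, he⟩ := h1
      obtain ⟨τ, hτ, htτ⟩ := h.inv_eq ht
      have hx : w' * b * s = t * (τ * b1) * (t * w') * b2 := by
        have e1 : w' * b * s = t⁻¹ * (t * w' * b * s) := by group
        rw [e1, he, htτ]; group
      have hlen : k ≤ blen B N S (w' * s) := by
        have h2 := h.len_S_mul_le (N.mul_mem hw' (h.S_sub hs)) ht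
        rw [← mul_assoc] at h2
        omega
      have h3 := ih w' hw' s hs hk' hlen b hb
      have hws : w' * s ∈ N := N.mul_mem hw' (h.S_sub hs)
      rcases h.cell t ht (t * w') hw (τ * b1) (B.mul_mem hτ.1 hb1) with h4 | h4
      · have h5 : w' * b * s ∈ dc B (t * w') := by rw [hx]; exact dc_right h4 hb2
        -- `w' s ∈ B w B`
        have h6 : w' * s ∈ dc B (t * w') := dc_trans h5 (dc_symm h3)
        have h7 := h.bruhat_unique hw hws h6
        have h8 : blen B N S (t * w' * s) = k := by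
          have e : t * w' * s = w' * (s * ((t * w')⁻¹ * (w' * s))⁻¹ * s⁻¹) * (s * s) := by group
          rw [e, h.len_mul_T (N.mul_mem hw' (h.normT (h.S_sub hs) ((B ⊓ N).inv_mem h7)).2) (h.sqT hs),
            h.len_mul_T hw' (h.normT (h.S_sub hs) ((B ⊓ N).inv_mem h7)), hk']
        omega
      · have e : dc B (t * (t * w')) = dc B w' := by
          rw [← mul_assoc]; exact h.dc_T_mul (h.sqT ht)
        rw [e] at h4
        have h5 : w' * b * s ∈ dc B w' := by rw [hx]; exact dc_right h4 hb2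
        have h6 : w' * s ∈ dc B w' := dc_trans h5 (dc_symm h3)
        have h7 := h.bruhat_unique hw' hws h6
        rw [inv_mul_cancel_left] at h7
        exact h.not_mem s hs h7.1
    · exact h1

lemma cell_up {w s b : G} (hw : w ∈ N) (hs : s ∈ S) (hle : blen B N S w ≤ blen B N S (w * s))
    (hb : b ∈ B) : w * b * s ∈ dc B (w * s) :=
  h.cell_up_aux _ w hw s hs rfl hle b hb

/-- `w s` is not in `B w B` -/
lemma mul_S_not_mem {w s : G} (hw : w ∈ N) (hs : s ∈ S) : w * s ∉ dc B w := by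
  intro hd
  have h1 := h.bruhat_unique hw (N.mul_mem hw (h.S_sub hs)) hd
  rw [inv_mul_cancel_left] at h1
  exact h.not_mem s hs h1.1

/-- lengths differ by exactly one -/
lemma len_ne {w s : G} (hw : w ∈ N) (hs : s ∈ S) : blen B N S (w * s) ≠ blen B N S w := by
  intro heq
  obtain ⟨b, hb, hbs⟩ := h.nontriv s hs
  -- `s b s ∈ B s B`
  have hsN := h.S_sub hs
  have h1 : s * b * s ∈ dc B s := by
    rcases h.cellR hs hsN hb with h2 | h2
    · exact h2
    · exfalso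
      apply hbs
      obtain ⟨c, hc, c', hc', he⟩ := h2
      have h3 : s * b * s ∈ B := by
        rw [he]; exact B.mul_mem (B.mul_mem hc (h.sq s hs)) hc'
      have e : s * b * s⁻¹ = (s * b * s) * (s * s)⁻¹ := by group
      rw [e]
      exact B.mul_mem h3 (B.inv_mem (h.sq s hs))
  -- `w s b s ∈ B w s s B = B w B` by the first form and in `B w s B` by the second
  have hws := N.mul_mem hw hsN
  have e1 : blen B N S (w * s * s) = blen B N S w := by
    rw [mul_assoc]; exact h.len_mul_T hw (h.sqT hs)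
  have h2 : w * s * b * s ∈ dc B (w * s * s) := h.cell_up hws hs (by rw [e1, heq]) hb
  have e2 : dc B (w * s * s) = dc B w := by rw [mul_assoc]; exact h.dc_mul_T (h.sqT hs)
  rw [e2] at h2
  obtain ⟨c, hc, c', hc', he⟩ := h1
  have h3 : w * c * s ∈ dc B (w * s) := h.cell_up hw hs (le_of_eq heq.symm) hc
  have h4 : w * s * b * s ∈ dc B (w * s) := by
    have e : w * s * b * s = w * c * s * c' := by
      have : w * s * b * s = w * (s * b * s) := by group
      rw [this, he]; group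
    rw [e]; exact dc_right h3 hc'
  exact h.mul_S_not_mem hw hs (dc_trans h2 (dc_symm h4))

end IsBNPair

end H96S
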