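import Pool.Agent.Lib.H96S.BN1

/-!
# BN-pairs in finite groups: sizes of the cells, Sylow subgroups
-/

namespace H96S

variable {G : Type} [Group G] {B N : Subgroup G} {S : Set G}

/-- `s b s⁻¹ ∈ B` or `s b s⁻¹ ∈ B s B` -/
lemma IsBNPair.conj_S (h : IsBNPair B N S) {s b : G} (hs : s ∈ S) (hb : b ∈ B) :
    s * b * s⁻¹ ∈ B ∨ s * b * s⁻¹ ∈ dc B s := by
  obtain ⟨t, ht, hst⟩ := h.inv_eq hs
  have e : s * b * s⁻¹ = (s * b * s) * t := by rw [hst]; group
  rcases h.cellR hs (h.S_sub hs) hb with h1 | h1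
  · right
    rw [e]; exact dc_right h1 ht.1
  · left
    obtain ⟨c, hc, c', hc', he⟩ := h1
    rw [e, he]
    exact B.mul_mem (B.mul_mem (B.mul_mem hc (h.sq s hs)) hc') ht.1

/-- multiplicativity of the sizes of the cells -/
lemma IsBNPair.card_mul [Finite G] (h : IsBNPair B N S) {w s : G} (hw : w ∈ N) (hs : s ∈ S)
    (hle : blen B N S w ≤ blen B N S (w * s)) :
    Nat.card (dc B w) * Nat.card (dc B s) = Nat.card (dc B (w * s)) * Nat.card B := by
  classical
  have hG := Fintype.ofFinite G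
  have e1 : Nat.card (dc B w) * Nat.card (dc B s) =
      Nat.card {z : G × G // z.1 ∈ dc B w ∧ z.1⁻¹ * z.2 ∈ dc B s} := by
    rw [← Nat.card_prod]
    refine Nat.card_congr
      { toFun := fun z => ⟨(z.1, z.1 * z.2), z.1.2, by simp⟩
        invFun := fun z => (⟨z.1.1, z.2.1⟩, ⟨z.1.1⁻¹ * z.1.2, z.2.2⟩)
        left_inv := fun z => by simp
        right_inv := fun z => by simp }
  have e2 : Nat.card {z : G × G // z.1 ∈ dc B w ∧ z.1⁻¹ * z.2 ∈ dc B s} =
      Nat.card (Σ x : dc B (w * s), {y : G // y ∈ dc B w ∧ y⁻¹ * x ∈ dc B s}) := by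
    refine Nat.card_congr
      { toFun := fun z => ⟨⟨z.1.2, ?_⟩, ⟨z.1.1, z.2⟩⟩
        invFun := fun z => ⟨(z.2.1, z.1.1), z.2.2⟩
        left_inv := fun z => rfl
        right_inv := fun z => rfl }
    obtain ⟨b, hb, b', hb', he⟩ := z.2.1
    obtain ⟨c, hc, c', hc', he'⟩ := z.2.2
    have e : z.1.2 = b * (w * (b' * c) * s) * c' := by
      have : z.1.2 = z.1.1 * (z.1.1⁻¹ * z.1.2) := by group
      rw [this, he', he]; group
    rw [e]
    exact dc_mul (h.cell_up hw hs hle (B.mul_mem hb' hc)) hb hc'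
  have e3 : ∀ x : dc B (w * s), Nat.card {y : G // y ∈ dc B w ∧ y⁻¹ * x ∈ dc B s} =
      Nat.card B := by
    rintro ⟨x, b1, hb1, b2, hb2, rfl⟩
    symm
    refine Nat.card_congr
      { toFun := fun b => ⟨b1 * w * b, ⟨b1, hb1, b, b.2, rfl⟩, ?_⟩
        invFun := fun y => ⟨w⁻¹ * b1⁻¹ * y.1, ?_⟩
        left_inv := fun b => by
          apply Subtype.ext
          show w⁻¹ * b1⁻¹ * (b1 * w * b) = b
          group
        right_inv := fun y => by
          apply Subtype.ext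
          show b1 * w * (w⁻¹ * b1⁻¹ * y.1) = y.1
          group }
    · refine ⟨(b : G)⁻¹, B.inv_mem b.2, b2, hb2, ?_⟩
      group
    · obtain ⟨y, hy, c, hc, c', hc', hyc⟩ := y
      have hyc' : y = b1 * w * (s * (b2 * c'⁻¹) * s⁻¹) * c⁻¹ := by
        have : y = b1 * (w * s) * b2 * (y⁻¹ * (b1 * (w * s) * b2))⁻¹ := by group
        rw [this]
        have h2 : y⁻¹ * (b1 * (w * s) * b2) = c * s * c' := hyc
        rw [h2]; group
      show w⁻¹ * b1⁻¹ * y ∈ B
      rcases h.conj_S hs (B.mul_mem hb2 (B.inv_mem hc')) with h1 | h1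
      · have e : w⁻¹ * b1⁻¹ * y = (s * (b2 * c'⁻¹) * s⁻¹) * c⁻¹ := by rw [hyc']; group
        rw [e]
        exact B.mul_mem h1 (B.inv_mem hc)
      · exfalso
        obtain ⟨d, hd, d', hd', he⟩ := h1
        have h2 : y ∈ dc B (w * s) := by
          have e : y = b1 * (w * d * s) * (d' * c⁻¹) := by
            rw [hyc', he]; group
          rw [e]
          exact dc_mul (h.cell_up hw hs hle hd) hb1 (B.mul_mem hd' (B.inv_mem hc))
        exact h.mul_S_not_mem hw hs (dc_trans hy (dc_symm h2))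
  rw [e1, e2, Nat.card_sigma]
  rw [Finset.sum_congr rfl (fun x _ => e3 x), Finset.sum_const, Finset.card_univ, smul_eq_mul]
  congr 1
  exact (Nat.card_eq_fintype_card).symm

/-- the size of a cell is `|B|` times the index of `B ∩ w B w⁻¹` in `B` -/
lemma card_dc [Finite G] (w : G) :
    Nat.card (dc B w) = ((B.map (MulAut.conj w).toMonoidHom).subgroupOf B).index * Nat.card B := by
  classical
  have hG := Fintype.ofFinite G
  set C := (B.map (MulAut.conj w).toMonoidHom).subgroupOf B with hC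
  have hmem : ∀ b : B, b ∈ C ↔ w⁻¹ * b * w ∈ B := by
    intro b
    rw [hC, Subgroup.mem_subgroupOf, Subgroup.mem_map]
    constructor
    · rintro ⟨x, hx, hxb⟩
      have : (b : G) = w * x * w⁻¹ := hxb.symm
      rw [this]
      have e : w⁻¹ * (w * x * w⁻¹) * w = x := by group
      rw [e]; exact hx
    · intro hb
      refine ⟨w⁻¹ * b * w, hb, ?_⟩
      show w * (w⁻¹ * b * w) * w⁻¹ = b
      group
  have hrep : ∀ q : B ⧸ C, ∃ b : B, (b : B ⧸ C) = q := Quotient.exists_rep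
  choose rep hrep using hrep
  rw [Subgroup.index_eq_card, ← Nat.card_prod]
  symm
  refine Nat.card_congr (Equiv.ofBijective
    (fun z : (B ⧸ C) × B => (⟨rep z.1 * w * z.2, rep z.1, (rep z.1).2, z.2, z.2.2, rfl⟩ : dc B w)) ⟨?_, ?_⟩)
  · rintro ⟨q, b⟩ ⟨q', b'⟩ heq
    have h1 : (rep q : G) * w * b = rep q' * w * b' := congrArg Subtype.val heq
    have h2 : (rep q)⁻¹ * rep q' ∈ C := by
      rw [hmem]
      have e : w⁻¹ * (((rep q)⁻¹ * rep q' : B) : G) * w = (b : G) * (b' : G)⁻¹ := by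
        have : (rep q' : G) = rep q * w * b * (b' : G)⁻¹ * w⁻¹ := by rw [h1]; group
        push_cast
        rw [this]; group
      rw [e]
      exact B.mul_mem b.2 (B.inv_mem b'.2)
    have h3 : q = q' := by
      rw [← hrep q, ← hrep q']
      exact QuotientGroup.eq.2 h2
    subst h3
    have h4 : b = b' := Subtype.ext (mul_left_cancel h1)
    rw [h4]
  · rintro ⟨x, b, hb, b', hb', rfl⟩
    have h1 : (rep ((⟨b, hb⟩ : B) : B ⧸ C))⁻¹ * ⟨b, hb⟩ ∈ C := QuotientGroup.eq.1 (hrep _)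
    rw [hmem] at h1
    refine ⟨(((⟨b, hb⟩ : B) : B ⧸ C), ⟨w⁻¹ * (((rep ((⟨b, hb⟩ : B) : B ⧸ C))⁻¹ * ⟨b, hb⟩ : B) : G) * w * b',
      B.mul_mem h1 hb'⟩), ?_⟩
    apply Subtype.ext
    show (rep ((⟨b, hb⟩ : B) : B ⧸ C) : G) * w *
      (w⁻¹ * (((rep ((⟨b, hb⟩ : B) : B ⧸ C))⁻¹ * ⟨b, hb⟩ : B) : G) * w * b') = b * w * b'
    push_cast
    group

end H96S
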