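import Pool.Agent.Lib.H96S.Defs

/-!
# Chunk N2: zonal functions and exact factorisations
-/

namespace H96S

/-- sums over `G` along an exact factorisation -/
lemma n2_sum {G : Type} [Group G] [Fintype G] (P : Subgroup G) [Fintype P] (A B : Finset G)
    (hAB : ∀ g : G, ∃! t : G × P × G, t.1 ∈ A ∧ t.2.2 ∈ B ∧ t.1 * t.2.1 * t.2.2 = g)
    (φ : G → ℚ) :
    ∑ g : G, φ g = ∑ a ∈ A, ∑ b ∈ B, ∑ u : P, φ (a * u * b) := by
  classical
  have h1 : ∑ a ∈ A, ∑ b ∈ B, ∑ u : P, φ (a * u * b) =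
      ∑ t ∈ A ×ˢ (B ×ˢ (Finset.univ : Finset P)), φ (t.1 * t.2.2 * t.2.1) := by
    rw [Finset.sum_product]
    refine Finset.sum_congr rfl fun a _ => ?_
    rw [Finset.sum_product]
  rw [h1]
  symm
  refine Finset.sum_bij (fun t _ => t.1 * t.2.2 * t.2.1) (fun _ _ => Finset.mem_univ _) ?_ ?_
    (fun _ _ => rfl)
  · rintro ⟨a, b, u⟩ h ⟨a', b', u'⟩ h' heq
    simp only [Finset.mem_product, Finset.mem_univ, and_true] at h h'
    obtain ⟨t, _, ht⟩ := hAB (a * u * b)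
    have e1 := ht (a, u, b) ⟨h.1, h.2, rfl⟩
    have e2 := ht (a', u', b') ⟨h'.1, h'.2, heq.symm⟩
    rw [← e2] at e1
    rw [Prod.mk.injEq, Prod.mk.injEq] at e1
    rw [Prod.mk.injEq, Prod.mk.injEq]
    exact ⟨e1.1, e1.2.2, e1.2.1⟩
  · intro g _
    obtain ⟨t, ht, _⟩ := hAB g
    refine ⟨(t.1, t.2.2, t.2.1), ?_, ht.2.2⟩
    simp only [Finset.mem_product, Finset.mem_univ, and_true]
    exact ⟨ht.1, ht.2.1⟩

/-- Let `G = A P B` be an exact factorisation, `P` a subgroup, `f : G → ℤ` not constant with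
`∑_{u ∈ P} f(g u h) = lam(g) f(h)` and `f ≡ c mod m`, where `c` and `|P|` are prime to `m`.
Then `m` divides `|A|` or `|B|`. -/
theorem zonal_dvd {G : Type} [Group G] [Fintype G] (P : Subgroup G) [Fintype P] (f : G → ℤ)
    (h₀ h₁ : G) (hne : f h₀ ≠ f h₁)
    (hf : ∀ g : G, ∃ lam : ℚ, ∀ h : G, (∑ u : P, (f (g * u * h) : ℚ)) = lam * f h)
    (c m : ℤ) (hc : ∀ g, m ∣ f g - c) (hcm : IsCoprime c m) (hPm : IsCoprime (Nat.card P : ℤ) m)
    (A B : Finset G)
    (hAB : ∀ g : G, ∃! t : G × P × G, t.1 ∈ A ∧ t.2.2 ∈ B ∧ t.1 * t.2.1 * t.2.2 = g) :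
    m ∣ (A.card : ℤ) ∨ m ∣ (B.card : ℤ) := by
  classical
  choose lam hlam using hf
  have hcardP : (Fintype.card P : ℚ) ≠ 0 := by
    have : 0 < Fintype.card P := Fintype.card_pos
    exact_mod_cast this.ne'
  -- (1) the sum of `f` vanishes
  have hkey : ∀ h : G, (Fintype.card P : ℚ) * ∑ g : G, (f g : ℚ) = (∑ g : G, lam g) * f h := by
    intro h
    rw [Finset.sum_mul]
    have : ∀ g : G, lam g * f h = ∑ u : P, (f (g * u * h) : ℚ) := fun g => (hlam g h).symm
    rw [Finset.sum_congr rfl (fun g _ => this g), Finset.sum_comm]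
    have h2 : ∀ u : P, ∑ g : G, (f (g * u * h) : ℚ) = ∑ g : G, (f g : ℚ) := by
      intro u
      refine Fintype.sum_equiv (Equiv.mulRight ((u : G) * h)) _ _ ?_
      intro g
      simp [mul_assoc]
    rw [Finset.sum_congr rfl (fun u _ => h2 u)]
    simp
  have hlam0 : ∑ g : G, lam g = 0 := by
    have h1 := hkey h₀
    have h2 := hkey h₁
    rw [h1] at h2
    by_contra hne0
    have : (f h₀ : ℚ) = f h₁ := mul_left_cancel₀ hne0 h2
    exact hne (by exact_mod_cast this)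
  have hsum0 : ∑ g : G, (f g : ℚ) = 0 := by
    have h1 := hkey h₀
    rw [hlam0, zero_mul] at h1
    exact (mul_eq_zero.1 h1).resolve_left hcardP
  -- (2)
  have h2 : ∀ h : G, (∑ a ∈ A, lam a) * ∑ b ∈ B, (f (b * h) : ℚ) = 0 := by
    intro h
    have h3 := n2_sum P A B hAB (fun g => (f (g * h) : ℚ))
    have h4 : ∑ g : G, (f (g * h) : ℚ) = 0 := by
      rw [← hsum0]
      exact Fintype.sum_equiv (Equiv.mulRight h) _ _ (fun g => rfl)
    rw [h4] at h3
    rw [h3, Finset.sum_mul]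
    refine Finset.sum_congr rfl fun a _ => ?_
    rw [Finset.mul_sum]
    refine Finset.sum_congr rfl fun b _ => ?_
    rw [← hlam a (b * h)]
    refine Finset.sum_congr rfl fun u _ => ?_
    rw [mul_assoc (a * (u : G)) b h]
  by_cases hA : ∑ a ∈ A, lam a = 0
  · left
    obtain ⟨h, hh⟩ : ∃ h, f h ≠ 0 := by
      by_contra hcon
      push Not at hcon
      exact hne (by rw [hcon, hcon])
    have h5 : ∑ a ∈ A, ∑ u : P, f (a * u * h) = 0 := by
      have : (∑ a ∈ A, ∑ u : P, (f (a * u * h) : ℚ)) = 0 := by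
        rw [Finset.sum_congr rfl (fun a _ => hlam a h), ← Finset.sum_mul, hA, zero_mul]
      exact_mod_cast this
    have h6 : m ∣ (∑ a ∈ A, ∑ u : P, (f (a * u * h) - c)) :=
      Finset.dvd_sum fun a _ => Finset.dvd_sum fun u _ => hc _
    have h7 : ∑ a ∈ A, ∑ u : P, (f (a * u * h) - c) = - (c * (A.card * Nat.card P)) := by
      simp only [Finset.sum_sub_distrib]
      rw [h5]
      simp [Nat.card_eq_fintype_card]
      ring
    rw [h7, dvd_neg] at h6
    have h8 := hcm.symm.dvd_of_dvd_mul_left h6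
    exact hPm.symm.dvd_of_dvd_mul_right h8
  · right
    have h5 := (mul_eq_zero.1 (h2 1)).resolve_left hA
    have h6 : ∑ b ∈ B, f (b * 1) = 0 := by exact_mod_cast h5
    have h7 : m ∣ ∑ b ∈ B, (f (b * 1) - c) := Finset.dvd_sum fun b _ => hc _
    rw [Finset.sum_sub_distrib, h6] at h7
    simp only [Finset.sum_const, nsmul_eq_mul, zero_sub, dvd_neg] at h7
    exact hcm.symm.dvd_of_dvd_mul_right h7

end H96S
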