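import Pool.Agent.Lib.H96S.N1B
import Pool.Agent.Lib.H96S.N2

/-!
# Chunk N2B: a group with a zonal function modulo two primes does not have (∗)
-/

namespace H96S

/-- `G` has a zonal function modulo two primes `r ≠ s`: there are a prime divisor `p` of `|G|`, a Sylow
`p`-subgroup `P` and a non-constant function `f : G → ℤ` such that for every `g` the function
`h ↦ ∑_{u ∈ P} f(g u h)` is a multiple of `f`, and all values of `f` are congruent modulo `r s` to an
integer `c` prime to `r s`; `p, r, s` are distinct primes.  (Example: the values of `f` are, up to a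
common factor, the matrix coefficients `⟨g v, v⟩` of a nontrivial irreducible representation in which
the fixed space of `P` is the line of `v`.) -/
def Zonal (G : Type) [Group G] : Prop :=
  ∃ (p r s : ℕ) (P : Sylow p G) (f : G → ℤ) (c : ℤ),
    p.Prime ∧ r.Prime ∧ s.Prime ∧ p ≠ r ∧ p ≠ s ∧ r ≠ s ∧ p ∣ Nat.card G ∧
    (∃ g h, f g ≠ f h) ∧
    (∀ g : G, ∃ lam : ℚ, ∀ h : G, (∑ᶠ u : P, (f (g * u * h) : ℚ)) = lam * f h) ∧
    (∀ g, ((r : ℤ) * s) ∣ f g - c) ∧ IsCoprime c ((r : ℤ) * s)

lemma n2b_sum_zero {G : Type} [Group G] [Fintype G] (P : Subgroup G) [Fintype P] (f : G → ℤ)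
    (h₀ h₁ : G) (hne : f h₀ ≠ f h₁)
    (hf : ∀ g : G, ∃ lam : ℚ, ∀ h : G, (∑ u : P, (f (g * u * h) : ℚ)) = lam * f h) :
    ∑ g : G, f g = 0 := by
  classical
  choose lam hlam using hf
  have hcardP : (Fintype.card P : ℚ) ≠ 0 := by
    have : 0 < Fintype.card P := Fintype.card_pos
    exact_mod_cast this.ne'
  have hkey : ∀ h : G, (Fintype.card P : ℚ) * ∑ g : G, (f g : ℚ) = (∑ g : G, lam g) * f h := by
    intro h
    rw [Finset.sum_mul]
    have : ∀ g : G, lam g * f h = ∑ u : P, (f (g * u * h) : ℚ) := fun g => (hlam g h).symm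
    rw [Finset.sum_congr rfl (fun g _ => this g), Finset.sum_comm]
    have h2 : ∀ u : P, ∑ g : G, (f (g * u * h) : ℚ) = ∑ g : G, (f g : ℚ) := by
      intro u
      refine Fintype.sum_equiv (Equiv.mulRight ((u : G) * h)) _ _ ?_
      intro g
      simp [mul_assoc]
    rw [Finset.sum_congr rfl (fun u _ => h2 u)]
    simp
  have hlam0 : ∑ g : G, lam g = 0 := by
    have h1 := hkey h₀
    have h2 := hkey h₁
    rw [h1] at h2
    by_contra hne0
    have : (f h₀ : ℚ) = f h₁ := mul_left_cancel₀ hne0 h2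
    exact hne (by exact_mod_cast this)
  have h1 := hkey h₀
  rw [hlam0, zero_mul] at h1
  have h2 := (mul_eq_zero.1 h1).resolve_left hcardP
  exact_mod_cast h2

lemma n2b_prod_coprime (L : List ℕ) (hL : ∀ q ∈ L, q.Prime) (r : ℕ) (hr : r.Prime) (hrL : r ∉ L)
    (e : ℕ → ℕ) : ¬ r ∣ (L.map (fun q => q ^ e q)).prod := by
  intro h
  rw [hr.prime.dvd_prod_iff] at h
  obtain ⟨a, ha, hra⟩ := h
  rw [List.mem_map] at ha
  obtain ⟨q, hq, rfl⟩ := ha
  have := (Nat.prime_dvd_prime_iff_eq hr (hL q hq)).1 (hr.dvd_of_dvd_pow hra)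
  exact hrL (this ▸ hq)

/-- Groups with a zonal function modulo two primes do not have (∗). -/
theorem not_star_of_zonal {G : Type} [Group G] [Finite G] (h : Zonal G) : ¬ Star G := by
  classical
  intro hstar
  obtain ⟨p, r, s, P, f, c, hp, hr, hs, hpr, hps, hrs, hpG, ⟨g₀, h₀, hne⟩, hf, hc, hcop⟩ := h
  haveI := Fintype.ofFinite G
  haveI : Fintype (P : Subgroup G) := Fintype.ofFinite _
  haveI := Fact.mk hp
  have hf' : ∀ g : G, ∃ lam : ℚ, ∀ h : G,
      (∑ u : (P : Subgroup G), (f (g * u * h) : ℚ)) = lam * f h := by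
    intro g
    obtain ⟨lam, hlam⟩ := hf g
    refine ⟨lam, fun h => ?_⟩
    rw [← hlam h]
    exact (finsum_eq_sum_of_fintype _).symm
  have hsum := n2b_sum_zero (P : Subgroup G) f g₀ h₀ hne hf'
  have hrsG : ((r : ℤ) * s) ∣ (Nat.card G : ℤ) := by
    have h1 : ((r : ℤ) * s) ∣ ∑ g : G, (f g - c) := Finset.dvd_sum fun g _ => hc g
    rw [Finset.sum_sub_distrib, hsum] at h1
    simp only [Finset.sum_const, nsmul_eq_mul, zero_sub, dvd_neg, Finset.card_univ] at h1
    rw [Nat.card_eq_fintype_card]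
    exact hcop.symm.dvd_of_dvd_mul_right h1
  have hrG : r ∣ Nat.card G := by
    have : (r : ℤ) ∣ (Nat.card G : ℤ) := (Dvd.intro _ rfl).trans hrsG
    exact_mod_cast this
  have hcardG : Nat.card G ≠ 0 := Nat.card_pos.ne'
  -- coprimality
  have hpm : IsCoprime (Nat.card (P : Subgroup G) : ℤ) ((r : ℤ) * s) := by
    rw [P.card_eq_multiplicity]
    push_cast
    apply IsCoprime.pow_left
    apply IsCoprime.mul_right
    · exact_mod_cast Nat.isCoprime_iff_coprime.2 ((Nat.coprime_primes hp hr).2 hpr)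
    · exact_mod_cast Nat.isCoprime_iff_coprime.2 ((Nat.coprime_primes hp hs).2 hps)
  -- the ordering
  set L : List ℕ := (((Nat.card G).primeFactors.erase r).erase p).toList with hL
  have hLmem : ∀ q, q ∈ L ↔ q ≠ p ∧ q ≠ r ∧ q ∈ (Nat.card G).primeFactors := by
    intro q
    rw [hL, Finset.mem_toList, Finset.mem_erase, Finset.mem_erase]
  have hnd : ([r] ++ p :: L).Nodup := by
    simp only [List.singleton_append, List.nodup_cons, List.mem_cons, not_or]
    refine ⟨⟨hpr.symm, ?_⟩, ?_, ?_⟩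
    · rw [hLmem]; tauto
    · rw [hLmem]; tauto
    · exact Finset.nodup_toList _
  have hmem : ∀ q, q ∈ [r] ++ p :: L ↔ q ∈ (Nat.card G).primeFactors := by
    intro q
    simp only [List.singleton_append, List.mem_cons, hLmem]
    constructor
    · rintro (h | h | h)
      · rw [h]; exact Nat.mem_primeFactors.2 ⟨hr, hrG, hcardG⟩
      · rw [h]; exact Nat.mem_primeFactors.2 ⟨hp, hpG, hcardG⟩
      · exact h.2.2
    · intro h
      by_cases h1 : q = r
      · exact Or.inl h1
      · by_cases h2 : q = p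
        · exact Or.inr (Or.inl h2)
        · exact Or.inr (Or.inr ⟨h2, h1, h⟩)
  obtain ⟨A, B, hA, hB, hAB, _⟩ := fac hstar [r] L p hnd hmem P
  have hdvd := zonal_dvd (P : Subgroup G) f g₀ h₀ hne hf' c ((r : ℤ) * s) hc hcop hpm A B hAB
  rcases hdvd with hd | hd
  · have h1 : (s : ℤ) ∣ (A.card : ℤ) := (Dvd.intro_left _ rfl).trans hd
    have h2 : s ∣ A.card := by exact_mod_cast h1
    rw [hA] at h2
    simp only [List.map_cons, List.map_nil, List.prod_cons, List.prod_nil, mul_one] at h2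
    exact hrs ((Nat.prime_dvd_prime_iff_eq hs hr).1 (hs.dvd_of_dvd_pow h2)).symm
  · have h1 : (r : ℤ) ∣ (B.card : ℤ) := (Dvd.intro _ rfl).trans hd
    have h2 : r ∣ B.card := by exact_mod_cast h1
    rw [hB] at h2
    refine n2b_prod_coprime L ?_ r hr ?_ (Nat.card G).factorization h2
    · intro q hq
      exact Nat.prime_of_mem_primeFactors ((hLmem q).1 hq).2.2
    · rw [hLmem]; tauto

end H96S
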