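import Pool.Agent.Lib.H96S.BN2
import Pool.Agent.Lib.H96S.N2B

/-!
# The Steinberg function of a finite group with a BN-pair is a zonal function
-/

namespace H96S

/-- a Sylow `p`-subgroup is transitive on the cosets of a subgroup of `p`-power index -/
lemma sylow_transitive {H : Type} [Group H] [Finite H] (p e : ℕ) (hp : p.Prime) (C : Subgroup H)
    (hC : C.index = p ^ e) (P : Sylow p H) (x : H) : ∃ u ∈ P, u⁻¹ * x ∈ C := by
  have hpf := Fact.mk hp
  have h1 : p ^ e ∣ C.relIndex P := by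
    have e1 := Subgroup.relIndex_mul_index (inf_le_left : C ⊓ (P : Subgroup H) ≤ C)
    have e2 := Subgroup.relIndex_mul_index (inf_le_right : C ⊓ (P : Subgroup H) ≤ P)
    rw [Subgroup.inf_relIndex_right] at e2
    have h2 : p ^ e ∣ C.relIndex P * (P : Subgroup H).index := by
      rw [e2, ← e1, hC]; exact dvd_mul_left _ _
    have hcop : Nat.Coprime (p ^ e) (P : Subgroup H).index := by
      apply Nat.Coprime.pow_left
      rw [hp.coprime_iff_not_dvd]
      exact P.not_dvd_index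
    exact hcop.dvd_of_dvd_mul_right h2
  have h2 : (MulAction.orbit P ((1 : H) : H ⧸ C)).ncard = C.relIndex P := by
    rw [← MulAction.index_stabilizer]
    show _ = (C.subgroupOf P).index
    congr 1
    ext u
    rw [MulAction.mem_stabilizer_iff, Subgroup.mem_subgroupOf]
    have e1 : u • ((1 : H) : H ⧸ C) = (((u : H) * 1 : H) : H ⧸ C) := rfl
    rw [e1, mul_one, eq_comm, QuotientGroup.eq, inv_one, one_mul]
  have h3 : MulAction.orbit P ((1 : H) : H ⧸ C) = Set.univ := by
    apply Set.eq_of_subset_of_ncard_le (Set.subset_univ _) _ Set.finite_univ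
    rw [Set.ncard_univ, h2, ← Subgroup.index_eq_card, hC]
    refine Nat.le_of_dvd ?_ h1
    exact Nat.pos_of_ne_zero (Subgroup.index_ne_zero_of_finite)
  have h4 : (x : H ⧸ C) ∈ MulAction.orbit P ((1 : H) : H ⧸ C) := by rw [h3]; trivial
  obtain ⟨u, hu⟩ := h4
  refine ⟨u, u.2, ?_⟩
  have e1 : (((u : H) * 1 : H) : H ⧸ C) = (x : H ⧸ C) := hu
  rw [mul_one] at e1
  exact QuotientGroup.eq.1 e1

variable {G : Type} [Group G] {B N : Subgroup G} {S : Set G}

lemma mem_conj_iff (w : G) (b : B) :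
    b ∈ (B.map (MulAut.conj w).toMonoidHom).subgroupOf B ↔ w⁻¹ * b * w ∈ B := by
  rw [Subgroup.mem_subgroupOf, Subgroup.mem_map]
  constructor
  · rintro ⟨x, hx, hxb⟩
    have : (b : G) = w * x * w⁻¹ := hxb.symm
    rw [this]
    have e : w⁻¹ * (w * x * w⁻¹) * w = x := by group
    rw [e]; exact hx
  · intro hb
    refine ⟨w⁻¹ * b * w, hb, ?_⟩
    show w * (w⁻¹ * b * w) * w⁻¹ = b
    group

/-- the sizes of the cells are `|B|` times powers of `p` -/
lemma IsBNPair.card_dc_pow [Finite G] (h : IsBNPair B N S) (p : ℕ)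
    (hq : ∀ s ∈ S, ∃ e, e ≠ 0 ∧ Nat.card (dc B s) = p ^ e * Nat.card B) (k : ℕ) :
    ∀ w ∈ N, blen B N S w = k → ∃ e, Nat.card (dc B w) = p ^ e * Nat.card B ∧ (w ∉ B → e ≠ 0) := by
  have hBpos : 0 < Nat.card B := Nat.card_pos
  induction k with
  | zero =>
    intro w hw hk
    have hwT := h.len_zero hw hk
    refine ⟨0, ?_, fun hwB => absurd hwT.1 hwB⟩
    rw [pow_zero, one_mul]
    refine Nat.card_congr
      { toFun := fun x => ⟨x.1, ?_⟩
        invFun := fun b => ⟨b.1, b.1 * w⁻¹, B.mul_mem b.2 (B.inv_mem hwT.1), 1, B.one_mem, by group⟩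
        left_inv := fun x => rfl
        right_inv := fun x => rfl }
    obtain ⟨x, b, hb, b', hb', rfl⟩ := x
    exact B.mul_mem (B.mul_mem hb hwT.1) hb'
  | succ k ih =>
    intro w hw hk
    obtain ⟨s, hs, v, hv, rfl, hvk⟩ := h.len_succR hw hk
    obtain ⟨e1, he1, _⟩ := ih v hv hvk
    obtain ⟨e2, he20, he2⟩ := hq s hs
    have hm := h.card_mul hv hs (by omega)
    rw [he1, he2] at hm
    refine ⟨e1 + e2, ?_, fun _ => by omega⟩
    apply Nat.eq_of_mul_eq_mul_right hBpos
    rw [← hm, pow_add]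
    ring

end H96S
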