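import Pool.Agent.Lib.H96S.BN3

/-!
# The Steinberg function of a finite group with a BN-pair is a zonal function (continued)
-/

namespace H96S

variable {G : Type} [Group G] {B N : Subgroup G} {S : Set G}

/-- data: parameters are `p`-powers -/
structure BNData (B N : Subgroup G) (S : Set G) (p : ℕ) (e : G → ℕ) (L : G → ℕ) : Prop where
  bn : IsBNPair B N S
  prime : p.Prime
  /-- the size of the cell of `g` is `p ^ e g * |B|` -/
  card : ∀ g : G, Nat.card (dc B g) = p ^ e g * Nat.card B
  pos : ∀ g : G, g ∉ B → e g ≠ 0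
  len : ∀ g : G, ∀ w ∈ N, g ∈ dc B w → L g = blen B N S w

lemma exists_bnData [Finite G] (h : IsBNPair B N S) (p : ℕ) (hp : p.Prime)
    (hq : ∀ s ∈ S, ∃ e, e ≠ 0 ∧ Nat.card (dc B s) = p ^ e * Nat.card B) :
    ∃ e L : G → ℕ, BNData B N S p e L := by
  have h1 : ∀ g : G, ∃ e, Nat.card (dc B g) = p ^ e * Nat.card B ∧ (g ∉ B → e ≠ 0) := by
    intro g
    obtain ⟨w, hw, hg⟩ := h.bruhat g
    obtain ⟨e, he, he'⟩ := h.card_dc_pow p hq _ w hw rfl
    refine ⟨e, by rw [dc_eq hg]; exact he, fun hgB => he' fun hwB => hgB ?_⟩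
    obtain ⟨b, hb, b', hb', rfl⟩ := hg
    exact B.mul_mem (B.mul_mem hb hwB) hb'
  choose e he he' using h1
  choose n hn hn' using h.bruhat
  refine ⟨e, fun g => blen B N S (n g), h, hp, he, he', ?_⟩
  intro g w hw hg
  exact h.len_of_dc hw (hn g) (dc_trans hg (dc_symm (hn' g)))

variable {p : ℕ} {e L : G → ℕ}

namespace BNData

variable (D : BNData B N S p e L)
include D

lemma e_congr [Finite G] {g g' : G} (hg : g ∈ dc B g') : e g = e g' := by
  have h1 := D.card g
  rw [dc_eq hg, D.card g'] at h1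
  have h2 := Nat.eq_of_mul_eq_mul_right Nat.card_pos h1
  exact (Nat.pow_right_injective D.prime.two_le h2).symm

lemma L_congr {g g' : G} (hg : g ∈ dc B g') : L g = L g' := by
  obtain ⟨w, hw, hg'⟩ := D.bn.bruhat g'
  rw [D.len g w hw (dc_trans hg' hg), D.len g' w hw hg']

lemma L_of_mem {w : G} (hw : w ∈ N) : L w = blen B N S w := D.len w w hw (mem_dc_self w)

lemma e_mul [Finite G] {w s : G} (hw : w ∈ N) (hs : s ∈ S) (hle : L w ≤ L (w * s)) :
    e (w * s) = e w + e s := by
  rw [D.L_of_mem hw, D.L_of_mem (N.mul_mem hw (D.bn.S_sub hs))] at hle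
  have h1 := D.bn.card_mul hw hs hle
  rw [D.card, D.card, D.card] at h1
  have hB : 0 < Nat.card B := Nat.card_pos
  have h2 : p ^ (e (w * s)) = p ^ (e w + e s) := by
    apply Nat.eq_of_mul_eq_mul_right (Nat.mul_pos hB hB)
    rw [pow_add]
    calc p ^ e (w * s) * (Nat.card B * Nat.card B) = p ^ e (w * s) * Nat.card B * Nat.card B := by ring
      _ = p ^ e w * Nat.card B * (p ^ e s * Nat.card B) := h1.symm
      _ = _ := by ring
  exact Nat.pow_right_injective D.prime.two_le h2

lemma L_mul {w s : G} (hw : w ∈ N) (hs : s ∈ S) (hle : L w ≤ L (w * s)) :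
    L (w * s) = L w + 1 := by
  have hws := N.mul_mem hw (D.bn.S_sub hs)
  rw [D.L_of_mem hw, D.L_of_mem hws] at *
  have h1 := D.bn.len_ne hw hs
  have h2 := D.bn.len_mul_S_le hw hs
  omega

/-- the Steinberg function -/
noncomputable def _root_.H96S.stf (G : Type) (p : ℕ) (e L : G → ℕ) (g : G) : ℤ :=
  (-1) ^ L g * (p : ℤ) ^ (Nat.card G - e g)

lemma e_le [Finite G] (g : G) : e g ≤ Nat.card G := by
  have h1 := D.card g
  have hB : 0 < Nat.card B := Nat.card_pos
  have h2 : Nat.card (dc B g) ≤ Nat.card G := Nat.card_le_card_of_injective _ Subtype.val_injective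
  have h3 : e g < p ^ e g := Nat.lt_pow_self D.prime.one_lt
  have h4 : p ^ e g ≤ p ^ e g * Nat.card B := Nat.le_mul_of_pos_right _ hB
  omega

lemma stf_congr [Finite G] {g g' : G} (hg : g ∈ dc B g') : stf G p e L g = stf G p e L g' := by
  rw [stf, stf, D.e_congr hg, D.L_congr hg]

lemma stf_up [Finite G] {w s : G} (hw : w ∈ N) (hs : s ∈ S) (hle : L w ≤ L (w * s)) :
    stf G p e L w = - ((p : ℤ) ^ e s * stf G p e L (w * s)) := by
  have h1 := D.e_mul hw hs hle
  have h2 := D.L_mul hw hs hle
  have h3 := D.e_le (w * s)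
  rw [stf, stf, h2, pow_succ]
  have h4 : Nat.card G - e w = e s + (Nat.card G - e (w * s)) := by omega
  rw [h4, pow_add]
  ring

open Classical in
/-- sum of a function over `w b s`, `b ∈ B`, if `w s` is longer -/
lemma sum_up [Fintype G] [Fintype B] (φ : G → ℚ) (hφ : ∀ g g' : G, g ∈ dc B g' → φ g = φ g') {w s : G}
    (hw : w ∈ N) (hs : s ∈ S) (hle : L w ≤ L (w * s)) :
    ∑ b : B, φ (w * b * s) = Nat.card B * φ (w * s) := by
  rw [D.L_of_mem hw, D.L_of_mem (N.mul_mem hw (D.bn.S_sub hs))] at hle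
  have h1 : ∀ b : B, φ (w * b * s) = φ (w * s) := fun b => hφ _ _ (D.bn.cell_up hw hs hle b.2)
  rw [Finset.sum_congr rfl (fun b _ => h1 b), Finset.sum_const, Finset.card_univ, nsmul_eq_mul,
    Nat.card_eq_fintype_card]

open Classical in
/-- the Steinberg function is an eigenfunction for the eigenvalue `-1` of the Hecke operators -/
lemma stf_hecke [Fintype G] [Fintype B] {s : G} (hs : s ∈ S) (g : G) :
    ((p : ℚ) ^ e s) * ∑ b : B, (stf G p e L (g * b * s) : ℚ) =
      - (Nat.card B * (stf G p e L g : ℚ)) := by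
  have hφ : ∀ g g' : G, g ∈ dc B g' → (stf G p e L g : ℚ) = stf G p e L g' := fun g g' hg => by
    rw [D.stf_congr hg]
  -- the case of `g ∈ N`
  have key : ∀ w ∈ N, ((p : ℚ) ^ e s) * ∑ b : B, (stf G p e L (w * b * s) : ℚ) =
      - (Nat.card B * (stf G p e L w : ℚ)) := by
    intro w hw
    rcases le_total (L w) (L (w * s)) with hle | hle
    · rw [D.sum_up (fun g => (stf G p e L g : ℚ)) hφ hw hs hle, D.stf_up hw hs hle]
      push_cast
      ring
    · have hsN := D.bn.S_sub hs
      have hss : w * s * s ∈ dc B w := by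
        rw [mul_assoc]; exact dc_right (mem_dc_self w) (D.bn.sq s hs)
      have hws : w * s ∈ N := N.mul_mem hw hsN
      have hLss : L (w * s * s) = L w := D.L_congr hss
      have hle' : L (w * s) ≤ L (w * s * s) := by rw [hLss]; exact hle
      have h1 : (stf G p e L (w * s) : ℚ) = - ((p : ℚ) ^ e s * stf G p e L w) := by
        rw [D.stf_up hws hs hle', D.stf_congr hss]
        push_cast
        ring
      have hcell : ∀ b ∈ B, w * s * b * s ∈ dc B (w * s * s) := fun b hb => by
        refine D.bn.cell_up hws hs ?_ hb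
        rw [← D.L_of_mem hws, ← D.L_of_mem (N.mul_mem hws hsN)]
        exact hle'
      -- values
      obtain ⟨t, ht, hst⟩ := D.bn.inv_eq hs
      have hval : ∀ b : B, (stf G p e L (w * b * s) : ℚ) =
          if s⁻¹ * (b : G) * s ∈ B then (stf G p e L (w * s) : ℚ) else stf G p e L w := by
        intro b
        split_ifs with hb
        · have e1 : w * b * s = w * s * (s⁻¹ * b * s) := by group
          rw [e1]
          exact hφ _ _ (dc_right (mem_dc_self _) hb)
        · have e2 : s⁻¹ * (b : G) * s ∈ dc B s := by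
            have e3 : s⁻¹ * (b : G) * s = s * (t * b) * s := by rw [hst]; group
            rw [e3]
            rcases D.bn.cellR hs hsN (B.mul_mem ht.1 b.2) with h2 | h2
            · exact h2
            · exfalso
              apply hb
              rw [e3]
              obtain ⟨c, hc, c', hc', he⟩ := h2
              rw [he]
              exact B.mul_mem (B.mul_mem hc (D.bn.sq s hs)) hc'
          obtain ⟨c, hc, c', hc', he⟩ := e2
          have e1 : w * b * s = w * s * c * s * c' := by
            have : w * b * s = w * s * (s⁻¹ * b * s) := by group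
            rw [this, he]; group
          rw [e1]
          exact hφ _ _ (dc_trans hss (dc_right (hcell c hc) hc'))
      rw [Finset.sum_congr rfl (fun b _ => hval b), Finset.sum_ite]
      simp only [Finset.sum_const, nsmul_eq_mul]
      -- the number of the `b` with `s⁻¹ b s ∈ B`
      set C := (B.map (MulAut.conj s).toMonoidHom).subgroupOf B with hC
      have hCcard : (Finset.univ.filter (fun b : B => s⁻¹ * (b : G) * s ∈ B)).card = Nat.card C := by
        rw [← Fintype.card_subtype, ← Nat.card_eq_fintype_card]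
        exact Nat.card_congr (Equiv.subtypeEquivRight fun b => (mem_conj_iff s b).symm)
      have hCi : C.index = p ^ e s := by
        have h2 := card_dc (B := B) s
        rw [D.card s] at h2
        exact (Nat.eq_of_mul_eq_mul_right Nat.card_pos h2).symm
      have hCm : Nat.card C * p ^ e s = Nat.card B := by rw [← hCi]; exact C.card_mul_index
      have hsum : (Finset.univ.filter (fun b : B => s⁻¹ * (b : G) * s ∈ B)).card +
          (Finset.univ.filter (fun b : B => ¬ s⁻¹ * (b : G) * s ∈ B)).card = Nat.card B := by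
        rw [Finset.card_filter_add_card_filter_not, Finset.card_univ, Nat.card_eq_fintype_card]
      have hsumQ : ((Finset.univ.filter (fun b : B => ¬ s⁻¹ * (b : G) * s ∈ B)).card : ℚ) =
          Nat.card B - Nat.card C := by
        rw [← hsum, hCcard]; push_cast; ring
      rw [hCcard, hsumQ, h1]
      have hCq : (Nat.card C : ℚ) * (p : ℚ) ^ e s = Nat.card B := by exact_mod_cast hCm
      have hpq : (p : ℚ) ^ e s ≠ 0 := pow_ne_zero _ (by exact_mod_cast D.prime.ne_zero)
      rw [← hCq]
      ring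
  obtain ⟨w, hw, b1, hb1, b2, hb2, rfl⟩ := D.bn.bruhat g
  have e1 : ∑ b : B, (stf G p e L (b1 * w * b2 * b * s) : ℚ) =
      ∑ b : B, (stf G p e L (w * b * s) : ℚ) := by
    refine Fintype.sum_equiv (Equiv.mulLeft (⟨b2, hb2⟩ : B)) _ _ fun b => ?_
    show (stf G p e L (b1 * w * b2 * b * s) : ℚ) = stf G p e L (w * (b2 * b) * s)
    have e2 : b1 * w * b2 * b * s = b1 * (w * (b2 * b) * s) := by group
    rw [e2]
    exact hφ _ _ (dc_left (mem_dc_self _) hb1)
  rw [e1, key w hw, hφ (b1 * w * b2) w ⟨b1, hb1, b2, hb2, rfl⟩]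

open Classical in
/-- uniqueness -/
lemma unique [Fintype G] [Fintype B] (φ : G → ℚ) (hφ : ∀ g g' : G, g ∈ dc B g' → φ g = φ g')
    (hH : ∀ s ∈ S, ∀ g, ((p : ℚ) ^ e s) * ∑ b : B, φ (g * b * s) = - (Nat.card B * φ g)) (g : G) :
    φ g * stf G p e L 1 = stf G p e L g * φ 1 := by
  have hφ' : ∀ g g' : G, g ∈ dc B g' → (stf G p e L g : ℚ) = stf G p e L g' := fun g g' hg => by
    rw [D.stf_congr hg]
  have key : ∀ k : ℕ, ∀ w ∈ N, blen B N S w = k → φ w * stf G p e L 1 = stf G p e L w * φ 1 := by
    intro k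
    induction k with
    | zero =>
      intro w hw hk
      have hwT := D.bn.len_zero hw hk
      have h1 : w ∈ dc B (1 : G) := ⟨w, hwT.1, 1, B.one_mem, by group⟩
      rw [hφ _ _ h1, hφ' _ _ h1]
      ring
    | succ k ih =>
      intro w hw hk
      obtain ⟨s, hs, v, hv, rfl, hvk⟩ := D.bn.len_succR hw hk
      have hle : L v ≤ L (v * s) := by
        rw [D.L_of_mem hv, D.L_of_mem hw]; omega
      have h1 := hH s hs v
      rw [D.sum_up φ hφ hv hs hle] at h1
      have h2 := D.stf_hecke hs v
      rw [D.sum_up (fun g => (stf G p e L g : ℚ)) hφ' hv hs hle] at h2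
      have h3 := ih v hv hvk
      have hB : (Nat.card B : ℚ) ≠ 0 := by exact_mod_cast Nat.card_pos.ne'
      have hpq : (p : ℚ) ^ e s ≠ 0 := pow_ne_zero _ (by exact_mod_cast D.prime.ne_zero)
      have h4 : φ v = - ((p : ℚ) ^ e s * φ (v * s)) := by
        apply mul_left_cancel₀ hB
        linarith
      have h5 : (stf G p e L v : ℚ) = - ((p : ℚ) ^ e s * stf G p e L (v * s)) := by
        apply mul_left_cancel₀ hB
        linarith
      rw [h4, h5] at h3
      apply mul_left_cancel₀ hpq
      linarith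
  obtain ⟨w, hw, hg⟩ := D.bn.bruhat g
  rw [hφ _ _ hg, hφ' _ _ hg]
  exact key _ w hw rfl

/-- congruence -/
lemma stf_mod [Finite G] (m : ℤ) (hm : ∀ s ∈ S, m ∣ (p : ℤ) ^ e s + 1) (g : G) :
    m ∣ stf G p e L g - stf G p e L 1 := by
  have key : ∀ k : ℕ, ∀ w ∈ N, blen B N S w = k → m ∣ stf G p e L w - stf G p e L 1 := by
    intro k
    induction k with
    | zero =>
      intro w hw hk
      have hwT := D.bn.len_zero hw hk
      have h1 : w ∈ dc B (1 : G) := ⟨w, hwT.1, 1, B.one_mem, by group⟩
      rw [D.stf_congr h1, sub_self]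
      exact dvd_zero _
    | succ k ih =>
      intro w hw hk
      obtain ⟨s, hs, v, hv, rfl, hvk⟩ := D.bn.len_succR hw hk
      have hle : L v ≤ L (v * s) := by
        rw [D.L_of_mem hv, D.L_of_mem hw]; omega
      have h1 := D.stf_up hv hs hle
      have h2 := ih v hv hvk
      have e1 : stf G p e L (v * s) - stf G p e L 1 =
          ((p : ℤ) ^ e s + 1) * stf G p e L (v * s) + (stf G p e L v - stf G p e L 1) := by
        rw [h1]; ring
      rw [e1]
      exact dvd_add (dvd_mul_of_dvd_left (hm s hs) _) h2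
  obtain ⟨w, hw, hg⟩ := D.bn.bruhat g
  rw [D.stf_congr hg]
  exact key _ w hw rfl

end BNData

end H96S
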