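import Pool.Agent.Lib.H96S.BN4

/-!
# Finite groups with a BN-pair: if two different primes divide all `q_s + 1`, then (∗) fails
-/

namespace H96S

variable {G : Type} [Group G] {B N : Subgroup G} {S : Set G} {p : ℕ} {e L : G → ℕ}

namespace BNData

variable (D : BNData B N S p e L)
include D

lemma index_conj [Finite G] (g : G) :
    ((B.map (MulAut.conj g).toMonoidHom).subgroupOf B).index = p ^ e g := by
  have h2 := card_dc (B := B) g
  rw [D.card g] at h2
  exact (Nat.eq_of_mul_eq_mul_right Nat.card_pos h2).symm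

/-- transitivity of a Sylow subgroup of `B` on the cells -/
lemma trans [Finite G] (P : Sylow p B) (g : G) (b : B) :
    ∃ u ∈ P, ∃ b' ∈ B, (b : G) * g = (u : G) * g * b' := by
  obtain ⟨u, hu, h1⟩ := sylow_transitive p (e g) D.prime _ (D.index_conj g) P b
  rw [mem_conj_iff] at h1
  refine ⟨u, hu, _, h1, ?_⟩
  push_cast
  group

lemma index_B [Finite G] (P : Sylow p B) : ¬ p ∣ B.index := by
  classical
  have hpf := Fact.mk D.prime
  set P' : Subgroup G := (P : Subgroup B).map B.subtype with hP'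
  have hmem : ∀ u : B, u ∈ P → (u : G) ∈ P' := fun u hu => ⟨u, hu, rfl⟩
  have hP'B : ∀ u ∈ P', u ∈ B := by
    rintro _ ⟨u, _, rfl⟩
    exact u.2
  have hpg : IsPGroup p P' := P.isPGroup'.map B.subtype
  have h1 := hpg.card_modEq_card_fixedPoints (G ⧸ B)
  have h2 : Nat.card (MulAction.fixedPoints P' (G ⧸ B)) = 1 := by
    rw [Nat.card_eq_one_iff_unique]
    have hone : ((1 : G) : G ⧸ B) ∈ MulAction.fixedPoints P' (G ⧸ B) := by
      intro u
      have e1 : u • ((1 : G) : G ⧸ B) = (((u : G) * 1 : G) : G ⧸ B) := rfl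
      rw [e1, mul_one, eq_comm, QuotientGroup.eq, inv_one, one_mul]
      exact hP'B u u.2
    have hall : ∀ q ∈ MulAction.fixedPoints P' (G ⧸ B), q = ((1 : G) : G ⧸ B) := by
      intro q hq
      induction q using QuotientGroup.induction_on with
      | H g =>
        have hgB : g ∈ B := by
          by_contra hgB
          apply D.pos g hgB
          have h3 : (B.map (MulAut.conj g).toMonoidHom).subgroupOf B = ⊤ := by
            rw [eq_top_iff]
            intro b _
            rw [mem_conj_iff]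
            obtain ⟨u, hu, b', hb', he⟩ := D.trans P g b
            have h4 := hq ⟨u, hmem u hu⟩
            have e1 : (⟨(u : G), hmem u hu⟩ : P') • (g : G ⧸ B) = (((u : G) * g : G) : G ⧸ B) := rfl
            rw [e1, eq_comm, QuotientGroup.eq] at h4
            have e2 : g⁻¹ * (b : G) * g = g⁻¹ * ((u : G) * g) * b' := by
              rw [mul_assoc g⁻¹, he]; group
            rw [e2]
            exact B.mul_mem h4 hb'
          have h5 := D.index_conj g
          rw [h3, Subgroup.index_top] at h5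
          by_contra hne
          have h6 : 1 < p ^ e g := Nat.one_lt_pow hne D.prime.one_lt
          omega
        rw [QuotientGroup.eq, mul_one]
        exact B.inv_mem hgB
    refine ⟨⟨fun a b => ?_⟩, ⟨⟨_, hone⟩⟩⟩
    exact Subtype.ext ((hall a a.2).trans (hall b b.2).symm)
  rw [h2, ← Subgroup.index_eq_card] at h1
  intro hd
  have h3 : p ∣ 1 := (Nat.ModEq.dvd_iff h1 dvd_rfl).1 hd
  exact D.prime.one_lt.ne' (Nat.dvd_one.1 h3)

end BNData

/-- A finite group with a BN-pair (with at least one distinguished generator) whose parameters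
`q_s = |B s B| / |B|` are powers of a prime `p` such that two different primes divide all `q_s + 1`
has a zonal function. -/
theorem zonal_of_bn [Finite G] (h : IsBNPair B N S) (hS : S.Nonempty) (p r r' : ℕ) (hp : p.Prime)
    (hr : r.Prime) (hr' : r'.Prime) (hrr : r ≠ r')
    (hq : ∀ s ∈ S, ∃ e, Nat.card (dc B s) = p ^ e * Nat.card B ∧ r * r' ∣ p ^ e + 1) :
    Zonal G := by
  classical
  have hpf := Fact.mk hp
  have hGf := Fintype.ofFinite G
  have hBf : Fintype B := Fintype.ofFinite B
  have hne0 : ∀ e, r * r' ∣ p ^ e + 1 → e ≠ 0 := by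
    rintro e hd rfl
    rw [pow_zero] at hd
    have h1 := Nat.le_of_dvd (by norm_num) hd
    have h2 := hr.two_le
    have h3 := hr'.two_le
    nlinarith
  obtain ⟨e, L, D⟩ := exists_bnData h p hp (fun s hs => by
    obtain ⟨e, he, hd⟩ := hq s hs
    exact ⟨e, hne0 e hd, he⟩)
  have hqe : ∀ s ∈ S, r * r' ∣ p ^ e s + 1 := by
    intro s hs
    obtain ⟨e', he', hd⟩ := hq s hs
    have h1 := D.card s
    rw [he'] at h1
    rw [← Nat.eq_of_mul_eq_mul_right Nat.card_pos h1]
    exact hd
  obtain ⟨s₀, hs₀⟩ := hS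
  have hes₀ : e s₀ ≠ 0 := hne0 _ (hqe s₀ hs₀)
  have hnot : ∀ x : ℕ, x.Prime → x ∣ r * r' → p ≠ x := by
    rintro x hx hxd rfl
    have h1 : p ∣ p ^ e s₀ + 1 := dvd_trans hxd (hqe s₀ hs₀)
    have h2 : p ∣ 1 := (Nat.dvd_add_right (dvd_pow_self p hes₀)).1 h1
    exact hp.one_lt.ne' (Nat.dvd_one.1 h2)
  have hpr : p ≠ r := hnot r hr (dvd_mul_right _ _)
  have hpr' : p ≠ r' := hnot r' hr' (dvd_mul_left _ _)
  obtain ⟨PB⟩ : Nonempty (Sylow p B) := inferInstance
  set P' : Subgroup G := (PB : Subgroup B).map B.subtype with hP'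
  have hmem : ∀ u : B, u ∈ PB → (u : G) ∈ P' := fun u hu => ⟨u, hu, rfl⟩
  have hP'B : ∀ u ∈ P', u ∈ B := by
    rintro _ ⟨u, _, rfl⟩
    exact u.2
  have hpg : IsPGroup p P' := PB.isPGroup'.map B.subtype
  have hidx : ¬ p ∣ P'.index := by
    rw [hP', Subgroup.index_map_subtype]
    intro hd
    rcases hp.dvd_mul.1 hd with h1 | h1
    · exact PB.not_dvd_index h1
    · exact D.index_B PB h1
  have hcong : ∀ g g' : G, g ∈ dc B g' → (stf G p e L g : ℚ) = stf G p e L g' := fun g g' hg => by
    rw [D.stf_congr hg]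
  have hf1 : (stf G p e L 1 : ℚ) ≠ 0 := by
    have : stf G p e L 1 ≠ 0 := by
      rw [stf]
      exact mul_ne_zero (pow_ne_zero _ (by norm_num)) (pow_ne_zero _ (by exact_mod_cast hp.ne_zero))
    exact_mod_cast this
  refine ⟨p, r, r', hpg.toSylow hidx, stf G p e L, stf G p e L 1, hp, hr, hr', hpr, hpr', hrr,
    ?_, ?_, ?_, ?_, ?_⟩
  · -- p divides the order
    have h1 := D.index_conj s₀
    have h2 : p ^ e s₀ ∣ Nat.card B := by rw [← h1]; exact Subgroup.index_dvd_card _
    exact (dvd_pow_self p hes₀).trans (h2.trans (Subgroup.card_subgroup_dvd_card B))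
  · -- not constant
    refine ⟨1, s₀, ?_⟩
    have h1 : L (1 : G) ≤ L (1 * s₀) := by
      rw [D.L_of_mem N.one_mem, D.bn.len_T (B ⊓ N).one_mem]
      exact Nat.zero_le _
    have h2 := D.stf_up N.one_mem hs₀ h1
    rw [one_mul] at h2
    intro heq
    rw [← heq] at h2
    have h3 : ((p : ℤ) ^ e s₀ + 1) * stf G p e L 1 = 0 := by linarith
    rcases mul_eq_zero.1 h3 with h4 | h4
    · have h5 : (0 : ℤ) < (p : ℤ) ^ e s₀ + 1 := by positivity
      omega
    · apply hf1
      rw [h4]; push_cast; rfl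
  · -- functional equation
    intro g
    -- psi
    set ψ : G → ℚ := fun h => ∑ u : P', (stf G p e L (g * u * h) : ℚ) with hψ
    have hright : ∀ x : G, ∀ b ∈ B, ψ (x * b) = ψ x := by
      intro x b hb
      refine Finset.sum_congr rfl fun u _ => ?_
      have e1 : g * u * (x * b) = g * u * x * b := by group
      rw [e1]
      exact hcong _ _ (dc_right (mem_dc_self _) hb)
    have hleftP : ∀ x : G, ∀ v ∈ P', ψ (v * x) = ψ x := by
      intro x v hv
      refine Fintype.sum_equiv (Equiv.mulRight (⟨v, hv⟩ : P')) _ _ fun u => ?_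
      show (stf G p e L (g * u * (v * x)) : ℚ) = stf G p e L (g * (u * v) * x)
      congr 2
      group
    have hψc : ∀ x x' : G, x ∈ dc B x' → ψ x = ψ x' := by
      rintro x x' ⟨b, hb, b', hb', rfl⟩
      obtain ⟨u, hu, b'', hb'', he⟩ := D.trans PB x' ⟨b, hb⟩
      have he' : b * x' = (u : G) * x' * b'' := he
      rw [hright _ b' hb', he', hright _ b'' hb'', hleftP _ _ (hmem u hu)]
    have hψH : ∀ s ∈ S, ∀ x, ((p : ℚ) ^ e s) * ∑ b : B, ψ (x * b * s) = - (Nat.card B * ψ x) := by
      intro s hs x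
      rw [hψ]
      simp only
      rw [Finset.sum_comm, Finset.mul_sum, Finset.mul_sum, ← Finset.sum_neg_distrib]
      refine Finset.sum_congr rfl fun u _ => ?_
      rw [← D.stf_hecke hs (g * u * x)]
      congr 1
      refine Finset.sum_congr rfl fun b _ => ?_
      congr 2
      group
    refine ⟨ψ 1 / stf G p e L 1, fun x => ?_⟩
    have h1 := D.unique ψ hψc hψH x
    have h2 : (∑ᶠ u : P', (stf G p e L (g * u * x) : ℚ)) = ψ x := by
      rw [finsum_eq_sum_of_fintype]
    refine Eq.trans h2 ?_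
    field_simp
    linarith
  · -- congruence
    intro g
    refine D.stf_mod _ (fun s hs => ?_) g
    exact_mod_cast hqe s hs
  · -- coprime
    rw [stf]
    apply IsCoprime.mul_left
    · exact (isCoprime_one_left.neg_left).pow_left
    · apply IsCoprime.pow_left
      have h1 : Nat.Coprime p (r * r') :=
        Nat.Coprime.mul_right ((Nat.coprime_primes hp hr).2 hpr) ((Nat.coprime_primes hp hr').2 hpr')
      have h2 := Nat.isCoprime_iff_coprime.2 h1
      push_cast at h2
      exact h2

theorem not_star_of_bn [Finite G] (h : IsBNPair B N S) (hS : S.Nonempty) (p r r' : ℕ)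
    (hp : p.Prime) (hr : r.Prime) (hr' : r'.Prime) (hrr : r ≠ r')
    (hq : ∀ s ∈ S, ∃ e, Nat.card (dc B s) = p ^ e * Nat.card B ∧ r * r' ∣ p ^ e + 1) : ¬ Star G :=
  not_star_of_zonal (zonal_of_bn h hS p r r' hp hr hr' hrr hq)

end H96S
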