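import Pool.Agent.Lib.H96S.BN3

/-!
# BN-pairs: exchange condition, weights of reduced words
-/

namespace H96S

variable {G : Type} [Group G] {B N : Subgroup G} {S : Set G}

namespace IsBNPair

variable (h : IsBNPair B N S)
include h

lemma word_inv {k : ℕ} {w : G} (hw : IsWord B N S k w) : IsWord B N S k w⁻¹ := by
  obtain ⟨M, hM, hMS, t, ht, rfl⟩ := hw
  have key : ∀ M : List G, (∀ s ∈ M, s ∈ S) → IsWord B N S M.length M.prod⁻¹ := by
    intro M
    induction M with
    | nil =>
      intro _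
      rw [List.prod_nil, inv_one]
      exact h.word_one
    | cons s M ih =>
      intro hMS
      have hs : s ∈ S := hMS s (by simp)
      obtain ⟨t, ht, hst⟩ := h.inv_eq hs
      have h1 := h.word_mul_T (h.word_mul_S (ih fun x hx => hMS x (by simp [hx])) hs) ht
      rw [List.prod_cons, mul_inv_rev, hst, List.length_cons, ← mul_assoc]
      exact h1
  rw [mul_inv_rev, ← hM]
  exact h.word_T_mul (key M hMS) ((B ⊓ N).inv_mem ht)

lemma len_inv {w : G} (hw : w ∈ N) : blen B N S w⁻¹ = blen B N S w := by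
  apply le_antisymm
  · exact len_le (h.word_inv (h.len_spec hw))
  · have h1 := len_le (h.word_inv (h.len_spec (N.inv_mem hw)))
    rwa [inv_inv] at h1

lemma len_T_mul {w t : G} (hw : w ∈ N) (ht : t ∈ B ⊓ N) : blen B N S (t * w) = blen B N S w := by
  have h1 := h.len_mul_T (N.inv_mem hw) ((B ⊓ N).inv_mem ht)
  rw [← mul_inv_rev, h.len_inv (N.mul_mem ht.2 hw), h.len_inv hw] at h1
  exact h1

lemma len_neL {w s : G} (hw : w ∈ N) (hs : s ∈ S) : blen B N S (s * w) ≠ blen B N S w := by
  obtain ⟨t, ht, hst⟩ := h.inv_eq hs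
  have h1 := h.len_ne (N.inv_mem hw) hs
  have h2 : blen B N S (w⁻¹ * s) = blen B N S (s * w) := by
    have e1 : w⁻¹ * s = (s * w)⁻¹ * (s * s) := by group
    rw [e1, h.len_mul_T (N.inv_mem (N.mul_mem (h.S_sub hs) hw)) (h.sqT hs),
      h.len_inv (N.mul_mem (h.S_sub hs) hw)]
  rw [h2, h.len_inv hw] at h1
  exact h1

/-- the folding condition -/
lemma folding {w s t : G} (hw : w ∈ N) (hs : s ∈ S) (ht : t ∈ S)
    (h1 : blen B N S w ≤ blen B N S (w * s)) (h2 : blen B N S w < blen B N S (t * w))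
    (h3 : blen B N S (t * w * s) ≤ blen B N S w) : (w * s)⁻¹ * (t * w) ∈ B ⊓ N := by
  have hsN := h.S_sub hs
  have htN := h.S_sub ht
  have hx : t * w ∈ N := N.mul_mem htN hw
  have hy : t * w * s ∈ N := N.mul_mem hx hsN
  have hws : w * s ∈ N := N.mul_mem hw hsN
  obtain ⟨b0, hb0, hbs⟩ := h.nontriv s hs
  obtain ⟨τ, hτ, hst⟩ := h.inv_eq hs
  -- `s b0 s ∈ B s B`
  have h4 : s * b0 * s ∈ dc B s := by
    rcases h.cellR hs hsN hb0 with h5 | h5
    · exact h5
    · exfalso
      apply hbs
      obtain ⟨c, hc, c', hc', he⟩ := h5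
      have h6 : s * b0 * s ∈ B := by
        rw [he]; exact B.mul_mem (B.mul_mem hc (h.sq s hs)) hc'
      have e : s * b0 * s⁻¹ = (s * b0 * s) * (s * s)⁻¹ := by group
      rw [e]
      exact B.mul_mem h6 (B.inv_mem (h.sq s hs))
  obtain ⟨c, hc, c', hc', he⟩ := h4
  have hyss : blen B N S (t * w * s * s) = blen B N S (t * w) := by
    rw [mul_assoc (t * w)]; exact h.len_mul_T hx (h.sqT hs)
  set b := τ⁻¹ * b0 with hb
  have hbB : b ∈ B := B.mul_mem (B.inv_mem hτ.1) hb0
  have e1 : t * w * b * s = t * w * s * c * s * c' := by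
    have : t * w * b * s = t * w * s * (s⁻¹ * b * s) := by group
    rw [this, hst, hb]
    have e2 : s * τ * (τ⁻¹ * b0) * s = s * b0 * s := by group
    rw [e2, he]; group
  have h5 : t * w * b * s ∈ dc B (t * w * s * s) := by
    rw [e1]
    exact dc_right (h.cell_up hy hs (by rw [hyss]; omega) hc) hc'
  have h6 : t * w * b * s ∈ dc B (t * w) := by
    have e2 : dc B (t * w * s * s) = dc B (t * w) := by
      rw [mul_assoc (t * w)]; exact h.dc_mul_T (h.sqT hs)
    rw [e2] at h5; exact h5
  obtain ⟨d, hd, d', hd', he'⟩ := h.cell_up hw hs h1 hbB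
  have e3 : t * w * b * s = t * d * (w * s) * d' := by
    have : t * w * b * s = t * (w * b * s) := by group
    rw [this, he']; group
  rcases h.cell t ht (w * s) hws d hd with h7 | h7
  · have h8 : t * w ∈ dc B (w * s) := by
      have h9 : t * w * b * s ∈ dc B (w * s) := by rw [e3]; exact dc_right h7 hd'
      exact dc_trans h9 (dc_symm h6)
    exact h.bruhat_unique hws hx h8
  · exfalso
    have h9 : t * w * b * s ∈ dc B (t * (w * s)) := by rw [e3]; exact dc_right h7 hd'
    rw [← mul_assoc] at h9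
    exact h.mul_S_not_mem hx hs (dc_trans h6 (dc_symm h9))

/-- exchange condition -/
lemma exchange (M : List G) : (∀ s ∈ M, s ∈ S) → blen B N S M.prod = M.length → ∀ t ∈ S,
    blen B N S (t * M.prod) < blen B N S M.prod →
    ∃ M1 s M2, M = M1 ++ s :: M2 ∧ (M1.prod * s)⁻¹ * (t * M1.prod) ∈ B ⊓ N := by
  induction M using List.reverseRecOn with
  | nil =>
    intro _ _ t ht hlt
    rw [List.prod_nil, h.len_T (B ⊓ N).one_mem] at hlt
    omega
  | append_singleton M s ih =>
    intro hMS hlen t ht hlt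
    have hs : s ∈ S := hMS s (by simp)
    have hMS' : ∀ x ∈ M, x ∈ S := fun x hx => hMS x (by simp [hx])
    have hMN : M.prod ∈ N := h.prod_mem hMS'
    rw [List.prod_append, List.prod_singleton] at hlen hlt
    rw [List.length_append, List.length_singleton] at hlen
    have h1 : blen B N S M.prod ≤ M.length :=
      len_le ⟨M, rfl, hMS', 1, (B ⊓ N).one_mem, by rw [mul_one]⟩
    have h2 := h.len_mul_S_le hMN hs
    have hM : blen B N S M.prod = M.length := by omega
    by_cases h3 : blen B N S (t * M.prod) < blen B N S M.prod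
    · obtain ⟨M1, s', M2, he, hT⟩ := ih hMS' hM t ht h3
      exact ⟨M1, s', M2 ++ [s], by rw [he]; simp, hT⟩
    · have h4 := h.len_neL hMN ht
      refine ⟨M, s, [], rfl, h.folding hMN hs ht (by omega) (by omega) ?_⟩
      rw [mul_assoc]
      omega

/-- the weight of a reduced word depends only on the element -/
lemma weight_unique (c : G → ℕ)
    (hc : ∀ s ∈ S, ∀ t ∈ S, ∀ w ∈ N, (w * s)⁻¹ * (t * w) ∈ B ⊓ N → c s = c t) (k : ℕ) :
    ∀ M M' : List G, (∀ s ∈ M, s ∈ S) → (∀ s ∈ M', s ∈ S) → M.length = k → M'.length = k →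
      blen B N S M.prod = k → M.prod⁻¹ * M'.prod ∈ B ⊓ N → (M.map c).sum = (M'.map c).sum := by
  induction k with
  | zero =>
    intro M M' _ _ h1 h2 _ _
    rw [List.length_eq_zero_iff.1 h1, List.length_eq_zero_iff.1 h2]
  | succ k ih =>
    intro M M' hMS hMS' h1 h2 h3 h4
    match M', h2, hMS', h4 with
    | t :: M'', h2, hMS', h4 =>
      have ht : t ∈ S := hMS' t (by simp)
      have hM''S : ∀ x ∈ M'', x ∈ S := fun x hx => hMS' x (by simp [hx])
      have hlen2 : M''.length = k := by simpa using h2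
      have hMN := h.prod_mem hMS
      have hM''N := h.prod_mem hM''S
      rw [List.prod_cons] at h4
      -- `t * M.prod` is `t * t * M''.prod` modulo T
      have h5 : blen B N S (t * M.prod) ≤ k := by
        have e1 : t * M.prod = (t * t) * (M''.prod * (M.prod⁻¹ * (t * M''.prod))⁻¹) := by group
        rw [e1, h.len_T_mul (N.mul_mem hM''N ((B ⊓ N).inv_mem h4).2) (h.sqT ht),
          h.len_mul_T hM''N ((B ⊓ N).inv_mem h4)]
        exact (len_le ⟨M'', rfl, hM''S, 1, (B ⊓ N).one_mem, by rw [mul_one]⟩).trans hlen2.le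
      obtain ⟨M1, s, M2, he, hT⟩ := h.exchange M hMS (by rw [h3, h1]) t ht (by omega)
      have hs : s ∈ S := hMS s (by rw [he]; simp)
      have hM1S : ∀ x ∈ M1, x ∈ S := fun x hx => hMS x (by rw [he]; simp [hx])
      have hM2S : ∀ x ∈ M2, x ∈ S := fun x hx => hMS x (by rw [he]; simp [hx])
      have hM1N := h.prod_mem hM1S
      have hM2N := h.prod_mem hM2S
      have hcs := hc s hs t ht M1.prod hM1N hT
      have hlen12 : (M1 ++ M2).length = k := by
        rw [he] at h1
        simp at h1 ⊢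
        omega
      have hprod : M.prod = M1.prod * s * M2.prod := by
        rw [he, List.prod_append, List.prod_cons, mul_assoc]
      set τ := (M1.prod * s)⁻¹ * (t * M1.prod) with hτ
      -- `M.prod = t * M1.prod * τ⁻¹ * M2.prod`
      have e2 : M.prod = t * (M1.prod * M2.prod) * (M2.prod⁻¹ * τ⁻¹ * M2.prod) := by
        rw [hprod, hτ]; group
      have hσ : M2.prod⁻¹ * τ⁻¹ * M2.prod ∈ B ⊓ N := h.normT' hM2N ((B ⊓ N).inv_mem hT)
      have hlenP : blen B N S (M1 ++ M2).prod = k := by
        apply le_antisymm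
        · exact (len_le ⟨M1 ++ M2, rfl, by
            intro x hx
            rcases List.mem_append.1 hx with hx | hx
            · exact hM1S x hx
            · exact hM2S x hx, 1, (B ⊓ N).one_mem, by rw [mul_one]⟩).trans hlen12.le
        · rw [List.prod_append]
          have h6 := h.len_S_mul_le (N.mul_mem hM1N hM2N) ht
          rw [e2, h.len_mul_T (N.mul_mem (h.S_sub ht) (N.mul_mem hM1N hM2N)) hσ] at h3
          omega
      have h7 : (M1 ++ M2).prod⁻¹ * M''.prod ∈ B ⊓ N := by
        rw [List.prod_append]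
        have e3 : (M1.prod * M2.prod)⁻¹ * M''.prod =
            (M2.prod⁻¹ * τ⁻¹ * M2.prod) * (M.prod⁻¹ * (t * M''.prod)) := by
          rw [e2]; group
        rw [e3]
        exact (B ⊓ N).mul_mem hσ h4
      have h8 := ih (M1 ++ M2) M'' (by
        intro x hx
        rcases List.mem_append.1 hx with hx | hx
        · exact hM1S x hx
        · exact hM2S x hx) hM''S hlen12 hlen2 hlenP h7
      rw [he]
      simp only [List.map_append, List.map_cons, List.sum_append, List.sum_cons] at h8 ⊢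
      omega

/-- existence of the weight function -/
lemma exists_weight (c : G → ℕ)
    (hc : ∀ s ∈ S, ∀ t ∈ S, ∀ w ∈ N, (w * s)⁻¹ * (t * w) ∈ B ⊓ N → c s = c t) :
    ∃ W : G → ℕ, (∀ g g' : G, g ∈ dc B g' → W g = W g') ∧ W 1 = 0 ∧
      ∀ w ∈ N, ∀ s ∈ S, blen B N S w < blen B N S (w * s) → W (w * s) = W w + c s := by
  classical
  have h1 : ∀ w ∈ N, ∃ k, ∀ M : List G, (∀ s ∈ M, s ∈ S) → M.length = blen B N S w →
      M.prod⁻¹ * w ∈ B ⊓ N → (M.map c).sum = k := by
    intro w hw
    obtain ⟨M0, h0, hM0, t0, ht0, hw0⟩ := h.len_spec hw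
    refine ⟨(M0.map c).sum, fun M hM hl hT => ?_⟩
    have hMN := h.prod_mem hM
    have hlen : blen B N S M.prod = blen B N S w := by
      have e1 : w = M.prod * (M.prod⁻¹ * w) := by group
      conv_rhs => rw [e1]
      rw [h.len_mul_T hMN hT]
    refine h.weight_unique c hc (blen B N S w) M M0 hM hM0 hl h0 hlen ?_
    have e2 : M.prod⁻¹ * M0.prod = (M.prod⁻¹ * w) * t0⁻¹ := by rw [hw0]; group
    rw [e2]
    exact (B ⊓ N).mul_mem hT ((B ⊓ N).inv_mem ht0)
  choose n hn hn' using h.bruhat
  choose k hk using h1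
  have hW : ∀ w (hw : w ∈ N) g, g ∈ dc B w → k (n g) (hn g) = k w hw := by
    intro w hw g hg
    have h2 : n g ∈ dc B w := dc_trans hg (dc_symm (hn' g))
    have h3 := h.bruhat_unique hw (hn g) h2
    have h4 := h.len_of_dc hw (hn g) h2
    obtain ⟨M0, h0, hM0, t0, ht0, hw0⟩ := h.len_spec hw
    have e1 : M0.prod⁻¹ * w = t0 := by rw [hw0]; group
    rw [← hk w hw M0 hM0 h0 (by rw [e1]; exact ht0)]
    symm
    refine hk (n g) (hn g) M0 hM0 (by rw [h0, h4]) ?_
    have e2 : M0.prod⁻¹ * n g = t0 * (w⁻¹ * n g) := by rw [hw0]; group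
    rw [e2]
    exact (B ⊓ N).mul_mem ht0 h3
  refine ⟨fun g => k (n g) (hn g), ?_, ?_, ?_⟩
  · intro g g' hg
    exact hW (n g') (hn g') g (dc_trans (hn' g') hg)
  · show k (n 1) (hn 1) = 0
    rw [hW 1 N.one_mem 1 (mem_dc_self 1)]
    have h2 : blen B N S (1 : G) = 0 := h.len_T (B ⊓ N).one_mem
    rw [← hk 1 N.one_mem [] (by simp) (by simp [h2]) (by simp [(B ⊓ N).one_mem])]
    rfl
  · intro w hw s hs hlt
    have hws := N.mul_mem hw (h.S_sub hs)
    show k (n (w * s)) (hn (w * s)) = k (n w) (hn w) + c s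
    rw [hW (w * s) hws _ (mem_dc_self _), hW w hw _ (mem_dc_self _)]
    obtain ⟨M0, h0, hM0, t0, ht0, hw0⟩ := h.len_spec hw
    have e1 : M0.prod⁻¹ * w = t0 := by rw [hw0]; group
    rw [← hk w hw M0 hM0 h0 (by rw [e1]; exact ht0)]
    have h5 := h.len_mul_S_le hw hs
    rw [← hk (w * s) hws (M0 ++ [s]) (by
      intro x hx
      rcases List.mem_append.1 hx with hx | hx
      · exact hM0 x hx
      · rw [List.mem_singleton.1 hx]; exact hs) (by
      rw [List.length_append, List.length_singleton, h0]; omega) (by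
      rw [List.prod_append, List.prod_singleton, hw0]
      have e2 : (M0.prod * s)⁻¹ * (M0.prod * t0 * s) = s⁻¹ * t0 * s := by group
      rw [e2]
      exact h.normT' (h.S_sub hs) ht0)]
    rw [List.map_append, List.sum_append]
    simp

end IsBNPair

end H96S
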