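import Pool.Agent.Lib.H96S.BN5
import Pool.Agent.Lib.H96S.BN6

/-!
# Linear characters of the Hecke algebra give zonal functions
-/

namespace H96S

variable {G : Type} [Group G] {B N : Subgroup G} {S : Set G}

lemma card_dc_inv [Finite G] (g : G) : Nat.card (dc B g⁻¹) = Nat.card (dc B g) := by
  refine Nat.card_congr
    { toFun := fun x => ⟨x.1⁻¹, ?_⟩
      invFun := fun x => ⟨x.1⁻¹, dc_inv x.2⟩
      left_inv := fun x => by simp
      right_inv := fun x => by simp }
  have h1 := dc_inv x.2
  rwa [inv_inv] at h1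

variable {p : ℕ} {e L : G → ℕ}

lemma BNData.e_inv [Finite G] (D : BNData B N S p e L) (g : G) : e g⁻¹ = e g := by
  have h1 := card_dc_inv (B := B) g
  rw [D.card, D.card] at h1
  exact Nat.pow_right_injective D.prime.two_le (Nat.eq_of_mul_eq_mul_right Nat.card_pos h1)

/-- the parameters are constant on classes -/
lemma BNData.e_conj [Finite G] (D : BNData B N S p e L) {s t w : G} (hs : s ∈ S) (ht : t ∈ S)
    (hw : w ∈ N) (hT : (w * s)⁻¹ * (t * w) ∈ B ⊓ N) : e s = e t := by
  have h := D.bn
  have hsN := h.S_sub hs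
  have htN := h.S_sub ht
  -- the case where `w s` is longer
  have key : ∀ w ∈ N, (w * s)⁻¹ * (t * w) ∈ B ⊓ N → blen B N S w < blen B N S (w * s) → e s = e t := by
    intro w hw hT hlt
    have hws : w * s ∈ N := N.mul_mem hw hsN
    have h1 : e (w * s) = e w + e s := by
      refine D.e_mul hw hs ?_
      rw [D.L_of_mem hw, D.L_of_mem hws]; omega
    have h2 : e (t * w) = e (w * s) := by
      refine D.e_congr ?_
      have e1 : t * w = w * s * ((w * s)⁻¹ * (t * w)) := by group
      rw [e1]
      exact dc_right (mem_dc_self _) hT.1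
    have hlen : blen B N S (t * w) = blen B N S (w * s) := by
      have e1 : t * w = w * s * ((w * s)⁻¹ * (t * w)) := by group
      rw [e1, h.len_mul_T hws hT]
    have h3 : e (t * w) = e t + e w := by
      obtain ⟨τ, hτ, htτ⟩ := h.inv_eq ht
      have e1 : (t * w)⁻¹ = w⁻¹ * t * τ := by rw [mul_inv_rev, htτ]; group
      have e2 : e (t * w)⁻¹ = e (w⁻¹ * t) := by
        rw [e1]
        exact D.e_congr (dc_right (mem_dc_self _) hτ.1)
      have e3 : e (w⁻¹ * t) = e w⁻¹ + e t := by
        refine D.e_mul (N.inv_mem hw) ht ?_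
        rw [D.L_of_mem (N.inv_mem hw), D.L_of_mem (N.mul_mem (N.inv_mem hw) htN), h.len_inv hw]
        have e4 : blen B N S (w⁻¹ * t) = blen B N S (t * w) := by
          rw [← h.len_inv (N.mul_mem htN hw), e1,
            h.len_mul_T (N.mul_mem (N.inv_mem hw) htN) hτ]
        rw [e4, hlen]
        omega
      rw [D.e_inv] at e2
      rw [e2, e3, D.e_inv]
      omega
    omega
  rcases lt_or_gt_of_ne (h.len_ne hw hs) with h1 | h1
  · -- replace `w` by `w s`
    have hws : w * s ∈ N := N.mul_mem hw hsN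
    refine key (w * s) hws ?_ ?_
    · have e1 : (w * s * s)⁻¹ * (t * (w * s)) =
          (s⁻¹ * ((w * s)⁻¹ * (t * w)) * s) := by group
      rw [e1]
      exact h.normT' hsN hT
    · have e1 : blen B N S (w * s * s) = blen B N S w := by
        rw [mul_assoc]; exact h.len_mul_T hw (h.sqT hs)
      rw [e1]; exact h1
  · exact key w hw hT h1

/-- data for the linear character with value `-1` on `K` -/
structure BNDataK (B N : Subgroup G) (S K : Set G) (p : ℕ) (e L M E : G → ℕ) : Prop where
  D : BNData B N S p e L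
  sub : K ⊆ S
  M_congr : ∀ g g' : G, g ∈ dc B g' → M g = M g'
  E_congr : ∀ g g' : G, g ∈ dc B g' → E g = E g'
  M_up : ∀ w ∈ N, ∀ s ∈ K, L w ≤ L (w * s) → M (w * s) = M w + 1
  E_up : ∀ w ∈ N, ∀ s ∈ K, L w ≤ L (w * s) → E (w * s) = E w + e s
  M_same : ∀ w ∈ N, ∀ s ∈ S, s ∉ K → L w ≤ L (w * s) → M (w * s) = M w
  E_same : ∀ w ∈ N, ∀ s ∈ S, s ∉ K → L w ≤ L (w * s) → E (w * s) = E w
  E_le : ∀ g, E g ≤ e g

lemma exists_bnDataK [Finite G] (D : BNData B N S p e L) (K : Set G) (hKS : K ⊆ S)
    (hK : ∀ s ∈ K, ∀ t ∈ S, ∀ w ∈ N, (w * s)⁻¹ * (t * w) ∈ B ⊓ N → t ∈ K) :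
    ∃ M E : G → ℕ, BNDataK B N S K p e L M E := by
  classical
  have h := D.bn
  have hK' : ∀ s ∈ S, ∀ t ∈ S, ∀ w ∈ N, (w * s)⁻¹ * (t * w) ∈ B ⊓ N → (s ∈ K ↔ t ∈ K) := by
    intro s hs t ht w hw hT
    refine ⟨fun hsK => hK s hsK t ht w hw hT, fun htK => ?_⟩
    refine hK t htK s hs w⁻¹ (N.inv_mem hw) ?_
    have e1 : (w⁻¹ * t)⁻¹ * (s * w⁻¹) = w * ((w * s)⁻¹ * (t * w))⁻¹ * w⁻¹ := by
      group
    rw [e1]
    exact h.normT hw ((B ⊓ N).inv_mem hT)
  obtain ⟨M, hM1, hM2, hM3⟩ := h.exists_weight (fun s => if s ∈ K then 1 else 0) (by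
    intro s hs t ht w hw hT
    simp only [hK' s hs t ht w hw hT])
  obtain ⟨E, hE1, hE2, hE3⟩ := h.exists_weight (fun s => if s ∈ K then e s else 0) (by
    intro s hs t ht w hw hT
    simp only [hK' s hs t ht w hw hT, D.e_conj hs ht hw hT])
  have hlt : ∀ w ∈ N, ∀ s ∈ S, L w ≤ L (w * s) → blen B N S w < blen B N S (w * s) := by
    intro w hw s hs hle
    rw [D.L_of_mem hw, D.L_of_mem (N.mul_mem hw (h.S_sub hs))] at hle
    exact lt_of_le_of_ne hle (h.len_ne hw hs).symm
  refine ⟨M, E, D, hKS, hM1, hE1, ?_, ?_, ?_, ?_, ?_⟩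
  · intro w hw s hs hle
    have h1 := hM3 w hw s (hKS hs) (hlt w hw s (hKS hs) hle)
    simpa [hs] using h1
  · intro w hw s hs hle
    have h1 := hE3 w hw s (hKS hs) (hlt w hw s (hKS hs) hle)
    simpa [hs] using h1
  · intro w hw s hs hsK hle
    have h1 := hM3 w hw s hs (hlt w hw s hs hle)
    simpa [hsK] using h1
  · intro w hw s hs hsK hle
    have h1 := hE3 w hw s hs (hlt w hw s hs hle)
    simpa [hsK] using h1
  · have key : ∀ k : ℕ, ∀ w ∈ N, blen B N S w = k → E w ≤ e w := by
      intro k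
      induction k with
      | zero =>
        intro w hw hk
        have hwT := h.len_zero hw hk
        have h1 : w ∈ dc B (1 : G) := ⟨w, hwT.1, 1, B.one_mem, by group⟩
        rw [hE1 _ _ h1, hE2]
        exact Nat.zero_le _
      | succ k ih =>
        intro w hw hk
        obtain ⟨s, hs, v, hv, rfl, hvk⟩ := h.len_succR hw hk
        have h1 := ih v hv hvk
        have h2 := hE3 v hv s hs (by omega)
        have h3 := D.e_mul hv hs (by rw [D.L_of_mem hv, D.L_of_mem hw]; omega)
        rw [h2, h3]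
        split_ifs
        · omega
        · omega
    intro g
    obtain ⟨w, hw, hg⟩ := h.bruhat g
    rw [hE1 _ _ hg, D.e_congr hg]
    exact key _ w hw rfl

namespace BNDataK

variable {K : Set G} {M E : G → ℕ} (X : BNDataK B N S K p e L M E)
include X

lemma stf_congr {g g' : G} (hg : g ∈ dc B g') : stf G p E M g = stf G p E M g' := by
  rw [stf, stf, X.E_congr _ _ hg, X.M_congr _ _ hg]

lemma stf_up [Finite G] {w s : G} (hw : w ∈ N) (hs : s ∈ K) (hle : L w ≤ L (w * s)) :
    stf G p E M w = - ((p : ℤ) ^ e s * stf G p E M (w * s)) := by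
  have h1 := X.E_up w hw s hs hle
  have h2 := X.M_up w hw s hs hle
  have h3 := (X.E_le (w * s)).trans (X.D.e_le (w * s))
  rw [stf, stf, h2, pow_succ]
  have h4 : Nat.card G - E w = e s + (Nat.card G - E (w * s)) := by omega
  rw [h4, pow_add]
  ring

lemma stf_same {w s : G} (hw : w ∈ N) (hs : s ∈ S) (hsK : s ∉ K) (hle : L w ≤ L (w * s)) :
    stf G p E M (w * s) = stf G p E M w := by
  rw [stf, stf, X.E_same w hw s hs hsK hle, X.M_same w hw s hs hsK hle]

lemma stf_same' [Finite G] {w s : G} (hw : w ∈ N) (hs : s ∈ S) (hsK : s ∉ K) :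
    stf G p E M (w * s) = stf G p E M w := by
  rcases le_total (L w) (L (w * s)) with hle | hle
  · exact X.stf_same hw hs hsK hle
  · have hsN := X.D.bn.S_sub hs
    have hss : w * s * s ∈ dc B w := by
      rw [mul_assoc]; exact dc_right (mem_dc_self w) (X.D.bn.sq s hs)
    have hws : w * s ∈ N := N.mul_mem hw hsN
    have hLss : L (w * s * s) = L w := X.D.L_congr hss
    have h1 := X.stf_same hws hs hsK (by rw [hLss]; exact hle)
    rw [X.stf_congr hss] at h1
    exact h1.symm

open Classical in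
/-- Hecke equation outside of `K` -/
lemma hecke_same [Fintype G] [Fintype B] {s : G} (hs : s ∈ S) (hsK : s ∉ K) (g : G) :
    ∑ b : B, (stf G p E M (g * b * s) : ℚ) = Nat.card B * (stf G p E M g : ℚ) := by
  have h1 : ∀ b : B, (stf G p E M (g * b * s) : ℚ) = stf G p E M g := by
    intro b
    obtain ⟨w, hw, b1, hb1, b2, hb2, rfl⟩ := X.D.bn.bruhat g
    have e1 : b1 * w * b2 * b * s = b1 * (w * (b2 * b) * s) := by group
    rw [e1, X.stf_congr (dc_left (mem_dc_self _) hb1),
      X.stf_congr (⟨b1, hb1, b2, hb2, rfl⟩ : b1 * w * b2 ∈ dc B w)]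
    rcases X.D.bn.cellR hs hw (B.mul_mem hb2 b.2) with h2 | h2
    · rw [X.stf_congr h2]
    · rw [X.stf_congr h2, X.stf_same' hw hs hsK]
  rw [Finset.sum_congr rfl (fun b _ => h1 b), Finset.sum_const, Finset.card_univ, nsmul_eq_mul,
    Nat.card_eq_fintype_card]

open Classical in
/-- Hecke equation on `K` -/
lemma hecke [Fintype G] [Fintype B] {s : G} (hsK : s ∈ K) (g : G) :
    ((p : ℚ) ^ e s) * ∑ b : B, (stf G p E M (g * b * s) : ℚ) =
      - (Nat.card B * (stf G p E M g : ℚ)) := by
  have hs := X.sub hsK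
  have D := X.D
  have hφ : ∀ g g' : G, g ∈ dc B g' → (stf G p E M g : ℚ) = stf G p E M g' := fun g g' hg => by
    rw [X.stf_congr hg]
  -- the case of `g ∈ N`
  have key : ∀ w ∈ N, ((p : ℚ) ^ e s) * ∑ b : B, (stf G p E M (w * b * s) : ℚ) =
      - (Nat.card B * (stf G p E M w : ℚ)) := by
    intro w hw
    rcases le_total (L w) (L (w * s)) with hle | hle
    · rw [D.sum_up (fun g => (stf G p E M g : ℚ)) hφ hw hs hle, X.stf_up hw hsK hle]
      push_cast
      ring
    · have hsN := D.bn.S_sub hs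
      have hss : w * s * s ∈ dc B w := by
        rw [mul_assoc]; exact dc_right (mem_dc_self w) (D.bn.sq s hs)
      have hws : w * s ∈ N := N.mul_mem hw hsN
      have hLss : L (w * s * s) = L w := D.L_congr hss
      have hle' : L (w * s) ≤ L (w * s * s) := by rw [hLss]; exact hle
      have h1 : (stf G p E M (w * s) : ℚ) = - ((p : ℚ) ^ e s * stf G p E M w) := by
        rw [X.stf_up hws hsK hle', X.stf_congr hss]
        push_cast
        ring
      have hcell : ∀ b ∈ B, w * s * b * s ∈ dc B (w * s * s) := fun b hb => by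
        refine D.bn.cell_up hws hs ?_ hb
        rw [← D.L_of_mem hws, ← D.L_of_mem (N.mul_mem hws hsN)]
        exact hle'
      -- values
      obtain ⟨t, ht, hst⟩ := D.bn.inv_eq hs
      have hval : ∀ b : B, (stf G p E M (w * b * s) : ℚ) =
          if s⁻¹ * (b : G) * s ∈ B then (stf G p E M (w * s) : ℚ) else stf G p E M w := by
        intro b
        split_ifs with hb
        · have e1 : w * b * s = w * s * (s⁻¹ * b * s) := by group
          rw [e1]
          exact hφ _ _ (dc_right (mem_dc_self _) hb)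
        · have e2 : s⁻¹ * (b : G) * s ∈ dc B s := by
            have e3 : s⁻¹ * (b : G) * s = s * (t * b) * s := by rw [hst]; group
            rw [e3]
            rcases D.bn.cellR hs hsN (B.mul_mem ht.1 b.2) with h2 | h2
            · exact h2
            · exfalso
              apply hb
              rw [e3]
              obtain ⟨c, hc, c', hc', he⟩ := h2
              rw [he]
              exact B.mul_mem (B.mul_mem hc (D.bn.sq s hs)) hc'
          obtain ⟨c, hc, c', hc', he⟩ := e2
          have e1 : w * b * s = w * s * c * s * c' := by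
            have : w * b * s = w * s * (s⁻¹ * b * s) := by group
            rw [this, he]; group
          rw [e1]
          exact hφ _ _ (dc_trans hss (dc_right (hcell c hc) hc'))
      rw [Finset.sum_congr rfl (fun b _ => hval b), Finset.sum_ite]
      simp only [Finset.sum_const, nsmul_eq_mul]
      -- the number of the `b` with `s⁻¹ b s ∈ B`
      set C := (B.map (MulAut.conj s).toMonoidHom).subgroupOf B with hC
      have hCcard : (Finset.univ.filter (fun b : B => s⁻¹ * (b : G) * s ∈ B)).card = Nat.card C := by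
        rw [← Fintype.card_subtype, ← Nat.card_eq_fintype_card]
        exact Nat.card_congr (Equiv.subtypeEquivRight fun b => (mem_conj_iff s b).symm)
      have hCi : C.index = p ^ e s := D.index_conj s
      have hCm : Nat.card C * p ^ e s = Nat.card B := by rw [← hCi]; exact C.card_mul_index
      have hsum : (Finset.univ.filter (fun b : B => s⁻¹ * (b : G) * s ∈ B)).card +
          (Finset.univ.filter (fun b : B => ¬ s⁻¹ * (b : G) * s ∈ B)).card = Nat.card B := by
        rw [Finset.card_filter_add_card_filter_not, Finset.card_univ, Nat.card_eq_fintype_card]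
      have hsumQ : ((Finset.univ.filter (fun b : B => ¬ s⁻¹ * (b : G) * s ∈ B)).card : ℚ) =
          Nat.card B - Nat.card C := by
        rw [← hsum, hCcard]; push_cast; ring
      rw [hCcard, hsumQ, h1]
      have hCq : (Nat.card C : ℚ) * (p : ℚ) ^ e s = Nat.card B := by exact_mod_cast hCm
      have hpq : (p : ℚ) ^ e s ≠ 0 := pow_ne_zero _ (by exact_mod_cast D.prime.ne_zero)
      rw [← hCq]
      ring
  obtain ⟨w, hw, b1, hb1, b2, hb2, rfl⟩ := D.bn.bruhat g
  have e1 : ∑ b : B, (stf G p E M (b1 * w * b2 * b * s) : ℚ) =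
      ∑ b : B, (stf G p E M (w * b * s) : ℚ) := by
    refine Fintype.sum_equiv (Equiv.mulLeft (⟨b2, hb2⟩ : B)) _ _ fun b => ?_
    show (stf G p E M (b1 * w * b2 * b * s) : ℚ) = stf G p E M (w * (b2 * b) * s)
    have e2 : b1 * w * b2 * b * s = b1 * (w * (b2 * b) * s) := by group
    rw [e2]
    exact hφ _ _ (dc_left (mem_dc_self _) hb1)
  rw [e1, key w hw, hφ (b1 * w * b2) w ⟨b1, hb1, b2, hb2, rfl⟩]

open Classical in
/-- uniqueness -/
lemma unique [Fintype G] [Fintype B] (φ : G → ℚ) (hφ : ∀ g g' : G, g ∈ dc B g' → φ g = φ g')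
    (hH : ∀ s ∈ K, ∀ g, ((p : ℚ) ^ e s) * ∑ b : B, φ (g * b * s) = - (Nat.card B * φ g))
    (hH' : ∀ s ∈ S, s ∉ K → ∀ g, ∑ b : B, φ (g * b * s) = Nat.card B * φ g) (g : G) :
    φ g * stf G p E M 1 = stf G p E M g * φ 1 := by
  have D := X.D
  have hφ' : ∀ g g' : G, g ∈ dc B g' → (stf G p E M g : ℚ) = stf G p E M g' := fun g g' hg => by
    rw [X.stf_congr hg]
  have hB : (Nat.card B : ℚ) ≠ 0 := by exact_mod_cast Nat.card_pos.ne'
  have key : ∀ k : ℕ, ∀ w ∈ N, blen B N S w = k → φ w * stf G p E M 1 = stf G p E M w * φ 1 := by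
    intro k
    induction k with
    | zero =>
      intro w hw hk
      have hwT := D.bn.len_zero hw hk
      have h1 : w ∈ dc B (1 : G) := ⟨w, hwT.1, 1, B.one_mem, by group⟩
      rw [hφ _ _ h1, hφ' _ _ h1]
      ring
    | succ k ih =>
      intro w hw hk
      obtain ⟨s, hs, v, hv, rfl, hvk⟩ := D.bn.len_succR hw hk
      have hle : L v ≤ L (v * s) := by
        rw [D.L_of_mem hv, D.L_of_mem hw]; omega
      have h3 := ih v hv hvk
      by_cases hsK : s ∈ K
      · have h1 := hH s hsK v
        rw [D.sum_up φ hφ hv hs hle] at h1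
        have h2 := X.hecke hsK v
        rw [D.sum_up (fun g => (stf G p E M g : ℚ)) hφ' hv hs hle] at h2
        have hpq : (p : ℚ) ^ e s ≠ 0 := pow_ne_zero _ (by exact_mod_cast D.prime.ne_zero)
        have h4 : φ v = - ((p : ℚ) ^ e s * φ (v * s)) := by
          apply mul_left_cancel₀ hB
          linarith
        have h5 : (stf G p E M v : ℚ) = - ((p : ℚ) ^ e s * stf G p E M (v * s)) := by
          apply mul_left_cancel₀ hB
          linarith
        rw [h4, h5] at h3
        apply mul_left_cancel₀ hpq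
        linarith
      · have h1 := hH' s hs hsK v
        rw [D.sum_up φ hφ hv hs hle] at h1
        have h4 : φ (v * s) = φ v := mul_left_cancel₀ hB h1
        rw [h4, X.stf_same hv hs hsK hle]
        exact h3
  obtain ⟨w, hw, hg⟩ := D.bn.bruhat g
  rw [hφ _ _ hg, hφ' _ _ hg]
  exact key _ w hw rfl

/-- congruence -/
lemma stf_mod [Finite G] (m : ℤ) (hm : ∀ s ∈ K, m ∣ (p : ℤ) ^ e s + 1) (g : G) :
    m ∣ stf G p E M g - stf G p E M 1 := by
  have D := X.D
  have key : ∀ k : ℕ, ∀ w ∈ N, blen B N S w = k → m ∣ stf G p E M w - stf G p E M 1 := by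
    intro k
    induction k with
    | zero =>
      intro w hw hk
      have hwT := D.bn.len_zero hw hk
      have h1 : w ∈ dc B (1 : G) := ⟨w, hwT.1, 1, B.one_mem, by group⟩
      rw [X.stf_congr h1, sub_self]
      exact dvd_zero _
    | succ k ih =>
      intro w hw hk
      obtain ⟨s, hs, v, hv, rfl, hvk⟩ := D.bn.len_succR hw hk
      have hle : L v ≤ L (v * s) := by
        rw [D.L_of_mem hv, D.L_of_mem hw]; omega
      have h2 := ih v hv hvk
      by_cases hsK : s ∈ K
      · have h1 := X.stf_up hv hsK hle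
        have e1 : stf G p E M (v * s) - stf G p E M 1 =
            ((p : ℤ) ^ e s + 1) * stf G p E M (v * s) + (stf G p E M v - stf G p E M 1) := by
          rw [h1]; ring
        rw [e1]
        exact dvd_add (dvd_mul_of_dvd_left (hm s hsK) _) h2
      · rw [X.stf_same hv hs hsK hle]
        exact h2
  obtain ⟨w, hw, hg⟩ := D.bn.bruhat g
  rw [X.stf_congr hg]
  exact key _ w hw rfl

end BNDataK

end H96S
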