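import Pool.Agent.Lib.H96S.BN7

/-!
# Finite groups with a BN-pair: if two different primes divide `q_s + 1` for some `s`, then (∗) fails
-/

namespace H96S

variable {G : Type} [Group G] {B N : Subgroup G} {S : Set G} {p : ℕ} {e L : G → ℕ}

/-- a parameter is not trivial -/
lemma IsBNPair.e_ne_zero [Finite G] (h : IsBNPair B N S) {s : G} (hs : s ∈ S) (k : ℕ)
    (hk : Nat.card (dc B s) = p ^ k * Nat.card B) : k ≠ 0 := by
  rintro rfl
  have h1 := card_dc (B := B) s
  rw [hk, pow_zero, one_mul] at h1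
  have h2 : ((B.map (MulAut.conj s).toMonoidHom).subgroupOf B).index = 1 := by
    have h3 : 1 * Nat.card B =
        ((B.map (MulAut.conj s).toMonoidHom).subgroupOf B).index * Nat.card B := by
      rw [one_mul]; exact h1
    exact (Nat.eq_of_mul_eq_mul_right Nat.card_pos h3).symm
  rw [Subgroup.index_eq_one] at h2
  obtain ⟨b, hb, hnot⟩ := h.nontriv s hs
  apply hnot
  have h4 : ∀ b ∈ B, s⁻¹ * b * s ∈ B := by
    intro b hb
    have h5 : (⟨b, hb⟩ : B) ∈ (B.map (MulAut.conj s).toMonoidHom).subgroupOf B := by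
      rw [h2]; trivial
    rwa [mem_conj_iff] at h5
  obtain ⟨t, ht, hst⟩ := h.inv_eq hs
  have e1 : s * b * s⁻¹ = s⁻¹ * ((s * s) * b * (s * s)⁻¹) * s := by group
  rw [e1]
  have hss := h.sq s hs
  exact h4 _ (B.mul_mem (B.mul_mem hss hb) (B.inv_mem hss))

/-- zonal functions from linear characters of the Hecke algebra -/
theorem zonal_of_bnK [Finite G] (D : BNData B N S p e L) (K : Set G) (hKS : K ⊆ S)
    (hK : ∀ s ∈ K, ∀ t ∈ S, ∀ w ∈ N, (w * s)⁻¹ * (t * w) ∈ B ⊓ N → t ∈ K) (hne : K.Nonempty)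
    (r r' : ℕ) (hr : r.Prime) (hr' : r'.Prime) (hrr : r ≠ r')
    (hqe : ∀ s ∈ K, r * r' ∣ p ^ e s + 1) :
    Zonal G := by
  classical
  have hp := D.prime
  have hpf := Fact.mk hp
  have hGf := Fintype.ofFinite G
  have hBf : Fintype B := Fintype.ofFinite B
  obtain ⟨M, E, X⟩ := exists_bnDataK D K hKS hK
  have hne0 : ∀ k, r * r' ∣ p ^ k + 1 → k ≠ 0 := by
    rintro k hd rfl
    rw [pow_zero] at hd
    have h1 := Nat.le_of_dvd (by norm_num) hd
    have h2 := hr.two_le
    have h3 := hr'.two_le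
    nlinarith
  obtain ⟨s₀, hs₀⟩ := hne
  have hes₀ : e s₀ ≠ 0 := hne0 _ (hqe s₀ hs₀)
  have hnot : ∀ x : ℕ, x.Prime → x ∣ r * r' → p ≠ x := by
    rintro x hx hxd rfl
    have h1 : p ∣ p ^ e s₀ + 1 := dvd_trans hxd (hqe s₀ hs₀)
    have h2 : p ∣ 1 := (Nat.dvd_add_right (dvd_pow_self p hes₀)).1 h1
    exact hp.one_lt.ne' (Nat.dvd_one.1 h2)
  have hpr : p ≠ r := hnot r hr (dvd_mul_right _ _)
  have hpr' : p ≠ r' := hnot r' hr' (dvd_mul_left _ _)
  obtain ⟨PB⟩ : Nonempty (Sylow p B) := inferInstance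
  set P' : Subgroup G := (PB : Subgroup B).map B.subtype with hP'
  have hmem : ∀ u : B, u ∈ PB → (u : G) ∈ P' := fun u hu => ⟨u, hu, rfl⟩
  have hP'B : ∀ u ∈ P', u ∈ B := by
    rintro _ ⟨u, _, rfl⟩
    exact u.2
  have hpg : IsPGroup p P' := PB.isPGroup'.map B.subtype
  have hidx : ¬ p ∣ P'.index := by
    rw [hP', Subgroup.index_map_subtype]
    intro hd
    rcases hp.dvd_mul.1 hd with h1 | h1
    · exact PB.not_dvd_index h1
    · exact D.index_B PB h1
  have hcong : ∀ g g' : G, g ∈ dc B g' → (stf G p E M g : ℚ) = stf G p E M g' := fun g g' hg => by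
    rw [X.stf_congr hg]
  have hf1 : (stf G p E M 1 : ℚ) ≠ 0 := by
    have : stf G p E M 1 ≠ 0 := by
      rw [stf]
      exact mul_ne_zero (pow_ne_zero _ (by norm_num)) (pow_ne_zero _ (by exact_mod_cast hp.ne_zero))
    exact_mod_cast this
  refine ⟨p, r, r', hpg.toSylow hidx, stf G p E M, stf G p E M 1, hp, hr, hr', hpr, hpr', hrr,
    ?_, ?_, ?_, ?_, ?_⟩
  · -- p divides the order
    have h1 := D.index_conj s₀
    have h2 : p ^ e s₀ ∣ Nat.card B := by rw [← h1]; exact Subgroup.index_dvd_card _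
    exact (dvd_pow_self p hes₀).trans (h2.trans (Subgroup.card_subgroup_dvd_card B))
  · -- not constant
    refine ⟨1, s₀, ?_⟩
    have h1 : L (1 : G) ≤ L (1 * s₀) := by
      rw [D.L_of_mem N.one_mem, D.bn.len_T (B ⊓ N).one_mem]
      exact Nat.zero_le _
    have h2 := X.stf_up N.one_mem hs₀ h1
    rw [one_mul] at h2
    intro heq
    rw [← heq] at h2
    have h3 : ((p : ℤ) ^ e s₀ + 1) * stf G p E M 1 = 0 := by linarith
    rcases mul_eq_zero.1 h3 with h4 | h4
    · have h5 : (0 : ℤ) < (p : ℤ) ^ e s₀ + 1 := by positivity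
      omega
    · apply hf1
      rw [h4]; push_cast; rfl
  · -- functional equation
    intro g
    -- psi
    set ψ : G → ℚ := fun h => ∑ u : P', (stf G p E M (g * u * h) : ℚ) with hψ
    have hright : ∀ x : G, ∀ b ∈ B, ψ (x * b) = ψ x := by
      intro x b hb
      refine Finset.sum_congr rfl fun u _ => ?_
      have e1 : g * u * (x * b) = g * u * x * b := by group
      rw [e1]
      exact hcong _ _ (dc_right (mem_dc_self _) hb)
    have hleftP : ∀ x : G, ∀ v ∈ P', ψ (v * x) = ψ x := by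
      intro x v hv
      refine Fintype.sum_equiv (Equiv.mulRight (⟨v, hv⟩ : P')) _ _ fun u => ?_
      show (stf G p E M (g * u * (v * x)) : ℚ) = stf G p E M (g * (u * v) * x)
      congr 2
      group
    have hψc : ∀ x x' : G, x ∈ dc B x' → ψ x = ψ x' := by
      rintro x x' ⟨b, hb, b', hb', rfl⟩
      obtain ⟨u, hu, b'', hb'', he⟩ := D.trans PB x' ⟨b, hb⟩
      have he' : b * x' = (u : G) * x' * b'' := he
      rw [hright _ b' hb', he', hright _ b'' hb'', hleftP _ _ (hmem u hu)]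
    have hψH : ∀ s ∈ K, ∀ x, ((p : ℚ) ^ e s) * ∑ b : B, ψ (x * b * s) = - (Nat.card B * ψ x) := by
      intro s hs x
      rw [hψ]
      simp only
      rw [Finset.sum_comm, Finset.mul_sum, Finset.mul_sum, ← Finset.sum_neg_distrib]
      refine Finset.sum_congr rfl fun u _ => ?_
      rw [← X.hecke hs (g * u * x)]
      congr 1
      refine Finset.sum_congr rfl fun b _ => ?_
      congr 2
      group
    have hψH' : ∀ s ∈ S, s ∉ K → ∀ x, ∑ b : B, ψ (x * b * s) = Nat.card B * ψ x := by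
      intro s hs hsK x
      rw [hψ]
      simp only
      rw [Finset.sum_comm, Finset.mul_sum]
      refine Finset.sum_congr rfl fun u _ => ?_
      rw [← X.hecke_same hs hsK (g * u * x)]
      refine Finset.sum_congr rfl fun b _ => ?_
      congr 2
      group
    refine ⟨ψ 1 / stf G p E M 1, fun x => ?_⟩
    have h1 := X.unique ψ hψc hψH hψH' x
    have h2 : (∑ᶠ u : P', (stf G p E M (g * u * x) : ℚ)) = ψ x := by
      rw [finsum_eq_sum_of_fintype]
    refine Eq.trans h2 ?_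
    field_simp
    linarith
  · -- congruence
    intro g
    refine X.stf_mod _ (fun s hs => ?_) g
    exact_mod_cast hqe s hs
  · -- coprime
    rw [stf]
    apply IsCoprime.mul_left
    · exact (isCoprime_one_left.neg_left).pow_left
    · apply IsCoprime.pow_left
      have h1 : Nat.Coprime p (r * r') :=
        Nat.Coprime.mul_right ((Nat.coprime_primes hp hr).2 hpr) ((Nat.coprime_primes hp hr').2 hpr')
      have h2 := Nat.isCoprime_iff_coprime.2 h1
      push_cast at h2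
      exact h2

/-- The group `G` has a BN-pair whose parameters `q_s = |B s B| / |B|` are powers of a prime `p`,
and two different primes divide `q_s + 1` for some `s`. -/
def HasBN (G : Type) [Group G] : Prop :=
  ∃ (B N : Subgroup G) (S : Set G) (p : ℕ), IsBNPair B N S ∧ p.Prime ∧
    (∀ s ∈ S, ∃ k, Nat.card (dc B s) = p ^ k * Nat.card B) ∧
    ∃ s ∈ S, ∃ q r r' : ℕ, Nat.card (dc B s) = q * Nat.card B ∧ r.Prime ∧ r'.Prime ∧ r ≠ r' ∧
      r * r' ∣ q + 1

theorem zonal_of_hasBN [Finite G] (h : HasBN G) : Zonal G := by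
  obtain ⟨B, N, S, p, hBN, hp, hpow, s₀, hs₀, q, r, r', hq, hr, hr', hrr, hd⟩ := h
  obtain ⟨e, L, D⟩ := exists_bnData hBN p hp (fun s hs => by
    obtain ⟨k, hk⟩ := hpow s hs
    exact ⟨k, hBN.e_ne_zero hs k hk, hk⟩)
  refine zonal_of_bnK D {t | t ∈ S ∧ ∃ w ∈ N, (w * s₀)⁻¹ * (t * w) ∈ B ⊓ N} (fun t ht => ht.1) ?_
    ⟨s₀, hs₀, 1, N.one_mem, ?_⟩ r r' hr hr' hrr ?_
  · rintro s ⟨hs, w, hw, hT⟩ t ht v hv hT'
    refine ⟨ht, v * w, N.mul_mem hv hw, ?_⟩
    have hsN := hBN.S_sub hs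
    have htN := hBN.S_sub ht
    have hs₀N := hBN.S_sub hs₀
    -- `s w = w s₀ a`, `t v = v s b`
    have e1 : (v * w * s₀)⁻¹ * (t * (v * w)) =
        ((w * s₀)⁻¹ * (s * w)) * (w⁻¹ * ((v * s)⁻¹ * (t * v)) * w) := by group
    rw [e1]
    exact (B ⊓ N).mul_mem hT (hBN.normT' hw hT')
  · have e1 : (1 * s₀)⁻¹ * (s₀ * 1) = 1 := by group
    rw [e1]
    exact (B ⊓ N).one_mem
  · rintro t ⟨ht, w, hw, hT⟩
    rw [← D.e_conj hs₀ ht hw hT]
    have h1 := D.card s₀
    rw [hq] at h1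
    rw [← Nat.eq_of_mul_eq_mul_right Nat.card_pos h1]
    exact hd

theorem not_star_of_hasBN [Finite G] (h : HasBN G) : ¬ Star G := not_star_of_zonal (zonal_of_hasBN h)

end H96S
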