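import Pool.Agent.Lib.H96S.L3Defs

/-!
# Chunk L3B: from the table to matrices
-/

namespace H96S

open Matrix

/-- the matrix of a 9-tuple -/
def l3b_mat (a : L2M) : Matrix (Fin 3) (Fin 3) (ZMod 3) :=
  match a with
  | (a0, a1, a2, a3, a4, a5, a6, a7, a8) =>
    !![(a0 : ZMod 3), (a1 : ZMod 3), (a2 : ZMod 3); (a3 : ZMod 3), (a4 : ZMod 3), (a5 : ZMod 3);
      (a6 : ZMod 3), (a7 : ZMod 3), (a8 : ZMod 3)]

theorem l3b_mod (x : ℕ) : ((x % 3 : ℕ) : ZMod 3) = (x : ZMod 3) := ZMod.natCast_mod x 3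

theorem l3b_mul (a b : L2M) : l3b_mat (l2_mul a b) = l3b_mat a * l3b_mat b := by
  obtain ⟨a0, a1, a2, a3, a4, a5, a6, a7, a8⟩ := a
  obtain ⟨b0, b1, b2, b3, b4, b5, b6, b7, b8⟩ := b
  simp only [l2_mul, l3b_mat, l3b_mod, Nat.cast_add, Nat.cast_mul]
  ext i j
  fin_cases i <;> fin_cases j <;> simp [Matrix.mul_apply, Fin.sum_univ_three]

theorem l3b_one : l3b_mat (1, 0, 0, 0, 1, 0, 0, 0, 1) = 1 := by
  ext i j
  fin_cases i <;> fin_cases j <;> simp [l3b_mat]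

theorem l3b_pow (a : L2M) (n : ℕ) : l3b_mat (l2_pow a n) = l3b_mat a ^ n := by
  induction n with
  | zero => exact l3b_one
  | succ n ih =>
    show l3b_mat (l2_mul (l2_pow a n) a) = _
    rw [l3b_mul, ih, pow_succ]

theorem l3b_sig : l3b_mat l2_sig = sSig.1 := by
  ext i j
  fin_cases i <;> fin_cases j <;> rfl

theorem l3b_m8 : l3b_mat l2_m8 = sM8.1 := by
  ext i j
  fin_cases i <;> fin_cases j <;> rfl

theorem l3b_r : l3b_mat l2_r = sR.1 := by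
  ext i j
  fin_cases i <;> fin_cases j <;> rfl

theorem l3b_u : l3b_mat l2_u = sU.1 := by
  ext i j
  fin_cases i <;> fin_cases j <;> rfl

theorem l3b_w (k : ℕ) : l3b_mat (l2_w k) = (sW k).1 := by
  cases k with
  | zero => exact l3b_one
  | succ k =>
    show l3b_mat (l2_mul (l2_pow l2_u k) (1, 0, 0, 0, 0, 1, 0, 2, 0)) = _
    rw [l3b_mul, l3b_pow, l3b_u]
    rfl

theorem l3b_n (v0 v1 : ℕ) : l3b_mat (1, v0, v1, 0, 1, 0, 0, 0, 1) = (sN v0 v1).1 := by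
  ext i j
  fin_cases i <;> fin_cases j <;> simp [l3b_mat, sN]

theorem l3b_b (b1 b2 b3 : ℕ) : l3b_mat (1, b1, b2, 0, 1, b3, 0, 0, 1) = (sB b1 b2 b3).1 := by
  ext i j
  fin_cases i <;> fin_cases j <;> simp [l3b_mat, sB]

/-- the entries modulo 3 -/
def l3b_red (a : L2M) : L2M :=
  match a with
  | (a0, a1, a2, a3, a4, a5, a6, a7, a8) =>
    (a0 % 3, a1 % 3, a2 % 3, a3 % 3, a4 % 3, a5 % 3, a6 % 3, a7 % 3, a8 % 3)

theorem l3b_inj {a b : L2M} (h : l3b_mat a = l3b_mat b) : l3b_red a = l3b_red b := by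
  obtain ⟨a0, a1, a2, a3, a4, a5, a6, a7, a8⟩ := a
  obtain ⟨b0, b1, b2, b3, b4, b5, b6, b7, b8⟩ := b
  have h0 : (a0 : ZMod 3) = b0 := congrFun (congrFun h 0) 0
  have h1 : (a1 : ZMod 3) = b1 := congrFun (congrFun h 0) 1
  have h2 : (a2 : ZMod 3) = b2 := congrFun (congrFun h 0) 2
  have h3 : (a3 : ZMod 3) = b3 := congrFun (congrFun h 1) 0
  have h4 : (a4 : ZMod 3) = b4 := congrFun (congrFun h 1) 1
  have h5 : (a5 : ZMod 3) = b5 := congrFun (congrFun h 1) 2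
  have h6 : (a6 : ZMod 3) = b6 := congrFun (congrFun h 2) 0
  have h7 : (a7 : ZMod 3) = b7 := congrFun (congrFun h 2) 1
  have h8 : (a8 : ZMod 3) = b8 := congrFun (congrFun h 2) 2
  rw [ZMod.natCast_eq_natCast_iff'] at h0 h1 h2 h3 h4 h5 h6 h7 h8
  simp only [l3b_red, h0, h1, h2, h3, h4, h5, h6, h7, h8]

theorem l3b_tab : l2_table.all (fun c => match c with
    | (_, _, _, _, x, e, _) => l3b_red (l2_mul (l2_pow l2_m8 x) (l2_pow l2_r e)) ==
        l2_mul (l2_pow l2_m8 x) (l2_pow l2_r e)) = true := by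
  decide +kernel

/-- For all `v0, v1, m < 3, k < 4` a row of the table gives an identity in `SL(3, 3)`.
Proof.  `l2_rows` gives a row `c` of `l2_table` with these first four entries, `l2_all` gives `l2_check c`.  Let
`toMat : L2M → Matrix (Fin 3) (Fin 3) (ZMod 3)` be the obvious map; `toMat (l2_mul a b) = toMat a * toMat b` (`Nat.cast` of `% 3` in
`ZMod 3`: `ZMod.natCast_mod`), `toMat (l2_pow a n) = toMat a ^ n`, `toMat l2_sig = sSig.1` etc.  So `g^9 = 1`, `h^12 = 1`, `g^8 = g⁻¹`, `h^11 = h⁻¹`.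
`a ≠ 1` in `SL(3,3)` because the entries of `a : L2M` are `< 3` and `a ≠ (1,0,0,0,1,0,0,0,1)` (the entries of a product computed by
`l2_mul` are `< 3`; for `x = 0, e = 0` `a` would be the identity; so one can also use: the map `toMat` is injective on tuples with
entries `< 3`). -/
theorem l3b_cert (v0 v1 : ZMod 3) (m k : ℕ) (hm : m < 3) (hk : k < 4) :
    ∃ (x e i j : ℕ) (b1 b2 b3 : ZMod 3), sM8 ^ x * sR ^ e ≠ 1 ∧
      (sN v0 v1 * sU ^ m) * (sM8 ^ x * sR ^ e) * (sN v0 v1 * sU ^ m)⁻¹ =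
        sSig ^ i * (sW k * sB b1 b2 b3 * (sW k)⁻¹) * sSig ^ j := by
  have hr := l2_rows v0.val (List.mem_range.2 (ZMod.val_lt v0)) v1.val (List.mem_range.2 (ZMod.val_lt v1))
    m (List.mem_range.2 hm) k (List.mem_range.2 hk)
  rw [List.any_eq_true] at hr
  obtain ⟨⟨v0', v1', m', k', x, e, b1, b2, b3, i, j⟩, hc, heq⟩ := hr
  simp only [Bool.and_eq_true, beq_iff_eq] at heq
  obtain ⟨⟨⟨rfl, rfl⟩, rfl⟩, rfl⟩ := heq
  have h1 := List.all_eq_true.1 l2_all _ hc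
  have h2 := List.all_eq_true.1 l3b_tab _ hc
  simp only [l2_check, Bool.and_eq_true, beq_iff_eq, bne_iff_ne, ne_eq] at h1 h2
  obtain ⟨⟨⟨h3, h4⟩, h5⟩, h6⟩ := h1
  have g1 : l3b_mat (l2_mul (1, v0.val, v1.val, 0, 1, 0, 0, 0, 1) (l2_pow l2_u m')) = (sN v0 v1 * sU ^ m').1 := by
    rw [l3b_mul, l3b_n, l3b_pow, l3b_u, ZMod.natCast_zmod_val, ZMod.natCast_zmod_val]
    rfl
  have a1 : l3b_mat (l2_mul (l2_pow l2_m8 x) (l2_pow l2_r e)) = (sM8 ^ x * sR ^ e).1 := by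
    rw [l3b_mul, l3b_pow, l3b_pow, l3b_m8, l3b_r]
    rfl
  have e1 := congrArg l3b_mat h3
  have e2 := congrArg l3b_mat h4
  have e3 := congrArg l3b_mat h5
  simp only [l3b_mul _ (l2_pow l2_sig j), l3b_mul (l2_pow l2_sig i), l3b_mul (l2_mul (l2_w k') _) _, l3b_mul (l2_w k') _,
    l3b_mul _ (l2_pow (l2_mul (1, v0.val, v1.val, 0, 1, 0, 0, 0, 1) (l2_pow l2_u m')) 8)] at e1
  rw [l3b_mul, a1, l3b_pow, g1, l3b_pow, l3b_sig, l3b_w, l3b_b, l3b_pow, l3b_w, l3b_pow, l3b_sig] at e1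
  rw [l3b_pow, g1, l3b_one] at e2
  rw [l3b_pow, l3b_w, l3b_one] at e3
  have e2' : (sN v0 v1 * sU ^ m') ^ 9 = 1 := Subtype.ext e2
  have e3' : (sW k') ^ 12 = 1 := Subtype.ext e3
  have i1 : (sN v0 v1 * sU ^ m')⁻¹ = (sN v0 v1 * sU ^ m') ^ 8 := by
    rw [inv_eq_iff_mul_eq_one, ← pow_succ', e2']
  have i2 : (sW k')⁻¹ = (sW k') ^ 11 := by
    rw [inv_eq_iff_mul_eq_one, ← pow_succ', e3']
  refine ⟨x, e, i, j, b1, b2, b3, ?_, ?_⟩
  · intro h
    rw [h] at a1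
    have h7 : l3b_mat (l2_mul (l2_pow l2_m8 x) (l2_pow l2_r e)) = l3b_mat (1, 0, 0, 0, 1, 0, 0, 0, 1) := by
      rw [a1, l3b_one]
      rfl
    have h8 := l3b_inj h7
    rw [h2] at h8
    exact h6 h8
  · rw [i1, i2]
    exact Subtype.ext e1

end H96S
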