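import Pool.Agent.Lib.H96S.L3A
import Pool.Agent.Lib.H96S.L3B

/-!
# Chunk L3C: `SL(3, 3)` does not have (∗)
-/

namespace H96S

open Matrix

theorem l3c_mod {G : Type*} [Monoid G] {x : G} {k : ℕ} (h : x ^ k = 1) (n : ℕ) : x ^ n = x ^ (n % k) := by
  conv_lhs => rw [← Nat.div_add_mod n k, pow_add, pow_mul, h, one_pow, one_mul]

theorem l3c_m8 : sM8 ^ 8 = 1 := by
  apply Subtype.ext
  show (sM8 ^ 8).1 = (1 : Matrix (Fin 3) (Fin 3) (ZMod 3))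
  have h : (l2_pow l2_m8 8 == (1, 0, 0, 0, 1, 0, 0, 0, 1)) = true := by decide +kernel
  have h1 := congrArg l3b_mat (beq_iff_eq.1 h)
  rw [l3b_pow, l3b_m8, l3b_one] at h1
  exact h1

theorem l3c_r : sR ^ 2 = 1 := by decide +kernel

theorem l3c_rel : sR * sM8 = sM8 ^ 3 * sR := by decide +kernel

theorem l3c_rel' (x : ℕ) : sR * sM8 ^ x = sM8 ^ (3 * x) * sR := by
  induction x with
  | zero => simp
  | succ x ih =>
    rw [pow_succ, ← mul_assoc, ih, mul_assoc, l3c_rel, ← mul_assoc, ← pow_add]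
    congr 2

theorem l3c_rel2 (e x : ℕ) : sR ^ e * sM8 ^ x = sM8 ^ (3 ^ e * x) * sR ^ e := by
  induction e with
  | zero => simp
  | succ e ih =>
    rw [pow_succ', mul_assoc, ih, ← mul_assoc, l3c_rel', mul_assoc, ← pow_succ']
    congr 2
    ring

/-- the Sylow 2-subgroup -/
def l3c_P2 : Subgroup SL33 where
  carrier := {g | ∃ x e : ℕ, g = sM8 ^ x * sR ^ e}
  mul_mem' := by
    rintro _ _ ⟨x, e, rfl⟩ ⟨y, f, rfl⟩
    refine ⟨x + 3 ^ e * y, e + f, ?_⟩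
    calc sM8 ^ x * sR ^ e * (sM8 ^ y * sR ^ f) = sM8 ^ x * (sR ^ e * sM8 ^ y) * sR ^ f := by group
      _ = sM8 ^ (x + 3 ^ e * y) * sR ^ (e + f) := by
          rw [l3c_rel2, pow_add, pow_add]
          group
  one_mem' := ⟨0, 0, by simp⟩
  inv_mem' := by
    rintro _ ⟨x, e, rfl⟩
    refine ⟨3 ^ e * (7 * x), e, ?_⟩
    rw [← l3c_rel2, inv_eq_iff_mul_eq_one]
    have h1 : sM8 ^ x * sM8 ^ (7 * x) = 1 := by
      rw [← pow_add]
      have : x + 7 * x = 8 * x := by ring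
      rw [this, pow_mul, l3c_m8, one_pow]
    have h2 : sR ^ e * sR ^ e = 1 := by
      rw [← pow_add, ← two_mul, pow_mul, l3c_r, one_pow]
    calc sM8 ^ x * sR ^ e * (sR ^ e * sM8 ^ (7 * x)) = sM8 ^ x * (sR ^ e * sR ^ e) * sM8 ^ (7 * x) := by group
      _ = 1 := by rw [h2, mul_one, h1]

theorem l3c_P2_fin (g : SL33) (hg : g ∈ l3c_P2) : ∃ x < 8, ∃ e < 2, g = sM8 ^ x * sR ^ e := by
  obtain ⟨x, e, rfl⟩ := hg
  refine ⟨x % 8, Nat.mod_lt _ (by norm_num), e % 2, Nat.mod_lt _ (by norm_num), ?_⟩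
  rw [← l3c_mod l3c_m8, ← l3c_mod l3c_r]

theorem l3c_inj2 : (List.range 8).all (fun x => (List.range 2).all fun e => (List.range 8).all fun y => (List.range 2).all fun f =>
    (l3b_red (l2_mul (l2_pow l2_m8 x) (l2_pow l2_r e)) == l3b_red (l2_mul (l2_pow l2_m8 y) (l2_pow l2_r f))) ==
      ((x == y) && (e == f))) = true := by
  decide +kernel

theorem l3c_card2 : Nat.card l3c_P2 = 16 := by
  have hf : Function.Bijective (fun p : Fin 8 × Fin 2 => (⟨sM8 ^ (p.1 : ℕ) * sR ^ (p.2 : ℕ), ⟨p.1, p.2, rfl⟩⟩ : l3c_P2)) := by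
    constructor
    · rintro ⟨x, e⟩ ⟨y, f⟩ h
      have h0 : sM8 ^ (x : ℕ) * sR ^ (e : ℕ) = sM8 ^ (y : ℕ) * sR ^ (f : ℕ) := congrArg Subtype.val h
      have ht := l3c_inj2
      simp only [List.all_eq_true, List.mem_range] at ht
      have h1 := ht x x.2 e e.2 y y.2 f f.2
      have h2 : l3b_red (l2_mul (l2_pow l2_m8 x) (l2_pow l2_r e)) = l3b_red (l2_mul (l2_pow l2_m8 y) (l2_pow l2_r f)) := by
        apply l3b_inj
        rw [l3b_mul, l3b_mul, l3b_pow, l3b_pow, l3b_pow, l3b_pow, l3b_m8, l3b_r]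
        exact congrArg Subtype.val h0
      rw [h2] at h1
      simp only [beq_self_eq_true, beq_iff_eq] at h1
      have h3 : ((x : ℕ) == (y : ℕ) && (e : ℕ) == (f : ℕ)) = true := h1.symm
      rw [Bool.and_eq_true, beq_iff_eq, beq_iff_eq] at h3
      exact Prod.ext (Fin.ext h3.1) (Fin.ext h3.2)
    · rintro ⟨g, hg⟩
      obtain ⟨x, hx, e, he, rfl⟩ := l3c_P2_fin g hg
      exact ⟨(⟨x, hx⟩, ⟨e, he⟩), rfl⟩
  rw [← Nat.card_congr (Equiv.ofBijective _ hf), Nat.card_prod, Nat.card_fin, Nat.card_fin]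

theorem l3c_sB (g : SL33) (h00 : g.1 0 0 = 1) (h10 : g.1 1 0 = 0) (h11 : g.1 1 1 = 1) (h20 : g.1 2 0 = 0) (h21 : g.1 2 1 = 0)
    (h22 : g.1 2 2 = 1) : g = sB (g.1 0 1) (g.1 0 2) (g.1 1 2) := by
  apply Subtype.ext
  ext i j
  fin_cases i <;> fin_cases j <;> simp [sB, h00, h10, h11, h20, h21, h22]

theorem l3c_sBmul (a b c x y z : ZMod 3) : sB a b c * sB x y z = sB (a + x) (b + y + a * z) (c + z) := by
  apply Subtype.ext
  show (sB a b c).1 * (sB x y z).1 = (sB (a + x) (b + y + a * z) (c + z)).1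
  ext i j
  rw [Matrix.mul_apply, Fin.sum_univ_three]
  fin_cases i <;> fin_cases j <;> simp [sB] <;> ring

/-- the Sylow 3-subgroup -/
def l3c_P3 : Subgroup SL33 where
  carrier := {g | ∃ a b c : ZMod 3, g = sB a b c}
  mul_mem' := by
    rintro _ _ ⟨a, b, c, rfl⟩ ⟨x, y, z, rfl⟩
    exact ⟨_, _, _, l3c_sBmul a b c x y z⟩
  one_mem' := ⟨0, 0, 0, by decide +kernel⟩
  inv_mem' := by
    rintro _ ⟨a, b, c, rfl⟩
    refine ⟨-a, -b + a * c, -c, ?_⟩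
    rw [inv_eq_iff_mul_eq_one, l3c_sBmul]
    have e1 : a + -a = 0 := by ring
    have e2 : b + (-b + a * c) + a * -c = 0 := by ring
    have e3 : c + -c = 0 := by ring
    rw [e1, e2, e3]
    decide +kernel

theorem l3c_card3 : Nat.card l3c_P3 = 27 := by
  have hf : Function.Bijective (fun p : ZMod 3 × ZMod 3 × ZMod 3 => (⟨sB p.1 p.2.1 p.2.2, ⟨p.1, p.2.1, p.2.2, rfl⟩⟩ : l3c_P3)) := by
    constructor
    · rintro ⟨a, b, c⟩ ⟨x, y, z⟩ h
      have h0 : (sB a b c).1 = (sB x y z).1 := congrArg Subtype.val (congrArg Subtype.val h)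
      have h1 : a = x := congrFun (congrFun h0 0) 1
      have h2 : b = y := congrFun (congrFun h0 0) 2
      have h3 : c = z := congrFun (congrFun h0 1) 2
      rw [h1, h2, h3]
    · rintro ⟨g, a, b, c, rfl⟩
      exact ⟨(a, b, c), rfl⟩
  rw [← Nat.card_congr (Equiv.ofBijective _ hf), Nat.card_prod, Nat.card_prod, Nat.card_zmod]

theorem l3c_ord : orderOf sSig = 13 := by
  have : Fact (Nat.Prime 13) := ⟨by norm_num⟩
  refine orderOf_eq_prime l3a_sig13 ?_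
  decide +kernel

theorem l3c_card13 : Nat.card (Subgroup.zpowers sSig) = 13 := by
  rw [Nat.card_zpowers, l3c_ord]

theorem l3c_card : Nat.card SL33 = 5616 := by
  apply le_antisymm
  · have hs : Function.Surjective (fun p : Fin 13 × ZMod 3 × ZMod 3 × Fin 3 × Fin 8 × Fin 2 =>
        sSig ^ (p.1 : ℕ) * (sN p.2.1 p.2.2.1 * sU ^ (p.2.2.2.1 : ℕ)) * (sM8 ^ (p.2.2.2.2.1 : ℕ) * sR ^ (p.2.2.2.2.2 : ℕ))) := by
      intro g
      obtain ⟨i, m, x, e, v0, v1, hm, hx, he, rfl⟩ := l3a_cover g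
      refine ⟨(⟨i % 13, Nat.mod_lt _ (by norm_num)⟩, v0, v1, ⟨m, hm⟩, ⟨x, hx⟩, ⟨e, he⟩), ?_⟩
      show sSig ^ (i % 13) * _ * _ = _
      rw [← l3c_mod l3a_sig13]
    have h := Nat.card_le_card_of_surjective _ hs
    simpa [Nat.card_prod, Nat.card_zmod] using h
  · have h2 : 16 ∣ Nat.card SL33 := by rw [← l3c_card2]; exact Subgroup.card_subgroup_dvd_card _
    have h3 : 27 ∣ Nat.card SL33 := by rw [← l3c_card3]; exact Subgroup.card_subgroup_dvd_card _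
    have h13 : 13 ∣ Nat.card SL33 := by rw [← l3c_card13]; exact Subgroup.card_subgroup_dvd_card _
    have h := Nat.Coprime.mul_dvd_of_dvd_of_dvd (by norm_num : Nat.Coprime 16 27) h2 h3
    have h' := Nat.Coprime.mul_dvd_of_dvd_of_dvd (by norm_num : Nat.Coprime (16 * 27) 13) h h13
    exact Nat.le_of_dvd Nat.card_pos h'

theorem l3c_primes (x : ℕ) : x ∈ [2, 13, 3] ↔ x ∈ (Nat.card SL33).primeFactors := by
  rw [l3c_card, Nat.mem_primeFactors]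
  constructor
  · intro h
    simp only [List.mem_cons, List.not_mem_nil, or_false] at h
    rcases h with rfl | rfl | rfl <;> norm_num
  · rintro ⟨hp, hd, -⟩
    have e : 5616 = 2 ^ 4 * 13 * 3 ^ 3 := by norm_num
    rw [e, hp.dvd_mul, hp.dvd_mul] at hd
    rcases hd with (hd | hd) | hd
    · have := (Nat.prime_dvd_prime_iff_eq hp (by norm_num)).1 (hp.dvd_of_dvd_pow hd)
      simp [this]
    · have := (Nat.prime_dvd_prime_iff_eq hp (by norm_num)).1 hd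
      simp [this]
    · have := (Nat.prime_dvd_prime_iff_eq hp (by norm_num)).1 (hp.dvd_of_dvd_pow hd)
      simp [this]

theorem l3c_index {P : Subgroup SL33} {a b : ℕ} (h : Nat.card P = a) (hab : a * b = 5616) (ha : 0 < a) : P.index = b := by
  have h1 := P.card_mul_index
  rw [h, l3c_card, ← hab] at h1
  exact Nat.eq_of_mul_eq_mul_left ha h1

/-- upper triangular matrices normalise `P3` -/
theorem l3c_norm {b0 b : SL33} (h10 : b0.1 1 0 = 0) (h20 : b0.1 2 0 = 0) (h21 : b0.1 2 1 = 0) (hb : b ∈ l3c_P3) :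
    b0⁻¹ * b * b0 ∈ l3c_P3 := by
  obtain ⟨u, v, w, rfl⟩ := hb
  obtain ⟨x, hx⟩ : ∃ x : SL33, x = b0⁻¹ * sB u v w * b0 := ⟨_, rfl⟩
  rw [← hx]
  have hm : b0 * x = sB u v w * b0 := by
    rw [hx]
    group
  have hm' : b0.1 * x.1 = (sB u v w).1 * b0.1 := congrArg Subtype.val hm
  have hdet : b0.1 0 0 * b0.1 1 1 * b0.1 2 2 = 1 := by
    have := b0.2
    rw [Matrix.det_fin_three, h10, h20, h21] at this
    linear_combination this
  have n0 : b0.1 0 0 ≠ 0 := by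
    intro h
    rw [h] at hdet
    simp at hdet
  have n1 : b0.1 1 1 ≠ 0 := by
    intro h
    rw [h] at hdet
    simp at hdet
  have n2 : b0.1 2 2 ≠ 0 := by
    intro h
    rw [h] at hdet
    simp at hdet
  have ent : ∀ i j, b0.1 i 0 * x.1 0 j + b0.1 i 1 * x.1 1 j + b0.1 i 2 * x.1 2 j =
      (sB u v w).1 i 0 * b0.1 0 j + (sB u v w).1 i 1 * b0.1 1 j + (sB u v w).1 i 2 * b0.1 2 j := by
    intro i j
    have := congrFun (congrFun hm' i) j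
    rwa [Matrix.mul_apply, Matrix.mul_apply, Fin.sum_univ_three, Fin.sum_univ_three] at this
  have e20 := ent 2 0
  have e21 := ent 2 1
  have e22 := ent 2 2
  have e10 := ent 1 0
  have e11 := ent 1 1
  have e00 := ent 0 0
  simp [sB, h10, h20, h21, n2] at e20 e21 e22
  simp [sB, h10, h20, h21, n1, e20, e21, e22] at e10 e11
  simp [sB, h10, h20, h21, n0, e20, e21, e22, e10, e11] at e00
  exact ⟨_, _, _, l3c_sB x e00 e10 e11 e20 e21 e22⟩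

/-- Proof.  `|SL(3,3)| = 5616 = 2⁴ 3³ 13` (`Matrix.card_GL_field`: `|GL(3,3)| = 26 * 24 * 18 = 11232`, `det` is onto `(ZMod 3)ˣ`, which has
2 elements; or count with `l3a_cover`).  Its prime divisors are `2, 13, 3`.
Subgroups: `K = zpowers sSig` of order 13; `P₂ = {sM8^x sR^e}` of order 16 (closure of `{sM8, sR}`, `sR sM8 sR = sM8³`, `sM8^8 = 1`, `sR² = 1`);
`P₃ = {sB b1 b2 b3}` of order 27.  They are Sylow subgroups.
Assume `Star SL33` and use `three_primes` with `p, q, r = 2, 13, 3` and `K`: Sylow subgroups `A`, `B` with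
`a k = k' b → a = 1`.  `A = g P₂ g⁻¹`, `B = h P₃ h⁻¹` for some `g, h` (Sylow).  Write `g = σ^i₀ n_v u^m a₀` (`l3a_cover`, `a₀ ∈ P₂`) and `h = σ^j₀ w_k b₀`
(`l3a_cover'`, `b₀` upper triangular, so it normalises `P₃`).  With `g₁ = n_v u^m`: `A = σ^i₀ g₁ P₂ g₁⁻¹ σ^(-i₀)`,
`B = σ^j₀ w_k P₃ w_k⁻¹ σ^(-j₀)`.  `l3b_cert` gives `1 ≠ a ∈ P₂`, `b ∈ P₃` and `i, j` with `g₁ a g₁⁻¹ = σ^i w_k b w_k⁻¹ σ^j`.  Put
`a' = σ^i₀ g₁ a g₁⁻¹ σ^(-i₀) ∈ A`, `b' = σ^j₀ w_k b w_k⁻¹ σ^(-j₀) ∈ B`; then `a' = σ^(i₀ + i - j₀) b' σ^(j₀ + j - i₀)`, i.e. `a' k = k' b'` with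
`k = σ^(-(j₀ + j - i₀))`, `k' = σ^(i₀ + i - j₀)` in `K`; so `a' = 1` and `a = 1`, contradiction. -/
theorem not_star_sl33 : ¬ Star SL33 := by
  intro hG
  have f2 : Fact (Nat.Prime 2) := ⟨by norm_num⟩
  have f3 : Fact (Nat.Prime 3) := ⟨by norm_num⟩
  have f13 : Fact (Nat.Prime 13) := ⟨by norm_num⟩
  obtain ⟨P2, hP2⟩ : ∃ P : Sylow 2 SL33, (P : Subgroup SL33) = l3c_P2 :=
    ⟨(IsPGroup.of_card (show Nat.card l3c_P2 = 2 ^ 4 by rw [l3c_card2]; norm_num)).toSylow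
      (by rw [l3c_index l3c_card2 (b := 351) (by norm_num) (by norm_num)]; norm_num), rfl⟩
  obtain ⟨P3, hP3⟩ : ∃ P : Sylow 3 SL33, (P : Subgroup SL33) = l3c_P3 :=
    ⟨(IsPGroup.of_card (show Nat.card l3c_P3 = 3 ^ 3 by rw [l3c_card3]; norm_num)).toSylow
      (by rw [l3c_index l3c_card3 (b := 208) (by norm_num) (by norm_num)]; norm_num), rfl⟩
  obtain ⟨K, hK⟩ : ∃ P : Sylow 13 SL33, (P : Subgroup SL33) = Subgroup.zpowers sSig :=
    ⟨(IsPGroup.of_card (show Nat.card (Subgroup.zpowers sSig) = 13 ^ 1 by rw [l3c_card13]; norm_num)).toSylow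
      (by rw [l3c_index l3c_card13 (b := 432) (by norm_num) (by norm_num)]; norm_num), rfl⟩
  obtain ⟨A, B, hAB⟩ := three_primes hG 2 13 3 (by decide) l3c_primes K
  obtain ⟨g, hg⟩ := MulAction.exists_smul_eq SL33 P2 A
  obtain ⟨h, hh⟩ := MulAction.exists_smul_eq SL33 P3 B
  obtain ⟨i0, m, x0, e0, v0, v1, hm, hx0, he0, hgd⟩ := l3a_cover g
  obtain ⟨j0, k, b0, hk, hb10, hb20, hb21, hhd⟩ := l3a_cover' h
  obtain ⟨x, e, i, j, b1, b2, b3, ha1, hid⟩ := l3b_cert v0 v1 m k hm hk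
  obtain ⟨a, had⟩ : ∃ a : SL33, a = sM8 ^ x * sR ^ e := ⟨_, rfl⟩
  obtain ⟨a0, ha0d⟩ : ∃ a : SL33, a = sM8 ^ x0 * sR ^ e0 := ⟨_, rfl⟩
  obtain ⟨g1, hg1⟩ : ∃ a : SL33, a = sN v0 v1 * sU ^ m := ⟨_, rfl⟩
  obtain ⟨w, hw⟩ : ∃ a : SL33, a = sW k := ⟨_, rfl⟩
  obtain ⟨b, hbd⟩ : ∃ a : SL33, a = sB b1 b2 b3 := ⟨_, rfl⟩
  have haP : a ∈ l3c_P2 := ⟨x, e, had⟩
  have ha0P : a0 ∈ l3c_P2 := ⟨x0, e0, ha0d⟩
  have hbP : b ∈ l3c_P3 := ⟨b1, b2, b3, hbd⟩
  rw [← ha0d, ← hg1] at hgd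
  rw [← hw] at hhd
  rw [← had] at ha1
  rw [← had, ← hg1, ← hw, ← hbd] at hid
  have hA : sSig ^ i0 * (g1 * a * g1⁻¹) * (sSig ^ i0)⁻¹ ∈ A := by
    rw [← hg]
    refine (mem_smul_sylow g _ P2).2 ?_
    rw [hP2, hgd]
    have : (sSig ^ i0 * g1 * a0)⁻¹ * (sSig ^ i0 * (g1 * a * g1⁻¹) * (sSig ^ i0)⁻¹) * (sSig ^ i0 * g1 * a0) = a0⁻¹ * a * a0 := by group
    rw [this]
    exact mul_mem (mul_mem (inv_mem ha0P) haP) ha0P
  have hB : sSig ^ j0 * (w * b * w⁻¹) * (sSig ^ j0)⁻¹ ∈ B := by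
    rw [← hh]
    refine (mem_smul_sylow h _ P3).2 ?_
    rw [hP3, hhd]
    have : (sSig ^ j0 * w * b0)⁻¹ * (sSig ^ j0 * (w * b * w⁻¹) * (sSig ^ j0)⁻¹) * (sSig ^ j0 * w * b0) = b0⁻¹ * b * b0 := by group
    rw [this]
    exact l3c_norm hb10 hb20 hb21 hbP
  have hkk : ∀ n : ℤ, sSig ^ n ∈ K := by
    intro n
    have : sSig ^ n ∈ (K : Subgroup SL33) := by
      rw [hK]
      exact ⟨n, rfl⟩
    exact this
  have hfin := hAB _ hA (sSig ^ ((i0 : ℤ) - j - j0)) (hkk _) (sSig ^ ((i0 : ℤ) + i - j0)) (hkk _) _ hB (by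
    rw [hid]
    have z : ∀ n : ℕ, sSig ^ n = sSig ^ (n : ℤ) := fun n => (zpow_natCast _ _).symm
    simp only [z]
    group)
  apply ha1
  have h1 : a = g1⁻¹ * ((sSig ^ i0)⁻¹ * (sSig ^ i0 * (g1 * a * g1⁻¹) * (sSig ^ i0)⁻¹) * sSig ^ i0) * g1 := by group
  rw [h1, hfin]
  group

end H96S
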