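import Pool.Agent.Lib.H96S.N4

/-!
# Chunk N5: the argument with a regular Sylow subgroup in the next to last place
-/

namespace H96S

lemma n5_sum {G : Type} [Group G] [Fintype G] (K R : Subgroup G) [Fintype K] [Fintype R]
    (A : Finset G)
    (hfac : ∀ g : G, ∃! t : G × K × R, t.1 ∈ A ∧ t.1 * t.2.1 * t.2.2 = g) (φ : G → ℤ) :
    ∑ g : G, φ g = ∑ a ∈ A, ∑ ρ : R, ∑ κ : K, φ (a * κ * ρ) := by
  classical
  have h1 : ∑ a ∈ A, ∑ ρ : R, ∑ κ : K, φ (a * κ * ρ) =
      ∑ t ∈ A ×ˢ ((Finset.univ : Finset R) ×ˢ (Finset.univ : Finset K)),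
        φ (t.1 * t.2.2 * t.2.1) := by
    rw [Finset.sum_product]
    refine Finset.sum_congr rfl fun a _ => ?_
    rw [Finset.sum_product]
  rw [h1]
  symm
  refine Finset.sum_bij (fun t _ => t.1 * t.2.2 * t.2.1) (fun _ _ => Finset.mem_univ _) ?_ ?_
    (fun _ _ => rfl)
  · rintro ⟨a, b, u⟩ h ⟨a', b', u'⟩ h' heq
    simp only [Finset.mem_product, Finset.mem_univ, and_true] at h h'
    obtain ⟨t, _, ht⟩ := hfac (a * u * b)
    have e1 := ht (a, u, b) ⟨h, rfl⟩
    have e2 := ht (a', u', b') ⟨h', heq.symm⟩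
    rw [← e2] at e1
    rw [Prod.mk.injEq, Prod.mk.injEq] at e1
    rw [Prod.mk.injEq, Prod.mk.injEq]
    exact ⟨e1.1, e1.2.2, e1.2.1⟩
  · intro g _
    obtain ⟨t, ht, _⟩ := hfac g
    refine ⟨(t.1, t.2.2, t.2.1), ?_, ht.2⟩
    simp only [Finset.mem_product, Finset.mem_univ, and_true]
    exact ht.1

lemma n5_card {α : Type} [Fintype α] (p : α → Prop) [DecidablePred p] :
    (Nat.card {x // p x} : ℤ) = ∑ x : α, if p x then (1 : ℤ) else 0 := by
  rw [Nat.card_eq_fintype_card, Fintype.card_subtype, Finset.sum_ite]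
  simp

/-- `G = A K R` exactly, `F : G → Γ`, `|Γ| = |R| = ell ^ j`; the number of `κ ∈ K` with
`F(g κ h) = t F(h)` does not depend on `h`; `F` is equidistributed on `G`.  If `ell ∤ |A| |K|`, then
`ρ ↦ F(ρ h)` is a bijection `R → Γ` for every `h`. -/
theorem k_argument {G : Type} [Group G] [Finite G] {Γ : Type} [CommGroup Γ] [Finite Γ] (ell j : ℕ)
    (hell : ell.Prime) (hΓ : Nat.card Γ = ell ^ j) (K R : Subgroup G) (hR : Nat.card R = ell ^ j)
    (hK : ¬ ell ∣ Nat.card K) (F : G → Γ) (A : Finset G) (hA : ¬ ell ∣ A.card)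
    (hfac : ∀ g : G, ∃! t : G × K × R, t.1 ∈ A ∧ t.1 * t.2.1 * t.2.2 = g)
    (h1 : ∀ g h h' : G, ∀ t : Γ, Nat.card {κ : K // F (g * κ * h) = t * F h} =
      Nat.card {κ : K // F (g * κ * h') = t * F h'})
    (h2 : ∀ t t' : Γ, Nat.card {g : G // F g = t} = Nat.card {g : G // F g = t'}) :
    ∀ h : G, Function.Bijective (fun ρ : R => F (ρ * h)) := by
  classical
  intro h
  have iG := Fintype.ofFinite G
  have iΓ := Fintype.ofFinite Γ
  have iK := Fintype.ofFinite K
  have iR := Fintype.ofFinite R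
  set L : G → Γ → ℤ := fun a t => (Nat.card {κ : K // F (a * κ * 1) = t * F 1} : ℤ) with hL
  have hL' : ∀ a g' t, (∑ κ : K, if F (a * κ * g') = t * F g' then (1 : ℤ) else 0) = L a t := by
    intro a g' t
    rw [← n5_card (fun κ : K => F (a * κ * g') = t * F g')]
    show ((Nat.card {κ : K // F (a * κ * g') = t * F g'} : ℕ) : ℤ) =
      ((Nat.card {κ : K // F (a * κ * 1) = t * F 1} : ℕ) : ℤ)
    rw [h1 a g' 1 t]
  set α : Γ → ℤ := fun t => ∑ a ∈ A, L a t with hα
  set β : Γ → ℤ := fun t => ∑ ρ : R, if F (ρ * h) = t then (1 : ℤ) else 0 with hβ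
  have hcount : ∀ t, ∑ s, α s * β (t * s⁻¹) = ∑ g : G, if F (g * h) = t then (1 : ℤ) else 0 := by
    intro t
    rw [n5_sum K R A hfac (fun g => if F (g * h) = t then (1 : ℤ) else 0)]
    have e1 : ∀ a ∈ A, ∀ ρ : R, (∑ κ : K, if F (a * κ * ρ * h) = t then (1 : ℤ) else 0) =
        L a (t * (F (ρ * h))⁻¹) := by
      intro a _ ρ
      rw [← hL' a (ρ * h) (t * (F (ρ * h))⁻¹)]
      refine Finset.sum_congr rfl fun κ _ => ?_
      rw [inv_mul_cancel_right, mul_assoc (a * (κ : G)) ρ h]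
    rw [Finset.sum_congr rfl (fun a ha => Finset.sum_congr rfl (fun ρ _ => e1 a ha ρ)),
      Finset.sum_comm]
    have e2 : ∀ ρ : R, ∑ a ∈ A, L a (t * (F (ρ * h))⁻¹) =
        ∑ s : Γ, α (t * s⁻¹) * (if F (ρ * h) = s then (1 : ℤ) else 0) := by
      intro ρ
      simp [hα]
    rw [Finset.sum_congr rfl (fun ρ _ => e2 ρ), Finset.sum_comm]
    have e3 : ∀ s : Γ, ∑ ρ : R, α (t * s⁻¹) * (if F (ρ * h) = s then (1 : ℤ) else 0) =
        α (t * s⁻¹) * β s := by
      intro s
      rw [hβ, Finset.mul_sum]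
    rw [Finset.sum_congr rfl (fun s _ => e3 s)]
    refine Fintype.sum_equiv ((Equiv.inv Γ).trans (Equiv.mulLeft t)) _ _ ?_
    intro s
    simp
  have hG : ∀ t, (∑ g : G, if F (g * h) = t then (1 : ℤ) else 0) = Nat.card {g : G // F g = t} := by
    intro t
    rw [n5_card]
    exact Fintype.sum_equiv (Equiv.mulRight h) _ _ (fun _ => rfl)
  have hC : ∀ t, ∑ s, α s * β (t * s⁻¹) = (Nat.card {g : G // F g = 1} : ℤ) := by
    intro t
    rw [hcount, hG]
    exact_mod_cast h2 t 1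
  have hαsum : ∑ s, α s = A.card * Nat.card K := by
    rw [hα, Finset.sum_comm]
    have e1 : ∀ a ∈ A, ∑ s : Γ, L a s = Nat.card K := by
      intro a _
      have : ∀ s, L a s = ∑ κ : K, if F (a * κ * 1) = s * F 1 then (1 : ℤ) else 0 :=
        fun s => (hL' a 1 s).symm
      rw [Finset.sum_congr rfl (fun s _ => this s), Finset.sum_comm]
      have e2 : ∀ κ : K, (∑ s : Γ, if F (a * κ * 1) = s * F 1 then (1 : ℤ) else 0) = 1 := by
        intro κ
        rw [Finset.sum_eq_single (F (a * κ * 1) * (F 1)⁻¹)]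
        · simp
        · intro b _ hb
          rw [if_neg]
          intro hcon
          apply hb
          rw [hcon]; simp
        · intro hcon; exact absurd (Finset.mem_univ _) hcon
      rw [Finset.sum_congr rfl (fun κ _ => e2 κ)]
      simp [Nat.card_eq_fintype_card]
    rw [Finset.sum_congr rfl e1]
    simp
  have hαell : ¬ (ell : ℤ) ∣ ∑ s, α s := by
    rw [hαsum]
    intro hd
    have hd' : ell ∣ A.card * Nat.card K := by exact_mod_cast hd
    rcases (hell.dvd_mul).1 hd' with h' | h'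
    · exact hA h'
    · exact hK h'
  have hconst := conv_uniform ell j hell (by rw [← Nat.card_eq_fintype_card]; exact hΓ) α β _ hC
    hαell
  have hβsum : ∑ t, β t = Nat.card R := by
    rw [hβ, Finset.sum_comm]
    simp [Nat.card_eq_fintype_card]
  have hβ1 : ∀ t, β t = 1 := by
    intro t
    have e1 : ∑ t', β t' = Nat.card Γ * β t := by
      rw [Finset.sum_congr rfl (fun s _ => hconst s t)]
      simp [Nat.card_eq_fintype_card]
    rw [hβsum, hR, hΓ] at e1
    have hpos : ((ell ^ j : ℕ) : ℤ) ≠ 0 := by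
      exact_mod_cast pow_ne_zero j hell.ne_zero
    have e2 : ((ell ^ j : ℕ) : ℤ) * 1 = (ell ^ j : ℕ) * β t := by rw [mul_one]; exact e1
    exact (mul_left_cancel₀ hpos e2).symm
  rw [Fintype.bijective_iff_surjective_and_card]
  constructor
  · intro t
    have e1 : (∑ ρ : R, if F (ρ * h) = t then (1 : ℤ) else 0) = 1 := hβ1 t
    by_contra hcon
    push Not at hcon
    have : (∑ ρ : R, if F (ρ * h) = t then (1 : ℤ) else 0) = 0 :=
      Finset.sum_eq_zero fun ρ _ => if_neg (hcon ρ)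
    rw [this] at e1
    exact zero_ne_one e1
  · rw [← Nat.card_eq_fintype_card, ← Nat.card_eq_fintype_card, hR, hΓ]

end H96S
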