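import Pool.Agent.Lib.H96S.NDefs

/-!
# Chunk N6: the function `g ↦ Q(g e₁) ^ k`
-/

namespace H96S

open Matrix

lemma n6_smul {F : Type} [Field F] {K : Subgroup (SL2 F)} {Q : (Fin 2 → F) → F} (hK : KData K Q)
    (c : F) (x : Fin 2 → F) : Q (c • x) = c ^ 2 * Q x := by
  obtain ⟨a, b, d, h⟩ := hK.quad
  rw [h, h]
  simp only [Pi.smul_apply, smul_eq_mul]
  ring

lemma n6_e1 {F : Type} [Field F] : (![1, 0] : Fin 2 → F) ≠ 0 := by
  intro h
  have := congrFun h 0
  simp at this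

lemma n6_ne {F : Type} [Field F] {K : Subgroup (SL2 F)} {Q : (Fin 2 → F) → F} (hK : KData K Q)
    (g : SL2 F) : Q (act g ![1, 0]) ≠ 0 := by
  intro h
  exact n6_e1 (act_eq_zero g _ (hK.aniso _ h))

lemma n6_root {F : Type} [Field F] [Fintype F] [DecidableEq F] (N k : ℕ) (hN : Odd N)
    (hNk : N * k = Fintype.card F - 1) (ζ : Fˣ) (hζ : ζ ^ N = 1) : ∃ c : Fˣ, c ^ (2 * k) = ζ := by
  obtain ⟨γ, hγ⟩ := IsCyclic.exists_generator (α := Fˣ)
  have hord : orderOf γ = N * k := by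
    rw [orderOf_eq_card_of_forall_mem_zpowers hγ, Nat.card_eq_fintype_card, Fintype.card_units, hNk]
  obtain ⟨m, hm⟩ := hN
  have hη : (ζ ^ (m + 1)) ^ N = 1 := by rw [← pow_mul, mul_comm, pow_mul, hζ, one_pow]
  obtain ⟨i, hi⟩ := (mem_powers_iff_mem_zpowers.2 (hγ (ζ ^ (m + 1))))
  have hi' : γ ^ i = ζ ^ (m + 1) := hi
  have h1 : γ ^ (i * N) = 1 := by rw [pow_mul, hi', hη]
  have h2 : N * k ∣ i * N := by rw [← hord]; exact orderOf_dvd_of_pow_eq_one h1
  have hNpos : 0 < N := by omega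
  have h3 : k ∣ i := by
    rw [mul_comm i N] at h2
    exact Nat.dvd_of_mul_dvd_mul_left hNpos h2
  obtain ⟨i', rfl⟩ := h3
  refine ⟨γ ^ i', ?_⟩
  have e1 : (γ ^ i') ^ (2 * k) = (γ ^ (k * i')) ^ 2 := by
    rw [← pow_mul, ← pow_mul]; congr 1; ring
  rw [e1, hi', ← pow_mul]
  have e2 : (m + 1) * 2 = N + 1 := by omega
  rw [e2, pow_succ, hζ, one_mul]

/-- Let `q - 1 = N k`, `N` odd, `(-1)^k = 1` in `F`.  The function `Φ g = Q(g e₁)^k` has values in the group
`Γ` of `N`-th roots of unity, and has the two properties needed in `k_argument`.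

Proof.  `Q(c x) = c² Q(x)` by `quad`.  `Q(g e₁) ≠ 0` (`aniso`, `act_eq_zero`), and `(Q^k)^N = Q^(q-1) = 1`
(`FiniteField.pow_card_sub_one_eq_one`).
(h1) Given `h, h'`; `x = h e₁`, `x' = h' e₁`.  By `sq` there is `c ≠ 0` with `Q x = ± c² Q x'`.
For `κ ∈ K` the vector `c⁻¹ κ x` satisfies `Q(c⁻¹ κ x) = ± c⁻² Q x = ± Q x'`, so by `trans` there is a
unique `κ' ∈ K` with `κ' x' = c⁻¹ κ x`; `κ ↦ κ'` is a bijection `K → K` (inverse: the same
construction with `x, x'` exchanged and `c⁻¹`).  Then `Φ(g κ h) = Q(g κ x)^k = Q(c g κ' x')^k = c^(2k) Φ(g κ' h')`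
and `Φ h = Q(x)^k = (± c²)^k Q(x')^k = c^(2k) Φ(h')`; so `Φ(g κ h) = t Φ h` iff `Φ(g κ' h') = t Φ h'`.
(h2) `Φ(g diag c) = Q(c g e₁)^k = c^(2k) Φ g`; the map `c ↦ c^(2k)`, `Fˣ → Γ`, is surjective: `Fˣ` is
cyclic of order `N k`, so `c ↦ c^k` is onto the `N`-th roots of unity, and squaring is bijective on them
(`N` odd).  So `g ↦ g diag c` is a bijection between two fibres. -/
theorem phi_exists {F : Type} [Field F] [Fintype F] [DecidableEq F] (K : Subgroup (SL2 F))
    (Q : (Fin 2 → F) → F) (hK : KData K Q) (N k : ℕ) (hN : Odd N)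
    (hNk : N * k = Fintype.card F - 1) (hk : (-1 : F) ^ k = 1) :
    ∃ Φ : SL2 F → rootsOfUnity N F,
      (∀ g, (((Φ g : rootsOfUnity N F) : Fˣ) : F) = Q (act g ![1, 0]) ^ k) ∧
      (∀ g h h' : SL2 F, ∀ t : rootsOfUnity N F,
        Nat.card {κ : K // Φ (g * κ * h) = t * Φ h} = Nat.card {κ : K // Φ (g * κ * h') = t * Φ h'}) ∧
      (∀ t t' : rootsOfUnity N F, Nat.card {g : SL2 F // Φ g = t} = Nat.card {g : SL2 F // Φ g = t'}) := by
  classical
  let u : SL2 F → Fˣ := fun g => Units.mk0 (Q (act g ![1, 0])) (n6_ne hK g)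
  have hu : ∀ g, ((u g : Fˣ) : F) = Q (act g ![1, 0]) := fun g => rfl
  have hmem : ∀ g, (u g) ^ k ∈ rootsOfUnity N F := by
    intro g
    rw [mem_rootsOfUnity, ← pow_mul, mul_comm k N, hNk]
    apply Units.ext
    push_cast
    exact FiniteField.pow_card_sub_one_eq_one _ (n6_ne hK g)
  set Φ : SL2 F → rootsOfUnity N F := fun g => ⟨(u g) ^ k, hmem g⟩ with hΦ
  have hval : ∀ g, (((Φ g : rootsOfUnity N F) : Fˣ) : F) = Q (act g ![1, 0]) ^ k := by
    intro g
    show (((u g) ^ k : Fˣ) : F) = _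
    push_cast
    rfl
  have hext : ∀ a b : rootsOfUnity N F, a = b ↔ (((a : rootsOfUnity N F) : Fˣ) : F) =
      (((b : rootsOfUnity N F) : Fˣ) : F) := by
    intro a b
    constructor
    · rintro rfl; rfl
    · intro h
      exact Subtype.ext (Units.ext h)
  refine ⟨Φ, hval, ?_, ?_⟩
  · intro g h h' t
    set x := act h ![1, 0] with hx
    set x' := act h' ![1, 0] with hx'
    have hQx : Q x ≠ 0 := n6_ne hK h
    have hQx' : Q x' ≠ 0 := n6_ne hK h'
    have hx0 : x ≠ 0 := fun h0 => n6_e1 (act_eq_zero h _ h0)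
    have hx'0 : x' ≠ 0 := fun h0 => n6_e1 (act_eq_zero h' _ h0)
    obtain ⟨c, hc⟩ := hK.sq (Q x / Q x') (div_ne_zero hQx hQx')
    have hc' : Q x = c ^ 2 * Q x' ∨ Q x = - (c ^ 2 * Q x') := by
      rcases hc with hc | hc
      · left; rw [div_eq_iff hQx'] at hc; exact hc
      · right; rw [div_eq_iff hQx'] at hc; rw [hc]; ring
    have hc0 : c ≠ 0 := by
      rintro rfl
      rcases hc' with h1 | h1 <;> · rw [h1] at hQx; simp at hQx
    have hex : ∀ κ : K, ∃ κ' : K, act (κ' : SL2 F) x' = c⁻¹ • act (κ : SL2 F) x := by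
      intro κ
      have hne : c⁻¹ • act (κ : SL2 F) x ≠ 0 := by
        intro h0
        have h1 := (smul_eq_zero.1 h0).resolve_left (inv_ne_zero hc0)
        exact hx0 (act_eq_zero _ _ h1)
      have hQ : Q (c⁻¹ • act (κ : SL2 F) x) = Q x' ∨ Q (c⁻¹ • act (κ : SL2 F) x) = - Q x' := by
        rw [n6_smul hK]
        rcases hK.inv κ κ.2 x with h1 | h1 <;> rcases hc' with h2 | h2 <;> rw [h1, h2]
        · left; field_simp
        · right; field_simp
        · right; field_simp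
        · left; field_simp
      obtain ⟨κ', ⟨hκ'K, hκ'⟩, _⟩ := hK.trans x' _ hx'0 hne hQ
      exact ⟨⟨κ', hκ'K⟩, hκ'⟩
    choose f hf using hex
    have hinj : Function.Injective f := by
      intro κ₁ κ₂ h12
      have e1 : act (κ₁ : SL2 F) x = act (κ₂ : SL2 F) x := by
        have e2 := hf κ₁
        rw [h12, hf κ₂] at e2
        exact (smul_right_injective _ (inv_ne_zero hc0) e2).symm
      have hne : act (κ₂ : SL2 F) x ≠ 0 := fun h0 => hx0 (act_eq_zero _ _ h0)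
      obtain ⟨κ', _, huniq⟩ := hK.trans x (act (κ₂ : SL2 F) x) hx0 hne (hK.inv κ₂ κ₂.2 x)
      have e3 := huniq κ₁ ⟨κ₁.2, e1⟩
      have e4 := huniq κ₂ ⟨κ₂.2, rfl⟩
      exact Subtype.ext (e3.trans e4.symm)
    have hbij : Function.Bijective f := Finite.injective_iff_bijective.1 hinj
    refine Nat.card_congr (Equiv.subtypeEquiv (Equiv.ofBijective f hbij) ?_)
    intro κ
    show Φ (g * κ * h) = t * Φ h ↔ Φ (g * (f κ) * h') = t * Φ h'
    rw [hext, hext]
    have hmulc : ∀ a b : rootsOfUnity N F, (((a * b : rootsOfUnity N F) : Fˣ) : F) =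
        (((a : rootsOfUnity N F) : Fˣ) : F) * (((b : rootsOfUnity N F) : Fˣ) : F) := by
      intro a b
      push_cast
      rfl
    rw [hmulc, hmulc, hval, hval, hval, hval, ← hx, ← hx', act_mul, act_mul, act_mul, act_mul,
      ← hx, ← hx']
    have e1 : act (κ : SL2 F) x = c • act (f κ : SL2 F) x' := by
      rw [hf κ, smul_smul, mul_inv_cancel₀ hc0, one_smul]
    have e2 : Q x ^ k = (c ^ 2) ^ k * Q x' ^ k := by
      rcases hc' with h1 | h1
      · rw [h1, mul_pow]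
      · rw [h1, neg_pow, hk, one_mul, mul_pow]
    rw [e1, act_smul, n6_smul hK, mul_pow, e2]
    have hck : (c ^ 2) ^ k ≠ 0 := pow_ne_zero _ (pow_ne_zero _ hc0)
    constructor
    · intro h1
      apply mul_left_cancel₀ hck
      rw [h1]; ring
    · intro h1
      rw [h1]; ring
  · intro t t'
    obtain ⟨c, hc⟩ := n6_root N k hN hNk ((t' * t⁻¹ : rootsOfUnity N F) : Fˣ)
      ((mem_rootsOfUnity _ _).1 (t' * t⁻¹).2)
    have hΦc : ∀ g, Φ (g * diag c) = (t' * t⁻¹) * Φ g := by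
      intro g
      rw [hext]
      have hmulc : ∀ a b : rootsOfUnity N F, (((a * b : rootsOfUnity N F) : Fˣ) : F) =
          (((a : rootsOfUnity N F) : Fˣ) : F) * (((b : rootsOfUnity N F) : Fˣ) : F) := by
        intro a b
        push_cast
        rfl
      rw [hmulc, hval, hval, act_mul, act_diag]
      have e1 : (![(c : F) * (![1, 0] : Fin 2 → F) 0, ((c⁻¹ : Fˣ) : F) * (![1, 0] : Fin 2 → F) 1] :
          Fin 2 → F) = (c : F) • ![1, 0] := by
        ext i
        fin_cases i <;> simp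
      rw [e1, act_smul, n6_smul hK, mul_pow, ← pow_mul, ← hc]
      push_cast
      rfl
    refine Nat.card_congr (Equiv.subtypeEquiv (Equiv.mulRight (diag c)) ?_)
    intro g
    show Φ g = t ↔ Φ (g * diag c) = t'
    rw [hΦc]
    constructor
    · intro h1
      rw [h1, inv_mul_cancel_right]
    · intro h1
      have h2 : (t' * t⁻¹) * Φ g = (t' * t⁻¹) * t := by rw [h1, inv_mul_cancel_right]
      exact mul_left_cancel h2

end H96S
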