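import Pool.Agent.Lib.H96S.NDefs

/-!
# Chunk N7: Sylow subgroups of `SL(2, F)` for odd primes dividing `q - 1`
-/

namespace H96S

open Matrix

/-- `s ↦ diag s` on the roots of unity -/
def n7D (F : Type) [Field F] (N : ℕ) : rootsOfUnity N F →* SL2 F where
  toFun s := diag (s : Fˣ)
  map_one' := by
    ext i j
    fin_cases i <;> fin_cases j <;> simp [diag]
  map_mul' s t := by
    ext i j
    fin_cases i <;> fin_cases j <;> simp [diag, Matrix.mul_apply, Fin.sum_univ_two, mul_comm]

lemma n7_injective (F : Type) [Field F] (N : ℕ) : Function.Injective (n7D F N) := by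
  intro s t h
  have h1 := congrArg (fun g : SL2 F => (g : Matrix (Fin 2) (Fin 2) F) 0 0) h
  have h2 : (((s : rootsOfUnity N F) : Fˣ) : F) = (((t : rootsOfUnity N F) : Fˣ) : F) := h1
  exact Subtype.ext (Units.ext h2)

lemma n7_card_roots (F : Type) [Field F] [Fintype F] (N k : ℕ)
    (hNk : N * k = Fintype.card F - 1) : Nat.card (rootsOfUnity N F) = N := by
  classical
  have hcard : 2 ≤ Fintype.card F := Fintype.one_lt_card
  have hpos : 0 < N * k := by omega
  have hN : N ≠ 0 := by rintro rfl; simp at hpos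
  have := NeZero.mk hN
  obtain ⟨γ, hγ⟩ := IsCyclic.exists_generator (α := Fˣ)
  have hord : orderOf γ = N * k := by
    rw [orderOf_eq_card_of_forall_mem_zpowers hγ, Nat.card_eq_fintype_card, Fintype.card_units, hNk]
  have h1 : IsPrimitiveRoot γ (N * k) := by rw [← hord]; exact IsPrimitiveRoot.orderOf γ
  have h2 : IsPrimitiveRoot (γ ^ k) N := h1.pow hpos (mul_comm N k)
  have h3 : IsPrimitiveRoot ((γ ^ k : Fˣ) : F) N := IsPrimitiveRoot.coe_units_iff.2 h2
  exact h3.card_rootsOfUnity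

/-- Proof.  `ell` divides `q - 1` (`j ≥ 1`), is odd and does not divide `q + 1` (difference 2) nor `q`
(`q ≡ 1`), so by `card_sl2` the exact power of `ell` in `|SL(2,F)| = q (q-1)(q+1)` is `ell ^ j = N`
(`q - 1 = N k`, `ell ∤ k`).  The set `D = {diag s : s^N = 1}` is a subgroup of order `N`: `s ↦ diag s` is an injective
homomorphism on `rootsOfUnity N F`, which has `N` elements because `N ∣ q - 1`
(`Fˣ` is cyclic; `card_rootsOfUnity_eq_iff_exists_isPrimitiveRoot` or `IsCyclic.card_pow_eq_one_eq_orderOf`).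
So `D` is a Sylow subgroup and conjugate to `R`. -/
theorem sylow_diag {F : Type} [Field F] [Fintype F] [DecidableEq F] (ell j N k : ℕ)
    (hell : ell.Prime) (hodd : ell ≠ 2) (hj : j ≠ 0) (hN : N = ell ^ j)
    (hNk : N * k = Fintype.card F - 1) (hk : ¬ ell ∣ k) (R : Sylow ell (SL2 F)) :
    Nat.card R = N ∧
      ∃ g₀ : SL2 F, ∀ ρ : SL2 F, ρ ∈ R ↔ ∃ s : Fˣ, s ^ N = 1 ∧ ρ = g₀ * diag s * g₀⁻¹ := by
  classical
  have hpf := Fact.mk hell
  set q := Fintype.card F with hqdef
  have hq2 : 2 ≤ q := Fintype.one_lt_card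
  have hellN : ell ∣ N := by rw [hN]; exact dvd_pow_self ell hj
  have hell1 : ell ∣ q - 1 := by rw [← hNk]; exact dvd_mul_of_dvd_left hellN k
  have hellq : ¬ ell ∣ q := by
    intro hd
    have h1 : ell ∣ q - (q - 1) := Nat.dvd_sub hd hell1
    rw [show q - (q - 1) = 1 by omega] at h1
    exact hell.one_lt.ne' (Nat.dvd_one.1 h1)
  have hellq1 : ¬ ell ∣ q + 1 := by
    intro hd
    have h1 : ell ∣ (q + 1) - (q - 1) := Nat.dvd_sub hd hell1
    rw [show (q + 1) - (q - 1) = 2 by omega] at h1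
    exact hodd ((Nat.prime_dvd_prime_iff_eq hell Nat.prime_two).1 h1)
  have hNpos : 0 < N := by
    rw [hN]; exact pow_pos hell.pos _
  have hcardD : Nat.card (n7D F N).range = N := by
    rw [← Nat.card_congr (MonoidHom.ofInjective (n7_injective F N)).toEquiv]
    exact n7_card_roots F N k hNk
  have hcardG : Nat.card (SL2 F) = q * (q - 1) * (q + 1) := card_sl2 F
  have hindex : (n7D F N).range.index = q * k * (q + 1) := by
    have h1 := (n7D F N).range.card_mul_index
    rw [hcardD, hcardG, ← hNk] at h1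
    apply Nat.eq_of_mul_eq_mul_left hNpos
    rw [h1]; ring
  have hpi : ¬ ell ∣ (n7D F N).range.index := by
    rw [hindex]
    intro hd
    rcases hell.dvd_mul.1 hd with h' | h'
    · rcases hell.dvd_mul.1 h' with h' | h'
      · exact hellq h'
      · exact hk h'
    · exact hellq1 h'
  have hpg : IsPGroup ell (n7D F N).range := IsPGroup.of_card (n := j) (by rw [hcardD, hN])
  set D : Sylow ell (SL2 F) := hpg.toSylow hpi with hD
  have hDcoe : (D : Subgroup (SL2 F)) = (n7D F N).range := rfl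
  constructor
  · rw [Nat.card_congr (Sylow.equiv R D).toEquiv]
    exact hcardD
  · obtain ⟨g₀, hg₀⟩ := MulAction.exists_smul_eq (SL2 F) D R
    refine ⟨g₀, fun ρ => ?_⟩
    have h1 : ρ ∈ R ↔ g₀⁻¹ * ρ * g₀ ∈ (n7D F N).range := by
      rw [← hg₀]
      show ρ ∈ ((g₀ • D : Sylow ell (SL2 F)) : Subgroup (SL2 F)) ↔ _
      rw [Sylow.coe_subgroup_smul, Subgroup.mem_pointwise_smul_iff_inv_smul_mem, hDcoe]
      have : (MulAut.conj g₀)⁻¹ • ρ = g₀⁻¹ * ρ * g₀ := by
        rw [← map_inv]
        simp [MulAut.smul_def]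
      rw [this]
    rw [h1]
    constructor
    · rintro ⟨s, hs⟩
      refine ⟨(s : Fˣ), (mem_rootsOfUnity _ _).1 s.2, ?_⟩
      have : diag (s : Fˣ) = g₀⁻¹ * ρ * g₀ := hs
      rw [this]
      group
    · rintro ⟨s, hs, rfl⟩
      refine ⟨⟨s, (mem_rootsOfUnity _ _).2 hs⟩, ?_⟩
      show diag s = _
      group

end H96S
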