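import Pool.Agent.Lib.H96S.N1B
import Pool.Agent.Lib.H96S.N2B
import Pool.Agent.Lib.H96S.N5
import Pool.Agent.Lib.H96S.N6
import Pool.Agent.Lib.H96S.N7

/-!
# Chunk N10: what property (∗) for `SL(2, F)` gives when `q + 1` is a prime power
-/

namespace H96S

open Matrix

lemma n10_neg_one {F : Type} [Field F] [Fintype F] (N k : ℕ) (hN : Odd N)
    (hNk : N * k = Fintype.card F - 1) : (-1 : F) ^ k = 1 := by
  rcases Nat.even_or_odd (Fintype.card F) with h | h
  · have h1 : ringChar F = 2 := FiniteField.even_card_iff_char_two.2 (Nat.even_iff.1 h)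
    have h2 : (-1 : F) = 1 := neg_one_eq_one_iff.2 h1
    rw [h2, one_pow]
  · have h1 : Even (N * k) := by
      rw [hNk]
      obtain ⟨m, hm⟩ := h
      exact ⟨m, by omega⟩
    have h2 : Even k := by
      rcases Nat.even_mul.1 h1 with h3 | h3
      · exact absurd h3 (Nat.not_even_iff_odd.2 hN)
      · exact h3
    exact h2.neg_one_pow

lemma n10_col {F : Type} [Field F] (x y : F) (h : x ≠ 0 ∨ y ≠ 0) :
    ∃ g : SL2 F, act g ![1, 0] = ![x, y] := by
  by_cases hx : x = 0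
  · have hy : y ≠ 0 := h.resolve_left (fun h' => h' hx)
    refine ⟨⟨!![x, -y⁻¹; y, 0], by rw [Matrix.det_fin_two_of]; field_simp; ring⟩, ?_⟩
    ext i
    fin_cases i <;> simp [act, Matrix.mulVec, dotProduct, Fin.sum_univ_two]
  · refine ⟨⟨!![x, 0; y, x⁻¹], by rw [Matrix.det_fin_two_of]; field_simp; ring⟩, ?_⟩
    ext i
    fin_cases i <;> simp [act, Matrix.mulVec, dotProduct, Fin.sum_univ_two]

lemma n10_quad {F : Type} [Field F] (Q : (Fin 2 → F) → F)
    (hq : ∃ a b c : F, ∀ x, Q x = a * x 0 ^ 2 + b * x 0 * x 1 + c * x 1 ^ 2) (g : SL2 F) :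
    ∃ a b c : F, ∀ x, Q (act g x) = a * x 0 ^ 2 + b * x 0 * x 1 + c * x 1 ^ 2 := by
  obtain ⟨α, β, γ, h⟩ := hq
  set g00 := (g : Matrix (Fin 2) (Fin 2) F) 0 0 with h00
  set g01 := (g : Matrix (Fin 2) (Fin 2) F) 0 1 with h01
  set g10 := (g : Matrix (Fin 2) (Fin 2) F) 1 0 with h10
  set g11 := (g : Matrix (Fin 2) (Fin 2) F) 1 1 with h11
  refine ⟨α * g00 ^ 2 + β * g00 * g10 + γ * g10 ^ 2,
    2 * α * g00 * g01 + β * (g00 * g11 + g01 * g10) + 2 * γ * g10 * g11,
    α * g01 ^ 2 + β * g01 * g11 + γ * g11 ^ 2, fun x => ?_⟩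
  have e0 : act g x 0 = g00 * x 0 + g01 * x 1 := by
    simp [act, Matrix.mulVec, dotProduct, Fin.sum_univ_two, h00, h01]
  have e1 : act g x 1 = g10 * x 0 + g11 * x 1 := by
    simp [act, Matrix.mulVec, dotProduct, Fin.sum_univ_two, h10, h11]
  rw [h, e0, e1]
  ring

/-- Proof.  Ordering `l₁ ++ r :: [ell]`, `l₁` = the other prime divisors of `|SL(2,F)|` (as a list; `r ≠ ell` because `ell ∣ q - 1`
is odd and `r ∣ q + 1` resp. `r = 2`; both divide the group order: `r ∣ q + 1` (`e ≠ 0`), `ell ∣ q - 1`).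
`fac` (file N1B) with `P = K` gives `A`, `B` with `|A|` a product of powers of primes `≠ ell` and `B` a Sylow
`ell`-subgroup `R`.  `K` is an `r`-group, so `ell ∤ |K|`.  `|R| = N = ell ^ j` and `R = g₀ D g₀⁻¹` by
`sylow_diag`; `|rootsOfUnity N F| = N` (`N ∣ q - 1`).
`phi_exists` needs `(-1)^k = 1` in `F`: if `q` is even `-1 = 1`; if `q` is odd, `k` is even because `N k = q - 1`
is even and `N` is odd.  `k_argument`: for every `h ∈ SL(2,F)` the map `ρ ↦ Φ(ρ h)` is a bijection from `R` to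
the `N`-th roots of unity.
Let `a, b, c` be the coefficients of the quadratic form `x ↦ Q(g₀ x)` (`quad` and linearity).  It is anisotropic.
Let `(x, y) ≠ 0` and `t^N = 1`.  There is `h' ∈ SL(2,F)` with `h' e₁ = (x, y)`; put `h = g₀ h'`.  For
`ρ = g₀ diag(s) g₀⁻¹`: `Φ(ρ h) = Q(g₀ diag(s) h' e₁)^k = (a (s x)² + b (s x)(s⁻¹ y) + c (s⁻¹ y)²)^k`, and
`(s x)(s⁻¹ y) = x y`.  Surjectivity of `ρ ↦ Φ(ρ h)` gives `s`. -/
theorem star_form {F : Type} [Field F] [Fintype F] [DecidableEq F] (hstar : Star (SL2 F))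
    (r e : ℕ) (hr : r.Prime) (he : e ≠ 0) (hre : Fintype.card F + 1 = r ^ e)
    (K : Sylow r (SL2 F)) (Q : (Fin 2 → F) → F) (hK : KData (K : Subgroup (SL2 F)) Q)
    (ell j N k : ℕ) (hell : ell.Prime) (hodd : ell ≠ 2) (hj : j ≠ 0) (hN : N = ell ^ j)
    (hNk : N * k = Fintype.card F - 1) (hk : ¬ ell ∣ k) :
    ∃ a b c : F, (∀ x y : F, a * x ^ 2 + b * x * y + c * y ^ 2 = 0 → x = 0 ∧ y = 0) ∧
      ∀ x y : F, (x ≠ 0 ∨ y ≠ 0) → ∀ t : F, t ^ N = 1 → ∃ s : F, s ^ N = 1 ∧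
        (a * (s * x) ^ 2 + b * x * y + c * (s⁻¹ * y) ^ 2) ^ k = t := by
  classical
  have hpf := Fact.mk hell
  have hrf := Fact.mk hr
  have hq2 : 2 ≤ Fintype.card F := Fintype.one_lt_card
  have hNodd : Odd N := by
    rw [hN]
    exact (hell.odd_of_ne_two hodd).pow
  have hNpos : N ≠ 0 := by
    rw [hN]; exact pow_ne_zero _ hell.ne_zero
  have hcardG : Nat.card (SL2 F) = Fintype.card F * (Fintype.card F - 1) * (Fintype.card F + 1) :=
    card_sl2 F
  have hG0 : Nat.card (SL2 F) ≠ 0 := Nat.card_pos.ne'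
  have hrdvd : r ∣ Fintype.card F + 1 := by rw [hre]; exact dvd_pow_self r he
  have hldvd : ell ∣ Fintype.card F - 1 := by
    rw [← hNk, hN]; exact dvd_mul_of_dvd_left (dvd_pow_self ell hj) k
  have hne : r ≠ ell := by
    rintro rfl
    have h1 : r ∣ (Fintype.card F + 1) - (Fintype.card F - 1) := Nat.dvd_sub hrdvd hldvd
    rw [show (Fintype.card F + 1) - (Fintype.card F - 1) = 2 by omega] at h1
    exact hodd ((Nat.prime_dvd_prime_iff_eq hr Nat.prime_two).1 h1)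
  have hrG : r ∈ (Nat.card (SL2 F)).primeFactors := by
    rw [Nat.mem_primeFactors]
    refine ⟨hr, ?_, hG0⟩
    rw [hcardG]; exact dvd_mul_of_dvd_right hrdvd _
  have hlG : ell ∈ (Nat.card (SL2 F)).primeFactors := by
    rw [Nat.mem_primeFactors]
    refine ⟨hell, ?_, hG0⟩
    rw [hcardG]; exact dvd_mul_of_dvd_left (dvd_mul_of_dvd_right hldvd _) _
  set l₁ : List ℕ := (((Nat.card (SL2 F)).primeFactors.erase r).erase ell).toList with hl₁
  have hmem₁ : ∀ s, s ∈ l₁ ↔ s ≠ ell ∧ s ≠ r ∧ s ∈ (Nat.card (SL2 F)).primeFactors := by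
    intro s
    rw [hl₁, Finset.mem_toList, Finset.mem_erase, Finset.mem_erase]
  have hnd : (l₁ ++ r :: [ell]).Nodup := by
    rw [List.nodup_append]
    refine ⟨Finset.nodup_toList _, ?_, ?_⟩
    · simp [hne]
    · intro s hs t ht hst
      rw [hst] at hs
      rw [hmem₁] at hs
      simp only [List.mem_cons, List.not_mem_nil, or_false] at ht
      rcases ht with ht | ht
      · exact hs.2.1 ht
      · exact hs.1 ht
  have hl : ∀ s, s ∈ l₁ ++ r :: [ell] ↔ s ∈ (Nat.card (SL2 F)).primeFactors := by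
    intro s
    rw [List.mem_append, hmem₁]
    simp only [List.mem_cons, List.not_mem_nil, or_false]
    constructor
    · rintro (h | h | h)
      · exact h.2.2
      · rw [h]; exact hrG
      · rw [h]; exact hlG
    · intro h
      by_cases h1 : s = ell
      · right; right; exact h1
      · by_cases h2 : s = r
        · right; left; exact h2
        · left; exact ⟨h1, h2, h⟩
  obtain ⟨A, B, hA, _, hfac, hB⟩ := fac hstar l₁ [ell] r hnd hl K
  obtain ⟨R, hR⟩ := hB ell rfl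
  obtain ⟨hRcard, g₀, hg₀⟩ := sylow_diag ell j N k hell hodd hj hN hNk hk R
  obtain ⟨Φ, hΦ, hΦ1, hΦ2⟩ := phi_exists (K : Subgroup (SL2 F)) Q hK N k hNodd hNk
    (n10_neg_one N k hNodd hNk)
  have hAell : ¬ ell ∣ A.card := by
    rw [hA]
    refine n2b_prod_coprime l₁ (fun s hs => Nat.prime_of_mem_primeFactors ((hmem₁ s).1 hs).2.2) ell
      hell (fun h => ((hmem₁ ell).1 h).1 rfl) _
  have hKell : ¬ ell ∣ Nat.card (K : Subgroup (SL2 F)) := by
    obtain ⟨n, hn⟩ := IsPGroup.iff_card.1 K.isPGroup'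
    intro hd
    have h1 : ell ∣ r ^ n := by rw [← hn]; exact hd
    exact hne ((Nat.prime_dvd_prime_iff_eq hell hr).1 (hell.dvd_of_dvd_pow h1)).symm
  have hroots : Nat.card (rootsOfUnity N F) = ell ^ j := by
    rw [n7_card_roots F N k hNk, hN]
  have hNz := NeZero.mk hNpos
  have hfin : Finite (rootsOfUnity N F) := by infer_instance
  have hbij := k_argument ell j hell hroots (K : Subgroup (SL2 F)) (R : Subgroup (SL2 F))
    (by rw [show Nat.card (R : Subgroup (SL2 F)) = N from hRcard, hN]) hKell Φ A hAell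
    (by
      intro g
      obtain ⟨t, ⟨ht1, ht2, ht3⟩, huniq⟩ := hfac g
      have htR : t.2.2 ∈ (R : Subgroup (SL2 F)) := (hR t.2.2).1 ht2
      refine ⟨(t.1, t.2.1, ⟨t.2.2, htR⟩), ⟨ht1, ht3⟩, ?_⟩
      rintro ⟨a, κ, ρ⟩ ⟨h1, h2⟩
      have h3 := huniq (a, κ, (ρ : SL2 F)) ⟨h1, (hR ρ).2 ρ.2, h2⟩
      exact Prod.ext (congrArg (fun u => u.1) h3) (Prod.ext (congrArg (fun u => u.2.1) h3)
        (Subtype.ext (congrArg (fun u => u.2.2) h3))))
    hΦ1 hΦ2
  obtain ⟨a, b, c, habc⟩ := n10_quad Q hK.quad g₀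
  refine ⟨a, b, c, ?_, ?_⟩
  · intro x y hxy
    have h1 := habc ![x, y]
    simp only [Matrix.cons_val_zero, Matrix.cons_val_one] at h1
    rw [hxy] at h1
    have h2 := act_eq_zero g₀ _ (hK.aniso _ h1)
    have h3 := congrFun h2 0
    have h4 := congrFun h2 1
    simp only [Matrix.cons_val_zero, Matrix.cons_val_one, Pi.zero_apply] at h3 h4
    exact ⟨h3, h4⟩
  · intro x y hxy t ht
    obtain ⟨h', hh'⟩ := n10_col x y hxy
    have ht0 : t ≠ 0 := by
      rintro rfl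
      rw [zero_pow hNpos] at ht
      exact zero_ne_one ht
    have htm : Units.mk0 t ht0 ∈ rootsOfUnity N F := by
      rw [mem_rootsOfUnity]
      apply Units.ext
      push_cast
      exact ht
    obtain ⟨ρ, hρ⟩ := (hbij (g₀ * h')).2 ⟨Units.mk0 t ht0, htm⟩
    obtain ⟨s, hs, hρs⟩ := (hg₀ ρ).1 ρ.2
    have hρ' : Φ ((ρ : SL2 F) * (g₀ * h')) = ⟨Units.mk0 t ht0, htm⟩ := hρ
    refine ⟨(s : F), ?_, ?_⟩
    · have := congrArg (fun u : Fˣ => (u : F)) hs
      simpa using this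
    · have h1 := hΦ ((ρ : SL2 F) * (g₀ * h'))
      rw [hρ'] at h1
      have h2 : (ρ : SL2 F) * (g₀ * h') = g₀ * (diag s * h') := by
        rw [hρs]; group
      rw [h2, act_mul, act_mul, hh', act_diag, habc] at h1
      simp only [Matrix.cons_val_zero, Matrix.cons_val_one, Units.val_mk0] at h1
      rw [h1]
      congr 1
      have hs0 : (s : F) ≠ 0 := s.ne_zero
      push_cast
      field_simp

end H96S
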