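import Mathlib

/-!
# Chunk N11 (pure): the contradiction for `q` even
-/

namespace H96S

open Polynomial

lemma n11_A {F : Type} [Field F] [CharP F 2] (a c : F) (j : ℕ) (hj : 1 ≤ j) :
    ((C a * X ^ 2 + C c : F[X]) ^ j).coeff j = 0 := by
  rw [add_pow, finsetSum_coeff]
  refine Finset.sum_eq_zero fun m hm => ?_
  have e1 : (C a * X ^ 2 : F[X]) ^ m * (C c) ^ (j - m) * ((j.choose m : ℕ) : F[X]) =
      C (a ^ m * c ^ (j - m) * (j.choose m : F)) * X ^ (2 * m) := by
    rw [mul_pow, ← pow_mul]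
    simp only [map_mul, map_pow, map_natCast]
    ring
  rw [e1, coeff_C_mul_X_pow]
  split_ifs with h
  · have hm1 : 1 ≤ m := by omega
    have h2 : (2 : ℕ) ∣ j.choose m := by
      rw [h]
      exact Nat.two_dvd_centralBinom_of_one_le hm1
    have h3 : ((j.choose m : ℕ) : F) = 0 := (CharP.cast_eq_zero_iff F 2 _).2 h2
    rw [h3, mul_zero]
  · rfl

lemma n11_W {F : Type} [Field F] [CharP F 2] (a b c : F) (k : ℕ) :
    ((C a * X ^ 2 + C b * X + C c : F[X]) ^ k).coeff k = b ^ k := by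
  have e0 : (C a * X ^ 2 + C b * X + C c : F[X]) = (C a * X ^ 2 + C c) + C b * X := by ring
  rw [e0, add_pow, finsetSum_coeff]
  rw [Finset.sum_eq_single 0]
  · have : (C a * X ^ 2 + C c : F[X]) ^ 0 * (C b * X) ^ (k - 0) * ((k.choose 0 : ℕ) : F[X]) =
        C (b ^ k) * X ^ k := by
      rw [pow_zero, one_mul, Nat.choose_zero_right, Nat.cast_one, mul_one, Nat.sub_zero, mul_pow,
        map_pow]
    rw [this, coeff_C_mul_X_pow, if_pos rfl]
  · intro m hm hm0
    have hmk : m ≤ k := by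
      have := Finset.mem_range.1 hm
      omega
    have : (C a * X ^ 2 + C c : F[X]) ^ m * (C b * X) ^ (k - m) * ((k.choose m : ℕ) : F[X]) =
        C (b ^ (k - m) * (k.choose m : F)) * ((C a * X ^ 2 + C c : F[X]) ^ m * X ^ (k - m)) := by
      rw [mul_pow]
      simp only [map_mul, map_pow, map_natCast]
      ring
    rw [this, coeff_C_mul]
    have h2 : ((C a * X ^ 2 + C c : F[X]) ^ m * X ^ (k - m)).coeff k =
        ((C a * X ^ 2 + C c : F[X]) ^ m).coeff m := by
      have := coeff_mul_X_pow ((C a * X ^ 2 + C c : F[X]) ^ m) (k - m) m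
      rw [show m + (k - m) = k by omega] at this
      exact this
    rw [h2, n11_A a c m (by omega), mul_zero]
  · intro h
    exact absurd (Finset.mem_range.2 (by omega)) h

lemma n11_surj {L : Type} [Field L] [DecidableEq L] (S : Finset L) (g : L → L)
    (h : ∀ t ∈ S, ∃ s ∈ S, g s = t) : ∑ s ∈ S, g s = ∑ t ∈ S, t := by
  have h1 : S ⊆ S.image g := by
    intro t ht
    obtain ⟨s, hs, hst⟩ := h t ht
    exact Finset.mem_image.2 ⟨s, hs, hst⟩
  have h2 : S = S.image g := Finset.eq_of_subset_of_card_le h1 Finset.card_image_le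
  have h3 : Set.InjOn g S := by
    rw [← Finset.card_image_iff, ← h2]
  conv_rhs => rw [h2]
  rw [Finset.sum_image h3]

/-- Proof.  `N` is odd (it divides the odd number `q - 1`), `N ≥ 3`.  Let `μ = {s : s^N = 1}`, a group of order `N`
(`N ∣ q - 1`, `Fˣ` cyclic).  For `x ≠ 0` and `y = 1` the hypothesis says that `s ↦ (a s² x² + b x + c s⁻²)^k` maps `μ`
ONTO `μ` (values `t ∈ μ` are attained; `|μ|` is finite), so it is a bijection of `μ` (a surjective map from the
finite set `μ` onto a set containing `μ` with `|μ|` arguments takes exactly the values in `μ`, each once) and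
`∑_{s ∈ μ} (a s² x² + b x + c s⁻²)^k = ∑_{t ∈ μ} t = 0` (`N ≥ 2`: nontrivial group; `sum` of a nontrivial group of
roots of unity: multiply by `t₀ ≠ 1`).
Now `a s² x² + b x + c s⁻² = s⁻² (a (s² x)² + b (s² x) + c)`.  Let `W = (a X² + b X + c)^k = ∑_i w_i X^i`, of degree
`≤ 2k`.  So `∑_i w_i (∑_{s ∈ μ} s^(2i - 2k)) x^i = 0` for all `x ≠ 0` (write `s^(2i) s^(-2k)`), a polynomial in `x`
of degree `≤ 2k < q - 1` (because `N k = q - 1`, `N ≥ 3`, `k ≥ 1`) with `q - 1` roots: all its coefficients vanish;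
the coefficient at `i = k` is `N w_k`, and `N` is odd, so `N ≠ 0` in `F` (characteristic 2) and `w_k = 0`.
But `w_k = b^k`: expand `W = ∑_j C(k,j) (b X)^(k-j) (a X² + c)^j`; the coefficient of `X^k` is
`∑_j C(k,j) b^(k-j) [X^j](a X² + c)^j`, and `[X^j](a X² + c)^j = 0` for odd `j`, `= C(2i, i) (a c)^i` for `j = 2i`, which
vanishes in characteristic 2 for `i ≥ 1` (`Nat.centralBinom` is even: `Nat.two_dvd_centralBinom_of_one_le`).
So `b = 0`.  Then `a x² + c y²` is the square of a linear form: choose `α² = a`, `γ² = c` (Frobenius is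
surjective); `a γ² + c α² = a c + c a = 0` in characteristic 2, so by the first hypothesis `γ = 0` and `α = 0`
(`x = γ`, `y = α`), hence `a = c = 0`, and then `x = 1, y = 0` contradicts it. -/
theorem even_contradiction {F : Type} [Field F] [Fintype F] (h2 : Even (Fintype.card F))
    (N k : ℕ) (hN : 2 ≤ N) (hNk : N * k = Fintype.card F - 1) (a b c : F)
    (haniso : ∀ x y : F, a * x ^ 2 + b * x * y + c * y ^ 2 = 0 → x = 0 ∧ y = 0)
    (h : ∀ x y : F, (x ≠ 0 ∨ y ≠ 0) → ∀ t : F, t ^ N = 1 → ∃ s : F, s ^ N = 1 ∧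
        (a * (s * x) ^ 2 + b * x * y + c * (s⁻¹ * y) ^ 2) ^ k = t) : False := by
  classical
  have hchar : ringChar F = 2 := FiniteField.even_card_iff_char_two.2 (Nat.even_iff.1 h2)
  have hcp : CharP F 2 := by rw [← hchar]; exact ringChar.charP F
  have hq2 : 2 ≤ Fintype.card F := Fintype.one_lt_card
  have hNpos : 0 < N := by omega
  have hkpos : 0 < k := by
    rcases Nat.eq_zero_or_pos k with h0 | h0
    · rw [h0, mul_zero] at hNk; omega
    · exact h0
  have hNodd : Odd N := by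
    rw [← Nat.not_even_iff_odd]
    intro hE
    have h1 : Even (N * k) := hE.mul_right k
    rw [hNk] at h1
    obtain ⟨m, hm⟩ := h1
    obtain ⟨m', hm'⟩ := h2
    omega
  have hN3 : 3 ≤ N := by
    obtain ⟨m, hm⟩ := hNodd
    omega
  -- a primitive root
  obtain ⟨γ, hγ⟩ := IsCyclic.exists_generator (α := Fˣ)
  have hord : orderOf γ = N * k := by
    rw [orderOf_eq_card_of_forall_mem_zpowers hγ, Nat.card_eq_fintype_card, Fintype.card_units, hNk]
  have h1 : IsPrimitiveRoot γ (N * k) := by rw [← hord]; exact IsPrimitiveRoot.orderOf γ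
  have h1' : IsPrimitiveRoot (γ ^ k) N := h1.pow (by positivity) (mul_comm N k)
  have hζ : IsPrimitiveRoot ((γ ^ k : Fˣ) : F) N := IsPrimitiveRoot.coe_units_iff.2 h1'
  set ζ : F := ((γ ^ k : Fˣ) : F) with hζdef
  set μ := nthRootsFinset N (1 : F) with hμ
  have hmem : ∀ s : F, s ∈ μ ↔ s ^ N = 1 := fun s => mem_nthRootsFinset hNpos (1 : F)
  have hμcard : μ.card = N := hζ.card_nthRootsFinset
  have hsum : ∑ t ∈ μ, t = 0 := by
    have e1 : ∑ t ∈ μ, t = ζ * ∑ t ∈ μ, t := by
      rw [Finset.mul_sum]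
      symm
      refine Finset.sum_bij (fun t _ => ζ * t) ?_ ?_ ?_ (fun _ _ => rfl)
      · intro t ht
        rw [hmem] at ht ⊢
        rw [mul_pow, ht, hζ.pow_eq_one, mul_one]
      · intro t _ t' _ htt
        exact mul_left_cancel₀ (hζ.ne_zero hNpos.ne') htt
      · intro t ht
        refine ⟨ζ⁻¹ * t, ?_, ?_⟩
        · rw [hmem] at ht ⊢
          rw [mul_pow, ht, inv_pow, hζ.pow_eq_one, inv_one, mul_one]
        · rw [mul_inv_cancel_left₀ (hζ.ne_zero hNpos.ne')]
    have hζ1 : ζ ≠ 1 := hζ.ne_one (by omega)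
    have e2 : (1 - ζ) * ∑ t ∈ μ, t = 0 := by
      rw [sub_mul, one_mul, ← e1, sub_self]
    exact (mul_eq_zero.1 e2).resolve_left (sub_ne_zero.2 hζ1.symm)
  have hs0 : ∀ s ∈ μ, s ≠ 0 := by
    rintro s hs rfl
    rw [hmem, zero_pow hNpos.ne'] at hs
    exact zero_ne_one hs
  set W : F[X] := (C a * X ^ 2 + C b * X + C c) ^ k with hW
  set P : F[X] := ∑ s ∈ μ, C ((s⁻¹ ^ 2) ^ k) * W.comp (C (s ^ 2) * X) with hP
  have hdegW : W.natDegree ≤ 2 * k := by
    rw [hW]
    refine (natDegree_pow_le).trans ?_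
    rw [mul_comm 2 k]
    exact Nat.mul_le_mul_left k natDegree_quadratic_le
  have hdegP : P.natDegree ≤ 2 * k := by
    rw [hP]
    refine natDegree_sum_le_of_forall_le μ _ fun s _ => ?_
    refine (natDegree_C_mul_le _ _).trans ?_
    refine (natDegree_comp_le).trans ?_
    calc W.natDegree * (C (s ^ 2) * X : F[X]).natDegree ≤ 2 * k * 1 :=
          Nat.mul_le_mul hdegW ((natDegree_C_mul_le _ _).trans natDegree_X_le)
      _ = 2 * k := mul_one _
  have heval : ∀ x : F, x ≠ 0 → P.eval x = 0 := by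
    intro x hx
    rw [hP, eval_finsetSum, ← hsum, ← n11_surj μ
      (fun s => (a * (s * x) ^ 2 + b * x * 1 + c * (s⁻¹ * 1) ^ 2) ^ k)]
    · refine Finset.sum_congr rfl fun s hs => ?_
      have hs' := hs0 s hs
      rw [eval_mul, eval_C, eval_comp, hW]
      simp only [eval_pow, eval_add, eval_mul, eval_C, eval_X]
      rw [← mul_pow]
      congr 1
      field_simp
    · intro t ht
      obtain ⟨s, hs, hst⟩ := h x 1 (Or.inl hx) t ((hmem t).1 ht)
      exact ⟨s, (hmem s).2 hs, hst⟩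
  have h2k : 2 * k < Fintype.card F - 1 := by
    rw [← hNk]
    nlinarith
  have hP0 : P = 0 := by
    refine eq_zero_of_natDegree_lt_card_of_eval_eq_zero' P ((Finset.univ : Finset F).erase 0)
      (fun x hx => heval x (Finset.ne_of_mem_erase hx)) ?_
    rw [Finset.card_erase_of_mem (Finset.mem_univ _), Finset.card_univ]
    exact lt_of_le_of_lt hdegP h2k
  have hcoeff : P.coeff k = N * b ^ k := by
    rw [hP, finsetSum_coeff]
    have : ∀ s ∈ μ, (C ((s⁻¹ ^ 2) ^ k) * W.comp (C (s ^ 2) * X)).coeff k = b ^ k := by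
      intro s hs
      have hs' := hs0 s hs
      rw [coeff_C_mul, comp_C_mul_X_coeff, hW, n11_W, mul_comm (b ^ k), ← mul_assoc]
      have e3 : (s⁻¹ ^ 2) ^ k * (s ^ 2) ^ k = 1 := by
        rw [← mul_pow, ← mul_pow, inv_mul_cancel₀ hs', one_pow, one_pow]
      rw [e3, one_mul]
    rw [Finset.sum_congr rfl this, Finset.sum_const, hμcard, nsmul_eq_mul]
  rw [hP0, coeff_zero] at hcoeff
  have hNF : (N : F) ≠ 0 := by
    intro h0
    have := (CharP.cast_eq_zero_iff F 2 N).1 h0
    exact (Nat.not_even_iff_odd.2 hNodd) (even_iff_two_dvd.2 this)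
  have hb : b = 0 := by
    have h3 := (mul_eq_zero.1 hcoeff.symm).resolve_left hNF
    exact pow_eq_zero_iff (hkpos.ne') |>.1 h3
  obtain ⟨α, hα⟩ := FiniteField.isSquare_of_char_two hchar a
  obtain ⟨δ, hδ⟩ := FiniteField.isSquare_of_char_two hchar c
  have h4 : a * δ ^ 2 + b * δ * α + c * α ^ 2 = 0 := by
    rw [hb, hα, hδ]
    have h5 : (2 : F) = 0 := by
      have := CharP.cast_eq_zero F 2
      exact_mod_cast this
    linear_combination (α ^ 2 * δ ^ 2) * h5
  obtain ⟨hδ0, hα0⟩ := haniso δ α h4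
  have ha : a = 0 := by rw [hα, hα0, mul_zero]
  have h6 := (haniso 1 0 (by rw [ha]; ring)).1
  exact one_ne_zero h6

end H96S
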