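import Pool.Agent.Lib.H96S.N12

/-!
# Chunk N13 (pure): the contradiction for `q` odd
-/

namespace H96S

open Polynomial

/-- an element of an extension field fixed by the Frobenius map is in the finite field -/
theorem n13_fix {F L : Type} [Field F] [Fintype F] [Field L] [Algebra F L] (z : L)
    (hz : z ^ Fintype.card F = z) : ∃ x : F, algebraMap F L x = z := by
  classical
  by_contra hcon
  push Not at hcon
  have hinj : Function.Injective (algebraMap F L) := (algebraMap F L).injective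
  have h1 : 1 < Fintype.card F := Fintype.one_lt_card
  have hne : (X ^ Fintype.card F - X : L[X]) ≠ 0 := FiniteField.X_pow_card_sub_X_ne_zero L h1
  have hsub : insert z (Finset.univ.image (algebraMap F L)) ⊆
      (X ^ Fintype.card F - X : L[X]).roots.toFinset := by
    intro y hy
    rw [Multiset.mem_toFinset, mem_roots hne, IsRoot.def, eval_sub, eval_pow, eval_X, sub_eq_zero]
    rcases Finset.mem_insert.1 hy with h | h
    · rw [h, hz]
    · obtain ⟨x, -, rfl⟩ := Finset.mem_image.1 h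
      rw [← map_pow, FiniteField.pow_card]
  have hc := Finset.card_le_card hsub
  rw [Finset.card_insert_of_notMem, Finset.card_image_of_injective _ hinj, Finset.card_univ] at hc
  · have h2 := Multiset.toFinset_card_le (X ^ Fintype.card F - X : L[X]).roots
    have h3 := card_roots' (X ^ Fintype.card F - X : L[X])
    rw [FiniteField.X_pow_card_sub_X_natDegree_eq L h1] at h3
    omega
  · intro h
    obtain ⟨x, -, hx⟩ := Finset.mem_image.1 h
    exact hcon x hx

/-- the product of the values of a quadratic polynomial on a coset of the `N`-th roots of unity -/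
theorem n13_prod {L : Type} [Field L] {N : ℕ} (hN : 0 < N) (hodd : Odd N) {ζ : L}
    (hζ : IsPrimitiveRoot ζ N) (x θ : L) :
    ∏ z ∈ nthRootsFinset N (1 : L), (z * x - θ) = x ^ N - θ ^ N := by
  have h1 := hζ.pow_sub_pow_eq_prod_sub_mul θ x hN
  have h2 : ∏ z ∈ nthRootsFinset N (1 : L), (z * x - θ) =
      ∏ z ∈ nthRootsFinset N (1 : L), ((-1) * (θ - z * x)) := by
    refine Finset.prod_congr rfl fun z _ => ?_
    ring
  rw [h2, Finset.prod_mul_distrib, ← h1, Finset.prod_const, hζ.card_nthRootsFinset, hodd.neg_one_pow]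
  ring

/-- the main identity: the product of the values of the quadratic form -/
theorem n13_quad {L : Type} [Field L] {N : ℕ} (hN : 0 < N) (hodd : Odd N) {ζ : L}
    (hζ : IsPrimitiveRoot ζ N) (a b c θ₁ θ₂ : L) (hsum : a * (θ₁ + θ₂) = -b) (hprod : a * (θ₁ * θ₂) = c)
    (x : L) :
    ∏ s ∈ nthRootsFinset N (1 : L), (a * (s * x) ^ 2 + b * x + c * (s⁻¹) ^ 2) =
      a ^ N * ((x ^ N) ^ 2 - (θ₁ ^ N + θ₂ ^ N) * x ^ N + (θ₁ * θ₂) ^ N) := by
  classical
  obtain ⟨m, hm⟩ := hodd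
  have hmem : ∀ s : L, s ∈ nthRootsFinset N (1 : L) ↔ s ^ N = 1 := fun s => mem_nthRootsFinset hN (1 : L)
  have hone : ∏ z ∈ nthRootsFinset N (1 : L), z = 1 := by
    have h := n13_prod hN ⟨m, hm⟩ hζ 1 0
    simp only [mul_one, sub_zero, one_pow] at h
    rw [h, zero_pow hN.ne', sub_zero]
  have hne : ∀ s ∈ nthRootsFinset N (1 : L), s ≠ 0 := by
    intro s hs h0
    rw [hmem, h0, zero_pow hN.ne'] at hs
    exact zero_ne_one hs
  -- factor out s⁻²
  have e1 : ∏ s ∈ nthRootsFinset N (1 : L), (a * (s * x) ^ 2 + b * x + c * (s⁻¹) ^ 2) =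
      ∏ s ∈ nthRootsFinset N (1 : L), ((s⁻¹) ^ 2 * (a * (s ^ 2 * x - θ₁) * (s ^ 2 * x - θ₂))) := by
    refine Finset.prod_congr rfl fun s hs => ?_
    have h0 := hne s hs
    have hb : b = -(a * (θ₁ + θ₂)) := by rw [hsum, neg_neg]
    rw [hb, ← hprod]
    field_simp
    ring
  have e2 : ∏ s ∈ nthRootsFinset N (1 : L), (s⁻¹) ^ 2 = 1 := by
    rw [Finset.prod_pow, Finset.prod_inv_distrib, hone, inv_one, one_pow]
  have e3 : ∏ s ∈ nthRootsFinset N (1 : L), (a * (s ^ 2 * x - θ₁) * (s ^ 2 * x - θ₂)) =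
      ∏ z ∈ nthRootsFinset N (1 : L), (a * (z * x - θ₁) * (z * x - θ₂)) := by
    refine Finset.prod_nbij (fun s => s ^ 2) ?_ ?_ ?_ ?_
    · intro s hs
      rw [hmem] at hs ⊢
      show (s ^ 2) ^ N = 1
      rw [← pow_mul, mul_comm, pow_mul, hs, one_pow]
    · intro s hs t ht hst
      have hs' : s ^ N = 1 := (hmem s).1 hs
      have ht' : t ^ N = 1 := (hmem t).1 ht
      have hst' : s ^ 2 = t ^ 2 := hst
      have h1 : ∀ u : L, u ^ N = 1 → (u ^ 2) ^ (m + 1) = u := by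
        intro u hu
        rw [← pow_mul, show 2 * (m + 1) = N + 1 by omega, pow_succ, hu, one_mul]
      rw [← h1 s hs', ← h1 t ht', hst']
    · intro z hz
      have hz' : z ^ N = 1 := (hmem z).1 hz
      refine ⟨z ^ (m + 1), ?_, ?_⟩
      · show z ^ (m + 1) ∈ nthRootsFinset N (1 : L)
        rw [hmem, ← pow_mul, mul_comm, pow_mul, hz', one_pow]
      · show (z ^ (m + 1)) ^ 2 = z
        rw [← pow_mul, show (m + 1) * 2 = N + 1 by omega, pow_succ, hz', one_mul]
    · intro s _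
      rfl
  rw [e1, Finset.prod_mul_distrib, e2, one_mul, e3, Finset.prod_mul_distrib, Finset.prod_mul_distrib,
    n13_prod hN ⟨m, hm⟩ hζ x θ₁, n13_prod hN ⟨m, hm⟩ hζ x θ₂, Finset.prod_const, hζ.card_nthRootsFinset,
    mul_pow]
  ring

/-- a surjection of a finite set onto itself preserves the product -/
theorem n13_surj {L : Type} [Field L] [DecidableEq L] (S : Finset L) (g : L → L)
    (h : ∀ t ∈ S, ∃ s ∈ S, g s = t) : ∏ s ∈ S, g s = ∏ t ∈ S, t := by
  have h1 : S ⊆ S.image g := by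
    intro t ht
    obtain ⟨s, hs, hst⟩ := h t ht
    exact Finset.mem_image.2 ⟨s, hs, hst⟩
  have h2 : S = S.image g := Finset.eq_of_subset_of_card_le h1 Finset.card_image_le
  have h3 : Set.InjOn g S := by
    rw [← Finset.card_image_iff, ← h2]
  conv_rhs => rw [h2]
  rw [Finset.prod_image h3]

/-- Proof.  `N` odd, `N ≥ 3`.  Let `μ = {s ∈ F : s^N = 1}`, a cyclic group of order `N` (`N ∣ q - 1`).
For `x ≠ 0`, `y = 1` the hypothesis says that `s ↦ (a s² x² + b x + c s⁻²)^k` is a bijection of `μ` (it attains all values `t ∈ μ`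
and `|μ|` is finite), so the product of its values is `∏_{t ∈ μ} t = 1` (`N` odd: pair `t` with `t⁻¹`).
`a s² x² + b x + c s⁻² = s⁻² (a (s² x)² + b (s² x) + c)`; `∏_{s ∈ μ} s⁻² = 1`, and `z = s²` runs through `μ` (`N` odd).  Let
`L` be the algebraic closure of `F` and `a X² + b X + c = a (X - θ₁)(X - θ₂)` in `L` (`a ≠ 0`: anisotropic, `x = 1, y = 0`).
`∏_{z ∈ μ} (z x - θ) = x^N - θ^N` (`∏_z (z x - θ) = ∏_z z · ∏_z (x - z⁻¹ θ)` and `X^N - θ^N = ∏_{z ∈ μ} (X - z θ)`,
`X_pow_sub_one_eq_prod` or `IsPrimitiveRoot.pow_sub_pow_eq_prod_sub_mul`).  So with `w = x^N`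
`1 = (a^N (w - θ₁^N)(w - θ₂^N))^k = a^(Nk) (w² - σ w + ν)^k = (w² - σ w + ν)^k`, where `σ = θ₁^N + θ₂^N`, `ν = (θ₁ θ₂)^N` and
`a^(Nk) = a^(q-1) = 1`.  This holds for every `w = x^N`, `x ∈ Fˣ`, i.e. for all `w ∈ F` with `w^k = 1` (`Fˣ` is cyclic of order `N k`); these are
`k` elements.  `ν ≠ 0`: `θ₁ θ₂ = c / a ≠ 0` (`c ≠ 0`: anisotropic, `x = 0, y = 1`).
`σ² - 4 ν = (θ₁^N - θ₂^N)² ≠ 0`: `θ₁ ∉ F` (otherwise `x = θ₁`, `y = 1` is isotropic), so `θ₁^q ≠ θ₁` (the elements of `L` with `z^q = z` are those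
of `F`: `X^q - X` has the `q` roots in `F`), and `θ₁^q` is a root of `a X² + b X + c` (Frobenius), so `θ₂ = θ₁^q`, and
`θ₂^q = θ₁` in the same way (`θ₂^q ≠ θ₂`).  If `θ₁^N = θ₂^N`, then `u = θ₂ / θ₁ = θ₁^(q-1)` satisfies `u^N = 1` and
`u^(q+1) = θ₁^(q²-1) = 1`; `gcd(N, q+1) = 1` (`N` is odd and divides `q - 1`), so `u = 1`, `θ₂ = θ₁`: contradiction.
Now `poly_contradiction`; `k ≠ 0` in `F` because `N k = q - 1 = -1` in `F`. -/
theorem odd_contradiction {F : Type} [Field F] [Fintype F] [DecidableEq F]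
    (N k : ℕ) (hN : 2 ≤ N) (hNodd : Odd N) (hNk : N * k = Fintype.card F - 1) (hk : 6 ≤ k)
    (hk1 : (k : F) + 1 ≠ 0) (a b c : F)
    (haniso : ∀ x y : F, a * x ^ 2 + b * x * y + c * y ^ 2 = 0 → x = 0 ∧ y = 0)
    (h : ∀ x y : F, (x ≠ 0 ∨ y ≠ 0) → ∀ t : F, t ^ N = 1 → ∃ s : F, s ^ N = 1 ∧
        (a * (s * x) ^ 2 + b * x * y + c * (s⁻¹ * y) ^ 2) ^ k = t) : False := by
  classical
  obtain ⟨L, hL, hLF, hclosed⟩ : ∃ (L : Type) (_ : Field L) (_ : Algebra F L), IsAlgClosed L :=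
    ⟨AlgebraicClosure F, inferInstance, inferInstance, inferInstance⟩
  have hinj : Function.Injective (algebraMap F L) := (algebraMap F L).injective
  obtain ⟨q, hq⟩ : ∃ q, q = Fintype.card F := ⟨_, rfl⟩
  rw [← hq] at hNk
  have hq1 : 1 < q := by rw [hq]; exact Fintype.one_lt_card
  have hN0 : 0 < N := by omega
  have hk0 : 0 < k := by omega
  have hNkq : N * k + 1 = q := by omega
  -- coefficients
  have ha : a ≠ 0 := by
    intro h0
    have := haniso 1 0 (by rw [h0]; ring)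
    exact one_ne_zero this.1
  have hc : c ≠ 0 := by
    intro h0
    have := haniso 0 1 (by rw [h0]; ring)
    exact one_ne_zero this.2
  obtain ⟨A, hA⟩ : ∃ A : L, A = algebraMap F L a := ⟨_, rfl⟩
  obtain ⟨B, hB⟩ : ∃ B : L, B = algebraMap F L b := ⟨_, rfl⟩
  obtain ⟨C, hC⟩ : ∃ C : L, C = algebraMap F L c := ⟨_, rfl⟩
  have hA0 : A ≠ 0 := by rw [hA]; exact (_root_.map_ne_zero _).2 ha
  have hC0 : C ≠ 0 := by rw [hC]; exact (_root_.map_ne_zero _).2 hc
  -- the roots
  obtain ⟨θ₁, hθ₁⟩ : ∃ θ : L, A * θ ^ 2 + B * θ + C = 0 := by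
    obtain ⟨θ, hθ⟩ := IsAlgClosed.exists_root (Polynomial.C A * X ^ 2 + Polynomial.C B * X + Polynomial.C C)
      (by rw [degree_quadratic hA0]; decide)
    refine ⟨θ, ?_⟩
    rw [IsRoot.def] at hθ
    simpa using hθ
  obtain ⟨θ₂, hθ₂⟩ : ∃ θ : L, θ = -B / A - θ₁ := ⟨_, rfl⟩
  have hsum : A * (θ₁ + θ₂) = -B := by rw [hθ₂]; field_simp; ring
  have hprod : A * (θ₁ * θ₂) = C := by
    have : A * (θ₁ * θ₂) = θ₁ * (A * (θ₁ + θ₂)) - A * θ₁ ^ 2 := by ring
    rw [this, hsum]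
    linear_combination (-1 : L) * hθ₁
  have hfac : ∀ z : L, A * z ^ 2 + B * z + C = A * ((z - θ₁) * (z - θ₂)) := by
    intro z
    have hB' : B = -(A * (θ₁ + θ₂)) := by rw [hsum, neg_neg]
    rw [hB', ← hprod]
    ring
  have hnot : ∀ x : F, A * (algebraMap F L x) ^ 2 + B * algebraMap F L x + C ≠ 0 := by
    intro x h0
    have h1 : algebraMap F L (a * x ^ 2 + b * x * 1 + c * 1 ^ 2) = 0 := by
      rw [← h0, hA, hB, hC]
      simp
    have h2 := (map_eq_zero _).1 h1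
    exact one_ne_zero (haniso x 1 h2).2
  have hroot2 : A * θ₂ ^ 2 + B * θ₂ + C = 0 := by rw [hfac, sub_self, mul_zero, mul_zero]
  have hfrob : ∀ z : L, A * z ^ 2 + B * z + C = 0 → A * (z ^ q) ^ 2 + B * (z ^ q) + C = 0 := by
    intro z hz
    have h1 := congrArg (FiniteField.frobeniusAlgHom F L) hz
    rw [map_add, map_add, map_mul, map_mul, map_pow, map_zero] at h1
    have h2 : ∀ u : L, (FiniteField.frobeniusAlgHom F L) u = u ^ q := by
      intro u; rw [hq]; rfl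
    rw [hA, hB, hC, AlgHom.commutes, AlgHom.commutes, AlgHom.commutes, h2, ← hA, ← hB, ← hC] at h1
    exact h1
  have hne1 : θ₁ ^ q ≠ θ₁ := by
    intro h0
    rw [hq] at h0
    obtain ⟨x, hx⟩ := n13_fix θ₁ h0
    apply hnot x
    rw [hx]
    exact hθ₁
  have hne2 : θ₂ ^ q ≠ θ₂ := by
    intro h0
    rw [hq] at h0
    obtain ⟨x, hx⟩ := n13_fix θ₂ h0
    apply hnot x
    rw [hx]
    exact hroot2
  have hor : ∀ z : L, A * z ^ 2 + B * z + C = 0 → z = θ₁ ∨ z = θ₂ := by
    intro z hz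
    rw [hfac] at hz
    rcases mul_eq_zero.1 hz with h1 | h1
    · exact absurd h1 hA0
    · rcases mul_eq_zero.1 h1 with h2 | h2
      · exact Or.inl (sub_eq_zero.1 h2)
      · exact Or.inr (sub_eq_zero.1 h2)
  have h12 : θ₁ ^ q = θ₂ := by
    rcases hor _ (hfrob _ hθ₁) with h1 | h1
    · exact absurd h1 hne1
    · exact h1
  have h21 : θ₂ ^ q = θ₁ := by
    rcases hor _ (hfrob _ hroot2) with h1 | h1
    · exact h1
    · exact absurd h1 hne2
  have hθ10 : θ₁ ≠ 0 := by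
    intro h0
    rw [h0, zero_mul, mul_zero] at hprod
    exact hC0 hprod.symm
  have hθ20 : θ₂ ≠ 0 := by
    intro h0
    rw [h0, mul_zero, mul_zero] at hprod
    exact hC0 hprod.symm
  have hNne : θ₁ ^ N ≠ θ₂ ^ N := by
    intro h0
    obtain ⟨u, hu⟩ : ∃ u, u = θ₁ ^ (q - 1) := ⟨_, rfl⟩
    have hu1 : θ₂ = u * θ₁ := by
      rw [hu, ← pow_succ, show q - 1 + 1 = q by omega, h12]
    have huN : u ^ N = 1 := by
      rw [hu1, mul_pow] at h0
      have h3 : θ₁ ^ N ≠ 0 := pow_ne_zero _ hθ10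
      have h4 : (u ^ N - 1) * θ₁ ^ N = 0 := by rw [sub_mul, one_mul, ← h0, sub_self]
      rcases mul_eq_zero.1 h4 with h5 | h5
      · exact sub_eq_zero.1 h5
      · exact absurd h5 h3
    have huq : u ^ (q + 1) = 1 := by
      have h3 : θ₁ ^ (q * q) = θ₁ := by rw [pow_mul, h12, h21]
      have h4 : θ₁ ^ ((q - 1) * (q + 1)) * θ₁ = θ₁ := by
        rw [← pow_succ]
        have : (q - 1) * (q + 1) + 1 = q * q := by
          obtain ⟨r, rfl⟩ : ∃ r, q = r + 1 := ⟨q - 1, by omega⟩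
          rw [Nat.add_sub_cancel]; ring
        rw [this, h3]
      rw [hu, ← pow_mul]
      have h5 : (θ₁ ^ ((q - 1) * (q + 1)) - 1) * θ₁ = 0 := by rw [sub_mul, one_mul, h4, sub_self]
      rcases mul_eq_zero.1 h5 with h6 | h6
      · exact sub_eq_zero.1 h6
      · exact absurd h6 hθ10
    have hcop : Nat.Coprime N (q + 1) := by
      rw [← hNkq, show N * k + 1 + 1 = 2 + N * k by ring]
      rw [Nat.coprime_add_mul_left_right]
      exact (Nat.coprime_two_right).2 hNodd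
    have hu2 : u = 1 := by
      have h7 : orderOf u ∣ Nat.gcd N (q + 1) :=
        Nat.dvd_gcd (orderOf_dvd_of_pow_eq_one huN) (orderOf_dvd_of_pow_eq_one huq)
      rw [hcop.gcd_eq_one, Nat.dvd_one] at h7
      exact orderOf_eq_one_iff.1 h7
    rw [hu2, one_mul] at hu1
    exact hne1 (by rw [h12, hu1])
  -- primitive roots
  obtain ⟨g, hg⟩ : ∃ g : F, IsPrimitiveRoot g (N * k) := by
    obtain ⟨u, hu⟩ := IsCyclic.exists_ofOrder_eq_natCard (α := Fˣ)
    refine ⟨(u : F), ?_⟩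
    have h1 : orderOf (u : F) = N * k := by
      rw [orderOf_units, hu, Nat.card_eq_fintype_card, Fintype.card_units, ← hq, hNk]
    rw [← h1]
    exact IsPrimitiveRoot.orderOf _
  have hNkpos : 0 < N * k := Nat.mul_pos hN0 hk0
  have hζF : IsPrimitiveRoot (g ^ k) N := hg.pow hNkpos (Nat.mul_comm N k)
  have hηF : IsPrimitiveRoot (g ^ N) k := hg.pow hNkpos rfl
  have hζ : IsPrimitiveRoot (algebraMap F L (g ^ k)) N := hζF.map_of_injective hinj
  have hη : IsPrimitiveRoot (algebraMap F L (g ^ N)) k := hηF.map_of_injective hinj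
  have himg : (nthRootsFinset N (1 : F)).image (algebraMap F L) = nthRootsFinset N (1 : L) := by
    apply Finset.eq_of_subset_of_card_le
    · intro y hy
      obtain ⟨s, hs, rfl⟩ := Finset.mem_image.1 hy
      rw [mem_nthRootsFinset hN0] at hs ⊢
      rw [← map_pow, hs, map_one]
    · rw [Finset.card_image_of_injective _ hinj, hζ.card_nthRootsFinset, hζF.card_nthRootsFinset]
  -- the identity for every nonzero x
  have hkey : ∀ x : F, x ≠ 0 → (((algebraMap F L x) ^ N) ^ 2 - (θ₁ ^ N + θ₂ ^ N) * (algebraMap F L x) ^ N +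
      (θ₁ * θ₂) ^ N) ^ k = 1 := by
    intro x hx
    have h1 : ∏ s ∈ nthRootsFinset N (1 : F), (a * (s * x) ^ 2 + b * x * 1 + c * (s⁻¹ * 1) ^ 2) ^ k =
        ∏ t ∈ nthRootsFinset N (1 : F), t := by
      apply n13_surj
      intro t ht
      rw [mem_nthRootsFinset hN0] at ht
      obtain ⟨s, hs, hst⟩ := h x 1 (Or.inl hx) t ht
      exact ⟨s, (mem_nthRootsFinset hN0 1).2 hs, hst⟩
    have h2 : ∏ t ∈ nthRootsFinset N (1 : F), t = 1 := by
      have h := n13_prod hN0 hNodd hζF 1 0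
      simp only [mul_one, sub_zero, one_pow] at h
      rw [h, zero_pow hN0.ne', sub_zero]
    rw [h2, Finset.prod_pow] at h1
    have h3 := congrArg (algebraMap F L) h1
    rw [map_one, map_pow, map_prod] at h3
    have h4 := n13_quad hN0 hNodd hζ A B C θ₁ θ₂ hsum hprod (algebraMap F L x)
    rw [← himg, Finset.prod_image (fun _ _ _ _ h => hinj h)] at h4
    have h5 : ∏ s ∈ nthRootsFinset N (1 : F), (algebraMap F L) (a * (s * x) ^ 2 + b * x * 1 + c * (s⁻¹ * 1) ^ 2) =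
        ∏ s ∈ nthRootsFinset N (1 : F), (A * (algebraMap F L s * algebraMap F L x) ^ 2 + B * algebraMap F L x +
          C * ((algebraMap F L s)⁻¹) ^ 2) := by
      refine Finset.prod_congr rfl fun s _ => ?_
      rw [hA, hB, hC]
      simp
    rw [h5, h4, mul_pow, ← pow_mul] at h3
    have h6 : A ^ (N * k) = 1 := by
      rw [hNk, hA, ← map_pow, hq, FiniteField.pow_card_sub_one_eq_one a ha, map_one]
    rw [h6, one_mul] at h3
    exact h3
  -- apply the polynomial lemma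
  refine poly_contradiction k hk ?_ ?_ ((Finset.range k).image fun i => (algebraMap F L (g ^ N)) ^ i) ?_ ?_
    (θ₁ ^ N + θ₂ ^ N) ((θ₁ * θ₂) ^ N) (pow_ne_zero _ (mul_ne_zero hθ10 hθ20)) ?_ ?_
  · intro h0
    have h1 : (k : F) = 0 := by
      have : algebraMap F L (k : F) = 0 := by rw [map_natCast]; exact h0
      exact (map_eq_zero _).1 this
    have h2 : ((N * k + 1 : ℕ) : F) = 0 := by
      rw [hNkq, hq]
      exact FiniteField.cast_card_eq_zero F
    push_cast at h2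
    rw [h1, mul_zero, zero_add] at h2
    exact one_ne_zero h2
  · intro h0
    apply hk1
    have : algebraMap F L ((k : F) + 1) = 0 := by rw [map_add, map_natCast, map_one]; exact h0
    exact (map_eq_zero _).1 this
  · intro w hw
    obtain ⟨i, -, rfl⟩ := Finset.mem_image.1 hw
    rw [← pow_mul, mul_comm, pow_mul, hη.pow_eq_one, one_pow]
  · rw [Finset.card_image_of_injOn, Finset.card_range]
    intro i hi j hj hij
    exact hη.pow_inj (Finset.mem_range.1 hi) (Finset.mem_range.1 hj) hij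
  · intro h0
    apply hNne
    have h1 : (θ₁ ^ N - θ₂ ^ N) ^ 2 = 0 := by
      have : (θ₁ ^ N - θ₂ ^ N) ^ 2 = (θ₁ ^ N + θ₂ ^ N) ^ 2 - 4 * (θ₁ * θ₂) ^ N := by
        rw [mul_pow]; ring
      rw [this, h0, sub_self]
    exact sub_eq_zero.1 (pow_eq_zero_iff (two_ne_zero) |>.1 h1)
  · intro w hw
    obtain ⟨i, -, rfl⟩ := Finset.mem_image.1 hw
    have hg0 : g ≠ 0 := hg.ne_zero hNkpos.ne'
    have h1 := hkey (g ^ i) (pow_ne_zero _ hg0)
    have h2 : (algebraMap F L (g ^ N)) ^ i = (algebraMap F L (g ^ i)) ^ N := by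
      rw [← map_pow, ← map_pow, ← pow_mul, ← pow_mul, mul_comm]
    rw [h2]
    exact h1

end H96S
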