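import Mathlib

/-!
# Chunk N14 (pure number theory): fields with `q + 1` a power of 2
-/

namespace H96S

lemma n14_decomp (m ell : ℕ) (hm : m ≠ 0) (hell : ell.Prime) (hd : ell ∣ m) :
    ∃ j N k : ℕ, j ≠ 0 ∧ N = ell ^ j ∧ N * k = m ∧ ¬ ell ∣ k := by
  refine ⟨m.factorization ell, ell ^ m.factorization ell, m / ell ^ m.factorization ell, ?_, rfl,
    Nat.ordProj_mul_ordCompl_eq_self m ell, Nat.not_dvd_ordCompl hell hm⟩
  exact (hell.factorization_pos_of_dvd hm hd).ne'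

lemma n14_f (p f q e : ℕ) (hp : p.Prime) (hq : q = p ^ f) (hq7 : 7 < q)
    (hre : q + 1 = 2 ^ e) : q = p := by
  have he : 4 ≤ e := by
    by_contra hcon
    have h1 : 2 ^ e ≤ 2 ^ 3 := Nat.pow_le_pow_right (by norm_num) (by omega)
    omega
  have h4 : 4 ∣ q + 1 := by
    rw [hre]
    exact (pow_dvd_pow 2 (show 2 ≤ e by omega))
  have hf0 : f ≠ 0 := by
    rintro rfl
    rw [pow_zero] at hq
    omega
  have hp2 : ¬ 2 ∣ p := by
    intro h2
    have h3 : 2 ∣ q := by rw [hq]; exact dvd_pow h2 hf0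
    omega
  have hfodd : Odd f := by
    rw [← Nat.not_even_iff_odd]
    rintro ⟨g, hg⟩
    have h5 : q = (p ^ g) * (p ^ g) := by rw [hq, hg, pow_add]
    have h6 : (p ^ g) % 4 = 0 ∨ (p ^ g) % 4 = 1 ∨ (p ^ g) % 4 = 2 ∨ (p ^ g) % 4 = 3 := by omega
    have h7 : q % 4 = 0 ∨ q % 4 = 1 := by
      rw [h5, Nat.mul_mod]
      rcases h6 with h | h | h | h <;> rw [h] <;> simp
    omega
  have hmul := emultiplicity_pow_sub_pow_of_prime (R := ℤ) (p := 2) Int.prime_two (x := p) (y := -1)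
    (n := f) (by omega) (by exact_mod_cast hp2)
    (by
      obtain ⟨g, hg⟩ := hfodd
      intro h
      have : (2 : ℕ) ∣ f := by exact_mod_cast h
      omega)
  have h8 : (2 : ℤ) ^ e ∣ (p : ℤ) ^ f - (-1) ^ f := by
    rw [hfodd.neg_one_pow]
    have h9 : ((q + 1 : ℕ) : ℤ) = ((2 ^ e : ℕ) : ℤ) := by rw [hre]
    rw [hq] at h9
    push_cast at h9
    rw [sub_neg_eq_add, h9]
  have h9 : (2 : ℤ) ^ e ∣ (p : ℤ) - (-1) := by
    rw [pow_dvd_iff_le_emultiplicity] at h8 ⊢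
    rw [← hmul]; exact h8
  have h10 : (2 : ℤ) ^ e ≤ (p : ℤ) - (-1) := by
    refine Int.le_of_dvd ?_ h9
    have := hp.pos
    omega
  have h11 : 2 ^ e ≤ p + 1 := by
    have : (2 : ℤ) ^ e ≤ (p : ℤ) + 1 := by linarith
    exact_mod_cast this
  have h12 : p ≤ q := by
    rw [hq]
    calc p = p ^ 1 := (pow_one p).symm
      _ ≤ p ^ f := Nat.pow_le_pow_right hp.pos (by omega)
  omega

/-- `q = p ^ f` odd, `q + 1 = 2 ^ e`, `q > 7`: there are an odd prime `ell`, `N = ell ^ j` exactly dividing `q - 1`, with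
`k = (q - 1) / N ≥ 6` and `p ∤ k + 1`.

Proof.  `e ≥ 4`.  (1) `f = 1`: if `f` is even, `p^f ≡ 1 mod 4` and `2^e ≡ 2 mod 4`, contradiction with `e ≥ 2`.  If `f` is odd, `p + 1 ∣ p^f + 1 = 2^e`
(`Odd.add_pow` / `Odd.nat_add_dvd_pow_add_pow`), and the cofactor `∑_{i<f} (-1)^i p^i` is an odd number
(a sum of `f` odd numbers, `f` odd) dividing `2^e`, so it is 1, i.e. `p^f + 1 = p + 1`, `f = 1`.  So `q = p`.
(2) `e` is odd: if `e` is even, `3 ∣ 2^e - 1 = p`, `p = 3`, but `q > 7`.  Let `e = 2m + 1`, `m ≥ 2` (`e ≥ 4`, odd, so `e ≥ 5`).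
`q - 1 = 2^e - 2 = 2 (2^(2m) - 1) = 2 (2^m - 1)(2^m + 1)`.  Let `ell` be a prime divisor of `2^m - 1 ≥ 3` (odd); `ell ∤ 2^m + 1` (difference 2).
Let `ell^j` be the exact power of `ell` in `q - 1`; it is the exact power in `2^m - 1`, so `N = ell^j ≤ 2^m - 1` divides it, and
`k = 2 (2^m + 1) (2^m - 1)/N ≥ 2 (2^m + 1) ≥ 10`.
(3) `p ∤ k + 1`: `0 < k + 1 < q = p`: `k ≤ (q - 1)/3`. -/
theorem exists_ell (p f q e : ℕ) (hp : p.Prime) (hq : q = p ^ f) (hq7 : 7 < q)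
    (hre : q + 1 = 2 ^ e) :
    ∃ ell j N k : ℕ, ell.Prime ∧ ell ≠ 2 ∧ j ≠ 0 ∧ N = ell ^ j ∧ N * k = q - 1 ∧ ¬ ell ∣ k ∧
      6 ≤ k ∧ ¬ p ∣ k + 1 := by
  have hqp := n14_f p f q e hp hq hq7 hre
  have he : 4 ≤ e := by
    by_contra hcon
    have h1 : 2 ^ e ≤ 2 ^ 3 := Nat.pow_le_pow_right (by norm_num) (by omega)
    omega
  have heodd : Odd e := by
    rw [← Nat.not_even_iff_odd]
    rintro ⟨g, hg⟩
    have h1 : 3 ∣ q := by
      have h2 : (2 ^ e) % 3 = 1 := by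
        rw [hg, ← two_mul, pow_mul, Nat.pow_mod]
        norm_num
      omega
    rw [hqp] at h1
    have h2 := (Nat.prime_dvd_prime_iff_eq Nat.prime_three hp).1 h1
    omega
  obtain ⟨m, hm⟩ := heodd
  have hm2 : 2 ≤ m := by omega
  have h2m : 4 ≤ 2 ^ m := by
    calc 4 = 2 ^ 2 := by norm_num
      _ ≤ 2 ^ m := Nat.pow_le_pow_right (by norm_num) hm2
  obtain ⟨u, hu⟩ : ∃ u, 2 ^ m = u + 1 := ⟨2 ^ m - 1, by omega⟩
  have hu3 : 3 ≤ u := by omega
  have hq1 : q - 1 = 2 * (u * (u + 2)) := by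
    have h1 : q + 1 = 2 * ((u + 1) * (u + 1)) := by
      rw [hre, hm, pow_succ, mul_comm 2 m, pow_mul, ← hu, sq, mul_comm]
    have h2 : 2 * ((u + 1) * (u + 1)) = 2 * (u * (u + 2)) + 2 := by ring
    omega
  have hell : (Nat.minFac u).Prime := Nat.minFac_prime (by omega)
  set ell := Nat.minFac u with helldef
  have hellu : ell ∣ u := Nat.minFac_dvd u
  have huodd : ¬ 2 ∣ u := by
    intro h
    have h1 : 2 ∣ 2 ^ m := dvd_pow_self 2 (by omega)
    omega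
  have hell2 : ell ≠ 2 := by
    intro h
    rw [h] at hellu
    exact huodd hellu
  have hellq : ell ∣ q - 1 := by
    rw [hq1]
    exact dvd_mul_of_dvd_right (dvd_mul_of_dvd_left hellu _) _
  obtain ⟨j, N, k, hj, hN, hNk, hk⟩ := n14_decomp (q - 1) ell (by omega) hell hellq
  have hell22 : ¬ ell ∣ 2 := fun h => hell2 ((Nat.prime_dvd_prime_iff_eq hell Nat.prime_two).1 h)
  have hellu2 : ¬ ell ∣ u + 2 := by
    intro h
    exact hell22 ((Nat.dvd_add_right hellu).1 h)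
  have hcop : Nat.Coprime N (2 * (u + 2)) := by
    rw [hN]
    apply Nat.Coprime.pow_left
    rw [hell.coprime_iff_not_dvd]
    intro h
    rcases hell.dvd_mul.1 h with h | h
    · exact hell22 h
    · exact hellu2 h
  have hNu : N ∣ u := by
    have h1 : N ∣ (2 * (u + 2)) * u := by
      have h2 : (2 * (u + 2)) * u = N * k := by rw [hNk, hq1]; ring
      rw [h2]; exact dvd_mul_right _ _
    exact hcop.dvd_of_dvd_mul_left h1
  have hNle : N ≤ u := Nat.le_of_dvd (by omega) hNu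
  have hN3 : 3 ≤ N := by
    have h1 : ell ∣ N := by rw [hN]; exact dvd_pow_self ell hj
    have h2 : 3 ≤ ell := by
      have := hell.two_le
      omega
    have hNpos : 0 < N := by rw [hN]; exact pow_pos hell.pos _
    exact h2.trans (Nat.le_of_dvd hNpos h1)
  have hk10 : 10 ≤ k := by
    by_contra hcon
    have h1 : k ≤ 9 := by omega
    have h2 : N * k ≤ u * 9 := Nat.mul_le_mul hNle h1
    rw [hNk, hq1] at h2
    nlinarith
  refine ⟨ell, j, N, k, hell, hell2, hj, hN, hNk, hk, by omega, ?_⟩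
  intro h
  have h1 : p ≤ k + 1 := Nat.le_of_dvd (by omega) h
  have h2 : 3 * k ≤ N * k := Nat.mul_le_mul_right k hN3
  omega

/-- `q ≥ 4` even: an odd prime `ell` dividing `q - 1 ≥ 3` and its exact power. -/
theorem exists_ell_even (q : ℕ) (hq : 4 ≤ q) (h2 : Even q) :
    ∃ ell j N k : ℕ, ell.Prime ∧ ell ≠ 2 ∧ j ≠ 0 ∧ N = ell ^ j ∧ N * k = q - 1 ∧ ¬ ell ∣ k := by
  have hell : (Nat.minFac (q - 1)).Prime := Nat.minFac_prime (by omega)
  obtain ⟨j, N, k, hj, hN, hNk, hk⟩ := n14_decomp (q - 1) _ (by omega) hell (Nat.minFac_dvd _)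
  refine ⟨_, j, N, k, hell, ?_, hj, hN, hNk, hk⟩
  intro h
  have h1 := Nat.minFac_dvd (q - 1)
  rw [h] at h1
  obtain ⟨a, ha⟩ := h2
  omega

/-- If `n ≥ 2` is not divisible by two different primes, it is a prime power. -/
theorem prime_pow_or (n : ℕ) (hn : 2 ≤ n) :
    (∃ r s : ℕ, r.Prime ∧ s.Prime ∧ r ≠ s ∧ r * s ∣ n) ∨ ∃ r e : ℕ, r.Prime ∧ e ≠ 0 ∧ n = r ^ e := by
  have hr : (Nat.minFac n).Prime := Nat.minFac_prime (by omega)
  obtain ⟨j, N, k, hj, hN, hNk, hk⟩ := n14_decomp n _ (by omega) hr (Nat.minFac_dvd _)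
  by_cases hk1 : k = 1
  · right
    refine ⟨_, j, hr, hj, ?_⟩
    rw [← hN, ← hNk, hk1, mul_one]
  · left
    have hs : (Nat.minFac k).Prime := Nat.minFac_prime hk1
    have hne : Nat.minFac n ≠ Nat.minFac k := by
      intro h
      apply hk
      rw [h]
      exact Nat.minFac_dvd k
    refine ⟨_, _, hr, hs, hne, ?_⟩
    refine Nat.Coprime.mul_dvd_of_dvd_of_dvd ((Nat.coprime_primes hr hs).2 hne) (Nat.minFac_dvd _) ?_
    rw [← hNk]
    exact dvd_mul_of_dvd_right (Nat.minFac_dvd k) _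

end H96S
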