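import Pool.Agent.Lib.H96S.NDefs

/-!
# Chunk N8: the Sylow subgroup of order `q + 1`, `q` even
-/

namespace H96S

open Matrix

/-- the form -/
def n8_Q {F : Type} [Field F] (γ : F) (x : Fin 2 → F) : F := x 0 ^ 2 + x 0 * x 1 + γ * x 1 ^ 2

theorem n8_act {F : Type} [Field F] (g : SL2 F) (x : Fin 2 → F) (i : Fin 2) :
    act g x i = g.1 i 0 * x 0 + g.1 i 1 * x 1 := by
  simp [act, Matrix.mulVec, dotProduct, Fin.sum_univ_two]

theorem n8_det {F : Type} [Field F] (g : SL2 F) : g.1 0 0 * g.1 1 1 - g.1 0 1 * g.1 1 0 = 1 := by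
  have h := g.2
  rw [Matrix.det_fin_two] at h
  exact h

section

variable {F : Type} [Field F]

/-- the group -/
def n8_K (γ : F) : Subgroup (SL2 F) where
  carrier := {g | g.1 0 1 = γ * g.1 1 0 ∧ g.1 1 1 = g.1 0 0 + g.1 1 0}
  mul_mem' := by
    rintro g h ⟨g1, g2⟩ ⟨h1, h2⟩
    have e : ∀ i j, (g * h).1 i j = g.1 i 0 * h.1 0 j + g.1 i 1 * h.1 1 j := by
      intro i j
      show (g.1 * h.1) i j = _
      rw [Matrix.mul_apply, Fin.sum_univ_two]
    refine ⟨?_, ?_⟩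
    · rw [e, e, h1, g1, h2, g2]; ring
    · rw [e, e, e, h1, g1, h2, g2]; ring
  one_mem' := by
    refine ⟨?_, ?_⟩
    · show (1 : Matrix (Fin 2) (Fin 2) F) 0 1 = γ * (1 : Matrix (Fin 2) (Fin 2) F) 1 0
      simp
    · show (1 : Matrix (Fin 2) (Fin 2) F) 1 1 = (1 : Matrix (Fin 2) (Fin 2) F) 0 0 + (1 : Matrix (Fin 2) (Fin 2) F) 1 0
      simp
  inv_mem' := by
    rintro g ⟨g1, g2⟩
    have e0 : (g⁻¹).1 = Matrix.adjugate g.1 := rfl
    have e : (g⁻¹).1 = !![g.1 1 1, -g.1 0 1; -g.1 1 0, g.1 0 0] := by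
      rw [e0, Matrix.adjugate_fin_two]
    refine ⟨?_, ?_⟩
    · rw [e]
      show -g.1 0 1 = γ * -g.1 1 0
      rw [g1]; ring
    · rw [e]
      show g.1 0 0 = g.1 1 1 + -g.1 1 0
      rw [g2]; ring

theorem n8_aniso {γ : F} (h2 : (2 : F) = 0) (hγ : ∀ x : F, x ^ 2 + x ≠ γ) (x y : F)
    (h : x ^ 2 + x * y + γ * y ^ 2 = 0) : x = 0 ∧ y = 0 := by
  have hy : y = 0 := by
    by_contra hy
    apply hγ (x / y)
    field_simp
    linear_combination h - γ * y ^ 2 * h2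
  refine ⟨?_, hy⟩
  rw [hy] at h
  have : x ^ 2 = 0 := by linear_combination h
  exact pow_eq_zero_iff (two_ne_zero) |>.1 this

theorem n8_Qne {γ : F} (h2 : (2 : F) = 0) (hγ : ∀ x : F, x ^ 2 + x ≠ γ) {x : Fin 2 → F} (hx : x ≠ 0) :
    n8_Q γ x ≠ 0 := by
  intro h0
  obtain ⟨h1, h3⟩ := n8_aniso h2 hγ _ _ h0
  apply hx
  funext i
  fin_cases i
  · exact h1
  · exact h3

theorem n8_inv {γ : F} (h2 : (2 : F) = 0) {g : SL2 F} (hg : g ∈ n8_K γ) (x : Fin 2 → F) :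
    n8_Q γ (act g x) = n8_Q γ x := by
  obtain ⟨g1, g2⟩ := hg
  have hd := n8_det g
  unfold n8_Q
  rw [n8_act, n8_act]
  rw [g1, g2] at hd ⊢
  linear_combination (x 0 ^ 2 + x 0 * x 1 + γ * x 1 ^ 2) * hd +
    (γ * g.1 1 0 ^ 2 * (x 0 ^ 2 + x 0 * x 1 + γ * x 1 ^ 2) + 
      γ * g.1 0 0 * g.1 1 0 * x 0 * x 1 + γ * g.1 1 0 ^ 2 * x 0 * x 1 +
      g.1 0 0 * γ * g.1 1 0 * x 0 * x 1 + g.1 0 0 * γ * g.1 1 0 * x 1 ^ 2 + γ * g.1 1 0 ^ 2 * x 1 ^ 2) * h2

/-- an element of the group which fixes a nonzero vector is the identity -/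
theorem n8_stab {γ : F} (h2 : (2 : F) = 0) (hγ : ∀ x : F, x ^ 2 + x ≠ γ) {g : SL2 F} (hg : g ∈ n8_K γ)
    {x : Fin 2 → F} (hx : x ≠ 0) (hgx : act g x = x) : g = 1 := by
  obtain ⟨g1, g2⟩ := hg
  have e4 := congrFun hgx 0
  have e5 := congrFun hgx 1
  rw [n8_act, g1] at e4
  rw [n8_act, g2] at e5
  have f4 : ((g.1 0 0 - 1) ^ 2 + (g.1 0 0 - 1) * g.1 1 0 + γ * g.1 1 0 ^ 2) * x 0 = 0 := by
    linear_combination (g.1 0 0 - 1 + g.1 1 0) * e4 - γ * g.1 1 0 * e5 + γ * g.1 1 0 ^ 2 * x 0 * h2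
  have f5 : ((g.1 0 0 - 1) ^ 2 + (g.1 0 0 - 1) * g.1 1 0 + γ * g.1 1 0 ^ 2) * x 1 = 0 := by
    linear_combination (g.1 0 0 - 1) * e5 - g.1 1 0 * e4 + γ * g.1 1 0 ^ 2 * x 1 * h2
  have f6 : (g.1 0 0 - 1) ^ 2 + (g.1 0 0 - 1) * g.1 1 0 + γ * g.1 1 0 ^ 2 = 0 := by
    by_contra hne
    apply hx
    funext i
    fin_cases i
    · exact (mul_eq_zero.1 f4).resolve_left hne
    · exact (mul_eq_zero.1 f5).resolve_left hne
  obtain ⟨f7, f8⟩ := n8_aniso h2 hγ _ _ f6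
  apply Subtype.ext
  ext i j
  fin_cases i <;> fin_cases j
  · show g.1 0 0 = 1
    exact sub_eq_zero.1 f7
  · show g.1 0 1 = 0
    rw [g1, f8, mul_zero]
  · show g.1 1 0 = 0
    exact f8
  · show g.1 1 1 = 1
    rw [g2, f8, add_zero]; exact sub_eq_zero.1 f7

theorem n8_trans {γ : F} (h2 : (2 : F) = 0) (hγ : ∀ x : F, x ^ 2 + x ≠ γ) (x y : Fin 2 → F) (hx : x ≠ 0)
    (h : n8_Q γ y = n8_Q γ x) : ∃! κ : SL2 F, κ ∈ n8_K γ ∧ act κ x = y := by
  have hQx := n8_Qne h2 hγ hx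
  have hex : ∃ κ : SL2 F, κ ∈ n8_K γ ∧ act κ x = y := by
    unfold n8_Q at hQx h
    obtain ⟨D, hD⟩ : ∃ D, D = x 0 ^ 2 + x 0 * x 1 + γ * x 1 ^ 2 := ⟨_, rfl⟩
    rw [← hD] at hQx h
    obtain ⟨u, hu⟩ : ∃ u, u = ((x 0 + x 1) * y 0 - γ * x 1 * y 1) / D := ⟨_, rfl⟩
    obtain ⟨v, hv⟩ : ∃ v, v = (x 0 * y 1 - x 1 * y 0) / D := ⟨_, rfl⟩
    have hu' : u * D = (x 0 + x 1) * y 0 - γ * x 1 * y 1 := by rw [hu]; field_simp
    have hv' : v * D = x 0 * y 1 - x 1 * y 0 := by rw [hv]; field_simp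
    have huv : u * (u + v) - γ * v * v = 1 := by
      have h3 : (u * (u + v) - γ * v * v - 1) * (D * D) = 0 := by
        have e1 : (u * (u + v) - γ * v * v - 1) * (D * D) =
            (u * D) * (u * D + v * D) - γ * (v * D) * (v * D) - D * D := by ring
        rw [e1, hu', hv']
        have e2 : y 0 ^ 2 + y 0 * y 1 + γ * y 1 ^ 2 = D := h
        have e3 : ((x 0 + x 1) * y 0 - γ * x 1 * y 1) * ((x 0 + x 1) * y 0 - γ * x 1 * y 1 + (x 0 * y 1 - x 1 * y 0)) -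
            γ * (x 0 * y 1 - x 1 * y 0) * (x 0 * y 1 - x 1 * y 0) =
            (x 0 ^ 2 + x 0 * x 1 - γ * x 1 ^ 2) * (y 0 ^ 2 + y 0 * y 1 - γ * y 1 ^ 2) := by ring
        rw [e3]
        have e4 : x 0 ^ 2 + x 0 * x 1 - γ * x 1 ^ 2 = D := by rw [hD]; linear_combination (-(γ * x 1 ^ 2)) * h2
        have e5 : y 0 ^ 2 + y 0 * y 1 - γ * y 1 ^ 2 = D := by linear_combination e2 - γ * y 1 ^ 2 * h2
        rw [e4, e5]; ring
      rcases mul_eq_zero.1 h3 with h4 | h4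
      · exact sub_eq_zero.1 h4
      · exact absurd h4 (mul_ne_zero hQx hQx)
    refine ⟨⟨!![u, γ * v; v, u + v], by rw [Matrix.det_fin_two]; exact huv⟩, ⟨rfl, rfl⟩, ?_⟩
    funext i
    rw [n8_act]
    fin_cases i
    · show u * x 0 + γ * v * x 1 = y 0
      have e : (u * x 0 + γ * v * x 1 - y 0) * D = 0 := by
        linear_combination x 0 * hu' + γ * x 1 * hv' - y 0 * hD - y 0 * γ * x 1 ^ 2 * h2
      rcases mul_eq_zero.1 e with h4 | h4
      · exact sub_eq_zero.1 h4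
      · exact absurd h4 hQx
    · show v * x 0 + (u + v) * x 1 = y 1
      have e : (v * x 0 + (u + v) * x 1 - y 1) * D = 0 := by
        linear_combination x 0 * hv' + x 1 * hu' + x 1 * hv' - y 1 * hD - y 1 * γ * x 1 ^ 2 * h2
      rcases mul_eq_zero.1 e with h4 | h4
      · exact sub_eq_zero.1 h4
      · exact absurd h4 hQx
  obtain ⟨κ, hκ, hκx⟩ := hex
  refine ⟨κ, ⟨hκ, hκx⟩, ?_⟩
  rintro κ' ⟨hκ', hκx'⟩
  have h1 : act (κ'⁻¹ * κ) x = x := by
    rw [act_mul, hκx, ← hκx', ← act_mul, inv_mul_cancel, act_one]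
  have h3 := n8_stab h2 hγ (mul_mem (inv_mem hκ') hκ) hx h1
  exact (inv_mul_eq_one.1 h3)

theorem n8_smul (γ c : F) (x : Fin 2 → F) : n8_Q γ (c • x) = c ^ 2 * n8_Q γ x := by
  unfold n8_Q
  simp only [Pi.smul_apply, smul_eq_mul]
  ring

variable [Fintype F]

theorem n8_sqinj (h2 : (2 : F) = 0) {a b : F} (h : a ^ 2 = b ^ 2) : a = b := by
  have h3 : (a - b) ^ 2 = 0 := by linear_combination h + (b ^ 2 - a * b) * h2
  exact sub_eq_zero.1 (pow_eq_zero_iff (two_ne_zero) |>.1 h3)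

theorem n8_count [DecidableEq F] {γ : F} (h2 : (2 : F) = 0) (hγ : ∀ x : F, x ^ 2 + x ≠ γ)
    (hsq : ∀ c : F, ∃ d : F, c = d ^ 2) :
    (Finset.univ.filter (fun y : Fin 2 → F => n8_Q γ y = 1)).card = Fintype.card F + 1 := by
  obtain ⟨S, hS⟩ : ∃ S, S = Finset.univ.filter (fun y : Fin 2 → F => n8_Q γ y = 1) := ⟨_, rfl⟩
  rw [← hS]
  have hmem : ∀ y, y ∈ S ↔ (n8_Q γ y = 1) := by
    intro y; rw [hS]; simp
  obtain ⟨T, hT⟩ : ∃ T, T = Finset.univ.filter (fun y : Fin 2 → F => y ≠ 0) := ⟨_, rfl⟩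
  have hTm : ∀ y, y ∈ T ↔ y ≠ 0 := by
    intro y; rw [hT]; simp
  have hTc : T.card = Fintype.card F ^ 2 - 1 := by
    have h1 : T = Finset.univ.erase (0 : Fin 2 → F) := by
      ext y
      rw [hTm, Finset.mem_erase]
      simp
    rw [h1, Finset.card_erase_of_mem (Finset.mem_univ _), Finset.card_univ, Fintype.card_fun, Fintype.card_fin]
  have hcard : ((Finset.univ : Finset Fˣ) ×ˢ S).card = T.card := by
    refine Finset.card_bij (fun p _ => (p.1 : F) • p.2) ?_ ?_ ?_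
    · intro p hp
      have hp2 : p.2 ∈ S := (Finset.mem_product.1 hp).2
      rw [hTm]
      intro h0
      have h3 : p.2 = 0 := by
        rcases smul_eq_zero.1 h0 with h | h
        · exact absurd h p.1.ne_zero
        · exact h
      rw [hmem, h3] at hp2
      have h4 : n8_Q γ (0 : Fin 2 → F) = 0 := by unfold n8_Q; simp
      rw [h4] at hp2
      exact zero_ne_one hp2
    · intro p hp p' hp' h
      have hp2 : n8_Q γ p.2 = 1 := (hmem _).1 (Finset.mem_product.1 hp).2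
      have hp2' : n8_Q γ p'.2 = 1 := (hmem _).1 (Finset.mem_product.1 hp').2
      have h3 := congrArg (n8_Q γ) h
      rw [n8_smul, n8_smul, hp2, hp2', mul_one, mul_one] at h3
      have h4 := n8_sqinj h2 h3
      have h5 : p.1 = p'.1 := Units.ext h4
      refine Prod.ext h5 ?_
      have h6 : (p.1 : F) • p.2 = (p.1 : F) • p'.2 := by rw [h, h4]
      have h7 := congrArg (fun z => (p.1 : F)⁻¹ • z) h6
      simpa only [smul_smul, inv_mul_cancel₀ p.1.ne_zero, one_smul] using h7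
    · intro y hy
      rw [hTm] at hy
      have hQy := n8_Qne h2 hγ hy
      obtain ⟨d, hd⟩ := hsq (n8_Q γ y)
      have hd0 : d ≠ 0 := by
        rintro rfl
        apply hQy; rw [hd]; ring
      refine ⟨(Units.mk0 d hd0, d⁻¹ • y), ?_, ?_⟩
      · rw [Finset.mem_product]
        refine ⟨Finset.mem_univ _, ?_⟩
        rw [hmem, n8_smul, hd]
        field_simp
      · show d • (d⁻¹ • y) = y
        rw [smul_smul, mul_inv_cancel₀ hd0, one_smul]
  rw [Finset.card_product, hTc, Finset.card_univ, Fintype.card_units] at hcard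
  obtain ⟨r, hr⟩ : ∃ r, Fintype.card F = r + 2 := ⟨Fintype.card F - 2, by have := Fintype.one_lt_card (α := F); omega⟩
  rw [hr] at hcard ⊢
  have h5 : (r + 2) ^ 2 - 1 = (r + 1) * (r + 3) := by
    have : (r + 2) ^ 2 = (r + 1) * (r + 3) + 1 := by ring
    rw [this, Nat.add_sub_cancel]
  rw [h5, show r + 2 - 1 = r + 1 by omega] at hcard
  have h7 := Nat.eq_of_mul_eq_mul_left (Nat.succ_pos r) hcard
  rw [h7]

theorem n8_cardK [DecidableEq F] {γ : F} (h2 : (2 : F) = 0) (hγ : ∀ x : F, x ^ 2 + x ≠ γ)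
    (hsq : ∀ c : F, ∃ d : F, c = d ^ 2) : Nat.card (n8_K γ) = Fintype.card F + 1 := by
  classical
  have hx0 : (![1, 0] : Fin 2 → F) ≠ 0 := by
    intro h
    have := congrFun h 0
    simp at this
  have hQ0 : n8_Q γ (![1, 0] : Fin 2 → F) = 1 := by
    unfold n8_Q; simp
  have hbij : Nat.card (n8_K γ) = Nat.card (Finset.univ.filter (fun y : Fin 2 → F => n8_Q γ y = 1) : Finset (Fin 2 → F)) := by
    refine Nat.card_eq_of_bijective (fun κ : n8_K γ => (⟨act (κ : SL2 F) ![1, 0], ?_⟩ :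
      (Finset.univ.filter (fun y : Fin 2 → F => n8_Q γ y = 1) : Finset (Fin 2 → F)))) ⟨?_, ?_⟩
    · rw [Finset.mem_filter]
      exact ⟨Finset.mem_univ _, by rw [n8_inv h2 κ.2, hQ0]⟩
    · intro κ κ' h
      have h1 : act (κ : SL2 F) ![1, 0] = act (κ' : SL2 F) ![1, 0] := congrArg Subtype.val h
      exact Subtype.ext ((n8_trans h2 hγ _ _ hx0 (n8_inv h2 κ.2 _)).unique ⟨κ.2, rfl⟩ ⟨κ'.2, h1.symm⟩)
    · rintro ⟨y, hy⟩
      rw [Finset.mem_filter] at hy
      have h3 : n8_Q γ y = n8_Q γ (![1, 0] : Fin 2 → F) := by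
        rw [hQ0]; exact hy.2
      obtain ⟨κ, ⟨hκ, hκy⟩, -⟩ := n8_trans h2 hγ _ _ hx0 h3
      exact ⟨⟨κ, hκ⟩, Subtype.ext hκy⟩
  rw [hbij, Nat.card_eq_fintype_card, Fintype.card_coe, n8_count h2 hγ hsq]

end

/-- Proof.  Characteristic 2 (`q` even).  Choose `γ ∈ F` such that `X² + X + γ` has no root in `F`: the map
`x ↦ x² + x` is not injective (`0, 1 ↦ 0`), hence not surjective; take `γ` outside its image
(`x² + x + γ = 0` iff `x² + x = γ` in characteristic 2).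
Let `Q x = x0² + x0 x1 + γ x1²`: anisotropic (if `x1 ≠ 0`, `x0 / x1` would be a root; if `x1 = 0`, `x0² = 0`).
For `u = (u0, u1)` put `R(u) = !![u0, γ u1; u1, u0 + u1]` (multiplication by `u0 + u1 θ`, `θ² = θ + γ`);
`det R(u) = u0² + u0 u1 - γ u1² = Q(u)` (characteristic 2), `Q(R(u) w) = Q(u) Q(w)` (`ring` plus characteristic 2),
`R(u) w = R(w) u`, `R(u) R(u') = R(R(u) u')`.
`K = {R(u) : Q u = 1}` is a subgroup of `SL(2,F)` (closed under products; finite, so inverses are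
automatic; or `R(u)⁻¹ = R(u0 + u1, u1)`, as `-1 = 1`).
* `trans`: for `x, y ≠ 0` with `Q y = ± Q x` (`= Q x` in characteristic 2) the matrix `R(x)` is invertible (`det = Q x ≠ 0`),
 `κ = R(u)` with `u = R(x)⁻¹ y`: `R(u) x = R(x) u = y`, and `Q(x) Q(u) = Q(y)` gives `Q u = 1`.  Unique since
 `R(u) x = R(x) u = y` determines `u`.
* `sq`: every element of a finite field of characteristic 2 is a square (Frobenius is surjective).
* `|K| = q + 1`: the map `Fˣ × K → {x ≠ 0}`, `(c, κ) ↦ c κ e₁`, is bijective: given `x ≠ 0` there is a unique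
 `c` with `c² = Q x`, and then a unique `κ` with `κ e₁ = c⁻¹ x` (`Q(c⁻¹ x) = 1 = Q(e₁)`).  So `(q-1) |K| = q² - 1`.
* `q + 1 = r ^ e` is the exact power of `r` in `|SL(2,F)| = q (q-1)(q+1)` (`card_sl2`; `q`, `q - 1`, `q + 1` are
 pairwise coprime, `q` even), so `K` is a Sylow `r`-subgroup. -/
theorem kdata_even {F : Type} [Field F] [Fintype F] [DecidableEq F] (h2 : Even (Fintype.card F))
    (r e : ℕ) (hr : r.Prime) (hre : Fintype.card F + 1 = r ^ e) :
    ∃ (K : Sylow r (SL2 F)) (Q : (Fin 2 → F) → F), KData (K : Subgroup (SL2 F)) Q := by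
  have hchar : ringChar F = 2 := by
    have h := FiniteField.even_card_iff_char_two (F := F)
    rw [h]
    exact Nat.even_iff.1 h2
  have h20 : (2 : F) = 0 := by
    have h := ringChar.Nat.cast_ringChar (R := F)
    rw [hchar] at h
    exact_mod_cast h
  have hsq : ∀ c : F, ∃ d : F, c = d ^ 2 := by
    intro c
    obtain ⟨d, hd⟩ := FiniteField.isSquare_of_char_two hchar c
    exact ⟨d, by rw [hd]; ring⟩
  obtain ⟨γ, hγ⟩ : ∃ γ : F, ∀ x : F, x ^ 2 + x ≠ γ := by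
    by_contra hcon
    push Not at hcon
    have hsurj : Function.Surjective (fun x : F => x ^ 2 + x) := hcon
    have hinj : Function.Injective (fun x : F => x ^ 2 + x) := Finite.injective_iff_surjective.2 hsurj
    have h1 : (0 : F) = 1 := by
      apply hinj
      show (0 : F) ^ 2 + 0 = 1 ^ 2 + 1
      linear_combination (-1 : F) * h20
    exact zero_ne_one h1
  have hr1 : r ≠ 1 := hr.one_lt.ne'
  have hcard := n8_cardK h20 hγ hsq
  have hq2 : 1 < Fintype.card F := Fintype.one_lt_card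
  have he0 : e ≠ 0 := by
    rintro rfl
    rw [pow_zero] at hre
    omega
  have hrdvd : r ∣ Fintype.card F + 1 := by
    rw [hre]
    exact dvd_pow_self r he0
  have hr2 : r ≠ 2 := by
    rintro rfl
    obtain ⟨m, hm⟩ := h2
    omega
  have hnq : ¬ r ∣ Fintype.card F := by
    intro h
    have h3 := (Nat.dvd_add_right h).1 hrdvd
    exact hr1 (Nat.dvd_one.1 h3)
  have hnq1 : ¬ r ∣ Fintype.card F - 1 := by
    intro h
    have h3 : Fintype.card F + 1 = (Fintype.card F - 1) + 2 := by omega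
    rw [h3] at hrdvd
    have h4 := (Nat.dvd_add_right h).1 hrdvd
    exact hr2 ((Nat.prime_dvd_prime_iff_eq hr Nat.prime_two).1 h4)
  have hG : Nat.card (n8_K γ) = r ^ (Nat.card (SL2 F)).factorization r := by
    rw [hcard, hre]
    congr 1
    have h0 : Nat.card (SL2 F) = _ := card_sl2 F
    rw [h0, hre]
    have hn : ¬ r ∣ Fintype.card F * (Fintype.card F - 1) := by
      intro h
      rcases (Nat.Prime.dvd_mul hr).1 h with h | h
      · exact hnq h
      · exact hnq1 h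
    have hne : Fintype.card F * (Fintype.card F - 1) ≠ 0 := by
      intro h
      rw [h] at hn
      exact hn (dvd_zero _)
    rw [Nat.factorization_mul hne (pow_ne_zero _ hr.ne_zero), Finsupp.add_apply,
      Nat.factorization_eq_zero_of_not_dvd hn, zero_add, Nat.Prime.factorization_pow hr,
      Finsupp.single_eq_same]
  haveI : Fact (Nat.Prime r) := ⟨hr⟩
  refine ⟨Sylow.ofCard (n8_K γ) hG, n8_Q γ, ?_⟩
  rw [Sylow.coe_ofCard]
  have hneg : ∀ a : F, -a = a := by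
    intro a
    linear_combination (-a) * h20
  refine ⟨⟨1, 1, γ, fun x => by unfold n8_Q; ring⟩, ?_, ?_, ?_, ?_⟩
  · intro x hx
    by_contra h
    exact n8_Qne h20 hγ h hx
  · intro κ hκ x
    exact Or.inl (n8_inv h20 hκ x)
  · intro x y hx _ h
    refine n8_trans h20 hγ x y hx ?_
    rcases h with h | h
    · exact h
    · rw [h, hneg]
  · intro c _
    obtain ⟨d, hd⟩ := hsq c
    exact ⟨d, Or.inl hd⟩

end H96S
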