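import Pool.Agent.Lib.H96S.NDefs

/-!
# Chunk N9: the Sylow 2-subgroup when `q + 1` is a power of 2
-/

namespace H96S

open Matrix

/-- the form -/
def n9_Q {F : Type} [Field F] (x : Fin 2 → F) : F := x 0 ^ 2 + x 1 ^ 2

theorem n9_act {F : Type} [Field F] (g : SL2 F) (x : Fin 2 → F) (i : Fin 2) :
    act g x i = g.1 i 0 * x 0 + g.1 i 1 * x 1 := by
  simp [act, Matrix.mulVec, dotProduct, Fin.sum_univ_two]

theorem n9_det {F : Type} [Field F] (g : SL2 F) : g.1 0 0 * g.1 1 1 - g.1 0 1 * g.1 1 0 = 1 := by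
  have h := g.2
  rw [Matrix.det_fin_two] at h
  exact h

section

variable {F : Type} [Field F] [Fintype F]

/-- `-1` is not a square -/
theorem n9_neg (e : ℕ) (he : 2 ≤ e) (hre : Fintype.card F + 1 = 2 ^ e) : ¬ IsSquare (-1 : F) := by
  rw [FiniteField.isSquare_neg_one_iff, not_not]
  have h : (4 : ℕ) ∣ 2 ^ e := by
    have := pow_dvd_pow 2 he
    norm_num at this
    exact this
  omega

theorem n9_two (e : ℕ) (he : 2 ≤ e) (hre : Fintype.card F + 1 = 2 ^ e) : (2 : F) ≠ 0 := by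
  intro h
  apply n9_neg e he hre
  have h1 : (-1 : F) = 1 := by
    have h2 : (1 : F) + 1 = 0 := by rw [← h]; norm_num
    exact (eq_neg_of_add_eq_zero_left h2).symm
  rw [h1]
  exact ⟨1, by ring⟩

theorem n9_sq (e : ℕ) (he : 2 ≤ e) (hre : Fintype.card F + 1 = 2 ^ e) (c : F) (hc : c ≠ 0) :
    ∃ d : F, c = d ^ 2 ∨ c = -d ^ 2 := by
  classical
  by_cases h : IsSquare c
  · obtain ⟨d, hd⟩ := h
    exact ⟨d, Or.inl (by rw [hd]; ring)⟩
  · have h1 : quadraticChar F c = -1 := quadraticChar_neg_one_iff_not_isSquare.2 h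
    have h2 : quadraticChar F (-1) = -1 := quadraticChar_neg_one_iff_not_isSquare.2 (n9_neg e he hre)
    have h3 : quadraticChar F (-c) = 1 := by
      have : -c = -1 * c := by ring
      rw [this, map_mul, h1, h2]
      norm_num
    obtain ⟨d, hd⟩ := (quadraticChar_one_iff_isSquare (neg_ne_zero.2 hc)).1 h3
    refine ⟨d, Or.inr ?_⟩
    rw [← neg_neg c, hd]
    ring

theorem n9_aniso (e : ℕ) (he : 2 ≤ e) (hre : Fintype.card F + 1 = 2 ^ e) (x y : F)
    (h : x ^ 2 + y ^ 2 = 0) : x = 0 ∧ y = 0 := by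
  have hy : y = 0 := by
    by_contra hy
    apply n9_neg (F := F) e he hre
    refine ⟨x / y, ?_⟩
    field_simp
    linear_combination (-1 : F) * h
  refine ⟨?_, hy⟩
  rw [hy] at h
  have : x ^ 2 = 0 := by linear_combination h
  exact pow_eq_zero_iff (two_ne_zero) |>.1 this

/-- the group -/
def n9_K (F : Type) [Field F] : Subgroup (SL2 F) where
  carrier := {g | (∀ x, n9_Q (act g x) = n9_Q x) ∨ (∀ x, n9_Q (act g x) = -n9_Q x)}
  mul_mem' := by
    rintro g h hg hh
    rcases hg with hg | hg <;> rcases hh with hh | hh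
    · left; intro x; rw [act_mul, hg, hh]
    · right; intro x; rw [act_mul, hg, hh]
    · right; intro x; rw [act_mul, hg, hh]
    · left; intro x; rw [act_mul, hg, hh, neg_neg]
  one_mem' := by
    left; intro x; rw [act_one]
  inv_mem' := by
    rintro g hg
    rcases hg with hg | hg
    · left; intro x
      rw [← hg (act g⁻¹ x), ← act_mul, mul_inv_cancel, act_one]
    · right; intro x
      have h := hg (act g⁻¹ x)
      rw [← act_mul, mul_inv_cancel, act_one] at h
      rw [h, neg_neg]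

theorem n9_mem {g : SL2 F} : g ∈ n9_K F ↔ (∀ x, n9_Q (act g x) = n9_Q x) ∨ (∀ x, n9_Q (act g x) = -n9_Q x) :=
  Iff.rfl

/-- an element of the group which fixes a nonzero vector is the identity -/
theorem n9_stab (e : ℕ) (he : 2 ≤ e) (hre : Fintype.card F + 1 = 2 ^ e) {g : SL2 F} (hg : g ∈ n9_K F)
    {x : Fin 2 → F} (hx : x ≠ 0) (hgx : act g x = x) : g = 1 := by
  have h2 := n9_two (F := F) e he hre
  have hQx : n9_Q x ≠ 0 := by
    intro h0
    obtain ⟨h1, h3⟩ := n9_aniso e he hre _ _ h0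
    apply hx
    funext i
    fin_cases i
    · exact h1
    · exact h3
  rcases hg with hg | hg
  · have hd := n9_det g
    obtain ⟨a, ha⟩ : ∃ a, a = g.1 0 0 := ⟨_, rfl⟩
    obtain ⟨b, hb⟩ : ∃ b, b = g.1 0 1 := ⟨_, rfl⟩
    obtain ⟨c, hc⟩ : ∃ c, c = g.1 1 0 := ⟨_, rfl⟩
    obtain ⟨d, hd'⟩ : ∃ d, d = g.1 1 1 := ⟨_, rfl⟩
    have e1 := hg ![1, 0]
    have e2 := hg ![0, 1]
    have e3 := hg ![1, 1]
    have e4 := congrFun hgx 0
    have e5 := congrFun hgx 1
    unfold n9_Q at e1 e2 e3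
    rw [n9_act] at e4 e5
    rw [n9_act, n9_act] at e1 e2 e3
    simp only [← ha, ← hb, ← hc, ← hd', Matrix.cons_val_zero, Matrix.cons_val_one] at e1 e2 e3 e4 e5 hd
    have f3 : a * b + c * d = 0 := by
      have : (2 : F) * (a * b + c * d) = 0 := by linear_combination e3 - e1 - e2
      rcases mul_eq_zero.1 this with h | h
      · exact absurd h h2
      · exact h
    have f1 : d = a := by linear_combination a * hd + c * f3 - d * e1
    have f2 : b = -c := by linear_combination a * f3 - c * hd - b * e1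
    rw [f2] at e4
    rw [f1] at e5
    have f4 : ((a - 1) ^ 2 + c ^ 2) * x 0 = 0 := by linear_combination (a - 1) * e4 + c * e5
    have f5 : ((a - 1) ^ 2 + c ^ 2) * x 1 = 0 := by linear_combination (a - 1) * e5 - c * e4
    have f6 : (a - 1) ^ 2 + c ^ 2 = 0 := by
      by_contra hne
      apply hx
      funext i
      fin_cases i
      · exact (mul_eq_zero.1 f4).resolve_left hne
      · exact (mul_eq_zero.1 f5).resolve_left hne
    obtain ⟨f7, f8⟩ := n9_aniso e he hre _ _ f6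
    apply Subtype.ext
    ext i j
    fin_cases i <;> fin_cases j
    · show g.1 0 0 = 1
      rw [← ha]; exact sub_eq_zero.1 f7
    · show g.1 0 1 = 0
      rw [← hb, f2, f8, neg_zero]
    · show g.1 1 0 = 0
      rw [← hc, f8]
    · show g.1 1 1 = 1
      rw [← hd', f1]; exact sub_eq_zero.1 f7
  · exfalso
    have h3 := hg x
    rw [hgx] at h3
    have : (2 : F) * n9_Q x = 0 := by linear_combination h3
    rcases mul_eq_zero.1 this with h | h
    · exact h2 h
    · exact hQx h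

theorem n9_trans (e : ℕ) (he : 2 ≤ e) (hre : Fintype.card F + 1 = 2 ^ e) (x y : Fin 2 → F) (hx : x ≠ 0)
    (h : n9_Q y = n9_Q x ∨ n9_Q y = -n9_Q x) : ∃! κ : SL2 F, κ ∈ n9_K F ∧ act κ x = y := by
  have hQx : n9_Q x ≠ 0 := by
    intro h0
    obtain ⟨h1, h3⟩ := n9_aniso e he hre _ _ h0
    apply hx
    funext i
    fin_cases i
    · exact h1
    · exact h3
  have hex : ∃ κ : SL2 F, κ ∈ n9_K F ∧ act κ x = y := by
    unfold n9_Q at hQx h
    rcases h with h | h
    · obtain ⟨u, hu⟩ : ∃ u, u = (y 0 * x 0 + y 1 * x 1) / (x 0 ^ 2 + x 1 ^ 2) := ⟨_, rfl⟩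
      obtain ⟨v, hv⟩ : ∃ v, v = (y 1 * x 0 - y 0 * x 1) / (x 0 ^ 2 + x 1 ^ 2) := ⟨_, rfl⟩
      have huv : u * u - (-v) * v = 1 := by
        rw [hu, hv]
        field_simp
        linear_combination (x 0 ^ 2 + x 1 ^ 2) * h
      refine ⟨⟨!![u, -v; v, u], by rw [Matrix.det_fin_two]; exact huv⟩, ?_, ?_⟩
      · left
        intro z
        unfold n9_Q
        rw [n9_act, n9_act]
        show (u * z 0 + -v * z 1) ^ 2 + (v * z 0 + u * z 1) ^ 2 = _
        linear_combination (z 0 ^ 2 + z 1 ^ 2) * huv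
      · funext i
        rw [n9_act]
        fin_cases i
        · show u * x 0 + -v * x 1 = y 0
          rw [hu, hv]
          field_simp
          ring
        · show v * x 0 + u * x 1 = y 1
          rw [hu, hv]
          field_simp
          ring
    · obtain ⟨u, hu⟩ : ∃ u, u = (y 0 * x 0 - y 1 * x 1) / (x 0 ^ 2 + x 1 ^ 2) := ⟨_, rfl⟩
      obtain ⟨v, hv⟩ : ∃ v, v = (y 1 * x 0 + y 0 * x 1) / (x 0 ^ 2 + x 1 ^ 2) := ⟨_, rfl⟩
      have huv : u * (-u) - v * v = 1 := by
        rw [hu, hv]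
        field_simp
        linear_combination (-(x 0 ^ 2 + x 1 ^ 2)) * h
      refine ⟨⟨!![u, v; v, -u], by rw [Matrix.det_fin_two]; exact huv⟩, ?_, ?_⟩
      · right
        intro z
        unfold n9_Q
        rw [n9_act, n9_act]
        show (u * z 0 + v * z 1) ^ 2 + (v * z 0 + -u * z 1) ^ 2 = _
        linear_combination (-(z 0 ^ 2 + z 1 ^ 2)) * huv
      · funext i
        rw [n9_act]
        fin_cases i
        · show u * x 0 + v * x 1 = y 0
          rw [hu, hv]
          field_simp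
          ring
        · show v * x 0 + -u * x 1 = y 1
          rw [hu, hv]
          field_simp
          ring
  obtain ⟨κ, hκ, hκx⟩ := hex
  refine ⟨κ, ⟨hκ, hκx⟩, ?_⟩
  rintro κ' ⟨hκ', hκx'⟩
  have h1 : act (κ'⁻¹ * κ) x = x := by
    rw [act_mul, hκx, ← hκx', ← act_mul, inv_mul_cancel, act_one]
  have h2 := n9_stab e he hre (mul_mem (inv_mem hκ') hκ) hx h1
  exact (inv_mul_eq_one.1 h2)

theorem n9_smul (c : F) (x : Fin 2 → F) : n9_Q (c • x) = c ^ 2 * n9_Q x := by
  unfold n9_Q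
  simp only [Pi.smul_apply, smul_eq_mul]
  ring

theorem n9_Qne (e : ℕ) (he : 2 ≤ e) (hre : Fintype.card F + 1 = 2 ^ e) {x : Fin 2 → F} (hx : x ≠ 0) :
    n9_Q x ≠ 0 := by
  intro h0
  obtain ⟨h1, h3⟩ := n9_aniso e he hre _ _ h0
  apply hx
  funext i
  fin_cases i
  · exact h1
  · exact h3

/-- the number of solutions of `Q y = 1` or `Q y = -1` -/
theorem n9_count [DecidableEq F] (e : ℕ) (he : 2 ≤ e) (hre : Fintype.card F + 1 = 2 ^ e) :
    (Finset.univ.filter (fun y : Fin 2 → F => n9_Q y = 1 ∨ n9_Q y = -1)).card = 2 * (Fintype.card F + 1) := by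
  obtain ⟨S, hS⟩ : ∃ S, S = Finset.univ.filter (fun y : Fin 2 → F => n9_Q y = 1 ∨ n9_Q y = -1) := ⟨_, rfl⟩
  rw [← hS]
  have h2 := n9_two (F := F) e he hre
  have hmem : ∀ y, y ∈ S ↔ (n9_Q y = 1 ∨ n9_Q y = -1) := by
    intro y; rw [hS]; simp
  obtain ⟨T, hT⟩ : ∃ T, T = Finset.univ.filter (fun y : Fin 2 → F => y ≠ 0) := ⟨_, rfl⟩
  have hTm : ∀ y, y ∈ T ↔ y ≠ 0 := by
    intro y; rw [hT]; simp
  have hTc : T.card = Fintype.card F ^ 2 - 1 := by
    have h1 : T = Finset.univ.erase (0 : Fin 2 → F) := by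
      ext y
      rw [hTm, Finset.mem_erase]
      simp
    rw [h1, Finset.card_erase_of_mem (Finset.mem_univ _), Finset.card_univ, Fintype.card_fun, Fintype.card_fin]
  have hmaps : Set.MapsTo (fun p : Fˣ × (Fin 2 → F) => (p.1 : F) • p.2)
      (((Finset.univ : Finset Fˣ) ×ˢ S : Finset (Fˣ × (Fin 2 → F))) : Set (Fˣ × (Fin 2 → F))) (T : Set (Fin 2 → F)) := by
    intro p hp
    have hp2 : p.2 ∈ S := (Finset.mem_product.1 hp).2
    show (p.1 : F) • p.2 ∈ T
    rw [hTm]
    intro h0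
    have h3 : p.2 = 0 := by
      rcases smul_eq_zero.1 h0 with h | h
      · exact absurd h p.1.ne_zero
      · exact h
    rw [hmem, h3] at hp2
    have h4 : n9_Q (0 : Fin 2 → F) = 0 := by unfold n9_Q; simp
    rw [h4] at hp2
    rcases hp2 with h | h
    · exact zero_ne_one h
    · exact (neg_ne_zero.2 one_ne_zero) h.symm
  have hcard := Finset.card_eq_sum_card_fiberwise hmaps
  have hfib : ∀ y ∈ T, ((((Finset.univ : Finset Fˣ) ×ˢ S).filter
      (fun p : Fˣ × (Fin 2 → F) => (p.1 : F) • p.2 = y)).card) = 2 := by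
    intro y hy
    rw [hTm] at hy
    have hQy := n9_Qne e he hre hy
    obtain ⟨d, hd⟩ := n9_sq (F := F) e he hre _ hQy
    have hd0 : d ≠ 0 := by
      rintro rfl
      rcases hd with h | h
      · apply hQy; rw [h]; ring
      · apply hQy; rw [h]; ring
    obtain ⟨c, hc⟩ : ∃ c : Fˣ, (c : F) = d := ⟨Units.mk0 d hd0, rfl⟩
    have hs : n9_Q (d⁻¹ • y) = 1 ∨ n9_Q (d⁻¹ • y) = -1 := by
      rw [n9_smul]
      rcases hd with h | h
      · left; rw [h]; field_simp
      · right; rw [h]; field_simp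
    rw [Finset.card_eq_two]
    refine ⟨(c, d⁻¹ • y), (-c, -(d⁻¹ • y)), ?_, ?_⟩
    · intro h
      have h5 := congrArg (fun p : Fˣ × (Fin 2 → F) => (p.1 : F)) h
      have h6 : (c : F) = -(c : F) := by
        have := h5
        simpa using this
      have h7 : (2 : F) * (c : F) = 0 := by linear_combination h6
      rcases mul_eq_zero.1 h7 with h | h
      · exact h2 h
      · exact c.ne_zero h
    · ext p
      rw [Finset.mem_filter, Finset.mem_product, Finset.mem_insert, Finset.mem_singleton, hmem]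
      constructor
      · rintro ⟨⟨-, hp⟩, hpy⟩
        have h5 : n9_Q y = (p.1 : F) ^ 2 * n9_Q p.2 := by rw [← hpy, n9_smul]
        have h6 : (p.1 : F) ^ 2 = d ^ 2 := by
          have hneg : ¬ IsSquare (-1 : F) := n9_neg e he hre
          have key : ∀ a b : F, b ≠ 0 → a ^ 2 ≠ -b ^ 2 := by
            intro a b hb hab
            apply hneg
            refine ⟨a / b, ?_⟩
            field_simp
            linear_combination (-1 : F) * hab
          rcases hd with h | h <;> rcases hp with h' | h'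
          · rw [h, h', mul_one] at h5; exact h5.symm
          · rw [h, h'] at h5
            exact absurd (by linear_combination h5) (key d (p.1 : F) p.1.ne_zero)
          · rw [h, h', mul_one] at h5
            exact absurd h5.symm (key (p.1 : F) d hd0)
          · rw [h, h'] at h5; linear_combination h5
        have h7 : ((p.1 : F) - d) * ((p.1 : F) + d) = 0 := by linear_combination h6
        rcases mul_eq_zero.1 h7 with h8 | h8
        · left
          have h9 : (p.1 : F) = d := sub_eq_zero.1 h8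
          have h10 : p.1 = c := Units.ext (by rw [h9, hc])
          have h11 : p.2 = d⁻¹ • y := by
            rw [← hpy, h9, smul_smul, inv_mul_cancel₀ hd0, one_smul]
          exact Prod.ext h10 h11
        · right
          have h9 : (p.1 : F) = -d := eq_neg_of_add_eq_zero_left h8
          have h10 : p.1 = -c := Units.ext (by rw [h9, Units.val_neg, hc])
          have h11 : p.2 = -(d⁻¹ • y) := by
            rw [← hpy, h9, smul_smul, mul_neg, inv_mul_cancel₀ hd0, neg_smul, one_smul, neg_neg]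
          exact Prod.ext h10 h11
      · rintro (rfl | rfl)
        · refine ⟨⟨Finset.mem_univ _, hs⟩, ?_⟩
          show (c : F) • (d⁻¹ • y) = y
          rw [hc, smul_smul, mul_inv_cancel₀ hd0, one_smul]
        · refine ⟨⟨Finset.mem_univ _, ?_⟩, ?_⟩
          · show n9_Q (-(d⁻¹ • y)) = 1 ∨ n9_Q (-(d⁻¹ • y)) = -1
            have h5 : n9_Q (-(d⁻¹ • y)) = n9_Q (d⁻¹ • y) := by
              unfold n9_Q
              simp only [Pi.neg_apply, even_two.neg_pow]
            rw [h5]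
            exact hs
          · show ((-c : Fˣ) : F) • (-(d⁻¹ • y)) = y
            rw [Units.val_neg, neg_smul, smul_neg, neg_neg, hc, smul_smul, mul_inv_cancel₀ hd0, one_smul]
  rw [Finset.card_product, Finset.sum_congr rfl hfib, Finset.sum_const, smul_eq_mul, hTc, Finset.card_univ,
    Fintype.card_units] at hcard
  obtain ⟨r, hr⟩ : ∃ r, Fintype.card F = r + 2 := ⟨Fintype.card F - 2, by have := Fintype.one_lt_card (α := F); omega⟩
  rw [hr] at hcard ⊢
  have h5 : (r + 2) ^ 2 - 1 = (r + 1) * (r + 3) := by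
    have : (r + 2) ^ 2 = (r + 1) * (r + 3) + 1 := by ring
    rw [this, Nat.add_sub_cancel]
  rw [h5, show r + 2 - 1 = r + 1 by omega] at hcard
  have h6 : (r + 1) * S.card = (r + 1) * ((r + 3) * 2) := by rw [hcard]; ring
  have h7 := Nat.eq_of_mul_eq_mul_left (Nat.succ_pos r) h6
  rw [h7]; ring

theorem n9_cardK [DecidableEq F] (e : ℕ) (he : 2 ≤ e) (hre : Fintype.card F + 1 = 2 ^ e) :
    Nat.card (n9_K F) = 2 ^ (e + 1) := by
  classical
  have hx0 : (![1, 0] : Fin 2 → F) ≠ 0 := by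
    intro h
    have := congrFun h 0
    simp at this
  have hQ0 : n9_Q (![1, 0] : Fin 2 → F) = 1 := by
    unfold n9_Q; simp
  have hbij : Nat.card (n9_K F) = Nat.card (Finset.univ.filter (fun y : Fin 2 → F => n9_Q y = 1 ∨ n9_Q y = -1) : Finset (Fin 2 → F)) := by
    refine Nat.card_eq_of_bijective (fun κ : n9_K F => (⟨act (κ : SL2 F) ![1, 0], ?_⟩ :
      (Finset.univ.filter (fun y : Fin 2 → F => n9_Q y = 1 ∨ n9_Q y = -1) : Finset (Fin 2 → F)))) ⟨?_, ?_⟩
    · rw [Finset.mem_filter]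
      refine ⟨Finset.mem_univ _, ?_⟩
      rcases κ.2 with h | h
      · left; rw [h, hQ0]
      · right; rw [h, hQ0]
    · intro κ κ' h
      have h1 : act (κ : SL2 F) ![1, 0] = act (κ' : SL2 F) ![1, 0] := congrArg Subtype.val h
      have h2 : n9_Q (act (κ : SL2 F) ![1, 0]) = n9_Q (![1, 0] : Fin 2 → F) ∨
          n9_Q (act (κ : SL2 F) ![1, 0]) = -n9_Q (![1, 0] : Fin 2 → F) := by
        rcases κ.2 with h | h
        · left; exact h _
        · right; exact h _
      exact Subtype.ext ((n9_trans e he hre _ _ hx0 h2).unique ⟨κ.2, rfl⟩ ⟨κ'.2, h1.symm⟩)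
    · rintro ⟨y, hy⟩
      rw [Finset.mem_filter] at hy
      have h2 : n9_Q y = n9_Q (![1, 0] : Fin 2 → F) ∨ n9_Q y = -n9_Q (![1, 0] : Fin 2 → F) := by
        rw [hQ0]; exact hy.2
      obtain ⟨κ, ⟨hκ, hκy⟩, -⟩ := n9_trans e he hre _ _ hx0 h2
      exact ⟨⟨κ, hκ⟩, Subtype.ext hκy⟩
  rw [hbij, Nat.card_eq_fintype_card, Fintype.card_coe, n9_count e he hre, hre, pow_succ]
  ring

end

/-- Proof.  `q + 1 = 2 ^ e`, `e ≥ 2`, so `q ≡ 3 mod 4` and `-1` is not a square in `F`
(`FiniteField.isSquare_neg_one_iff`).  `sq`: the squares of `Fˣ` have index 2, `-1` is not a square, so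
for `c ≠ 0` either `c` or `-c` is a square (`FiniteField.isSquare_iff`, Euler's criterion, or
`quadraticChar`).  `Q x = x0² + x1²` is anisotropic.
For `u = (u0, u1)` let `R(u) = !![u0, -u1; u1, u0]` (multiplication by `u0 + i u1`) and `J = !![1, 0; 0, -1]`.
`det R(u) = Q u`, `Q(R(u) w) = Q u Q w`, `R(u) w = R(w) u`, `Q(J w) = Q w`, `det (R(u) J) = - Q u`,
`J R(u) = R(J u) J`, `J² = 1`.
`K = {R(u) : Q u = 1} ∪ {R(u) J : Q u = -1}`, a subgroup of `SL(2,F)` (check the four products).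
Equivalently `K = {g ∈ SL(2,F) : ∀ x, Q(g x) = Q x} ∪ {g : ∀ x, Q(g x) = - Q x}` (a subgroup by
definition); an element `g` of this group is `R(u)` or `R(u) J` with `u = g e₁`.
* `inv`: clear.
* `trans`: let `x, y ≠ 0`.  If `Q y = Q x`: `κ = R(R(x)⁻¹ y)` is the only element `R(u)` with `R(u) x = y`
 (`R(u) x = R(x) u`), it has `Q u = 1`; an element `R(u) J` with `Q u = -1` maps `x` to a vector with
 `Q = - Q x ≠ Q x` (characteristic not 2), so it is not possible.  If `Q y = - Q x`: the same with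
 `R(u) J x = R(J x) u = y`, `Q u = -1`; elements `R(u)` are not possible.
* `|K| = 2 (q + 1)`: the map `Fˣ × K → {x ≠ 0}`, `(c, κ) ↦ c κ e₁`, is surjective (`Q x = ± c²`, then `trans`)
 and every fibre has two elements `(c, κ)`, `(-c, -κ)` (`c κ e₁ = c' κ' e₁` gives `c² = ± c'²`, so `c² = c'²` since
 `-1` is not a square, `c' = ± c`, and then `κ' e₁ = ± κ e₁ = (± κ) e₁`, `κ' = ± κ` by uniqueness; `-1 ∈ K`).
 So `(q-1) |K| = 2 (q² - 1)`.
* `|SL(2,F)| = q (q-1)(q+1)` with `q` odd, `q - 1 ≡ 2 mod 4`, `q + 1 = 2^e`: the 2-part is `2 (q + 1)`, so `K` is a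
 Sylow 2-subgroup. -/
theorem kdata_odd {F : Type} [Field F] [Fintype F] [DecidableEq F] (e : ℕ) (he : 2 ≤ e)
    (hre : Fintype.card F + 1 = 2 ^ e) :
    ∃ (K : Sylow 2 (SL2 F)) (Q : (Fin 2 → F) → F), KData (K : Subgroup (SL2 F)) Q := by
  have hG : Nat.card (n9_K F) = 2 ^ (Nat.card (SL2 F)).factorization 2 := by
    rw [n9_cardK e he hre]
    congr 1
    obtain ⟨f, rfl⟩ : ∃ f, e = f + 2 := ⟨e - 2, by omega⟩
    have hq : Fintype.card F = 2 ^ (f + 2) - 1 := by omega
    have hpos : 1 ≤ 2 ^ (f + 1) := Nat.one_le_two_pow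
    have h1 : Nat.card (SL2 F) = 2 ^ (f + 3) * ((2 ^ (f + 2) - 1) * (2 ^ (f + 1) - 1)) := by
      have h0 : Nat.card (SL2 F) = _ := card_sl2 F
      rw [h0, hre, hq]
      have h2 : 2 ^ (f + 2) - 1 - 1 = 2 * (2 ^ (f + 1) - 1) := by
        have : 2 ^ (f + 2) = 2 * 2 ^ (f + 1) := by ring
        omega
      rw [h2, show 2 ^ (f + 3) = 2 * 2 ^ (f + 2) by ring]
      ring
    rw [h1]
    have ho1 : ¬ 2 ∣ (2 ^ (f + 2) - 1) * (2 ^ (f + 1) - 1) := by
      intro h
      rcases (Nat.Prime.dvd_mul Nat.prime_two).1 h with h | h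
      · have : 2 ^ (f + 2) = 2 * 2 ^ (f + 1) := by ring
        omega
      · have : 2 ^ (f + 1) = 2 * 2 ^ f := by ring
        have : 1 ≤ 2 ^ f := Nat.one_le_two_pow
        omega
    have hne : (2 ^ (f + 2) - 1) * (2 ^ (f + 1) - 1) ≠ 0 := by
      intro h
      rw [h] at ho1
      exact ho1 (dvd_zero _)
    rw [Nat.factorization_mul (by positivity) hne, Finsupp.add_apply,
      Nat.factorization_eq_zero_of_not_dvd ho1, add_zero, Nat.Prime.factorization_pow Nat.prime_two,
      Finsupp.single_eq_same]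
  haveI : Fact (Nat.Prime 2) := ⟨Nat.prime_two⟩
  refine ⟨Sylow.ofCard (n9_K F) hG, n9_Q, ?_⟩
  rw [Sylow.coe_ofCard]
  refine ⟨⟨1, 0, 1, fun x => by unfold n9_Q; ring⟩, ?_, ?_, ?_, ?_⟩
  · intro x hx
    by_contra h
    exact n9_Qne e he hre h hx
  · intro κ hκ x
    rcases hκ with h | h
    · exact Or.inl (h x)
    · exact Or.inr (h x)
  · intro x y hx _ h
    exact n9_trans e he hre x y hx h
  · exact n9_sq e he hre

end H96S
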