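import Pool.Agent.Lib.H96S.N3
import Pool.Agent.Lib.H96S.N8
import Pool.Agent.Lib.H96S.N9
import Pool.Agent.Lib.H96S.N10
import Pool.Agent.Lib.H96S.N11
import Pool.Agent.Lib.H96S.N13
import Pool.Agent.Lib.H96S.N14

/-!
# Chunk N15: assembly for `SL(2, F)`
-/

namespace H96S

open Matrix

/-- Proof.  `prime_pow_or (q + 1)`.  If `r s ∣ q + 1`: `sl2_zonal` and `not_star_of_zonal`.
Otherwise `q + 1 = r ^ e`.  If `q` is even: `kdata_even`, `exists_ell_even`, `star_form`, `even_contradiction`.  If `q` is odd: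
`r = 2` (`r ∣ q + 1` even: `2 ∣ r ^ e`), `e ≥ 2` (`q + 1 ≥ 5`), `q = p ^ f` (`FiniteField.card`), `q > 7`
(`q = 4, 5, 6` are excluded: `q` is odd and `5 + 1` is not a power of 2; `q ≠ 7`), `kdata_odd`, `exists_ell`, `star_form`,
`odd_contradiction` (`(k : F) + 1 ≠ 0`: `CharP.cast_eq_zero_iff F p (k+1)`; `N` is odd because `ell` is). -/
theorem not_star_sl2 (F : Type) [Field F] [Fintype F] (h4 : 4 ≤ Fintype.card F)
    (h7 : Fintype.card F ≠ 7) : ¬ Star (SL2 F) := by
  classical
  intro hstar
  rcases prime_pow_or (Fintype.card F + 1) (by omega) with ⟨r, s, hr, hs, hrs, hd⟩ | ⟨r, e, hr, he, hre⟩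
  · exact not_star_of_zonal (sl2_zonal F r s hr hs hrs hd) hstar
  · rcases Nat.even_or_odd (Fintype.card F) with h2 | h2
    · obtain ⟨K, Q, hK⟩ := kdata_even h2 r e hr hre
      obtain ⟨ell, j, N, k, hell, hodd, hj, hN, hNk, hk⟩ := exists_ell_even (Fintype.card F) h4 h2
      obtain ⟨a, b, c, h1, h3⟩ := star_form hstar r e hr he hre K Q hK ell j N k hell hodd hj hN hNk hk
      have hN2 : 2 ≤ N := by
        rw [hN]
        calc 2 ≤ ell := hell.two_le
          _ = ell ^ 1 := (pow_one ell).symm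
          _ ≤ ell ^ j := Nat.pow_le_pow_right hell.pos (by omega)
      exact even_contradiction h2 N k hN2 hNk a b c h1 h3
    · have hr2 : r = 2 := by
        have h5 : 2 ∣ r ^ e := by
          rw [← hre]
          obtain ⟨m, hm⟩ := h2
          omega
        exact ((Nat.prime_dvd_prime_iff_eq Nat.prime_two hr).1 (Nat.prime_two.dvd_of_dvd_pow h5)).symm
      subst hr2
      have he3 : 3 ≤ e := by
        by_contra hcon
        have h5 : 2 ^ e ≤ 2 ^ 2 := Nat.pow_le_pow_right (by norm_num) (by omega)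
        omega
      have h8 : 7 < Fintype.card F := by
        have h5 : 2 ^ 3 ≤ 2 ^ e := Nat.pow_le_pow_right (by norm_num) he3
        omega
      obtain ⟨p, hchar⟩ := CharP.exists F
      obtain ⟨f, hp, hq⟩ := FiniteField.card F p
      obtain ⟨K, Q, hK⟩ := kdata_odd (F := F) e (by omega) hre
      obtain ⟨ell, j, N, k, hell, hodd, hj, hN, hNk, hk, hk6, hpk⟩ :=
        exists_ell p f (Fintype.card F) e hp hq h8 hre
      obtain ⟨a, b, c, h1, h3⟩ := star_form hstar 2 e hr he hre K Q hK ell j N k hell hodd hj hN hNk hk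
      have hN2 : 2 ≤ N := by
        rw [hN]
        calc 2 ≤ ell := hell.two_le
          _ = ell ^ 1 := (pow_one ell).symm
          _ ≤ ell ^ j := Nat.pow_le_pow_right hell.pos (by omega)
      have hNodd : Odd N := by rw [hN]; exact (hell.odd_of_ne_two hodd).pow
      have hk1 : (k : F) + 1 ≠ 0 := by
        intro h0
        apply hpk
        rw [← CharP.cast_eq_zero_iff F p]
        push_cast
        exact h0
      exact odd_contradiction N k hN2 hNodd hNk hk6 hk1 a b c h1 h3

end H96S
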