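import Pool.Agent.Lib.H96S.QD0

/-!
# Chunk QD: `Sp(4, q)`, `q` odd, is orbit-local
-/

namespace H96S

open Matrix
open scoped LinearAlgebra.Projectivization

lemma qd_pow (p q f n : ℕ) (hp : p.Prime) (hq : q = p ^ f) (hf : f ≠ 0) (I : Finset (Fin 4))
    (h : ∑ i ∈ I, q ^ (i : ℕ) = p ^ n) : ∀ i ∈ I, ∀ j ∈ I, i = j := by
  classical
  have hpq : p ∣ q := by rw [hq]; exact dvd_pow_self p hf
  have hqpos : 0 < q := by rw [hq]; exact pow_pos hp.pos _
  by_contra hcon
  push Not at hcon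
  obtain ⟨i, hi, j, hj, hij⟩ := hcon
  have hne : I.Nonempty := ⟨i, hi⟩
  set i0 := I.min' hne with hi0
  have hi0m : i0 ∈ I := Finset.min'_mem _ _
  obtain ⟨k, hk, hki⟩ : ∃ k ∈ I, k ≠ i0 := by
    by_cases h1 : i = i0
    · exact ⟨j, hj, fun h2 => hij (h1.trans h2.symm)⟩
    · exact ⟨i, hi, h1⟩
  have hsum : q ^ (i0 : ℕ) + ∑ i ∈ I.erase i0, q ^ (i : ℕ) = p ^ n := by
    rw [← h, ← Finset.add_sum_erase I _ hi0m]
  have hR : 0 < ∑ i ∈ I.erase i0, q ^ (i : ℕ) :=
    Finset.sum_pos (fun _ _ => pow_pos hqpos _) ⟨k, Finset.mem_erase.2 ⟨hki, hk⟩⟩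
  have hRd : q ^ (i0 : ℕ) * p ∣ ∑ i ∈ I.erase i0, q ^ (i : ℕ) := by
    refine Finset.dvd_sum fun a ha => ?_
    have ha' := Finset.mem_erase.1 ha
    have hlt : i0 < a := lt_of_le_of_ne (Finset.min'_le _ _ ha'.2) ha'.1.symm
    have hlt' : (i0 : ℕ) < (a : ℕ) := hlt
    have : q ^ (a : ℕ) = q ^ (i0 : ℕ) * q ^ ((a : ℕ) - i0) := by
      rw [← pow_add]; congr 1; omega
    rw [this]
    exact mul_dvd_mul_left _ (hpq.trans (dvd_pow_self q (by omega)))
  have hq0 : q ^ (i0 : ℕ) = p ^ (f * i0) := by rw [hq, pow_mul]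
  have hlt : p ^ (f * i0) < p ^ n := by rw [← hq0, ← hsum]; omega
  have hlt' : f * i0 < n := (Nat.pow_lt_pow_iff_right hp.one_lt).1 hlt
  have h1 : p ^ (f * i0 + 1) ∣ p ^ n := pow_dvd_pow p hlt'
  have h2 : p ^ (f * i0 + 1) ∣ ∑ i ∈ I.erase i0, q ^ (i : ℕ) := by
    rw [pow_succ, ← hq0]; exact hRd
  have h3 : p ^ (f * i0 + 1) ∣ q ^ (i0 : ℕ) := by
    rw [← hsum] at h1
    exact (Nat.dvd_add_left h2).1 h1
  rw [hq0] at h3
  have h4 := (Nat.pow_dvd_pow_iff_le_right hp.one_lt).1 h3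
  omega

lemma qd_orbit {F : Type} [Field F] [Fintype F] (p : ℕ) [CharP F p] (hp : p.Prime)
    (P : Sylow p (Sp4 F)) (hU : qdU F ≤ P) (ω ω' : QdP F) :
    ω ∈ MulAction.orbit P ω' ↔ qdCell ω = qdCell ω' := by
  classical
  have hpf := Fact.mk hp
  have hback : ∀ ω ω' : QdP F, qdCell ω = qdCell ω' → ω ∈ MulAction.orbit P ω' := by
    intro ω ω' h
    obtain ⟨u, hu, hu'⟩ := qd_U_trans F ω ω' h
    exact ⟨⟨u, hU hu⟩, hu'⟩
  refine ⟨fun h => ?_, hback ω ω'⟩
  obtain ⟨f, _, hq⟩ := FiniteField.card F p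
  have hΩ : Fintype (QdP F) := Fintype.ofFinite _
  set T : Finset (QdP F) := Finset.univ.filter (fun ω => ω ∈ MulAction.orbit P ω') with hT
  obtain ⟨n, hn⟩ := P.isPGroup'.card_orbit ω'
  have hTcard : T.card = p ^ n := by
    rw [← hn, hT, ← Fintype.card_subtype, ← Nat.card_eq_fintype_card]
  have hmem : ∀ ω, ω ∈ T ↔ ω ∈ MulAction.orbit P ω' := by
    intro ω
    rw [hT, Finset.mem_filter]
    exact ⟨fun h => h.2, fun h => ⟨Finset.mem_univ _, h⟩⟩
  have hfib : ∀ i ∈ T.image qdCell, (T.filter (fun ω => qdCell ω = i)).card =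
      Fintype.card F ^ (i : ℕ) := by
    intro i hi
    obtain ⟨ω₁, hω₁, rfl⟩ := Finset.mem_image.1 hi
    rw [← qd_cell_card (F := F) (qdCell ω₁), Nat.card_eq_fintype_card, Fintype.card_subtype]
    congr 1
    ext ω₂
    constructor
    · intro h
      exact Finset.mem_filter.2 ⟨Finset.mem_univ _, (Finset.mem_filter.1 h).2⟩
    · intro h
      have h2 := (Finset.mem_filter.1 h).2
      refine Finset.mem_filter.2 ⟨(hmem ω₂).2 ?_, h2⟩
      have h3 : ω₂ ∈ MulAction.orbit P ω₁ := hback _ _ h2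
      have h4 := MulAction.orbit_eq_iff.2 ((hmem ω₁).1 hω₁)
      rw [← h4]; exact h3
  have hsum : ∑ i ∈ T.image qdCell, Fintype.card F ^ (i : ℕ) = p ^ n := by
    rw [← hTcard, Finset.card_eq_sum_card_fiberwise (f := qdCell) (s := T) (t := T.image qdCell)]
    · exact Finset.sum_congr rfl fun i hi => (hfib i hi).symm
    · intro a ha
      exact Finset.mem_image_of_mem _ ha
  exact qd_pow p _ f n hp hq f.ne_zero _ hsum _ (Finset.mem_image_of_mem _ ((hmem ω).2 h)) _
    (Finset.mem_image_of_mem _ ((hmem ω').2 (MulAction.mem_orbit_self _)))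

/-- the summation matrix -/
def qdL : Matrix (Fin 4) (Fin 4) ℤ := fun i a => if a ≤ i then 1 else 0

lemma qdL_det : qdL.det = 1 := by
  have h : qdL.IsLowerTriangular := by
    intro i j hij
    have hij' : i < j := hij
    exact if_neg (not_le.2 hij')
  rw [Matrix.det_of_isLowerTriangular _ h]
  exact Finset.prod_eq_one fun i _ => if_pos le_rfl

lemma qd_natcard {α : Type} [Fintype α] (p : α → Prop) [DecidablePred p] :
    (Nat.card {x // p x} : ℤ) = ∑ x : α, if p x then (1 : ℤ) else 0 := by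
  rw [Nat.card_eq_fintype_card, Fintype.card_subtype, Finset.sum_ite]
  simp

lemma qd_n {F : Type} [Field F] [Fintype F] (g : Sp4 F) (i j : Fin 4) :
    Nat.card {ω : QdP F // qdCell ω ≤ i ∧ qdCell (g⁻¹ • ω) ≤ j} = qcN g.1 (i + 1) (j + 1) := by
  have hF : 1 < Fintype.card F := Fintype.one_lt_card
  have h1 := qd_count (F := F) (fun ω => qdCell ω ≤ i ∧ qdCell (g⁻¹ • ω) ≤ j)
  have h2 : Nat.card {x : Fin 4 → F // x ≠ 0 ∧ (∀ k : Fin 4, (i : ℕ) + 1 ≤ k → x k = 0) ∧
      ∀ k : Fin 4, (j : ℕ) + 1 ≤ k →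
        (((g.1⁻¹ : SpecialLinearGroup (Fin 4) F)).1.mulVec x) k = 0} =
      Nat.card {v : Fin 4 → F // ∃ h : v ≠ 0, qdCell (Projectivization.mk F v h) ≤ i ∧
        qdCell (g⁻¹ • Projectivization.mk F v h) ≤ j} := by
    refine Nat.card_congr (Equiv.subtypeEquivRight fun v => ?_)
    have key : ∀ h : v ≠ 0, (qdCell (Projectivization.mk F v h) ≤ i ∧
        qdCell (g⁻¹ • Projectivization.mk F v h) ≤ j) ↔
        ((∀ k : Fin 4, (i : ℕ) + 1 ≤ k → v k = 0) ∧
      ∀ k : Fin 4, (j : ℕ) + 1 ≤ k →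
        (((g.1⁻¹ : SpecialLinearGroup (Fin 4) F)).1.mulVec v) k = 0) := by
      intro h
      have hne : (((g.1⁻¹ : SpecialLinearGroup (Fin 4) F)).1.mulVec v) ≠ 0 := by
        intro h0
        apply h
        have h3 : g.1.1.mulVec (((g.1⁻¹ : SpecialLinearGroup (Fin 4) F)).1.mulVec v) = v := by
          rw [Matrix.mulVec_mulVec]
          have h4 : g.1.1 * ((g.1⁻¹ : SpecialLinearGroup (Fin 4) F)).1 = 1 :=
            congrArg Subtype.val (mul_inv_cancel g.1)
          rw [h4, Matrix.one_mulVec]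
        rw [← h3, h0, Matrix.mulVec_zero]
      have h5 : g⁻¹ • Projectivization.mk F v h = Projectivization.mk F _ hne := rfl
      rw [h5, qd_cell_le, qd_cell_le]
      rfl
    constructor
    · rintro ⟨h, h3⟩
      exact ⟨h, (key h).2 h3⟩
    · rintro ⟨h, h3⟩
      exact ⟨h, (key h).1 h3⟩
  show _ = Nat.card {x : Fin 4 → F // x ≠ 0 ∧ (∀ k : Fin 4, (i : ℕ) + 1 ≤ k → x k = 0) ∧
      ∀ k : Fin 4, (j : ℕ) + 1 ≤ k →
        (((g.1⁻¹ : SpecialLinearGroup (Fin 4) F)).1.mulVec x) k = 0} / (Fintype.card F - 1)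
  rw [h2, h1, Nat.mul_div_cancel _ (by omega)]

/-- the matrix of the numbers of points in two cells -/
noncomputable def qdM {F : Type} [Field F] [Fintype F] [Fintype (Sp4 F)] (c : Sp4 F → ℤ) :
    Matrix (Fin 4) (Fin 4) ℤ := fun a b => ∑ g : Sp4 F, c g *
      (Nat.card {ω : QdP F // qdCell ω = a ∧ qdCell (g⁻¹ • ω) = b} : ℤ)

/-- summation over the lower cells -/
lemma qd_sum {F : Type} [Field F] [Fintype F] [Fintype (Sp4 F)] (c : Sp4 F → ℤ) (i j : Fin 4) :
    (qdL * qdM c * qdLᵀ) i j = ∑ g : Sp4 F, c g * (qcN g.1 (i + 1) (j + 1) : ℤ) := by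
  classical
  have hΩ : Fintype (QdP F) := Fintype.ofFinite _
  have h1 : ∀ g : Sp4 F, (qcN g.1 (i + 1) (j + 1) : ℤ) = ∑ b : Fin 4, ∑ a : Fin 4,
      qdL i a * (Nat.card {ω : QdP F // qdCell ω = a ∧ qdCell (g⁻¹ • ω) = b} : ℤ) * qdL j b := by
    intro g
    rw [← qd_n, qd_natcard]
    have h2 : ∀ a b : Fin 4, (Nat.card {ω : QdP F // qdCell ω = a ∧ qdCell (g⁻¹ • ω) = b} : ℤ) =
        ∑ ω : QdP F, (if qdCell ω = a then (1 : ℤ) else 0) *
          (if qdCell (g⁻¹ • ω) = b then (1 : ℤ) else 0) := by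
      intro a b
      rw [qd_natcard]
      refine Finset.sum_congr rfl fun ω _ => ?_
      by_cases ha : qdCell ω = a <;> by_cases hb : qdCell (g⁻¹ • ω) = b <;> simp [ha, hb]
    have h3 : ∀ b a : Fin 4,
        qdL i a * (Nat.card {ω : QdP F // qdCell ω = a ∧ qdCell (g⁻¹ • ω) = b} : ℤ) * qdL j b =
        ∑ ω : QdP F, (qdL i a * (if qdCell ω = a then (1 : ℤ) else 0)) *
          (qdL j b * (if qdCell (g⁻¹ • ω) = b then (1 : ℤ) else 0)) := by
      intro b a
      rw [h2, Finset.mul_sum, Finset.sum_mul]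
      exact Finset.sum_congr rfl fun ω _ => by ring
    rw [Finset.sum_congr rfl (fun b _ => Finset.sum_congr rfl (fun a _ => h3 b a))]
    rw [Finset.sum_congr rfl (fun b _ => Finset.sum_comm), Finset.sum_comm]
    refine Finset.sum_congr rfl fun ω _ => ?_
    have h4 : ∀ b : Fin 4, ∑ a : Fin 4, (qdL i a * (if qdCell ω = a then (1 : ℤ) else 0)) *
          (qdL j b * (if qdCell (g⁻¹ • ω) = b then (1 : ℤ) else 0)) =
        qdL i (qdCell ω) * (qdL j b * (if qdCell (g⁻¹ • ω) = b then (1 : ℤ) else 0)) := by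
      intro b
      rw [← Finset.sum_mul]
      congr 1
      simp
    rw [Finset.sum_congr rfl (fun b _ => h4 b), ← Finset.mul_sum]
    have h5 : ∑ b : Fin 4, (qdL j b * (if qdCell (g⁻¹ • ω) = b then (1 : ℤ) else 0)) =
        qdL j (qdCell (g⁻¹ • ω)) := by
      simp
    rw [h5]
    by_cases ha : qdCell ω ≤ i <;> by_cases hb : qdCell (g⁻¹ • ω) ≤ j <;> simp [qdL, ha, hb]
  rw [Matrix.mul_apply]
  have h6 : ∀ b : Fin 4, (qdL * qdM c) i b * qdLᵀ b j = ∑ g : Sp4 F, c g * ∑ a : Fin 4,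
        qdL i a * (Nat.card {ω : QdP F // qdCell ω = a ∧ qdCell (g⁻¹ • ω) = b} : ℤ) * qdL j b := by
    intro b
    rw [Matrix.mul_apply, Finset.sum_mul]
    simp only [qdM, Finset.mul_sum, Finset.sum_mul, Matrix.transpose_apply]
    rw [Finset.sum_comm]
    refine Finset.sum_congr rfl fun g _ => Finset.sum_congr rfl fun a _ => ?_
    ring
  rw [Finset.sum_congr rfl (fun b _ => h6 b), Finset.sum_comm]
  refine Finset.sum_congr rfl fun g _ => ?_
  rw [← Finset.mul_sum, h1 g]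

lemma qd_det {F : Type} [Field F] [Fintype F] [Fintype (Sp4 F)] (hodd : Odd (Fintype.card F))
    (c : Sp4 F → ℤ) (hc : ¬ (2 : ℤ) ∣ ∑ g, c g) : (qdM c).det ≠ 0 := by
  set M : Matrix (Fin 4) (Fin 4) ℤ := qdM c with hM
  set N : Matrix (Fin 4) (Fin 4) ℤ := qdL * M * qdLᵀ with hN
  have hNe : ∀ i j, N i j = ∑ g : Sp4 F, c g * (qcN g.1 (i + 1) (j + 1) : ℤ) := fun i j =>
    qd_sum c i j
  have hdet : N.det = M.det := by
    rw [hN, Matrix.det_mul, Matrix.det_mul, Matrix.det_transpose, qdL_det, one_mul, mul_one]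
  have hC : Odd (∑ g, c g) := by
    rw [← Int.not_even_iff_odd, even_iff_two_dvd]
    exact hc
  have hpar := fun g : Sp4 F => qc_parity F hodd g.1 g.2
  have hodd' : Odd N.det := by
    refine qb_det N (∑ g, c g) hC ?_ ?_ ?_ ?_ ?_ ?_
    · intro j
      rw [hNe, Finset.sum_mul, ← Finset.sum_sub_distrib]
      refine Finset.dvd_sum fun g _ => ?_
      have h := (hpar g).1 (j + 1) (by omega)
      have h' : (2 : ℤ) ∣ (qcN g.1 4 (j + 1) : ℤ) - ((j : ℕ) + 1) := by
        push_cast at h; exact h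
      rw [← mul_sub]
      exact dvd_mul_of_dvd_right h' _
    · intro i
      rw [hNe, Finset.sum_mul, ← Finset.sum_sub_distrib]
      refine Finset.dvd_sum fun g _ => ?_
      have h := (hpar g).2.1 (i + 1) (by omega)
      have h' : (2 : ℤ) ∣ (qcN g.1 (i + 1) 4 : ℤ) - ((i : ℕ) + 1) := by
        push_cast at h; exact h
      rw [← mul_sub]
      exact dvd_mul_of_dvd_right h' _
    · rw [hNe, hNe, ← Finset.sum_sub_distrib]
      refine Finset.dvd_sum fun g _ => ?_
      rw [← mul_sub]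
      exact dvd_mul_of_dvd_right (hpar g).2.2.1 _
    · rw [hNe, hNe, ← Finset.sum_sub_distrib]
      refine Finset.dvd_sum fun g _ => ?_
      rw [← mul_sub]
      exact dvd_mul_of_dvd_right (hpar g).2.2.2.1 _
    · rw [hNe, hNe, ← Finset.sum_sub_distrib, ← Finset.sum_sub_distrib]
      refine Finset.dvd_sum fun g _ => ?_
      rw [← mul_sub, ← mul_sub_one]
      exact dvd_mul_of_dvd_right (hpar g).2.2.2.2.1 _
    · rw [hNe, hNe, ← Finset.sum_sub_distrib, ← Finset.sum_sub_distrib]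
      refine Finset.dvd_sum fun g _ => ?_
      rw [← mul_sub, ← mul_sub_one]
      exact dvd_mul_of_dvd_right (hpar g).2.2.2.2.2.1 _
  rw [← hdet]
  intro h0
  rw [h0] at hodd'
  exact absurd hodd' (by decide)

/-- Proof.  `G = Sp(4, F)`, `q = |F|` odd, `p` the characteristic, `r = 2`, `s` an odd prime divisor of `q² + 1` (`q² + 1 ≡ 2 mod 4` and `> 2`).
`Ω` = the one-dimensional subspaces of `F⁴` (`Projectivization F (Fin 4 → F)`, or the quotient of the nonzero vectors by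
scalars) with the natural action, transitive by `qa_trans'`; `|Ω| = 1 + q + q² + q³ = (q+1)(q²+1)`, divisible by `s`; `s ∤ q`.
Cells: `C_i` (`i = 1..4`) = points `F x` whose last nonzero coordinate is `x_(i-1)`; `|C_i| = q^(i-1)`.  The group `U` of unitriangular
elements of `G` is a `p`-group (unipotent matrices: `(u - 1)^4 = 0`, `u^(p^m) = 1` for `p^m ≥ 4`) whose orbits are the cells (`qa_trans`).
Let `P ≥ U` be a Sylow `p`-subgroup.  Its orbits are unions of cells and have `p`-power size; a union of at least two cells has size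
`q^i (1 + multiple of p)` with a second factor `> 1`, which is not a power of `p`; so the orbits of `P` are the four cells.
`p ∣ |G|` (`U ≠ 1`).
Nonsingularity: let `c : G → ℤ` with odd sum `C`, `z` a function on the orbits (`z_1..z_4`) with
`∑_i z_i ∑_g c_g |C_i ∩ g C_j| = 0` for all `j`.  Let `N(g)_{ij} = ∑_{i' ≤ i, j' ≤ j} |C_i' ∩ g C_j'| = qcN g i j` = number of points in
`E_i ∩ g E_j`.  Summing over `j' ≤ j` and by Abel summation over `i`, `y_i = z_i - z_(i+1)` (`y_4 = z_4`) satisfies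
`∑_i y_i (∑_g c_g N(g)_{ij}) = 0` for all `j`.  The matrix `∑_g c_g N(g)` satisfies the hypotheses of `qb_det` by `qc_parity`, so its
determinant is odd, in particular not 0; hence `y = 0` and `z = 0`. -/
theorem orbitLocal_sp4 (F : Type) [Field F] [Fintype F] (hodd : Odd (Fintype.card F)) :
    OrbitLocal (Sp4 F) := by
  classical
  obtain ⟨p, hchar⟩ := CharP.exists F
  obtain ⟨f, hp, hq⟩ := FiniteField.card F p
  have hpf := Fact.mk hp
  have hG : Fintype (Sp4 F) := Fintype.ofFinite _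
  have hF : 1 < Fintype.card F := Fintype.one_lt_card
  have hpq : p ∣ Fintype.card F := by rw [hq]; exact dvd_pow_self p f.ne_zero
  obtain ⟨a, ha⟩ := hodd
  have ha1 : 1 ≤ a := by omega
  have hp2 : p ≠ 2 := by
    rintro rfl
    omega
  set m : ℕ := 2 * a ^ 2 + 2 * a + 1 with hm
  have hm2 : Fintype.card F ^ 2 + 1 = 2 * m := by rw [ha, hm]; ring
  have hs : (Nat.minFac m).Prime := Nat.minFac_prime (by
    have : 0 < a ^ 2 := by positivity
    omega)
  set s := Nat.minFac m with hsdef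
  have hsm : s ∣ m := Nat.minFac_dvd m
  have hs2 : 2 ≠ s := by
    intro h
    rw [← h, hm] at hsm
    have h1 : 2 ∣ 2 * a ^ 2 + 2 * a := ⟨a ^ 2 + a, by ring⟩
    have h2 : 2 ∣ 1 := (Nat.dvd_add_right h1).1 hsm
    omega
  have hsq : s ∣ Fintype.card F ^ 2 + 1 := by rw [hm2]; exact dvd_mul_of_dvd_right hsm 2
  have hps : p ≠ s := by
    intro h
    rw [← h] at hsq
    have h2 : p ∣ 1 := (Nat.dvd_add_right (dvd_pow hpq (by norm_num))).1 hsq
    exact hp.one_lt.ne' (Nat.dvd_one.1 h2)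
  obtain ⟨P, hUP⟩ := (qd_U_pgroup F p hp).exists_le_sylow
  have horb := qd_orbit p hp P hUP
  have hpG : p ∣ Nat.card (Sp4 F) := by
    obtain ⟨A, hA, hAu, hAx⟩ := qa_trans (![1, 1, 0, 0] : Fin 4 → F) 1 (by simp) (by
      intro j hj
      fin_cases j
      · exact absurd hj (by decide)
      · exact absurd hj (by decide)
      · rfl
      · rfl)
    set g : Sp4 F := ⟨A, hA⟩ with hg
    have hg1 : g ^ (p ^ 2) = 1 := Subtype.ext (qd_uni_pow p hp hAu)
    have hgne : g ≠ 1 := by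
      intro h
      have h1 : A = 1 := congrArg Subtype.val h
      rw [h1] at hAx
      have h2 : (1 : SpecialLinearGroup (Fin 4) F).1 = 1 := rfl
      rw [h2, Matrix.one_mulVec] at hAx
      have h3 := congrFun hAx 0
      simp at h3
    have h1 : orderOf g ∣ p ^ 2 := orderOf_dvd_of_pow_eq_one hg1
    obtain ⟨k, _, hk⟩ := (Nat.dvd_prime_pow hp).1 h1
    have hk0 : k ≠ 0 := by
      rintro rfl
      rw [pow_zero] at hk
      exact hgne (orderOf_eq_one_iff.1 hk)
    have h2 : p ∣ orderOf g := by rw [hk]; exact dvd_pow_self p hk0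
    exact h2.trans (orderOf_dvd_natCard g)
  have hcardΩ : Nat.card (QdP F) = (Fintype.card F + 1) * (Fintype.card F ^ 2 + 1) := by
    rw [Projectivization.card_of_finrank F (Fin 4 → F) (n := 4) (by simp),
      Nat.card_eq_fintype_card]
    simp only [Finset.sum_range_succ, Finset.sum_range_zero]
    ring
  refine ⟨p, 2, s, P, QdP F, inferInstance, inferInstance, hp, Nat.prime_two, hs, hp2, hps, hs2,
    hpG, ?_, ?_, ?_, ?_⟩
  · exact ⟨Projectivization.mk F (Pi.single 0 1) (by simp)⟩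
  · refine ⟨fun ω ω' => ?_⟩
    obtain ⟨A, hA, hAx⟩ := qa_trans' ω.rep ω'.rep ω.rep_nonzero ω'.rep_nonzero
    refine ⟨⟨A, hA⟩, ?_⟩
    have hne : A.1.mulVec ω.rep ≠ 0 := by rw [hAx]; exact ω'.rep_nonzero
    have h1 : (⟨A, hA⟩ : Sp4 F) • Projectivization.mk F ω.rep ω.rep_nonzero =
      Projectivization.mk F (A.1.mulVec ω.rep) hne := rfl
    rw [Projectivization.mk_rep] at h1
    refine Eq.trans h1 ?_
    conv_rhs => rw [← ω'.mk_rep]
    congr 1
  · rw [hcardΩ]
    exact dvd_mul_of_dvd_right hsq _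
  · intro c hc z hz
    have hinst : Fintype (QdP F) := Fintype.ofFinite _
    rw [finsum_eq_sum_of_fintype] at hc
    have hdet := qd_det ⟨a, ha⟩ c (by exact_mod_cast hc)
    let O := MulAction.orbitRel.Quotient P (QdP F)
    let e₀ : O → Fin 4 := Quotient.lift qdCell (fun ω ω' h => (horb ω ω').1 h)
    have he₀ : ∀ ω : QdP F, e₀ (Quotient.mk'' ω) = qdCell ω := fun ω => rfl
    have hinj : Function.Injective e₀ := by
      intro x y
      induction x using Quotient.inductionOn with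
      | h ω =>
        induction y using Quotient.inductionOn with
        | h ω' =>
          intro h
          exact Quotient.sound ((horb ω ω').2 h)
    have hsurj : Function.Surjective e₀ := by
      intro i
      refine ⟨Quotient.mk'' (Projectivization.mk F (Pi.single i 1) (by simp)), ?_⟩
      rw [he₀, qd_cell_mk]
      refine ⟨by simp, fun j hj => ?_⟩
      exact Pi.single_eq_of_ne hj.ne' _
    let e : O ≃ Fin 4 := Equiv.ofBijective e₀ ⟨hinj, hsurj⟩
    have he : ∀ (ω : QdP F) (i : O), (Quotient.mk'' ω : O) = i ↔ qdCell ω = e i := by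
      intro ω i
      rw [← he₀ ω]
      exact (hinj.eq_iff).symm
    have hO : Fintype O := Fintype.ofEquiv _ e.symm
    set M : Matrix (Fin 4) (Fin 4) ℤ := qdM c with hM
    have hdetQ : (M.map (Int.castRingHom ℚ)).det ≠ 0 := by
      rw [← RingHom.mapMatrix_apply, ← RingHom.map_det, eq_intCast]
      exact_mod_cast hdet
    have hz' : (fun i => z (e.symm i)) ᵥ* (M.map (Int.castRingHom ℚ)) = 0 := by
      funext j
      have h1 := hz (e.symm j)
      rw [finsum_eq_sum_of_fintype] at h1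
      show ∑ i : Fin 4, z (e.symm i) * ((M i j : ℤ) : ℚ) = 0
      rw [← h1]
      refine Fintype.sum_equiv e.symm _ _ fun i => ?_
      congr 1
      rw [finsum_eq_sum_of_fintype, hM]
      simp only [qdM]
      push_cast
      refine Finset.sum_congr rfl fun g _ => ?_
      congr 2
      refine Nat.card_congr (Equiv.subtypeEquivRight fun ω => ?_)
      rw [he, he, e.apply_symm_apply, e.apply_symm_apply]
    have h0 := Matrix.eq_zero_of_vecMul_eq_zero hdetQ hz'
    funext i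
    have h1 := congrFun h0 (e i)
    simpa using h1

end H96S
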