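import Pool.Agent.Lib.H96S.UB

/-!
# Chunk UC: `SU(3, q)`, `q ≥ 3`, has a Sylow subgroup with two orbits
-/

namespace H96S

open Matrix

lemma uc_mulcol {F : Type} [Field F] (q : ℕ) (g h : SU3 F q) (i : Fin 3) :
    (g * h).1.1 i 0 = g.1.1 i 0 * h.1.1 0 0 + g.1.1 i 1 * h.1.1 1 0 + g.1.1 i 2 * h.1.1 2 0 := by
  show (g.1.1 * h.1.1) i 0 = _
  rw [Matrix.mul_apply, Fin.sum_univ_three]

/-- the stabiliser of the line of the first basis vector -/
def ucB (F : Type) [Field F] (q : ℕ) : Subgroup (SU3 F q) where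
  carrier := {g | g.1.1 1 0 = 0 ∧ g.1.1 2 0 = 0}
  one_mem' := by
    constructor <;> simp
  mul_mem' := by
    rintro g h ⟨hg1, hg2⟩ ⟨hh1, hh2⟩
    refine ⟨?_, ?_⟩
    · rw [uc_mulcol, hg1, hh1, hh2]; ring
    · rw [uc_mulcol, hg2, hh1, hh2]; ring
  inv_mem' := by
    rintro g ⟨hg1, hg2⟩
    have h0 := uc_mulcol q g⁻¹ g 0
    have h1 := uc_mulcol q g⁻¹ g 1
    have h2 := uc_mulcol q g⁻¹ g 2
    rw [inv_mul_cancel, hg1, hg2] at h0 h1 h2
    simp only [OneMemClass.coe_one, mul_zero, add_zero] at h0 h1 h2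
    have e0 : (1 : SpecialLinearGroup (Fin 3) F).1 0 0 = (1 : F) := by simp
    have e1 : (1 : SpecialLinearGroup (Fin 3) F).1 1 0 = (0 : F) := by simp
    have e2 : (1 : SpecialLinearGroup (Fin 3) F).1 2 0 = (0 : F) := by simp
    rw [e0] at h0
    rw [e1] at h1
    rw [e2] at h2
    have hne : g.1.1 0 0 ≠ 0 := by
      intro h
      rw [h, mul_zero] at h0
      exact one_ne_zero h0
    exact ⟨(mul_eq_zero.1 h1.symm).resolve_right hne, (mul_eq_zero.1 h2.symm).resolve_right hne⟩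

lemma uc_memB {F : Type} [Field F] {q : ℕ} (g h : SU3 F q) (c : F)
    (hc : ∀ i, h.1.1 i 0 = c * g.1.1 i 0) : g⁻¹ * h ∈ ucB F q := by
  have key : ∀ i : Fin 3, (g⁻¹ * h).1.1 i 0 = c * (g⁻¹ * g).1.1 i 0 := by
    intro i
    rw [uc_mulcol, uc_mulcol, hc, hc, hc]
    ring
  constructor
  · rw [key, inv_mul_cancel]
    have e1 : ((1 : SU3 F q)).1.1 1 0 = (0 : F) := by simp
    rw [e1, mul_zero]
  · rw [key, inv_mul_cancel]
    have e1 : ((1 : SU3 F q)).1.1 2 0 = (0 : F) := by simp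
    rw [e1, mul_zero]

lemma uc_prop {F : Type} [Field F] {q : ℕ} (g h : SU3 F q) (hB : g⁻¹ * h ∈ ucB F q) :
    ∃ c : F, ∀ i, h.1.1 i 0 = c * g.1.1 i 0 := by
  obtain ⟨h1, h2⟩ := hB
  refine ⟨(g⁻¹ * h).1.1 0 0, fun i => ?_⟩
  have e : h = g * (g⁻¹ * h) := by group
  have e2 := uc_mulcol q g (g⁻¹ * h) i
  rw [← e, h1, h2] at e2
  rw [e2]; ring

/-- Proof.  `G = SU(3, q)`, `B = {g ∈ G : g 1 0 = 0, g 2 0 = 0}` (the stabiliser of the line of `e₀`), `Ω = G ⧸ B` with the natural transitive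
action; `U = {uU q b t}` a subgroup of `G` of order `q³` (`ua_card`; `uU q b t * uU q b' t' = uU q (b + b') (t + t' - b^q b')`), a
`p`-group contained in `B`.  `w = uW`.  By `ub_facts` every `g ∉ B` lies in `u w B` for exactly one `u ∈ U` (the cosets `g B` correspond to the
lines `F g e₀`; `u w e₀ = (t, b, 1)`).  So `U` fixes the point `B` and acts regularly on the other points, `|Ω| = q³ + 1`.
Let `P` be a Sylow `p`-subgroup containing `U` (`IsPGroup.exists_le_sylow`).  The orbits of `P` are unions of orbits of `U`: either `{B}` and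
the rest, or one orbit; in the second case `|Ω| = q³ + 1` would be a power of `p` (`IsPGroup.card_orbit`), but it is `≡ 1 mod p` and `> 1`.
So there are exactly two orbits, of sizes `1` and `q³`: `x = B`, `y = w B`.  `(1 + q³) / gcd(1, q³) = q³ + 1`, and `ua_two_primes`. -/
theorem twoOrbit_su3 (F : Type) [Field F] [Fintype F] (p f q : ℕ) [CharP F p] (hp : p.Prime)
    (hq : q = p ^ f) (h3 : 3 ≤ q) (hF : Fintype.card F = q ^ 2) : TwoOrbit (SU3 F q) := by
  classical
  have hpf := Fact.mk hp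
  have hq0 : q ≠ 0 := by omega
  have hadd : ∀ x y : F, (x + y) ^ q = x ^ q + y ^ q := by
    intro x y; rw [hq]; exact add_pow_char_pow _ _ _ _
  have hneg : ∀ x : F, (-x) ^ q = -(x ^ q) := by
    intro x; rw [hq]; exact ua_neg p f x
  have hfrob : ∀ x : F, (x ^ q) ^ q = x := ua_frob q hF
  obtain ⟨hU, ⟨w₀, hw₀, hw₀'⟩, hcol⟩ := ub_facts F p f q hp hq hF
  have hext : ∀ g h : SU3 F q, g.1.1 = h.1.1 → g = h := fun g h e => Subtype.ext (Subtype.ext e)
  let S := {z : F × F // z.2 + z.2 ^ q + z.1 ^ (q + 1) = 0}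
  have hUS : ∀ z : S, ∃ g : SU3 F q, g.1.1 = uU q z.1.1 z.1.2 := by
    intro z
    obtain ⟨A, hA, hA'⟩ := hU z.1.1 z.1.2 z.2
    exact ⟨⟨A, hA⟩, hA'⟩
  choose u hu using hUS
  set w : SU3 F q := ⟨w₀, hw₀⟩ with hw
  have hwm : w.1.1 = uW F := hw₀'
  have hmul : ∀ z z' : S, ∃ z'' : S, u z * u z' = u z'' := by
    intro z z'
    refine ⟨⟨(z.1.1 + z'.1.1, z.1.2 + z'.1.2 - z.1.1 ^ q * z'.1.1), ?_⟩, ?_⟩
    · have h1 := z.2
      have h2 := z'.2
      show (z.1.2 + z'.1.2 - z.1.1 ^ q * z'.1.1) + (z.1.2 + z'.1.2 - z.1.1 ^ q * z'.1.1) ^ q +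
        (z.1.1 + z'.1.1) ^ (q + 1) = 0
      rw [pow_succ] at h1 h2
      rw [pow_succ, sub_eq_add_neg, hadd, hadd, hadd, hneg, mul_pow, hfrob]
      linear_combination h1 + h2
    · apply hext
      show (u z).1.1 * (u z').1.1 = _
      rw [hu, hu, hu]
      show uU q z.1.1 z.1.2 * uU q z'.1.1 z'.1.2 =
        uU q (z.1.1 + z'.1.1) (z.1.2 + z'.1.2 - z.1.1 ^ q * z'.1.1)
      ext i j
      fin_cases i <;> fin_cases j <;>
        simp [uU, Matrix.mul_apply, Fin.sum_univ_three, hadd] <;> ring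
  have hone : ∃ z : S, u z = 1 := by
    refine ⟨⟨(0, 0), ?_⟩, ?_⟩
    · show (0 : F) + 0 ^ q + 0 ^ (q + 1) = 0
      rw [zero_pow hq0, zero_pow (Nat.succ_ne_zero q)]; ring
    · apply hext
      rw [hu]
      show uU q (0 : F) 0 = 1
      ext i j
      fin_cases i <;> fin_cases j <;> simp [uU, hq0]
  have hinv : ∀ z : S, ∃ z' : S, u z * u z' = 1 := by
    intro z
    have hz := z.2
    refine ⟨⟨(-z.1.1, z.1.2 ^ q), ?_⟩, ?_⟩
    · show (z.1.2 ^ q) + (z.1.2 ^ q) ^ q + (-z.1.1) ^ (q + 1) = 0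
      rw [pow_succ] at hz ⊢
      rw [hfrob, hneg]
      linear_combination hz
    · apply hext
      show (u z).1.1 * (u ⟨(-z.1.1, z.1.2 ^ q), _⟩).1.1 = _
      rw [hu, hu]
      show uU q z.1.1 z.1.2 * uU q (-z.1.1) (z.1.2 ^ q) = 1
      rw [pow_succ] at hz
      ext i j
      fin_cases i <;> fin_cases j <;>
        simp [uU, Matrix.mul_apply, Fin.sum_univ_three, hneg]
      linear_combination hz
  let U : Subgroup (SU3 F q) :=
    { carrier := Set.range u
      one_mem' := hone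
      mul_mem' := by
        rintro _ _ ⟨z, rfl⟩ ⟨z', rfl⟩
        obtain ⟨z'', h⟩ := hmul z z'
        exact ⟨z'', h.symm⟩
      inv_mem' := by
        rintro _ ⟨z, rfl⟩
        obtain ⟨z', h⟩ := hinv z
        exact ⟨z', (inv_eq_of_mul_eq_one_right h).symm⟩ }
  have huinj : Function.Injective u := by
    intro z z' h
    have h1 : uU q z.1.1 z.1.2 = uU q z'.1.1 z'.1.2 := by rw [← hu, ← hu, h]
    have h2 := congrFun (congrFun h1 0) 2
    have h4 := congrFun (congrFun h1 1) 2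
    simp [uU] at h2 h4
    exact Subtype.ext (Prod.ext h4 h2)
  have hScard : Nat.card S = q ^ 3 := ua_card F p f q hp hq hF
  have hUcard : Nat.card U = p ^ (f * 3) := by
    have e : S ≃ U := Equiv.ofInjective u huinj
    rw [← Nat.card_congr e, hScard, hq, pow_mul]
  have hUp : IsPGroup p U := IsPGroup.of_card hUcard
  obtain ⟨P, hUP⟩ := hUp.exists_le_sylow
  have huP : ∀ z : S, u z ∈ P := fun z => hUP ⟨z, rfl⟩
  -- points
  let Ω := SU3 F q ⧸ ucB F q
  let x : Ω := ((1 : SU3 F q) : SU3 F q ⧸ ucB F q)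
  let y : Ω := (w : SU3 F q ⧸ ucB F q)
  have huw : ∀ z : S, (u z * w).1.1 0 0 = z.1.2 ∧ (u z * w).1.1 1 0 = z.1.1 ∧
      (u z * w).1.1 2 0 = 1 := by
    intro z
    refine ⟨?_, ?_, ?_⟩ <;> rw [uc_mulcol, hu, hwm] <;> simp [uU, uW]
  have hcover : ∀ g : SU3 F q, g ∉ ucB F q → ∃ z : S, (g : Ω) = ((u z * w : SU3 F q) : Ω) := by
    intro g hg
    have hg' : g.1.1 1 0 ≠ 0 ∨ g.1.1 2 0 ≠ 0 := by
      by_contra hcon
      push Not at hcon
      exact hg hcon
    obtain ⟨b, t, c, hc, hbt, h0, h1, h2⟩ := hcol g.1 g.2 hg'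
    refine ⟨⟨(b, t), hbt⟩, ?_⟩
    obtain ⟨e0, e1, e2⟩ := huw ⟨(b, t), hbt⟩
    apply QuotientGroup.eq.2
    refine uc_memB _ _ c⁻¹ ?_
    intro i
    fin_cases i
    · refine e0.trans ?_
      show t = c⁻¹ * g.1.1 0 0
      rw [h0, inv_mul_cancel_left₀ hc]
    · refine e1.trans ?_
      show b = c⁻¹ * g.1.1 1 0
      rw [h1, inv_mul_cancel_left₀ hc]
    · refine e2.trans ?_
      show 1 = c⁻¹ * g.1.1 2 0
      rw [h2, inv_mul_cancel₀ hc]
  have hinjΩ : Function.Injective (fun z : S => ((u z * w : SU3 F q) : Ω)) := by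
    intro z z' h
    obtain ⟨c, hc⟩ := uc_prop _ _ (QuotientGroup.eq.1 h)
    obtain ⟨e0, e1, e2⟩ := huw z
    obtain ⟨e0', e1', e2'⟩ := huw z'
    have h2 := hc 2
    have h1 := hc 1
    have h0 := hc 0
    rw [e2, e2', mul_one] at h2
    rw [e1, e1', ← h2, one_mul] at h1
    rw [e0, e0', ← h2, one_mul] at h0
    exact (Subtype.ext (Prod.ext h1 h0)).symm
  have hnex : ∀ z : S, ((u z * w : SU3 F q) : Ω) ≠ x := by
    intro z h
    have h1 := QuotientGroup.eq.1 h.symm
    rw [inv_one, one_mul] at h1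
    have h2 := h1.2
    rw [(huw z).2.2] at h2
    exact one_ne_zero h2
  have hset : Set.range (fun z : S => ((u z * w : SU3 F q) : Ω)) = {x}ᶜ := by
    apply Set.Subset.antisymm
    · rintro _ ⟨z, rfl⟩
      exact hnex z
    · intro ω hω
      induction ω using QuotientGroup.induction_on with
      | H g =>
        have hg : g ∉ ucB F q := by
          intro hg
          apply hω
          show (g : Ω) = x
          apply QuotientGroup.eq.2
          rw [mul_one]
          exact (ucB F q).inv_mem hg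
        obtain ⟨z, hz⟩ := hcover g hg
        exact ⟨z, hz.symm⟩
  have hcardc : Nat.card ({x}ᶜ : Set Ω) = q ^ 3 := by
    rw [← hset, ← hScard]
    exact (Nat.card_congr (Equiv.ofInjective _ hinjΩ)).symm
  have hcardΩ : Nat.card Ω = q ^ 3 + 1 := by
    have h1 := Set.ncard_add_ncard_compl ({x} : Set Ω)
    rw [Set.ncard_singleton, ← Nat.card_coe_set_eq ({x}ᶜ : Set Ω), hcardc] at h1
    omega
  have hpq : p ∣ q := by
    rw [hq]
    apply dvd_pow_self
    rintro rfl
    rw [pow_zero] at hq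
    omega
  have hsub : ({x}ᶜ : Set Ω) ⊆ MulAction.orbit P y := by
    rw [← hset]
    rintro _ ⟨z, rfl⟩
    exact ⟨⟨u z, huP z⟩, rfl⟩
  have hxy : x ∉ MulAction.orbit P y := by
    intro hx
    have huniv : MulAction.orbit P y = Set.univ := by
      rw [Set.eq_univ_iff_forall]
      intro ω
      by_cases hω : ω = x
      · rw [hω]; exact hx
      · exact hsub hω
    obtain ⟨n, hn⟩ := P.isPGroup'.card_orbit y
    rw [huniv, Nat.card_univ, hcardΩ] at hn
    have hn0 : n ≠ 0 := by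
      rintro rfl
      rw [pow_zero] at hn
      have : 0 < q ^ 3 := by positivity
      omega
    have h1 : p ∣ q ^ 3 + 1 := by rw [hn]; exact dvd_pow_self p hn0
    have h2 : p ∣ 1 := (Nat.dvd_add_right (dvd_pow hpq (by norm_num))).1 h1
    exact hp.one_lt.ne' (Nat.dvd_one.1 h2)
  have horby : MulAction.orbit P y = {x}ᶜ := by
    apply Set.Subset.antisymm
    · intro ω hω h
      rw [Set.mem_singleton_iff] at h
      rw [h] at hω
      exact hxy hω
    · exact hsub
  have horbx : MulAction.orbit P x = {x} := by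
    apply Set.Subset.antisymm
    · intro ω hω
      by_contra hne
      have h1 : ω ∈ MulAction.orbit P y := hsub hne
      have h2 : x ∈ MulAction.orbit P ω := MulAction.mem_orbit_symm.1 hω
      have h3 := MulAction.orbit_eq_iff.2 h1
      rw [h3] at h2
      exact hxy h2
    · rintro _ rfl
      exact MulAction.mem_orbit_self _
  obtain ⟨r, s, hr, hs, hrs, hd⟩ := ua_two_primes q h3
  refine ⟨p, P, Ω, inferInstance, inferInstance, x, y, r, s, hp, inferInstance, ?_, ?_, hr, hs, hrs,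
    ?_⟩
  · show Disjoint (MulAction.orbit P x) (MulAction.orbit P y)
    rw [horbx, horby]
    exact disjoint_compl_right
  · show MulAction.orbit P x ∪ MulAction.orbit P y = Set.univ
    rw [horbx, horby]
    exact Set.union_compl_self _
  · have h1 : Nat.card (MulAction.orbit P x) = 1 := by
      rw [horbx, Nat.card_coe_set_eq, Set.ncard_singleton]
    have h2 : Nat.card (MulAction.orbit P y) = q ^ 3 := by
      rw [horby]; exact hcardc
    have h4 : r * s ∣ (Nat.card (MulAction.orbit P x) + Nat.card (MulAction.orbit P y)) /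
        Nat.gcd (Nat.card (MulAction.orbit P x)) (Nat.card (MulAction.orbit P y)) := by
      rw [h1, h2, Nat.gcd_one_left, Nat.div_one, add_comm]
      exact hd
    exact h4

end H96S
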