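import Pool.Agent.Lib.H96S.B12
import Pool.Agent.Lib.H96S.N15
import Pool.Agent.Lib.H96S.L3C
import Pool.Agent.Lib.H96S.UC
import Pool.Agent.Lib.H96S.QD

/-!
# From the matrix groups to the simple groups; the list; the main theorem
-/

namespace H96S

open Matrix

/-- the group `PSU(3, q)`, `|F| = q²` -/
abbrev PSU3 (F : Type) [Field F] (q : ℕ) : Type := SU3 F q ⧸ Subgroup.center (SU3 F q)

/-- the group `PSp(4, F)` -/
abbrev PSp4 (F : Type) [Field F] : Type := Sp4 F ⧸ Subgroup.center (Sp4 F)

/-- if `G` modulo its centre has (∗), then `G` has (∗) -/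
theorem star_of_center {G : Type} [Group G] [Finite G] (h : Star (G ⧸ Subgroup.center G)) :
    Star G := by
  refine star_ext (Subgroup.center G) ?_ h
  rintro S _ ⟨_, H, _, f, hf⟩
  left
  intro x y
  obtain ⟨a, rfl⟩ := hf x
  obtain ⟨b, rfl⟩ := hf y
  rw [← map_mul, ← map_mul]
  congr 1
  apply Subtype.ext
  apply Subtype.ext
  exact ((Subgroup.mem_center_iff.1 (a : Subgroup.center G).2 ((b : Subgroup.center G) : G))).symm

/-- isomorphic groups have isomorphic central quotients -/
noncomputable def centerCongr {G H : Type} [Group G] [Group H] (e : G ≃* H) :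
    (G ⧸ Subgroup.center G) ≃* (H ⧸ Subgroup.center H) :=
  QuotientGroup.congr (Subgroup.center G) (Subgroup.center H) e (by
    ext x
    rw [Subgroup.mem_map]
    constructor
    · rintro ⟨y, hy, rfl⟩
      rw [Subgroup.mem_center_iff]
      intro g
      obtain ⟨g', rfl⟩ := e.surjective g
      have h1 := Subgroup.mem_center_iff.1 hy g'
      show e g' * e y = e y * e g'
      rw [← map_mul, ← map_mul, h1]
    · intro hx
      refine ⟨e.symm x, ?_, e.apply_symm_apply x⟩
      rw [Subgroup.mem_center_iff]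
      intro g
      apply e.injective
      rw [map_mul, map_mul, e.apply_symm_apply]
      exact Subgroup.mem_center_iff.1 hx (e g))

/-- `SL(2, F) ≅ SL(2, K)` for isomorphic fields -/
def sl2Congr {F K : Type} [Field F] [Field K] (e : F ≃+* K) : SL2 F ≃* SL2 K where
  toFun := SpecialLinearGroup.map (e : F →+* K)
  invFun := SpecialLinearGroup.map (e.symm : K →+* F)
  left_inv := by
    intro g
    ext i j
    simp
  right_inv := by
    intro g
    ext i j
    simp
  map_mul' := map_mul _

theorem psl27_of_card (F : Type) [Field F] (h7 : Nat.card F = 7) : Nonempty (PSL2 F ≃* PSL27) := by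
  have hfin : Finite F := Nat.finite_of_card_ne_zero (by omega)
  have hF := Fintype.ofFinite F
  have hp : Nat.Prime 7 := by norm_num
  have hpf := Fact.mk hp
  have h7' : Fintype.card F = 7 := by rw [← Nat.card_eq_fintype_card]; exact h7
  have e : ZMod 7 ≃+* F := ZMod.ringEquivOfPrime F hp h7'
  exact ⟨centerCongr (sl2Congr e.symm)⟩

/-- `PSL(2, F)`, `|F| ≥ 4`, has (∗) only if `|F| = 7` -/
theorem not_star_psl2 (F : Type) [Field F] [Finite F] (h4 : 4 ≤ Nat.card F) (h7 : Nat.card F ≠ 7) :
    ¬ Star (PSL2 F) := by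
  have hF := Fintype.ofFinite F
  rw [Nat.card_eq_fintype_card] at h4 h7
  intro h
  exact not_star_sl2 F h4 h7 (star_of_center h)

theorem not_star_psu3 (F : Type) [Field F] (q : ℕ) (h3 : 3 ≤ q) (hF : Nat.card F = q ^ 2) :
    ¬ Star (PSU3 F q) := by
  have hfin : Finite F := Nat.finite_of_card_ne_zero (by rw [hF]; positivity)
  have hft := Fintype.ofFinite F
  rw [Nat.card_eq_fintype_card] at hF
  obtain ⟨p, hchar⟩ := CharP.exists F
  obtain ⟨n, hp, hn⟩ := FiniteField.card F p
  have hd : q ∣ p ^ (n : ℕ) := by rw [← hn, hF]; exact dvd_pow_self q (by norm_num)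
  obtain ⟨f, _, hq⟩ := (Nat.dvd_prime_pow hp).1 hd
  intro h
  exact not_star_of_zonal (zonal_of_twoOrbit (twoOrbit_su3 F p f q hp hq h3 hF)) (star_of_center h)

theorem not_star_psp4 (F : Type) [Field F] [Finite F] (hodd : Odd (Nat.card F)) :
    ¬ Star (PSp4 F) := by
  have hft := Fintype.ofFinite F
  rw [Nat.card_eq_fintype_card] at hodd
  intro h
  exact not_star_of_orbitLocal (orbitLocal_sp4 F hodd) (star_of_center h)

/-- The list of the main theorem:
* `PSL(2, F)` with `|F| ≥ 4`;
* `PSU(3, q)` with `q ≥ 3`;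
* `PSp(4, F)` with `|F|` odd;
* `SL(3, 3) = PSL(3, 3)`;
* the groups with a transitive action on a finite set for which a Sylow subgroup has exactly two
  orbits, of sizes `n₁` and `n₂`, `(n₁ + n₂) / gcd (n₁, n₂)` being divisible by two different primes. -/
def Listed (S : Type) [Group S] : Prop :=
  (∃ (F : Type) (_ : Field F), Finite F ∧ 4 ≤ Nat.card F ∧ Nonempty (S ≃* PSL2 F)) ∨
  (∃ (F : Type) (_ : Field F) (q : ℕ), 3 ≤ q ∧ Nat.card F = q ^ 2 ∧ Nonempty (S ≃* PSU3 F q)) ∨
  (∃ (F : Type) (_ : Field F), Finite F ∧ Odd (Nat.card F) ∧ Nonempty (S ≃* PSp4 F)) ∨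
  Nonempty (S ≃* SL33) ∨ TwoOrbit S

theorem psl27_of_listed {S : Type} [Group S] [Finite S] (hS : Listed S) (h : Star S) :
    Nonempty (S ≃* PSL27) := by
  rcases hS with ⟨F, iF, hfin, h4, ⟨e⟩⟩ | ⟨F, iF, q, h3, hF, ⟨e⟩⟩ | ⟨F, iF, hfin, hodd, ⟨e⟩⟩ | ⟨⟨e⟩⟩ | h2
  · by_cases h7 : Nat.card F = 7
    · obtain ⟨e'⟩ := psl27_of_card F h7
      exact ⟨e.trans e'⟩
    · exact absurd (Star.of_equiv e h) (not_star_psl2 F h4 h7)
  · exact absurd (Star.of_equiv e h) (not_star_psu3 F q h3 hF)
  · exact absurd (Star.of_equiv e h) (not_star_psp4 F hodd)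
  · exact absurd (Star.of_equiv e h) not_star_sl33
  · exact absurd h (not_star_of_zonal (zonal_of_twoOrbit h2))

/-- **Main theorem.**  Let `G` be a finite group all of whose nonabelian composition factors are in
the list.  Then `G` has (∗) if and only if every nonabelian composition factor of `G` is
isomorphic to `PSL(2, 7)`. -/
theorem main {G : Type} [Group G] [Finite G]
    (hG : ∀ (S : Type) [Group S], IsCompFactor G S → (∀ x y : S, x * y = y * x) ∨ Listed S) :
    Star G ↔ ∀ (S : Type) [Group S], IsCompFactor G S →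
      (∀ x y : S, x * y = y * x) ∨ Nonempty (S ≃* PSL27) := by
  constructor
  · intro h S _ hS
    rcases hG S hS with h1 | h1
    · exact Or.inl h1
    · right
      have hfin : Finite S := by
        obtain ⟨_, H, _, f, hf⟩ := hS
        exact Finite.of_surjective f hf
      exact psl27_of_listed h1 (star_compFactor h hS)
  · exact star_of_compFactors

/-- **Reduction.**  If all nonabelian composition factors of the normal subgroup `N` of `G` are
isomorphic to `PSL(2, 7)`, then `G` has (∗) if and only if `G ⧸ N` has (∗). -/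
theorem star_iff_quotient {G : Type} [Group G] [Finite G] (N : Subgroup G) [N.Normal]
    (hF : ∀ (S : Type) [Group S], IsCompFactor N S →
      (∀ x y : S, x * y = y * x) ∨ Nonempty (S ≃* PSL27)) : Star G ↔ Star (G ⧸ N) :=
  ⟨star_quotient N, star_ext N hF⟩

end H96S
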