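import Pool.Agent.Lib.H96S.BN8
import Pool.Agent.Lib.H96S.N16

/-!
# Main theorem, with the finite groups with a BN-pair added to the list
-/

namespace H96S

theorem psl27_of_listedBN {S : Type} [Group S] [Finite S] (hS : Listed S ∨ HasBN S) (h : Star S) :
    Nonempty (S ≃* PSL27) := by
  rcases hS with h1 | h1
  · exact psl27_of_listed h1 h
  · exact absurd h (not_star_of_hasBN h1)

/-- **Main theorem.**  Let `G` be a finite group all of whose nonabelian composition factors are in
the list or have a BN-pair whose parameters are powers of one prime, `q_s + 1` being divisible by two
different primes for some `s`.  Then `G` has (∗) if and only if every nonabelian composition factor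
of `G` is isomorphic to `PSL(2, 7)`. -/
theorem mainBN {G : Type} [Group G] [Finite G]
    (hG : ∀ (S : Type) [Group S], IsCompFactor G S →
      (∀ x y : S, x * y = y * x) ∨ Listed S ∨ HasBN S) :
    Star G ↔ ∀ (S : Type) [Group S], IsCompFactor G S →
      (∀ x y : S, x * y = y * x) ∨ Nonempty (S ≃* PSL27) := by
  constructor
  · intro h S _ hS
    rcases hG S hS with h1 | h1
    · exact Or.inl h1
    · right
      have hfin : Finite S := by
        obtain ⟨_, H, _, f, hf⟩ := hS
        exact Finite.of_surjective f hf
      exact psl27_of_listedBN h1 (star_compFactor h hS)
  · exact star_of_compFactors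

end H96S
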