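import Pool.Agent.Lib.H96S.N1B

/-!
# Chunk D1: orbit-local groups do not have (∗)
-/

namespace H96S

/-- `G` is orbit-local: there are pairwise different primes `p, r, s`, `p` dividing `|G|`, a Sylow `p`-subgroup `P`, a
transitive action of `G` on a finite set `Ω` with `s ∣ |Ω|`, such that for every integer combination
`∑_g c(g) M(g)` with `r ∤ ∑_g c(g)` of the matrices `M(g)_{ij} = |Ω_i ∩ g Ω_j|` (`Ω_i` the orbits of `P` on `Ω`)
is nonsingular.  (Example: flags of a classical generalized quadrangle of order `(s₁, s₂)`, both odd, `r = 2`.)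
Here `Ω_i` runs through the orbits `MulAction.orbitRel.Quotient P Ω`. -/
def OrbitLocal (G : Type) [Group G] : Prop :=
  ∃ (p r s : ℕ) (P : Sylow p G) (Ω : Type) (_ : Finite Ω) (_ : MulAction G Ω),
    p.Prime ∧ r.Prime ∧ s.Prime ∧ p ≠ r ∧ p ≠ s ∧ r ≠ s ∧ p ∣ Nat.card G ∧
    Nonempty Ω ∧ MulAction.IsPretransitive G Ω ∧ s ∣ Nat.card Ω ∧
    ∀ c : G → ℤ, ¬ (r : ℤ) ∣ (∑ᶠ g, c g) →
      ∀ z : MulAction.orbitRel.Quotient P Ω → ℚ,
        (∀ j : MulAction.orbitRel.Quotient P Ω,
          (∑ᶠ i : MulAction.orbitRel.Quotient P Ω, z i *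
            ∑ᶠ g : G, (c g : ℚ) * Nat.card {ω : Ω // (Quotient.mk'' ω : MulAction.orbitRel.Quotient P Ω) = i ∧
              (Quotient.mk'' (g⁻¹ • ω) : MulAction.orbitRel.Quotient P Ω) = j}) = 0) → z = 0

open Classical in
/-- The number of the group elements mapping a point to another one of the same orbit. -/
theorem d1_cnt {H X : Type} [Group H] [Fintype H] [Fintype X] [MulAction H X] (x y : X)
    (hxy : ∃ h : H, h • x = y) :
    (Finset.univ.filter (fun h : H => h • x = y)).card *
      (Finset.univ.filter (fun z : X => ∃ h : H, h • x = z)).card = Fintype.card H := by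
  obtain ⟨h0, hh0⟩ := hxy
  have h1 : Fintype.card H = ∑ z ∈ Finset.univ.filter (fun z : X => ∃ h : H, h • x = z),
      (Finset.univ.filter (fun h : H => h • x = z)).card := by
    rw [← Finset.card_univ]
    apply Finset.card_eq_sum_card_fiberwise
    intro h _
    simp only [Finset.coe_filter, Finset.mem_univ, true_and, Set.mem_ofPred_eq]
    exact ⟨h, rfl⟩
  rw [h1, Finset.sum_const_nat (m := (Finset.univ.filter (fun h : H => h • x = y)).card), mul_comm]
  intro z hz
  obtain ⟨h2, hh2⟩ := (Finset.mem_filter.mp hz).2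
  refine Finset.card_equiv (Equiv.mulLeft (h0 * h2⁻¹)) fun h => ?_
  rw [Finset.mem_filter, Finset.mem_filter]
  simp only [Finset.mem_univ, true_and, Equiv.coe_mulLeft, mul_smul]
  constructor
  · intro h3
    rw [h3, ← hh2, inv_smul_smul, hh0]
  · intro h3
    have h4 : h • x = h2 • h0⁻¹ • (h0 • h2⁻¹ • h • x) := by
      rw [inv_smul_smul, smul_inv_smul]
    rw [h4, h3, ← hh0, inv_smul_smul, hh2]

/-- Proof.  `M(g)_{ij} = |Ω_i ∩ g Ω_j|` is the number of `ω ∈ Ω_i` with `g⁻¹ ω ∈ Ω_j`, the number in the definition.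
Assume `Star G`.
(0) `r ∣ |G|`: otherwise take `c = 1`, `∑ c = |G|`; the matrix `∑_g M(g)` has the entries `n_i n_j |G| / n` (`n_i = |Ω_i|`, `n = |Ω|`; every
`ω` is mapped to every `ω'` by `|G| / n` elements) and has rank 1, so it is singular unless `P` has only one
orbit; but then `n = |Ω|` is a power of `p`, which is excluded by `s ∣ n`.  (If there are two different orbits `i₁, i₂`, `z = n_{i₂}` at
`i₁`, `- n_{i₁}` at `i₂`, `0` elsewhere is in the kernel.)
`s ∣ |Ω| ∣ |G|`.
(1) Ordering `l₁ ++ p :: l₂` with `l₁ =` all prime divisors of `|G|` except `p, s` (it contains `r`), `l₂ = [s]`... more precisely: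
`l₁` contains `r`, and `s ∈ l₂`; e.g. `l₁ = [r]`, `l₂` = all others.  `fac`: `G = A P B` exactly, `|A|` is a power of `r`,
`r ∤ |B|`, in particular `s ∤ |A|`.
(2) For `x ∈ Ω` let `a_i = #{a ∈ A : a⁻¹ x ∈ Ω_i}` and for `y ∈ Ω` `b_i(y) = #{b ∈ B : b y ∈ Ω_i}`.  For `x, y ∈ Ω` the number of
`g ∈ G` with `g y = x` is `|G| / n = |A||P||B| / n`; on the other hand it is the number of `(a,u,b)` with
`u (b y) = a⁻¹ x`, i.e. `∑_i a_i b_i(y) |P| / n_i` (for two points of the same orbit `Ω_i` of `P` there are `|P| / n_i` elements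
`u ∈ P` mapping the first to the second).  So `∑_i (a_i / n_i) b_i(y) = |A||B| / n`.
(3) Sum over `y ∈ Ω_j`: `∑_{y ∈ Ω_j} b_i(y) = ∑_{b ∈ B} |Ω_i ∩ b Ω_j| = (∑_b M(b))_{ij}`; so
`∑_i (a_i / n_i) (∑_b M(b))_{ij} = n_j |A||B| / n`; also `∑_i (∑_b M(b))_{ij} = |B| n_j`.  Hence `z_i = a_i / n_i - |A| / n` satisfies
`∑_i z_i (∑_b M(b))_{ij} = 0` for all `j`.  With `c = ` the indicator function of `B` (`∑ c = |B|`, not divisible by `r`) the
hypothesis gives `z = 0`: `a_i n = n_i |A|` for all `i`.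
(4) Choose any `i`: `n ∣ n_i |A|` with `n_i` a power of `p` (orbit of a `p`-group) and `|A|` a power of `r`; but `s ∣ n`:
contradiction. -/
theorem not_star_of_orbitLocal {G : Type} [Group G] [Finite G] (h : OrbitLocal G) : ¬ Star G := by
  classical
  intro hStar
  obtain ⟨p, r, s, P, Ω, iF, iA, hp, hr, hs, hpr, hps, hrs, hpG, hne, htr, hsn, hdet⟩ := h
  have : Fintype G := Fintype.ofFinite G
  have : Fintype Ω := Fintype.ofFinite Ω
  have : Fintype P := Fintype.ofFinite P
  have : Finite (MulAction.orbitRel.Quotient P Ω) := Quotient.finite _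
  have : Fintype (MulAction.orbitRel.Quotient P Ω) := Fintype.ofFinite _
  set π : Ω → MulAction.orbitRel.Quotient P Ω := fun ω => Quotient.mk'' ω with hπ
  have hπiff : ∀ x y : Ω, π x = π y ↔ ∃ u : P, u • x = y := by
    intro x y
    show (Quotient.mk'' x : MulAction.orbitRel.Quotient P Ω) = Quotient.mk'' y ↔ _
    rw [Quotient.eq'', MulAction.orbitRel_apply]
    constructor
    · rintro ⟨u, hu⟩
      exact ⟨u⁻¹, by rw [← hu]; exact inv_smul_smul u y⟩
    · rintro ⟨u, hu⟩
      exact ⟨u⁻¹, by rw [← hu]; exact inv_smul_smul u x⟩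
  -- the ordering
  have hpmem : p ∈ (Nat.card G).primeFactors := Nat.mem_primeFactors.mpr ⟨hp, hpG, Nat.card_pos.ne'⟩
  obtain ⟨l₁, hl₁mem, hl₁nd, hl₁prod⟩ : ∃ l₁ : List ℕ, (∀ q, q ∈ l₁ ↔ q = r ∧ r ∈ (Nat.card G).primeFactors) ∧
      l₁.Nodup ∧ ∃ m : ℕ, (l₁.map (fun s => s ^ (Nat.card G).factorization s)).prod = r ^ m := by
    by_cases hrm : r ∈ (Nat.card G).primeFactors
    · refine ⟨[r], fun q => ?_, List.nodup_singleton r, (Nat.card G).factorization r, by simp⟩
      rw [List.mem_singleton]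
      exact ⟨fun h => ⟨h, hrm⟩, fun h => h.1⟩
    · refine ⟨[], fun q => ?_, List.nodup_nil, 0, by simp⟩
      constructor
      · intro h
        exact absurd h List.not_mem_nil
      · intro h
        exact absurd h.2 hrm
  obtain ⟨l₂, hl₂mem, hl₂nd⟩ : ∃ l₂ : List ℕ, (∀ q, q ∈ l₂ ↔ q ≠ r ∧ q ≠ p ∧ q ∈ (Nat.card G).primeFactors) ∧
      l₂.Nodup := by
    refine ⟨(((Nat.card G).primeFactors.erase p).erase r).toList, fun q => ?_, Finset.nodup_toList _⟩
    rw [Finset.mem_toList, Finset.mem_erase, Finset.mem_erase]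
  have hnd : (l₁ ++ p :: l₂).Nodup := by
    refine List.Nodup.append hl₁nd (List.nodup_cons.mpr ⟨?_, hl₂nd⟩) ?_
    · intro h
      exact ((hl₂mem p).mp h).2.1 rfl
    · intro q hq1 hq2
      have h1 := ((hl₁mem q).mp hq1).1
      rcases List.mem_cons.mp hq2 with h2 | h2
      · exact hpr (h2.symm.trans h1)
      · exact ((hl₂mem q).mp h2).1 h1
  have hl : ∀ q, q ∈ l₁ ++ p :: l₂ ↔ q ∈ (Nat.card G).primeFactors := by
    intro q
    rw [List.mem_append, List.mem_cons, hl₁mem, hl₂mem]
    constructor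
    · rintro (⟨h1, h2⟩ | h1 | h1)
      · rw [h1]
        exact h2
      · rw [h1]
        exact hpmem
      · exact h1.2.2
    · intro h1
      by_cases h2 : q = r
      · left
        exact ⟨h2, h2 ▸ h1⟩
      · by_cases h3 : q = p
        · right; left; exact h3
        · right; right; exact ⟨h2, h3, h1⟩
  obtain ⟨A, B, hA, hB, hfac, -⟩ := fac hStar l₁ l₂ p hnd hl P
  obtain ⟨m, hm⟩ := hl₁prod
  have hAcard : A.card = r ^ m := hA.trans hm
  have hrB : ¬ r ∣ B.card := by
    rw [hB, hr.prime.dvd_prod_iff]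
    rintro ⟨a, ha, hra⟩
    rw [List.mem_map] at ha
    obtain ⟨q, hq, rfl⟩ := ha
    have h1 := (hl₂mem q).mp hq
    have h2 := hr.dvd_of_dvd_pow hra
    have h3 : q.Prime := Nat.prime_of_mem_primeFactors h1.2.2
    exact h1.1 ((Nat.prime_dvd_prime_iff_eq hr h3).mp h2).symm
  -- sums over the group
  have hsum : ∀ f : G → ℚ, ∑ g, f g = ∑ a ∈ A, ∑ u : P, ∑ b ∈ B, f (a * u * b) := by
    intro f
    have h1 : ∑ t ∈ A ×ˢ ((Finset.univ : Finset P) ×ˢ B), f (t.1 * t.2.1 * t.2.2) = ∑ g, f g := by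
      refine Finset.sum_nbij (fun t => t.1 * t.2.1 * t.2.2) ?_ ?_ ?_ ?_
      · intro t _
        exact Finset.mem_univ _
      · intro t ht t' ht' htt
        have ht1 := Finset.mem_product.mp (Finset.mem_coe.mp ht)
        have ht2 := Finset.mem_product.mp (Finset.mem_coe.mp ht')
        obtain ⟨t0, -, hu⟩ := hfac (t.1 * t.2.1 * t.2.2)
        rw [hu t ⟨ht1.1, (Finset.mem_product.mp ht1.2).2, rfl⟩,
          hu t' ⟨ht2.1, (Finset.mem_product.mp ht2.2).2, htt.symm⟩]
      · intro g _
        obtain ⟨t0, ht0, -⟩ := hfac g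
        refine ⟨t0, ?_, ht0.2.2⟩
        rw [Finset.mem_coe, Finset.mem_product, Finset.mem_product]
        exact ⟨ht0.1, Finset.mem_univ _, ht0.2.1⟩
      · intro t _
        rfl
    rw [← h1, Finset.sum_product]
    refine Finset.sum_congr rfl fun a _ => ?_
    rw [Finset.sum_product]
  have hcardG : (Fintype.card G : ℚ) = A.card * (Fintype.card P * B.card) := by
    have h1 := hsum (fun _ => 1)
    simp only [Finset.sum_const, nsmul_eq_mul, mul_one, Finset.card_univ] at h1
    exact h1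
  -- counting
  set N : MulAction.orbitRel.Quotient P Ω → ℕ := fun i => (Finset.univ.filter (fun ω : Ω => π ω = i)).card with hN
  have hNpos : ∀ ω, 0 < N (π ω) := by
    intro ω
    exact Finset.card_pos.mpr ⟨ω, Finset.mem_filter.mpr ⟨Finset.mem_univ _, rfl⟩⟩
  have hPcnt : ∀ ω ω' : Ω, (∃ u : P, u • ω = ω') →
      (Finset.univ.filter (fun u : P => u • ω = ω')).card * N (π ω) = Fintype.card P := by
    intro ω ω' hex
    have h1 : (Finset.univ.filter (fun u : P => u • ω = ω')).card *
        (Finset.univ.filter (fun z : Ω => ∃ h : P, h • ω = z)).card = Fintype.card P := d1_cnt (H := P) ω ω' hex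
    have h2 : Finset.univ.filter (fun z : Ω => ∃ h : P, h • ω = z) = Finset.univ.filter (fun z : Ω => π z = π ω) := by
      ext z
      rw [Finset.mem_filter, Finset.mem_filter, eq_comm (a := π z), hπiff]
    rw [h2] at h1
    exact h1
  have hPsum : ∀ ω ω' : Ω, ∑ u : P, (if u • ω = ω' then (1 : ℚ) else 0) =
      if π ω = π ω' then (Fintype.card P : ℚ) / N (π ω) else 0 := by
    intro ω ω'
    by_cases h1 : π ω = π ω'
    · rw [if_pos h1, Finset.sum_boole]
      have h2 := hPcnt ω ω' ((hπiff _ _).mp h1)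
      have h3 : (N (π ω) : ℚ) ≠ 0 := by
        exact_mod_cast (hNpos ω).ne'
      rw [eq_div_iff h3]
      exact_mod_cast h2
    · rw [if_neg h1]
      exact Finset.sum_eq_zero fun u _ => if_neg fun hu => h1 ((hπiff _ _).mpr ⟨u, hu⟩)
  obtain ⟨x0⟩ := hne
  have hn : 0 < Fintype.card Ω := Fintype.card_pos_iff.mpr ⟨x0⟩
  have hnQ : (Fintype.card Ω : ℚ) ≠ 0 := by exact_mod_cast hn.ne'
  have hPQ : (Fintype.card P : ℚ) ≠ 0 := by
    have : 0 < Fintype.card P := Fintype.card_pos
    exact_mod_cast this.ne'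
  have hGsum : ∀ y : Ω, ∑ g : G, (if g • y = x0 then (1 : ℚ) else 0) = (Fintype.card G : ℚ) / Fintype.card Ω := by
    intro y
    rw [Finset.sum_boole]
    have h1 := d1_cnt (H := G) y x0 (MulAction.exists_smul_eq G y x0)
    have h2 : Finset.univ.filter (fun z : Ω => ∃ h : G, h • y = z) = Finset.univ := by
      rw [Finset.filter_eq_self]
      intro z _
      exact MulAction.exists_smul_eq G y z
    rw [h2, Finset.card_univ] at h1
    rw [eq_div_iff hnQ]
    exact_mod_cast h1
  set aa : MulAction.orbitRel.Quotient P Ω → ℕ := fun i => (A.filter (fun a => π (a⁻¹ • x0) = i)).card with haa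
  have hkey : ∀ y : Ω, ∑ b ∈ B, ((aa (π (b • y)) : ℚ) / N (π (b • y))) = A.card * B.card / Fintype.card Ω := by
    intro y
    have h1 := hGsum y
    rw [hsum] at h1
    have h2 : ∀ a ∈ A, ∑ u : P, ∑ b ∈ B, (if (a * u * b) • y = x0 then (1 : ℚ) else 0) =
        ∑ b ∈ B, (if π (a⁻¹ • x0) = π (b • y) then (Fintype.card P : ℚ) / N (π (b • y)) else 0) := by
      intro a _
      rw [Finset.sum_comm]
      refine Finset.sum_congr rfl fun b _ => ?_
      have h3 : ∀ u : P, ((a * u * b) • y = x0) ↔ (u • (b • y) = a⁻¹ • x0) := by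
        intro u
        rw [mul_smul, mul_smul, ← eq_inv_smul_iff]
        rfl
      simp only [h3]
      rw [hPsum]
      simp only [eq_comm (a := π (b • y))]
    rw [Finset.sum_congr rfl h2, Finset.sum_comm] at h1
    have h4 : ∀ b ∈ B, ∑ a ∈ A, (if π (a⁻¹ • x0) = π (b • y) then (Fintype.card P : ℚ) / N (π (b • y)) else 0) =
        Fintype.card P * ((aa (π (b • y)) : ℚ) / N (π (b • y))) := by
      intro b _
      rw [← Finset.sum_filter, Finset.sum_const, nsmul_eq_mul]
      ring
    rw [Finset.sum_congr rfl h4, ← Finset.mul_sum, hcardG] at h1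
    apply mul_left_cancel₀ hPQ
    rw [h1]
    ring
  set z : MulAction.orbitRel.Quotient P Ω → ℚ := fun i => (aa i : ℚ) / N i - A.card / Fintype.card Ω with hz
  have hzsum : ∀ y : Ω, ∑ b ∈ B, z (π (b • y)) = 0 := by
    intro y
    simp only [hz]
    rw [Finset.sum_sub_distrib, hkey, Finset.sum_const, nsmul_eq_mul]
    ring
  set c : G → ℤ := fun g => if g ∈ B then 1 else 0 with hc
  have hcsum : ¬ (r : ℤ) ∣ (∑ᶠ g, c g) := by
    rw [finsum_eq_sum_of_fintype]
    simp only [hc]
    rw [Finset.sum_boole, Finset.filter_mem_eq_inter, Finset.univ_inter]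
    intro h1
    exact hrB (by exact_mod_cast h1)
  have hz0 : z = 0 := by
    apply hdet c hcsum z
    intro j
    have hcard : ∀ (g : G) (i : MulAction.orbitRel.Quotient P Ω),
        (Nat.card {ω : Ω // (Quotient.mk'' ω : MulAction.orbitRel.Quotient P Ω) = i ∧
          (Quotient.mk'' (g⁻¹ • ω) : MulAction.orbitRel.Quotient P Ω) = j} : ℚ) =
        ∑ y : Ω, (if π (g • y) = i ∧ π y = j then (1 : ℚ) else 0) := by
      intro g i
      rw [Nat.card_eq_fintype_card, Fintype.card_subtype, ← Finset.sum_boole]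
      rw [← Equiv.sum_comp (MulAction.toPerm g)]
      refine Finset.sum_congr rfl fun y _ => ?_
      rw [MulAction.toPerm_apply, inv_smul_smul]
    rw [finsum_eq_sum_of_fintype]
    have h1 : ∀ i, z i * ∑ᶠ g : G, (c g : ℚ) * (Nat.card {ω : Ω // (Quotient.mk'' ω : MulAction.orbitRel.Quotient P Ω) = i ∧
          (Quotient.mk'' (g⁻¹ • ω) : MulAction.orbitRel.Quotient P Ω) = j} : ℚ) =
        ∑ g : G, ∑ y : Ω, (c g : ℚ) * (if π (g • y) = i ∧ π y = j then z i else 0) := by
      intro i
      rw [finsum_eq_sum_of_fintype, Finset.mul_sum]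
      refine Finset.sum_congr rfl fun g _ => ?_
      rw [hcard, Finset.mul_sum, Finset.mul_sum]
      refine Finset.sum_congr rfl fun y _ => ?_
      split_ifs <;> ring
    rw [Finset.sum_congr rfl fun i _ => h1 i, Finset.sum_comm]
    have h2 : ∀ g : G, ∑ i, ∑ y : Ω, (c g : ℚ) * (if π (g • y) = i ∧ π y = j then z i else 0) =
        ∑ y : Ω, (c g : ℚ) * (if π y = j then z (π (g • y)) else 0) := by
      intro g
      rw [Finset.sum_comm]
      refine Finset.sum_congr rfl fun y _ => ?_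
      rw [← Finset.mul_sum]
      congr 1
      by_cases hy : π y = j
      · simp only [hy, and_true, if_true]
        rw [Finset.sum_ite_eq]
        simp
      · simp only [hy, and_false, if_false, Finset.sum_const_zero]
    rw [Finset.sum_congr rfl fun g _ => h2 g, Finset.sum_comm]
    refine Finset.sum_eq_zero fun y _ => ?_
    by_cases hy : π y = j
    · simp only [hy, if_true, hc]
      rw [← hzsum y]
      rw [← Finset.sum_subset (Finset.subset_univ B)]
      · refine Finset.sum_congr rfl fun b hb => ?_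
        rw [if_pos hb]
        push_cast
        ring
      · intro b _ hb
        rw [if_neg hb]
        push_cast
        ring
    · simp only [hy, if_false, mul_zero, Finset.sum_const_zero]
  -- the contradiction
  have h1 : (aa (π x0) : ℚ) / N (π x0) - A.card / Fintype.card Ω = 0 := congrFun hz0 (π x0)
  have h2 : (N (π x0) : ℚ) ≠ 0 := by
    exact_mod_cast (hNpos x0).ne'
  have h3 : (aa (π x0) : ℚ) * Fintype.card Ω = A.card * N (π x0) := by
    have h4 := sub_eq_zero.mp h1
    rw [div_eq_div_iff h2 hnQ] at h4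
    exact h4
  have h4 : aa (π x0) * Fintype.card Ω = A.card * N (π x0) := by exact_mod_cast h3
  have h5 : s ∣ A.card * N (π x0) := by
    rw [← h4]
    rw [Nat.card_eq_fintype_card] at hsn
    exact hsn.mul_left _
  have h6 := hPcnt x0 x0 ⟨1, one_smul _ _⟩
  have h7 : N (π x0) ∣ Fintype.card P := Dvd.intro_left _ h6
  have := Fact.mk hp
  obtain ⟨k, hk⟩ := IsPGroup.iff_card.mp P.isPGroup'
  rw [Nat.card_eq_fintype_card] at hk
  rcases (hs.dvd_mul).mp h5 with h8 | h8
  · rw [hAcard] at h8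
    exact hrs ((Nat.prime_dvd_prime_iff_eq hs hr).mp (hs.dvd_of_dvd_pow h8)).symm
  · have h9 : s ∣ p ^ k := by
      rw [← hk]
      exact h8.trans h7
    exact hps ((Nat.prime_dvd_prime_iff_eq hs hp).mp (hs.dvd_of_dvd_pow h9)).symm

end H96S
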