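import Mathlib

/-!
# H96S: groups equal to a Sylow product in every prime ordering (MP_eacb4d_al)

Definitions shared by all files of this folder.
-/

namespace H96S

open scoped Pointwise

/-- `Star G`: property (∗).  For every ordering `l = [p₁, …, p_m]` of the prime divisors of `|G|` there
are Sylow subgroups `P_i ∈ Syl_{p_i}(G)` with `G = P₁ P₂ ⋯ P_m` (product of sets). -/
def Star (G : Type) [Group G] : Prop :=
  ∀ l : List ℕ, l.Nodup → (∀ p, p ∈ l ↔ p ∈ (Nat.card G).primeFactors) →
    ∃ P : (p : ℕ) → Sylow p G,
      (l.map (fun p => ((P p : Subgroup G) : Set G))).prod = Set.univ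

/-- `IsCompFactor G S`: the simple group `S` is (isomorphic to) a composition factor of `G`:
a simple quotient of a subnormal subgroup of `G`. -/
def IsCompFactor (G : Type) [Group G] (S : Type) [Group S] : Prop :=
  IsSimpleGroup S ∧ ∃ H : Subgroup G, H.IsSubnormal ∧ ∃ f : H →* S, Function.Surjective f

/-- the group `PSL(2, F)` -/
abbrev PSL2 (F : Type) [Field F] : Type := Matrix.ProjectiveSpecialLinearGroup (Fin 2) F

/-- the simple group `PSL(2, 7)` of order 168 -/
abbrev PSL27 : Type := Matrix.ProjectiveSpecialLinearGroup (Fin 2) (ZMod 7)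

end H96S
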