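import Pool.Agent.Lib.H96S.N2C
import Pool.Agent.Lib.H96S.D1

/-!
# The groups `SU(3, q)` and `Sp(4, q)`
-/

namespace H96S

open Matrix

/-- the Hermitian form `x₀ y₂^q + x₁ y₁^q + x₂ y₀^q` on `F³`, `|F| = q²` -/
def herm {F : Type} [Field F] (q : ℕ) (x y : Fin 3 → F) : F :=
  x 0 * y 2 ^ q + x 1 * y 1 ^ q + x 2 * y 0 ^ q

/-- `SU(3, q)`: the matrices of determinant 1 over the field `F` with `q²` elements which preserve the
Hermitian form `herm q` -/
def SU3 (F : Type) [Field F] (q : ℕ) : Subgroup (SpecialLinearGroup (Fin 3) F) where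
  carrier := {A | ∀ x y : Fin 3 → F, herm q (A.1.mulVec x) (A.1.mulVec y) = herm q x y}
  mul_mem' := by
    intro A B hA hB x y
    have h1 : ((A * B : SpecialLinearGroup (Fin 3) F).1.mulVec x) = A.1.mulVec (B.1.mulVec x) :=
      (Matrix.mulVec_mulVec x A.1 B.1).symm
    have h2 : ((A * B : SpecialLinearGroup (Fin 3) F).1.mulVec y) = A.1.mulVec (B.1.mulVec y) :=
      (Matrix.mulVec_mulVec y A.1 B.1).symm
    rw [h1, h2, hA, hB]
  one_mem' := by
    intro x y
    simp
  inv_mem' := by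
    intro A hA x y
    have h : ∀ z : Fin 3 → F, A.1.mulVec ((A⁻¹ : SpecialLinearGroup (Fin 3) F).1.mulVec z) = z := by
      intro z
      have h1 := Matrix.mulVec_mulVec z A.1 (A⁻¹ : SpecialLinearGroup (Fin 3) F).1
      have h2 : A.1 * (A⁻¹ : SpecialLinearGroup (Fin 3) F).1 = 1 := by
        exact congrArg Subtype.val (mul_inv_cancel A)
      rw [h1, h2, Matrix.one_mulVec]
    rw [← hA, h, h]

/-- the alternating form `x₀ y₃ - x₃ y₀ + x₁ y₂ - x₂ y₁` on `F⁴` -/
def altf {F : Type} [Field F] (x y : Fin 4 → F) : F :=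
  x 0 * y 3 - x 3 * y 0 + x 1 * y 2 - x 2 * y 1

/-- `Sp(4, F)`: the matrices of determinant 1 which preserve the alternating form `altf` -/
def Sp4 (F : Type) [Field F] : Subgroup (SpecialLinearGroup (Fin 4) F) where
  carrier := {A | ∀ x y : Fin 4 → F, altf (A.1.mulVec x) (A.1.mulVec y) = altf x y}
  mul_mem' := by
    intro A B hA hB x y
    have h1 : ((A * B : SpecialLinearGroup (Fin 4) F).1.mulVec x) = A.1.mulVec (B.1.mulVec x) :=
      (Matrix.mulVec_mulVec x A.1 B.1).symm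
    have h2 : ((A * B : SpecialLinearGroup (Fin 4) F).1.mulVec y) = A.1.mulVec (B.1.mulVec y) :=
      (Matrix.mulVec_mulVec y A.1 B.1).symm
    rw [h1, h2, hA, hB]
  one_mem' := by
    intro x y
    simp
  inv_mem' := by
    intro A hA x y
    have h : ∀ z : Fin 4 → F, A.1.mulVec ((A⁻¹ : SpecialLinearGroup (Fin 4) F).1.mulVec z) = z := by
      intro z
      have h1 := Matrix.mulVec_mulVec z A.1 (A⁻¹ : SpecialLinearGroup (Fin 4) F).1
      have h2 : A.1 * (A⁻¹ : SpecialLinearGroup (Fin 4) F).1 = 1 := by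
        exact congrArg Subtype.val (mul_inv_cancel A)
      rw [h1, h2, Matrix.one_mulVec]
    rw [← hA, h, h]

end H96S
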