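import Pool.Agent.Lib.H96S.N1A

/-!
# Chunk L1: groups whose order has exactly three prime divisors
-/

namespace H96S

open scoped Pointwise

/-- Proof.  `Star G` for the ordering `[p, q, r]` gives Sylow subgroups `P p, P q, P r` with `P_p P_q P_r = G`; conjugate all of
them by one element so that the middle one is `K` (`MulAction.exists_smul_eq G (P q) K`); the product of the
conjugates is still everything.  If `a k = k' b` with `a ∈ A`, `k, k' ∈ K`, `b ∈ B`, then `a k 1 = 1 k' b` are two
factorisations of the same element, so `a = 1` by `prod_unique` (with `prod_card_sylow`). -/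
theorem three_primes {G : Type} [Group G] [Finite G] (hG : Star G) (p q r : ℕ)
    (hnd : [p, q, r].Nodup) (hl : ∀ x, x ∈ [p, q, r] ↔ x ∈ (Nat.card G).primeFactors)
    (K : Sylow q G) :
    ∃ (A : Sylow p G) (B : Sylow r G), ∀ a ∈ A, ∀ k ∈ K, ∀ k' ∈ K, ∀ b ∈ B,
      a * k = k' * b → a = 1 := by
  obtain ⟨P, hP⟩ := hG [p, q, r] hnd hl
  have hq : q.Prime := Nat.prime_of_mem_primeFactors ((hl q).1 (by simp))
  have : Fact q.Prime := ⟨hq⟩
  obtain ⟨g, hg⟩ := MulAction.exists_smul_eq G (P q) K
  have hmem : ∀ (s : ℕ) (a : G), a ∈ (g • P s : Sylow s G) → g⁻¹ * a * g ∈ P s := by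
    intro s a ha
    have h1 : a ∈ (MulAut.conj g • (P s : Subgroup G) : Subgroup G) := ha
    rw [Subgroup.mem_pointwise_smul_iff_inv_smul_mem] at h1
    have h2 : (MulAut.conj g)⁻¹ • a = g⁻¹ * a * g := by
      rw [← map_inv, MulAut.smul_def, MulAut.conj_apply, inv_inv]
    rw [h2] at h1
    exact h1
  refine ⟨g • P p, g • P r, ?_⟩
  intro a ha k hk k' hk' b hb e
  have ha' := hmem p a ha
  have hb' := hmem r b hb
  have hk1 := hmem q k (by rw [hg]; exact hk)
  have hk2 := hmem q k' (by rw [hg]; exact hk')
  simp only [List.nodup_cons, List.mem_cons, List.not_mem_nil, or_false, not_or, not_false_iff, List.nodup_nil, and_true] at hnd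
  obtain ⟨⟨hpq, hpr⟩, hqr⟩ := hnd
  have hu := prod_unique [p, q, r] (by simp [hpq, hpr, hqr]) (fun i => (P i : Subgroup G)) hP
    (prod_card_sylow [p, q, r] (by simp [hpq, hpr, hqr]) hl P)
    (fun i => if i = p then g⁻¹ * a * g else if i = q then g⁻¹ * k * g else 1)
    (fun i => if i = p then 1 else if i = q then g⁻¹ * k' * g else g⁻¹ * b * g) ?_ ?_ ?_ p (by simp)
  · simp only [if_true] at hu
    have h3 : a = g * (g⁻¹ * a * g) * g⁻¹ := by group
    rw [h3, hu]
    group
  · intro i hi
    simp only [List.mem_cons, List.not_mem_nil, or_false] at hi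
    rcases hi with rfl | rfl | rfl
    · simp only [if_true]
      exact ha'
    · simp only [if_neg (Ne.symm hpq), if_true]
      exact hk1
    · simp only [if_neg (Ne.symm hpr), if_neg (Ne.symm hqr)]
      exact one_mem _
  · intro i hi
    simp only [List.mem_cons, List.not_mem_nil, or_false] at hi
    rcases hi with rfl | rfl | rfl
    · simp only [if_true]
      exact one_mem _
    · simp only [if_neg (Ne.symm hpq), if_true]
      exact hk2
    · simp only [if_neg (Ne.symm hpr), if_neg (Ne.symm hqr)]
      exact hb'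
  · simp only [List.map_cons, List.map_nil, List.prod_cons, List.prod_nil, if_true, if_neg (Ne.symm hpq), if_neg (Ne.symm hpr),
      if_neg (Ne.symm hqr), mul_one, one_mul]
    calc g⁻¹ * a * g * (g⁻¹ * k * g) = g⁻¹ * (a * k) * g := by group
      _ = g⁻¹ * (k' * b) * g := by rw [e]
      _ = g⁻¹ * k' * g * (g⁻¹ * b * g) := by group

end H96S
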