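import Mathlib

/-!
# SL(3,3): the certificate table (chunk L2, proved)
3x3 matrices over `ZMod 3` written as 9 natural numbers `< 3`, so that the kernel can compute.
-/

namespace H96S

/-- 9-tuples -/
abbrev L2M : Type := ℕ × ℕ × ℕ × ℕ × ℕ × ℕ × ℕ × ℕ × ℕ

/-- product of 3x3 matrices over ZMod 3 written as 9 natural numbers < 3 -/
def l2_mul (a b : L2M) : L2M :=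
  match a, b with
  | (a0, a1, a2, a3, a4, a5, a6, a7, a8), (b0, b1, b2, b3, b4, b5, b6, b7, b8) =>
    ((a0*b0+a1*b3+a2*b6)%3, (a0*b1+a1*b4+a2*b7)%3, (a0*b2+a1*b5+a2*b8)%3,
     (a3*b0+a4*b3+a5*b6)%3, (a3*b1+a4*b4+a5*b7)%3, (a3*b2+a4*b5+a5*b8)%3,
     (a6*b0+a7*b3+a8*b6)%3, (a6*b1+a7*b4+a8*b7)%3, (a6*b2+a7*b5+a8*b8)%3)

/-- powers -/
def l2_pow (a : L2M) : ℕ → L2M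
  | 0 => (1,0,0,0,1,0,0,0,1)
  | n+1 => l2_mul (l2_pow a n) a

/-- Singer cycle -/
def l2_sig : L2M := (0,0,1,1,0,1,0,1,0)
/-- element of order 8 -/
def l2_m8 : L2M := (2,0,0,0,0,1,0,1,1)
/-- involution, together with `l2_m8` it generates a Sylow 2-subgroup -/
def l2_r : L2M := (2,0,0,0,1,0,0,1,2)
/-- unipotent element -/
def l2_u : L2M := (1,0,0,0,1,1,0,0,1)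
/-- representatives of the points of the projective line over F_3 -/
def l2_w : ℕ → L2M
  | 0 => (1,0,0,0,1,0,0,0,1)
  | k+1 => l2_mul (l2_pow l2_u k) (1,0,0,0,0,1,0,2,0)

/-- the table: `(v0, v1, m, k, x, e, b1, b2, b3, i, j)` -/
def l2_table : List (ℕ × ℕ × ℕ × ℕ × ℕ × ℕ × ℕ × ℕ × ℕ × ℕ × ℕ) := [
  (0, 0, 0, 0, 3, 1, 0, 2, 2, 5, 7), (0, 0, 0, 1, 2, 1, 1, 2, 1, 12, 7), (0, 0, 0, 2, 0, 1, 1, 2, 1, 1, 9), (0, 0, 0, 3, 1, 1, 1, 1, 2, 1, 3),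
  (0, 0, 1, 0, 1, 1, 0, 2, 2, 5, 7), (0, 0, 1, 1, 1, 1, 0, 0, 1, 6, 6), (0, 0, 1, 2, 0, 1, 1, 2, 1, 6, 4), (0, 0, 1, 3, 1, 1, 0, 2, 0, 8, 4),
  (0, 0, 2, 0, 1, 0, 0, 0, 2, 5, 5), (0, 0, 2, 1, 0, 1, 1, 0, 1, 3, 1), (0, 0, 2, 2, 1, 0, 0, 2, 1, 1, 9), (0, 0, 2, 3, 1, 0, 0, 2, 2, 8, 2),
  (0, 1, 0, 0, 3, 1, 0, 2, 1, 8, 12), (0, 1, 0, 1, 0, 1, 1, 0, 1, 5, 12), (0, 1, 0, 2, 3, 1, 0, 1, 0, 4, 3), (0, 1, 0, 3, 1, 0, 1, 1, 2, 2, 10),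
  (0, 1, 1, 0, 1, 0, 0, 1, 0, 3, 11), (0, 1, 1, 1, 0, 1, 1, 2, 1, 3, 3), (0, 1, 1, 2, 1, 0, 0, 0, 2, 12, 2), (0, 1, 1, 3, 1, 0, 0, 0, 2, 6, 8),
  (0, 1, 2, 0, 2, 0, 0, 1, 2, 1, 5), (0, 1, 2, 1, 1, 0, 1, 2, 1, 7, 1), (0, 1, 2, 2, 2, 0, 0, 2, 0, 10, 9), (0, 1, 2, 3, 0, 1, 1, 2, 1, 2, 10),
  (0, 2, 0, 0, 2, 0, 2, 0, 1, 1, 6), (0, 2, 0, 1, 1, 1, 1, 2, 1, 4, 5), (0, 2, 0, 2, 1, 0, 1, 1, 2, 12, 12), (0, 2, 0, 3, 0, 1, 1, 1, 1, 9, 9),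
  (0, 2, 1, 0, 1, 0, 0, 1, 1, 5, 10), (0, 2, 1, 1, 1, 0, 0, 0, 2, 6, 9), (0, 2, 1, 2, 1, 0, 0, 1, 1, 1, 1), (0, 2, 1, 3, 0, 1, 1, 2, 1, 9, 3),
  (0, 2, 2, 0, 1, 0, 1, 0, 2, 6, 10), (0, 2, 2, 1, 3, 1, 1, 2, 1, 4, 5), (0, 2, 2, 2, 0, 1, 1, 1, 1, 1, 1), (0, 2, 2, 3, 2, 1, 1, 1, 1, 10, 8),
  (1, 0, 0, 0, 1, 0, 0, 1, 0, 9, 7), (1, 0, 0, 1, 1, 0, 0, 2, 2, 10, 6), (1, 0, 0, 2, 1, 0, 0, 0, 2, 5, 11), (1, 0, 0, 3, 0, 1, 1, 1, 1, 9, 9),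
  (1, 0, 1, 0, 2, 0, 0, 0, 2, 3, 2), (1, 0, 1, 1, 2, 0, 0, 2, 0, 4, 1), (1, 0, 1, 2, 0, 1, 1, 2, 1, 6, 4), (1, 0, 1, 3, 1, 0, 1, 1, 1, 8, 3),
  (1, 0, 2, 0, 3, 1, 0, 0, 1, 11, 10), (1, 0, 2, 1, 3, 1, 0, 1, 0, 12, 9), (1, 0, 2, 2, 1, 0, 1, 1, 2, 6, 4), (1, 0, 2, 3, 0, 1, 1, 2, 1, 2, 10),
  (1, 1, 0, 0, 1, 0, 0, 2, 1, 2, 4), (1, 1, 0, 1, 1, 0, 0, 2, 1, 3, 3), (1, 1, 0, 2, 0, 1, 1, 2, 1, 1, 9), (1, 1, 0, 3, 1, 0, 0, 1, 2, 5, 1),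
  (1, 1, 1, 0, 1, 0, 1, 0, 2, 5, 4), (1, 1, 1, 1, 0, 1, 1, 2, 1, 3, 3), (1, 1, 1, 2, 2, 1, 1, 1, 1, 4, 11), (1, 1, 1, 3, 3, 1, 1, 1, 1, 12, 2),
  (1, 1, 2, 0, 2, 0, 2, 0, 1, 3, 5), (1, 1, 2, 1, 1, 0, 1, 0, 2, 10, 10), (1, 1, 2, 2, 0, 1, 1, 1, 1, 1, 1), (1, 1, 2, 3, 1, 1, 1, 1, 1, 12, 2),
  (1, 2, 0, 0, 1, 1, 0, 1, 2, 2, 8), (1, 2, 0, 1, 0, 1, 1, 0, 1, 5, 12), (1, 2, 0, 2, 1, 1, 0, 2, 0, 11, 12), (1, 2, 0, 3, 1, 1, 0, 2, 1, 5, 5),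
  (1, 2, 1, 0, 1, 0, 0, 2, 2, 2, 2), (1, 2, 1, 1, 1, 0, 0, 0, 1, 3, 1), (1, 2, 1, 2, 1, 0, 0, 2, 2, 11, 6), (1, 2, 1, 3, 0, 1, 1, 2, 1, 9, 3),
  (1, 2, 2, 0, 3, 1, 0, 1, 2, 2, 8), (1, 2, 2, 1, 0, 1, 1, 0, 1, 3, 1), (1, 2, 2, 2, 1, 1, 1, 1, 2, 3, 9), (1, 2, 2, 3, 2, 1, 1, 1, 1, 10, 8),
  (2, 0, 0, 0, 2, 0, 0, 2, 2, 9, 6), (2, 0, 0, 1, 0, 1, 1, 0, 1, 5, 12), (2, 0, 0, 2, 1, 0, 1, 1, 1, 11, 9), (2, 0, 0, 3, 2, 0, 0, 2, 0, 12, 3),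
  (2, 0, 1, 0, 3, 1, 0, 1, 1, 7, 4), (2, 0, 1, 1, 1, 0, 1, 0, 2, 5, 12), (2, 0, 1, 2, 0, 1, 1, 2, 1, 6, 4), (2, 0, 1, 3, 3, 1, 0, 1, 0, 10, 1),
  (2, 0, 2, 0, 1, 0, 0, 1, 0, 1, 8), (2, 0, 2, 1, 1, 0, 0, 2, 2, 2, 7), (2, 0, 2, 2, 0, 1, 1, 1, 1, 1, 1), (2, 0, 2, 3, 1, 0, 0, 0, 2, 4, 5),
  (2, 1, 0, 0, 1, 0, 1, 0, 2, 2, 12), (2, 1, 0, 1, 2, 1, 1, 2, 1, 12, 7), (2, 1, 0, 2, 3, 1, 1, 1, 1, 10, 6), (2, 1, 0, 3, 0, 1, 1, 1, 1, 9, 9),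
  (2, 1, 1, 0, 2, 0, 2, 0, 1, 9, 2), (2, 1, 1, 1, 0, 1, 1, 2, 1, 3, 3), (2, 1, 1, 2, 1, 1, 1, 1, 1, 10, 6), (2, 1, 1, 3, 1, 0, 1, 1, 2, 4, 4),
  (2, 1, 2, 0, 1, 0, 0, 0, 1, 6, 12), (2, 1, 2, 1, 0, 1, 1, 0, 1, 3, 1), (2, 1, 2, 2, 1, 0, 0, 1, 2, 2, 3), (2, 1, 2, 3, 1, 0, 0, 1, 1, 9, 9),
  (2, 2, 0, 0, 1, 0, 0, 1, 2, 6, 6), (2, 2, 0, 1, 1, 0, 0, 1, 2, 7, 5), (2, 2, 0, 2, 0, 1, 1, 2, 1, 1, 9), (2, 2, 0, 3, 1, 0, 0, 2, 1, 9, 3),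
  (2, 2, 1, 0, 3, 1, 0, 0, 2, 6, 11), (2, 2, 1, 1, 1, 1, 1, 0, 2, 9, 1), (2, 2, 1, 2, 2, 1, 1, 1, 1, 4, 11), (2, 2, 1, 3, 0, 1, 1, 2, 1, 9, 3),
  (2, 2, 2, 0, 1, 1, 0, 0, 2, 6, 11), (2, 2, 2, 1, 1, 1, 0, 2, 0, 7, 10), (2, 2, 2, 2, 1, 1, 0, 2, 1, 2, 2), (2, 2, 2, 3, 0, 1, 1, 2, 1, 2, 10)]

/-- `g a g^{-1} = sig^i (h b h^{-1}) sig^j`, `a ≠ 1`, where `g = n_v u^m`, `h = w_k`,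
`a = m8^x r^e`, `b = (1,b1,b2; 0,1,b3; 0,0,1)`; inverses are written as powers (`g^9 = 1`, `h^12 = 1`). -/
def l2_check (c : ℕ × ℕ × ℕ × ℕ × ℕ × ℕ × ℕ × ℕ × ℕ × ℕ × ℕ) : Bool :=
  match c with
  | (v0, v1, m, k, x, e, b1, b2, b3, i, j) =>
    let g := l2_mul (1,v0,v1,0,1,0,0,0,1) (l2_pow l2_u m)
    let a := l2_mul (l2_pow l2_m8 x) (l2_pow l2_r e)
    let b : L2M := (1,b1,b2,0,1,b3,0,0,1)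
    let h := l2_w k
    (l2_mul (l2_mul g a) (l2_pow g 8) ==
        l2_mul (l2_mul (l2_pow l2_sig i) (l2_mul (l2_mul h b) (l2_pow h 11))) (l2_pow l2_sig j))
      && (l2_pow g 9 == (1,0,0,0,1,0,0,0,1)) && (l2_pow h 12 == (1,0,0,0,1,0,0,0,1))
      && (a != (1,0,0,0,1,0,0,0,1))

theorem l2_all : l2_table.all l2_check = true := by decide +kernel

/-- the table has a row for every `(v0, v1, m, k)` -/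
theorem l2_rows : ∀ v0 ∈ List.range 3, ∀ v1 ∈ List.range 3, ∀ m ∈ List.range 3, ∀ k ∈ List.range 4,
    l2_table.any (fun c => c.1 == v0 && c.2.1 == v1 && c.2.2.1 == m && c.2.2.2.1 == k) = true := by
  decide +kernel

end H96S
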