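import Pool.Agent.Lib.H96S.L3Defs
import Pool.Agent.Lib.H96S.L3B

/-!
# Chunk L3A: representatives of cosets in `SL(3, 3)`
-/

namespace H96S

open Matrix

/-- the 9-tuple of a matrix -/
def l3a_T (g : SL33) : L2M :=
  ((g.1 0 0).val, (g.1 0 1).val, (g.1 0 2).val, (g.1 1 0).val, (g.1 1 1).val, (g.1 1 2).val,
    (g.1 2 0).val, (g.1 2 1).val, (g.1 2 2).val)

theorem l3a_mat (g : SL33) : l3b_mat (l3a_T g) = g.1 := by
  ext i j
  fin_cases i <;> fin_cases j <;> simp [l3b_mat, l3a_T]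

theorem l3a_col : (List.range 3).all (fun y0 => (List.range 3).all fun y1 => (List.range 3).all fun y2 =>
    (y0 == 0 && y1 == 0 && y2 == 0) || (List.range 13).any fun i =>
      match l2_pow l2_sig i with
      | (_, _, _, s3, s4, s5, s6, s7, s8) =>
        (s3 * y0 + s4 * y1 + s5 * y2) % 3 == 0 && (s6 * y0 + s7 * y1 + s8 * y2) % 3 == 0) = true := by
  decide +kernel

theorem l3a_sig13 : sSig ^ 13 = 1 := by
  apply Subtype.ext
  show (sSig ^ 13).1 = (1 : Matrix (Fin 3) (Fin 3) (ZMod 3))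
  have h : (l2_pow l2_sig 13 == (1, 0, 0, 0, 1, 0, 0, 0, 1)) = true := by decide +kernel
  have h1 := congrArg l3b_mat (beq_iff_eq.1 h)
  rw [l3b_pow, l3b_sig, l3b_one] at h1
  exact h1

/-- every element has a multiple with first column `± e₁` -/
theorem l3a_red (g : SL33) : ∃ i : ℕ, (sSig ^ i * g).1 1 0 = 0 ∧ (sSig ^ i * g).1 2 0 = 0 := by
  have h := l3a_col
  simp only [List.all_eq_true, List.mem_range, Bool.or_eq_true, Bool.and_eq_true, beq_iff_eq, List.any_eq_true] at h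
  have h1 := h (g.1 0 0).val (ZMod.val_lt _) (g.1 1 0).val (ZMod.val_lt _) (g.1 2 0).val (ZMod.val_lt _)
  rcases h1 with ⟨⟨e0, e1⟩, e2⟩ | ⟨i, _, hi⟩
  · exfalso
    have hdet : g.1.det = 1 := g.2
    rw [ZMod.val_eq_zero] at e0 e1 e2
    rw [Matrix.det_fin_three, e0, e1, e2] at hdet
    simp at hdet
  · refine ⟨i, ?_⟩
    have hm : l3b_mat (l2_mul (l2_pow l2_sig i) (l3a_T g)) = (sSig ^ i * g).1 := by
      rw [l3b_mul, l3b_pow, l3b_sig, l3a_mat]
      rfl
    rw [← hm]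
    generalize l2_pow l2_sig i = S at hi
    obtain ⟨s0, s1, s2, s3, s4, s5, s6, s7, s8⟩ := S
    simp only at hi
    constructor
    · show (((s3 * (g.1 0 0).val + s4 * (g.1 1 0).val + s5 * (g.1 2 0).val) % 3 : ℕ) : ZMod 3) = 0
      rw [hi.1]
      rfl
    · show (((s6 * (g.1 0 0).val + s7 * (g.1 1 0).val + s8 * (g.1 2 0).val) % 3 : ℕ) : ZMod 3) = 0
      rw [hi.2]
      rfl

theorem l3a_det {g : SL33} (h1 : g.1 1 0 = 0) (h2 : g.1 2 0 = 0) :
    ((g.1 0 0).val * ((g.1 1 1).val * (g.1 2 2).val + 2 * ((g.1 1 2).val * (g.1 2 1).val))) % 3 = 1 := by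
  have hdet : g.1.det = 1 := g.2
  rw [Matrix.det_fin_three, h1, h2] at hdet
  have h3 : (((g.1 0 0).val * ((g.1 1 1).val * (g.1 2 2).val + 2 * ((g.1 1 2).val * (g.1 2 1).val)) : ℕ) : ZMod 3) = ((1 : ℕ) : ZMod 3) := by
    push_cast
    rw [ZMod.natCast_zmod_val, ZMod.natCast_zmod_val, ZMod.natCast_zmod_val, ZMod.natCast_zmod_val, ZMod.natCast_zmod_val]
    have h4 : (2 : ZMod 3) = -1 := by decide
    rw [h4]
    refine Eq.trans ?_ hdet
    ring
  rw [ZMod.natCast_eq_natCast_iff'] at h3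
  exact h3

theorem l3a_tr : (List.range 3).all (fun a0 => (List.range 3).all fun a1 => (List.range 3).all fun a2 =>
    (List.range 3).all fun a4 => (List.range 3).all fun a5 => (List.range 3).all fun a7 => (List.range 3).all fun a8 =>
    !((a0 * (a4 * a8 + 2 * (a5 * a7))) % 3 == 1) || (List.range 3).any fun v0 => (List.range 3).any fun v1 =>
      (a1 + v0 * a4 + v1 * a7) % 3 == 0 && (a2 + v0 * a5 + v1 * a8) % 3 == 0) = true := by
  decide +kernel

theorem l3a_blk : (List.range 3).all (fun a0 => 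
    (List.range 3).all fun a4 => (List.range 3).all fun a5 => (List.range 3).all fun a7 => (List.range 3).all fun a8 =>
    !((a0 * (a4 * a8 + 2 * (a5 * a7))) % 3 == 1) || (List.range 3).any fun m => (List.range 8).any fun x => (List.range 2).any fun e =>
      l2_mul (l2_pow l2_u m) (l2_mul (l2_pow l2_m8 x) (l2_pow l2_r e)) == (a0, 0, 0, 0, a4, a5, 0, a7, a8)) = true := by
  decide +kernel

theorem l3a_bor : (List.range 3).all (fun a4 => (List.range 3).all fun a5 => (List.range 3).all fun a7 => (List.range 3).all fun a8 =>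
    ((a4 * a8 + 2 * (a5 * a7)) % 3 == 0) || (List.range 4).any fun k =>
      match l2_pow (l2_w k) 11 with
      | (_, _, _, s3, _, _, s6, s7, s8) => s3 == 0 && s6 == 0 && (s7 * a4 + s8 * a7) % 3 == 0) = true := by
  decide +kernel

theorem l3a_w12 : (List.range 4).all (fun k => l2_pow (l2_w k) 12 == (1, 0, 0, 0, 1, 0, 0, 0, 1)) = true := by
  decide +kernel

theorem l3a_back (g : SL33) (i : ℕ) : g = sSig ^ (12 * i) * (sSig ^ i * g) := by
  rw [← mul_assoc, ← pow_add]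
  have e : 12 * i + i = 13 * i := by ring
  rw [e, pow_mul, l3a_sig13, one_pow, one_mul]

theorem l3a_nn (v0 v1 : ZMod 3) : sN (-v0) (-v1) * sN v0 v1 = 1 := by
  revert v0 v1
  decide

/-- Every `g` is `σ^i n_v u^m (m8^x r^e)`.
Proof.  The Singer cycle `σ` permutes the 13 points of `P²(F_3)` transitively: for every nonzero vector `y` there are `i < 13` and
`ε = ± 1` with `σ^i e₁ = ε y` (decide over 26 vectors).  So `g' = σ^{-i} g` has first column `± e₁`, i.e. `g' 1 0 = g' 2 0 = 0`.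
The lower right 2x2 block `M` of `g'` has `det M = g' 0 0 = ± 1`, and `g'` is determined by `M` and the two other entries `z` of the first
row.  Every `M ∈ GL(2,3)` (48 matrices) is `u^m M8^x r^e` with `m < 3, x < 8, e < 2` (decide), and then
`g' = n_v u^m m8^x r^e` with `v = z (u^m M8^x r^e block)⁻¹` (or decide: 9 vectors `v`). -/
theorem l3a_cover (g : SL33) : ∃ (i m x e : ℕ) (v0 v1 : ZMod 3), m < 3 ∧ x < 8 ∧ e < 2 ∧
    g = sSig ^ i * (sN v0 v1 * sU ^ m) * (sM8 ^ x * sR ^ e) := by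
  obtain ⟨i, hi1, hi2⟩ := l3a_red g
  obtain ⟨g', hg'⟩ : ∃ g' : SL33, g' = sSig ^ i * g := ⟨_, rfl⟩
  rw [← hg'] at hi1 hi2
  have hdet := l3a_det hi1 hi2
  have h1 := l3a_tr
  simp only [List.all_eq_true, List.mem_range, Bool.or_eq_true, Bool.and_eq_true, beq_iff_eq, List.any_eq_true,
    Bool.not_eq_true', beq_eq_false_iff_ne, ne_eq] at h1
  obtain ⟨v0, _, v1, _, hv1, hv2⟩ := (h1 (g'.1 0 0).val (ZMod.val_lt _) (g'.1 0 1).val (ZMod.val_lt _) (g'.1 0 2).val (ZMod.val_lt _)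
    (g'.1 1 1).val (ZMod.val_lt _) (g'.1 1 2).val (ZMod.val_lt _) (g'.1 2 1).val (ZMod.val_lt _) (g'.1 2 2).val
    (ZMod.val_lt _)).resolve_left (fun h => h hdet)
  have h2 := l3a_blk
  simp only [List.all_eq_true, List.mem_range, Bool.or_eq_true, beq_iff_eq, List.any_eq_true,
    Bool.not_eq_true', beq_eq_false_iff_ne, ne_eq] at h2
  obtain ⟨m, hm, x, hx, e, he, hb⟩ := (h2 (g'.1 0 0).val (ZMod.val_lt _)
    (g'.1 1 1).val (ZMod.val_lt _) (g'.1 1 2).val (ZMod.val_lt _) (g'.1 2 1).val (ZMod.val_lt _) (g'.1 2 2).val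
    (ZMod.val_lt _)).resolve_left (fun h => h hdet)
  have hb1 := congrArg l3b_mat hb
  rw [l3b_mul, l3b_mul, l3b_pow, l3b_pow, l3b_pow, l3b_u, l3b_m8, l3b_r] at hb1
  have c1 : g'.1 0 1 + (v0 : ZMod 3) * g'.1 1 1 + (v1 : ZMod 3) * g'.1 2 1 = 0 := by
    have h3 : (((g'.1 0 1).val + v0 * (g'.1 1 1).val + v1 * (g'.1 2 1).val : ℕ) : ZMod 3) = ((0 : ℕ) : ZMod 3) := by
      rw [ZMod.natCast_eq_natCast_iff', hv1]
    push_cast at h3
    rwa [ZMod.natCast_zmod_val, ZMod.natCast_zmod_val, ZMod.natCast_zmod_val] at h3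
  have c2 : g'.1 0 2 + (v0 : ZMod 3) * g'.1 1 2 + (v1 : ZMod 3) * g'.1 2 2 = 0 := by
    have h3 : (((g'.1 0 2).val + v0 * (g'.1 1 2).val + v1 * (g'.1 2 2).val : ℕ) : ZMod 3) = ((0 : ℕ) : ZMod 3) := by
      rw [ZMod.natCast_eq_natCast_iff', hv2]
    push_cast at h3
    rwa [ZMod.natCast_zmod_val, ZMod.natCast_zmod_val, ZMod.natCast_zmod_val] at h3
  have c3 : (sN v0 v1 * g').1 = (sU ^ m * (sM8 ^ x * sR ^ e)).1 := by
    refine Eq.trans ?_ hb1.symm
    show (sN v0 v1).1 * g'.1 = _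
    ext a b
    rw [Matrix.mul_apply, Fin.sum_univ_three]
    fin_cases a <;> fin_cases b <;> simp [sN, l3b_mat, hi1, hi2, c1, c2]
  have c4 : sN v0 v1 * g' = sU ^ m * (sM8 ^ x * sR ^ e) := Subtype.ext c3
  refine ⟨12 * i, m, x, e, -v0, -v1, hm, hx, he, ?_⟩
  rw [mul_assoc, mul_assoc (sN _ _), ← c4, ← mul_assoc (sN _ _), l3a_nn, one_mul, hg']
  exact l3a_back g i

/-- Every `h` is `σ^j w_k b` with `k < 4` and `b` upper triangular.
Proof.  As above `h' = σ^{-j} h` has first column `± e₁`; its lower right block `M ∈ GL(2,3)` is one of the four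
`(w_k block)` times an upper triangular matrix (the first column of `M` is a point of `P¹(F_3)`; decide). -/
theorem l3a_cover' (h : SL33) : ∃ (j k : ℕ) (b : SL33), k < 4 ∧
    b.1 1 0 = 0 ∧ b.1 2 0 = 0 ∧ b.1 2 1 = 0 ∧ h = sSig ^ j * sW k * b := by
  obtain ⟨i, hi1, hi2⟩ := l3a_red h
  obtain ⟨g', hg'⟩ : ∃ g' : SL33, g' = sSig ^ i * h := ⟨_, rfl⟩
  rw [← hg'] at hi1 hi2
  have hdet := l3a_det hi1 hi2
  have h1 := l3a_bor
  simp only [List.all_eq_true, List.mem_range, Bool.or_eq_true, Bool.and_eq_true, beq_iff_eq, List.any_eq_true] at h1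
  obtain ⟨k, hk, hw⟩ := (h1 (g'.1 1 1).val (ZMod.val_lt _) (g'.1 1 2).val (ZMod.val_lt _) (g'.1 2 1).val (ZMod.val_lt _) (g'.1 2 2).val
    (ZMod.val_lt _)).resolve_left (fun h => by
      rw [Nat.mul_mod, h, mul_zero, Nat.zero_mod] at hdet
      exact absurd hdet (by norm_num))
  have h2 := l3a_w12
  simp only [List.all_eq_true, List.mem_range, beq_iff_eq] at h2
  have h3 := congrArg l3b_mat (h2 k hk)
  rw [l3b_pow, l3b_w, l3b_one] at h3
  have h4 : sW k ^ 12 = 1 := Subtype.ext h3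
  have hm : (sW k ^ 11 * g').1 = l3b_mat (l2_pow (l2_w k) 11) * g'.1 := by
    rw [l3b_pow, l3b_w]
    rfl
  generalize l2_pow (l2_w k) 11 = S at hw hm
  obtain ⟨s0, s1, s2, s3, s4, s5, s6, s7, s8⟩ := S
  simp only at hw
  obtain ⟨⟨hs3, hs6⟩, hs⟩ := hw
  have c1 : (s7 : ZMod 3) * g'.1 1 1 + (s8 : ZMod 3) * g'.1 2 1 = 0 := by
    have h3 : ((s7 * (g'.1 1 1).val + s8 * (g'.1 2 1).val : ℕ) : ZMod 3) = ((0 : ℕ) : ZMod 3) := by
      rw [ZMod.natCast_eq_natCast_iff', hs]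
    push_cast at h3
    rwa [ZMod.natCast_zmod_val, ZMod.natCast_zmod_val] at h3
  refine ⟨12 * i, k, sW k ^ 11 * g', hk, ?_, ?_, ?_, ?_⟩
  · rw [hm, Matrix.mul_apply, Fin.sum_univ_three, hi1, hi2]
    simp [l3b_mat, hs3]
  · rw [hm, Matrix.mul_apply, Fin.sum_univ_three, hi1, hi2]
    simp [l3b_mat, hs6]
  · rw [hm, Matrix.mul_apply, Fin.sum_univ_three]
    simp [l3b_mat, hs6, c1]
  · rw [mul_assoc, ← mul_assoc (sW k), ← pow_succ', h4, one_mul, hg']
    exact l3a_back h i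

end H96S
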