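import Pool.Agent.Lib.H96S.L1
import Pool.Agent.Lib.H96S.L2

/-!
# SL(3,3): the elements used
-/

namespace H96S

open Matrix

/-- the group `SL(3, 3)` of order 5616 -/
abbrev SL33 : Type := SpecialLinearGroup (Fin 3) (ZMod 3)

/-- Singer cycle, order 13 -/
def sSig : SL33 := ⟨!![0, 0, 1; 1, 0, 1; 0, 1, 0], by decide⟩
/-- order 8 -/
def sM8 : SL33 := ⟨!![2, 0, 0; 0, 0, 1; 0, 1, 1], by decide⟩
/-- order 2, `r m8 r = m8³` -/
def sR : SL33 := ⟨!![2, 0, 0; 0, 1, 0; 0, 1, 2], by decide⟩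
/-- order 3 -/
def sU : SL33 := ⟨!![1, 0, 0; 0, 1, 1; 0, 0, 1], by decide⟩
/-- translations -/
def sN (v0 v1 : ZMod 3) : SL33 :=
  ⟨!![1, v0, v1; 0, 1, 0; 0, 0, 1], by revert v0 v1; decide⟩
/-- representatives of the four points of the projective line over `F_3` -/
def sW : ℕ → SL33
  | 0 => 1
  | k + 1 => sU ^ k * ⟨!![1, 0, 0; 0, 0, 1; 0, 2, 0], by decide⟩
/-- unitriangular matrices (the Sylow 3-subgroup) -/
def sB (b1 b2 b3 : ZMod 3) : SL33 :=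
  ⟨!![1, b1, b2; 0, 1, b3; 0, 0, 1], by revert b1 b2 b3; decide⟩

end H96S
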