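import Mathlib

/-!
# Chunk N12 (pure): a quadratic polynomial whose values on the `k`-th roots of unity are `k`-th roots of unity
-/

namespace H96S

open Polynomial

theorem n12_C2 {L : Type} [Field L] : (C (2 : L) : L[X]) = 2 := map_ofNat C 2

/-- the recurrence of the coefficients of `(X² - σ X + ν)^k` -/
theorem n12_rec {L : Type} [Field L] (k : ℕ) (hk : 1 ≤ k) (σ ν : L) (m : ℕ) :
    ν * ((m : L) + 2) * ((X ^ 2 - C σ * X + C ν) ^ k : L[X]).coeff (m + 2) =
      σ * ((m : L) + 1 - k) * ((X ^ 2 - C σ * X + C ν) ^ k : L[X]).coeff (m + 1) +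
        (2 * (k : L) - m) * ((X ^ 2 - C σ * X + C ν) ^ k : L[X]).coeff m := by
  obtain ⟨D, hD⟩ : ∃ D : L[X], D = X ^ 2 - C σ * X + C ν := ⟨_, rfl⟩
  obtain ⟨P, hP⟩ : ∃ P : L[X], P = D ^ k := ⟨_, rfl⟩
  have hder : derivative P * D = C (k : L) * (2 * X - C σ) * P := by
    have h1 : derivative D = 2 * X - C σ := by
      rw [hD, derivative_add, derivative_sub, derivative_X_pow, derivative_C_mul_X, derivative_C]
      simp [n12_C2]
    rw [hP, derivative_pow, h1]
    obtain ⟨j, rfl⟩ : ∃ j, k = j + 1 := ⟨k - 1, by omega⟩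
    rw [Nat.add_sub_cancel, pow_succ]
    ring
  have h2 := congrArg (fun p : L[X] => p.coeff (m + 1)) hder
  have h3 : (derivative P * D).coeff (m + 1) =
      (m : L) * P.coeff m - σ * (((m : L) + 1) * P.coeff (m + 1)) + ν * (((m : L) + 2) * P.coeff (m + 2)) := by
    have e1 : derivative P * D = derivative P * X ^ 2 - C σ * (derivative P * X) + C ν * derivative P := by
      rw [hD]; ring
    rw [e1, coeff_add, coeff_sub, coeff_C_mul, coeff_C_mul, coeff_mul_X, coeff_derivative, coeff_derivative]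
    have e2 : (derivative P * X ^ 2).coeff (m + 1) = (m : L) * P.coeff m := by
      rcases Nat.eq_zero_or_pos m with h0 | h0
      · subst h0
        rw [coeff_mul_X_pow', if_neg (by omega)]
        simp
      · obtain ⟨j, rfl⟩ : ∃ j, m = j + 1 := ⟨m - 1, by omega⟩
        rw [show j + 1 + 1 = j + 2 by ring, coeff_mul_X_pow, coeff_derivative]
        push_cast
        ring
    rw [e2]
    push_cast
    ring
  have h4 : (C (k : L) * (2 * X - C σ) * P).coeff (m + 1) =
      2 * (k : L) * P.coeff m - (k : L) * σ * P.coeff (m + 1) := by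
    have e1 : C (k : L) * (2 * X - C σ) * P = C (2 * (k : L)) * (P * X) - C ((k : L) * σ) * P := by
      rw [C_mul, C_mul]
      rw [n12_C2]; ring
    rw [e1, coeff_sub, coeff_C_mul, coeff_C_mul, coeff_mul_X]
  have h5 : (derivative P * D).coeff (m + 1) = (C (k : L) * (2 * X - C σ) * P).coeff (m + 1) := h2
  rw [h3, h4] at h5
  rw [← hD, ← hP]
  linear_combination h5

/-- the reduction modulo `X ^ k - 1` -/
theorem n12_red {L : Type} [Field L] (k : ℕ) (W : Finset L) (hW : ∀ w ∈ W, w ^ k = 1)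
    (hWc : W.card = k) (P : L[X]) (hdeg : P.natDegree ≤ 2 * k) (h : ∀ w ∈ W, P.eval w = 1)
    (i : ℕ) (hi1 : 1 ≤ i) (hik : i < k) : P.coeff i + P.coeff (i + k) = 0 := by
  classical
  obtain ⟨R, hR⟩ : ∃ R : L[X], R = ∑ j ∈ Finset.range k, C (P.coeff j + P.coeff (j + k)) * X ^ j +
    C (P.coeff (k + k) - 1) := ⟨_, rfl⟩
  have hR0 : R = 0 := by
    apply Polynomial.eq_zero_of_degree_lt_of_eval_finset_eq_zero W
    · rw [hWc, hR]
      refine lt_of_le_of_lt (degree_add_le _ _) (max_lt ?_ ?_)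
      · refine lt_of_le_of_lt (degree_sum_le _ _) ?_
        rw [Finset.sup_lt_iff (by rw [bot_lt_iff_ne_bot]; exact WithBot.coe_ne_bot)]
        intro j hj
        refine lt_of_le_of_lt (degree_C_mul_X_pow_le _ _) ?_
        exact_mod_cast Finset.mem_range.1 hj
      · refine lt_of_le_of_lt degree_C_le ?_
        exact_mod_cast (by omega : 0 < k)
    · intro w hw
      have h1 := h w hw
      have h2 := hW w hw
      rw [eval_eq_sum_range' (n := k + k + 1) (by omega), Finset.sum_range_succ,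
        Finset.sum_range_add] at h1
      rw [hR, eval_add, eval_finset_sum, eval_C]
      have e1 : ∑ j ∈ Finset.range k, eval w (C (P.coeff j + P.coeff (j + k)) * X ^ j) =
          ∑ j ∈ Finset.range k, P.coeff j * w ^ j + ∑ j ∈ Finset.range k, P.coeff (k + j) * w ^ (k + j) := by
        rw [← Finset.sum_add_distrib]
        refine Finset.sum_congr rfl fun j _ => ?_
        rw [eval_mul, eval_C, eval_pow, eval_X, pow_add, h2, one_mul, add_comm j k]
        ring
      have e2 : P.coeff (k + k) * w ^ (k + k) = P.coeff (k + k) := by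
        rw [pow_add, h2, mul_one, mul_one]
      rw [e2] at h1
      rw [e1]
      linear_combination h1
  have h3 := congrArg (fun p : L[X] => p.coeff i) hR0
  have h4 : R.coeff i = 0 := by rw [hR0, coeff_zero]
  rw [hR, coeff_add, finset_sum_coeff, coeff_C, if_neg (by omega), add_zero] at h4
  rw [Finset.sum_eq_single i] at h4
  · rw [coeff_C_mul, coeff_X_pow, if_pos rfl, mul_one] at h4
    exact h4
  · intro j _ hj
    rw [coeff_C_mul, coeff_X_pow, if_neg (Ne.symm hj), mul_zero]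
  · intro h5
    exact absurd (Finset.mem_range.2 hik) h5

/-- Let `L` be a field, `W` a set of `k ≥ 6` elements with `w^k = 1` (all `k`-th roots of unity), `k ≠ 0` and `k + 1 ≠ 0` in `L`,
`ν ≠ 0`, `σ² ≠ 4 ν`.  Then `(w² - σ w + ν)^k = 1` does not hold for all `w ∈ W`.

Proof.  Let `P = (X² - σ X + ν)^k = ∑_{i ≤ 2k} d_i X^i`.  `P - 1` vanishes on `W`, and `X^k - 1 = ∏_{w ∈ W} (X - w)` (degree `k`, `k`
roots), so `X^k - 1` divides `P - 1`: the reduction of `P - 1` modulo `X^k - 1` is zero, i.e.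
(1) `d_i + d_{i+k} = 0` for `1 ≤ i ≤ k - 1`  (the reduction of `P` has coefficient `d_i + d_{i+k}` at `X^i`, and for `i = 0` it
is `d_0 + d_k + d_{2k} = 1`).
`P' (X² - σ X + ν) = k (2 X - σ) P` gives, comparing coefficients of `X^i`,
(2) `ν (i+1) d_{i+1} = σ (i - k) d_i + (2k - i + 1) d_{i-1}` for all `i ≥ 1`.
Apply (2) at `i + k` and use (1), for `2 ≤ i ≤ k - 2`: `ν (i+k+1) d_{i+1} = σ i d_i + (k - i + 1) d_{i-1}`.
Subtract (2): `ν k d_{i+1} = σ k d_i - k d_{i-1}`, so
(3) `ν d_{i+1} = σ d_i - d_{i-1}`  (`2 ≤ i ≤ k-2`).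
`(i+1)` times (3) minus (2): `0 = σ (k+1) d_i - 2 (k+1) d_{i-1}`, so
(4) `σ d_i = 2 d_{i-1}`  (`2 ≤ i ≤ k-2`).
For `2 ≤ i`, `i + 1 ≤ k - 2`: by (3), (4) `ν d_{i+1} = d_{i-1}`, and by (4) at `i+1` `σ d_{i+1} = 2 d_i`; so
`σ d_{i-1} = σ ν d_{i+1} = 2 ν d_i`, and `σ² d_{i-1} = 2 ν σ d_i = 4 ν d_{i-1}`; as `σ² ≠ 4 ν`, `d_{i-1} = 0`.
With `i = 2` and `i = 3` (`k ≥ 6`): `d_1 = 0` and `d_2 = 0`.  But `d_0 = ν^k`, `d_1 = - k σ ν^(k-1)` (or (2) at `i = 0`:
`ν d_1 = - k σ d_0`), so `σ = 0`; and (2) at `i = 1`: `2 ν d_2 = σ (1-k) d_1 + 2k d_0`, in general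
`d_2 = k ν^(k-1) + C(k,2) σ² ν^(k-2)`, so `0 = d_2 = k ν^(k-1) ≠ 0`: contradiction.
(In characteristic 2 the direct formula for `d_2` must be used, not (2).) -/
theorem poly_contradiction {L : Type} [Field L] (k : ℕ) (hk : 6 ≤ k) (hk0 : (k : L) ≠ 0)
    (hk1 : (k : L) + 1 ≠ 0) (W : Finset L) (hW : ∀ w ∈ W, w ^ k = 1) (hWc : W.card = k)
    (σ ν : L) (hν : ν ≠ 0) (hσ : σ ^ 2 ≠ 4 * ν)
    (h : ∀ w ∈ W, (w ^ 2 - σ * w + ν) ^ k = 1) : False := by
  obtain ⟨P, hP⟩ : ∃ P : L[X], P = (X ^ 2 - C σ * X + C ν) ^ k := ⟨_, rfl⟩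
  have hrec := n12_rec k (by omega) σ ν
  rw [← hP] at hrec
  have hdeg : P.natDegree ≤ 2 * k := by
    rw [hP]
    refine le_trans natDegree_pow_le ?_
    have h1 : (X ^ 2 - C σ * X + C ν : L[X]).natDegree ≤ 2 := by
      compute_degree
    calc k * (X ^ 2 - C σ * X + C ν : L[X]).natDegree ≤ k * 2 := Nat.mul_le_mul_left _ h1
      _ = 2 * k := by ring
  have hev : ∀ w ∈ W, P.eval w = 1 := by
    intro w hw
    rw [hP, eval_pow, ← h w hw]
    simp
  have hred := n12_red k W hW hWc P hdeg hev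
  obtain ⟨d, hd⟩ : ∃ d : ℕ → L, ∀ i, d i = P.coeff i := ⟨_, fun _ => rfl⟩
  have h1 : ∀ i, 1 ≤ i → i < k → d (i + k) = -d i := by
    intro i hi hik
    rw [hd, hd]
    exact eq_neg_of_add_eq_zero_right (hred i hi hik)
  have h2 : ∀ m : ℕ, ν * ((m : L) + 2) * d (m + 2) = σ * ((m : L) + 1 - k) * d (m + 1) +
      (2 * (k : L) - m) * d m := by
    intro m
    rw [hd, hd, hd]
    exact hrec m
  have h3 : ∀ m, 1 ≤ m → m + 2 < k → ν * d (m + 2) = σ * d (m + 1) - d m := by
    intro m hm hmk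
    have e1 := h2 m
    have e2 := h2 (m + k)
    rw [show m + k + 2 = m + 2 + k by ring, show m + k + 1 = m + 1 + k by ring, h1 _ (by omega) hmk,
      h1 _ (by omega) (by omega), h1 _ hm (by omega)] at e2
    push_cast at e2
    have e3 : (k : L) * (ν * d (m + 2) - (σ * d (m + 1) - d m)) = 0 := by
      linear_combination (-1 : L) * e2 - e1
    rcases mul_eq_zero.1 e3 with h | h
    · exact absurd h hk0
    · exact sub_eq_zero.1 h
  have h4 : ∀ m, 1 ≤ m → m + 2 < k → σ * d (m + 1) = 2 * d m := by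
    intro m hm hmk
    have e1 := h2 m
    have e2 := h3 m hm hmk
    have e3 : ((k : L) + 1) * (σ * d (m + 1) - 2 * d m) = 0 := by
      linear_combination e1 - ((m : L) + 2) * e2
    rcases mul_eq_zero.1 e3 with h | h
    · exact absurd h hk1
    · exact sub_eq_zero.1 h
  have h5 : ∀ m, 1 ≤ m → m + 3 < k → d m = 0 := by
    intro m hm hmk
    have e1 := h3 m hm (by omega)
    have e2 := h4 m hm (by omega)
    have e3 := h4 (m + 1) (by omega) (by omega)
    have e4 : (σ ^ 2 - 4 * ν) * d m = 0 := by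
      have e5 : ν * d (m + 2) = d m := by rw [e1, e2]; ring
      have e6 : σ * d m = 2 * ν * d (m + 1) := by
        rw [← e5]
        calc σ * (ν * d (m + 2)) = ν * (σ * d (m + 1 + 1)) := by ring
          _ = ν * (2 * d (m + 1)) := by rw [e3]
          _ = 2 * ν * d (m + 1) := by ring
      calc (σ ^ 2 - 4 * ν) * d m = σ * (σ * d m) - 4 * ν * d m := by ring
        _ = σ * (2 * ν * d (m + 1)) - 4 * ν * d m := by rw [e6]
        _ = 2 * ν * (σ * d (m + 1)) - 4 * ν * d m := by ring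
        _ = 2 * ν * (2 * d m) - 4 * ν * d m := by rw [e2]
        _ = 0 := by ring
    rcases mul_eq_zero.1 e4 with h | h
    · exact absurd (sub_eq_zero.1 h) hσ
    · exact h
  have hd1 := h5 1 le_rfl (by omega)
  have hd2 := h5 2 (by omega) (by omega)
  have hd0 : d 0 = ν ^ k := by
    rw [hd, hP, coeff_zero_eq_eval_zero]
    simp
  -- the coefficient of X
  have hd1' : P.coeff 1 = -((k : L) * σ * ν ^ (k - 1)) := by
    have e1 : derivative P = C (k : L) * (X ^ 2 - C σ * X + C ν) ^ (k - 1) * (2 * X - C σ) := by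
      rw [hP, derivative_pow]
      congr 1
      rw [derivative_add, derivative_sub, derivative_X_pow, derivative_C_mul_X, derivative_C]
      simp [n12_C2]
    have e2 := congrArg (fun p : L[X] => p.coeff 0) e1
    have e3 : (derivative P).coeff 0 = (C (k : L) * (X ^ 2 - C σ * X + C ν) ^ (k - 1) * (2 * X - C σ)).coeff 0 := e2
    rw [coeff_derivative, coeff_zero_eq_eval_zero (C (k : L) * (X ^ 2 - C σ * X + C ν) ^ (k - 1) * (2 * X - C σ))] at e3
    simp at e3
    rw [e3]
    ring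
  rw [hd, hd1'] at hd1
  have hσ0 : σ = 0 := by
    rw [neg_eq_zero] at hd1
    rcases mul_eq_zero.1 hd1 with h | h
    · rcases mul_eq_zero.1 h with h' | h'
      · exact absurd h' hk0
      · exact h'
    · exact absurd h (pow_ne_zero _ hν)
  have hP2 : P = expand L 2 ((X + C ν) ^ k) := by
    rw [hP, hσ0, map_pow, map_add, expand_X, expand_C]
    simp
  rw [hd, hP2, show (2 : ℕ) = 1 * 2 by norm_num, coeff_expand_mul (by norm_num), coeff_X_add_C_pow] at hd2
  rw [Nat.choose_one_right] at hd2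
  rcases mul_eq_zero.1 hd2 with h | h
  · exact absurd h (pow_ne_zero _ hν)
  · exact absurd h hk0

end H96S
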