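import Pool.Agent.Lib.H96S.B10

/-!
# Chunk N1A: products of subgroups in a given order, uniqueness of the factorisation
-/

namespace H96S

open scoped Pointwise

/-- Membership in a product of sets indexed by a list without repetitions. -/
theorem mem_prod_iff {G : Type} [Group G] (l : List ℕ) (hl : l.Nodup) (P : ℕ → Set G) (g : G) :
    g ∈ (l.map P).prod ↔ ∃ x : ℕ → G, (∀ p ∈ l, x p ∈ P p) ∧ (l.map x).prod = g := by
  induction l generalizing g with
  | nil =>
    simp only [List.map_nil, List.prod_nil, Set.mem_one, List.not_mem_nil, false_imp_iff,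
      implies_true, true_and]
    constructor
    · intro h
      exact ⟨fun _ => 1, h.symm⟩
    · rintro ⟨_, h⟩
      exact h.symm
  | cons p l ih =>
    rw [List.nodup_cons] at hl
    rw [List.map_cons, List.prod_cons, Set.mem_mul]
    constructor
    · rintro ⟨a, ha, b, hb, rfl⟩
      obtain ⟨x, hx, rfl⟩ := (ih hl.2 b).1 hb
      refine ⟨fun q => if q = p then a else x q, ?_, ?_⟩
      · intro q hq
        by_cases h : q = p
        · subst h; simpa using ha
        · simp only [h, if_false]
          rcases List.mem_cons.1 hq with h' | h'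
          · exact absurd h' h
          · exact hx q h'
      · rw [List.map_cons, List.prod_cons]
        have : l.map (fun q => if q = p then a else x q) = l.map x := by
          apply List.map_congr_left
          intro q hq
          have : q ≠ p := by rintro rfl; exact hl.1 hq
          simp [this]
        rw [this]
        simp
    · rintro ⟨x, hx, rfl⟩
      refine ⟨x p, hx p (by simp), (l.map x).prod, ?_, by simp⟩
      exact (ih hl.2 _).2 ⟨x, fun q hq => hx q (by simp [hq]), rfl⟩

lemma n1a_card_le {G : Type} [Group G] [Finite G] (P : ℕ → Subgroup G) (l : List ℕ) :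
    (l.map (fun p => (P p : Set G))).prod.ncard ≤ (l.map (fun p => Nat.card (P p))).prod := by
  induction l with
  | nil => simp [← Set.singleton_one]
  | cons p l ih =>
    rw [List.map_cons, List.prod_cons, List.map_cons, List.prod_cons, ← Set.image_mul_prod]
    refine (Set.ncard_image_le (Set.toFinite _)).trans ?_
    rw [Set.ncard_prod]
    exact Nat.mul_le_mul (le_of_eq (Nat.card_coe_set_eq _).symm) ih

lemma n1a_uniq {G : Type} [Group G] [Finite G] (P : ℕ → Subgroup G) (l : List ℕ)
    (h : (l.map (fun p => (P p : Set G))).prod.ncard = (l.map (fun p => Nat.card (P p))).prod)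
    (hl : l.Nodup) (x y : ℕ → G)
    (hx : ∀ p ∈ l, x p ∈ P p) (hy : ∀ p ∈ l, y p ∈ P p) (hxy : (l.map x).prod = (l.map y).prod) :
    ∀ p ∈ l, x p = y p := by
  induction l with
  | nil => simp
  | cons p l ih =>
    have h1 := n1a_card_le P l
    have hcard : ((P p : Subgroup G) : Set G).ncard = Nat.card (P p : Subgroup G) :=
      (Nat.card_coe_set_eq _).symm
    rw [List.map_cons, List.prod_cons, List.map_cons, List.prod_cons] at h
    have h2 : ((P p : Set G) * (l.map (fun p => (P p : Set G))).prod).ncard ≤
        Nat.card (P p : Subgroup G) * (l.map (fun p => (P p : Set G))).prod.ncard := by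
      rw [← Set.image_mul_prod]
      refine (Set.ncard_image_le (Set.toFinite _)).trans ?_
      rw [Set.ncard_prod, hcard]
    have hpos : 0 < Nat.card (P p : Subgroup G) := Nat.card_pos
    have h3 : (l.map (fun p => (P p : Set G))).prod.ncard =
        (l.map (fun p => Nat.card (P p))).prod := by
      apply le_antisymm h1
      rw [h] at h2
      exact Nat.le_of_mul_le_mul_left h2 hpos
    have hinj : Set.InjOn (fun x : G × G => x.1 * x.2)
        ((P p : Set G) ×ˢ (l.map (fun p => (P p : Set G))).prod) := by
      rw [← Set.ncard_image_iff (Set.toFinite _), Set.image_mul_prod, Set.ncard_prod, hcard, h3]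
      exact h
    rw [List.nodup_cons] at hl
    rw [List.map_cons, List.prod_cons, List.map_cons, List.prod_cons] at hxy
    have hxl : (l.map x).prod ∈ (l.map (fun p => (P p : Set G))).prod :=
      (mem_prod_iff l hl.2 _ _).2 ⟨x, fun q hq => hx q (by simp [hq]), rfl⟩
    have hyl : (l.map y).prod ∈ (l.map (fun p => (P p : Set G))).prod :=
      (mem_prod_iff l hl.2 _ _).2 ⟨y, fun q hq => hy q (by simp [hq]), rfl⟩
    have hpair := hinj (x₁ := (x p, (l.map x).prod)) ⟨hx p (by simp), hxl⟩
      (x₂ := (y p, (l.map y).prod)) ⟨hy p (by simp), hyl⟩ hxy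
    rw [Prod.mk.injEq] at hpair
    intro q hq
    rcases List.mem_cons.1 hq with h' | h'
    · rw [h']; exact hpair.1
    · exact ih h3 hl.2 (fun q hq => hx q (by simp [hq])) (fun q hq => hy q (by simp [hq]))
        hpair.2 q h'

/-- If the product of the subgroups `P p` (`p` in the list `l`) is the whole finite group `G` and the
product of their orders is `|G|`, then the factorisation is unique. -/
theorem prod_unique {G : Type} [Group G] [Finite G] (l : List ℕ) (hl : l.Nodup)
    (P : ℕ → Subgroup G) (h : (l.map (fun p => (P p : Set G))).prod = Set.univ)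
    (hc : (l.map (fun p => Nat.card (P p))).prod = Nat.card G) (x y : ℕ → G)
    (hx : ∀ p ∈ l, x p ∈ P p) (hy : ∀ p ∈ l, y p ∈ P p) (hxy : (l.map x).prod = (l.map y).prod) :
    ∀ p ∈ l, x p = y p := by
  apply n1a_uniq P l _ hl x y hx hy hxy
  rw [h, hc, Set.ncard_univ]

/-- The product of the orders of the Sylow subgroups is `|G|`. -/
theorem prod_card_sylow {G : Type} [Group G] [Finite G] (l : List ℕ) (hl : l.Nodup)
    (hm : ∀ q, q ∈ l ↔ q ∈ (Nat.card G).primeFactors) (P : (p : ℕ) → Sylow p G) :
    (l.map (fun p => Nat.card (P p : Subgroup G))).prod = Nat.card G :=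
  prod_card_eq P l hl (fun p hp => Nat.prime_of_mem_primeFactors ((hm p).1 hp))
    (fun p hp => (hm p).2 hp)

end H96S
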