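import Pool.Agent.Lib.H96S.N1A

/-!
# Chunk N1B: exact factorisations `G = A P B` from property (∗)
-/

namespace H96S

open scoped Pointwise

/-- From (∗) for the ordering `l₁ ++ p :: l₂` and a given Sylow `p`-subgroup `P`: finite sets `A`, `B`
with `G = A P B`, every element having exactly one such factorisation, `|A|`, `|B|` the products of the
full prime powers of the primes in `l₁`, `l₂`; if `l₂ = [s]`, then `B` is a Sylow `s`-subgroup. -/
theorem fac {G : Type} [Group G] [Finite G] (hG : Star G) (l₁ l₂ : List ℕ) (p : ℕ)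
    (hnd : (l₁ ++ p :: l₂).Nodup) (hl : ∀ q, q ∈ l₁ ++ p :: l₂ ↔ q ∈ (Nat.card G).primeFactors)
    (P : Sylow p G) :
    ∃ A B : Finset G,
      A.card = (l₁.map (fun s => s ^ (Nat.card G).factorization s)).prod ∧
      B.card = (l₂.map (fun s => s ^ (Nat.card G).factorization s)).prod ∧
      (∀ g : G, ∃! t : G × P × G, t.1 ∈ A ∧ t.2.2 ∈ B ∧ t.1 * t.2.1 * t.2.2 = g) ∧
      (∀ s, l₂ = [s] → ∃ R : Sylow s G, ∀ g, g ∈ B ↔ g ∈ R) := by
  classical
  have hprime : ∀ q ∈ l₁ ++ p :: l₂, q.Prime := fun q hq =>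
    Nat.prime_of_mem_primeFactors ((hl q).1 hq)
  have hp : p.Prime := hprime p (by simp)
  haveI := Fact.mk hp
  obtain ⟨P', hP'⟩ := hG (l₁ ++ p :: l₂) hnd hl
  obtain ⟨g₀, hg₀⟩ := MulAction.exists_smul_eq G (P' p) P
  set Q : (q : ℕ) → Sylow q G := fun q => g₀ • P' q with hQ
  have hQp : Q p = P := hg₀
  have hmemQ : ∀ q x, x ∈ (P' q : Subgroup G) → g₀ * x * g₀⁻¹ ∈ (Q q : Subgroup G) := by
    intro q x hx
    have : (Q q : Subgroup G) = MulAut.conj g₀ • (P' q : Subgroup G) := rfl
    rw [this]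
    exact Subgroup.smul_mem_pointwise_smul x (MulAut.conj g₀) _ hx
  have huniv : ((l₁ ++ p :: l₂).map (fun q => ((Q q : Subgroup G) : Set G))).prod = Set.univ := by
    rw [Set.eq_univ_iff_forall]
    intro g
    rw [mem_prod_iff _ hnd]
    have h1 : g₀⁻¹ * g * g₀ ∈ ((l₁ ++ p :: l₂).map (fun q => ((P' q : Subgroup G) : Set G))).prod := by
      rw [hP']; trivial
    rw [mem_prod_iff _ hnd] at h1
    obtain ⟨x, hx, hxg⟩ := h1
    refine ⟨fun q => g₀ * x q * g₀⁻¹, fun q hq => hmemQ q (x q) (hx q hq), ?_⟩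
    have h2 : ((l₁ ++ p :: l₂).map (fun q => g₀ * x q * g₀⁻¹)).prod =
        MulAut.conj g₀ ((l₁ ++ p :: l₂).map x).prod := by
      rw [map_list_prod, List.map_map]
      rfl
    rw [h2, hxg]
    simp [MulAut.conj_apply, mul_assoc]
  set X₁ : Set G := (l₁.map (fun q => ((Q q : Subgroup G) : Set G))).prod with hX₁
  set X₂ : Set G := (l₂.map (fun q => ((Q q : Subgroup G) : Set G))).prod with hX₂
  have hXX : X₁ * (((Q p : Subgroup G) : Set G) * X₂) = Set.univ := by
    rw [← huniv, List.map_append, List.prod_append, List.map_cons, List.prod_cons]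
  have hcard := prod_card_sylow (l₁ ++ p :: l₂) hnd hl Q
  rw [List.map_append, List.prod_append, List.map_cons, List.prod_cons] at hcard
  have hc1 : X₁.ncard ≤ (l₁.map (fun q => Nat.card (Q q : Subgroup G))).prod :=
    n1a_card_le (fun q => (Q q : Subgroup G)) l₁
  have hc2 : X₂.ncard ≤ (l₂.map (fun q => Nat.card (Q q : Subgroup G))).prod :=
    n1a_card_le (fun q => (Q q : Subgroup G)) l₂
  set c₁ := (l₁.map (fun q => Nat.card (Q q : Subgroup G))).prod with hc₁
  set c₂ := (l₂.map (fun q => Nat.card (Q q : Subgroup G))).prod with hc₂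
  have hcp : (((Q p : Subgroup G) : Set G)).ncard = Nat.card (Q p : Subgroup G) :=
    (Nat.card_coe_set_eq _).symm
  set cp := Nat.card (Q p : Subgroup G) with hcpd
  have hGpos : 0 < Nat.card G := Nat.card_pos
  have hle : Nat.card G ≤ X₁.ncard * (cp * X₂.ncard) := by
    have h1 : (X₁ * (((Q p : Subgroup G) : Set G) * X₂)).ncard = Nat.card G := by
      rw [hXX, Set.ncard_univ]
    rw [← h1, ← Set.image_mul_prod]
    refine (Set.ncard_image_le (Set.toFinite _)).trans ?_
    rw [Set.ncard_prod]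
    refine Nat.mul_le_mul_left _ ?_
    rw [← Set.image_mul_prod]
    refine (Set.ncard_image_le (Set.toFinite _)).trans ?_
    rw [Set.ncard_prod, hcp]
  have hcpos : 0 < c₁ * (cp * c₂) := by rw [hcard]; exact hGpos
  have hc₁pos : 0 < c₁ := Nat.pos_of_mul_pos_right hcpos |> fun h => by
    rcases Nat.eq_zero_or_pos c₁ with h0 | h0
    · rw [h0] at hcpos; simp at hcpos
    · exact h0
  have hcppos : 0 < cp := by
    rcases Nat.eq_zero_or_pos cp with h0 | h0
    · rw [h0] at hcpos; simp at hcpos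
    · exact h0
  have hc₂pos : 0 < c₂ := by
    rcases Nat.eq_zero_or_pos c₂ with h0 | h0
    · rw [h0] at hcpos; simp at hcpos
    · exact h0
  have hX₁c : X₁.ncard = c₁ := by
    apply le_antisymm hc1
    by_contra hlt
    push Not at hlt
    have : X₁.ncard * (cp * X₂.ncard) < c₁ * (cp * c₂) := by
      calc X₁.ncard * (cp * X₂.ncard) ≤ X₁.ncard * (cp * c₂) :=
            Nat.mul_le_mul_left _ (Nat.mul_le_mul_left _ hc2)
        _ < c₁ * (cp * c₂) := Nat.mul_lt_mul_of_pos_right hlt (Nat.mul_pos hcppos hc₂pos)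
    omega
  have hX₂c : X₂.ncard = c₂ := by
    apply le_antisymm hc2
    by_contra hlt
    push Not at hlt
    have : X₁.ncard * (cp * X₂.ncard) < c₁ * (cp * c₂) := by
      rw [hX₁c]
      exact Nat.mul_lt_mul_of_pos_left (Nat.mul_lt_mul_of_pos_left hlt hcppos) hc₁pos
    omega
  have hinj : Set.InjOn (fun x : G × G => x.1 * x.2)
      (X₁ ×ˢ (((Q p : Subgroup G) : Set G) * X₂)) := by
    rw [← Set.ncard_image_iff (Set.toFinite _), Set.image_mul_prod, hXX, Set.ncard_univ,
      Set.ncard_prod, ← hcard, hX₁c]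
    congr 1
    apply le_antisymm
    · by_contra hlt
      push Not at hlt
      have h1 : (X₁ * (((Q p : Subgroup G) : Set G) * X₂)).ncard = Nat.card G := by
        rw [hXX, Set.ncard_univ]
      have h2 : (X₁ * (((Q p : Subgroup G) : Set G) * X₂)).ncard ≤
          X₁.ncard * (((Q p : Subgroup G) : Set G) * X₂).ncard := by
        rw [← Set.image_mul_prod]
        refine (Set.ncard_image_le (Set.toFinite _)).trans ?_
        rw [Set.ncard_prod]
      rw [h1, hX₁c] at h2
      have h3 := Nat.mul_lt_mul_of_pos_left hlt hc₁pos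
      omega
    · rw [← Set.image_mul_prod]
      refine (Set.ncard_image_le (Set.toFinite _)).trans ?_
      rw [Set.ncard_prod, hcp, hX₂c]
  have hinj2 : Set.InjOn (fun x : G × G => x.1 * x.2)
      (((Q p : Subgroup G) : Set G) ×ˢ X₂) := by
    rw [← Set.ncard_image_iff (Set.toFinite _), Set.image_mul_prod, Set.ncard_prod, hcp, hX₂c]
    apply le_antisymm
    · rw [← Set.image_mul_prod]
      refine (Set.ncard_image_le (Set.toFinite _)).trans ?_
      rw [Set.ncard_prod, hcp, hX₂c]
    · by_contra hlt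
      push Not at hlt
      have h1 : (X₁ * (((Q p : Subgroup G) : Set G) * X₂)).ncard = Nat.card G := by
        rw [hXX, Set.ncard_univ]
      have h2 : (X₁ * (((Q p : Subgroup G) : Set G) * X₂)).ncard ≤
          X₁.ncard * (((Q p : Subgroup G) : Set G) * X₂).ncard := by
        rw [← Set.image_mul_prod]
        refine (Set.ncard_image_le (Set.toFinite _)).trans ?_
        rw [Set.ncard_prod]
      rw [h1, hX₁c] at h2
      have h3 := Nat.mul_lt_mul_of_pos_left hlt hc₁pos
      omega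
  have hfc : ∀ q ∈ l₁ ++ p :: l₂, Nat.card (Q q : Subgroup G) =
      q ^ (Nat.card G).factorization q := by
    intro q hq
    haveI := Fact.mk (hprime q hq)
    exact (Q q).card_eq_multiplicity
  refine ⟨X₁.toFinite.toFinset, X₂.toFinite.toFinset, ?_, ?_, ?_, ?_⟩
  · rw [← Set.ncard_eq_toFinset_card, hX₁c, hc₁]
    congr 1
    apply List.map_congr_left
    intro q hq
    exact hfc q (by simp [hq])
  · rw [← Set.ncard_eq_toFinset_card, hX₂c, hc₂]
    congr 1
    apply List.map_congr_left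
    intro q hq
    exact hfc q (by simp [hq])
  · intro g
    have hg : g ∈ X₁ * (((Q p : Subgroup G) : Set G) * X₂) := by rw [hXX]; trivial
    obtain ⟨a, ha, ub, hub, hab⟩ := Set.mem_mul.1 hg
    obtain ⟨u, hu, b, hb, hub'⟩ := Set.mem_mul.1 hub
    have huP : u ∈ P := by
      have : u ∈ (Q p : Subgroup G) := hu
      rw [hQp] at this
      exact this
    refine ⟨(a, ⟨u, huP⟩, b), ?_, ?_⟩
    · simp only [Set.Finite.mem_toFinset]
      refine ⟨ha, hb, ?_⟩
      rw [← hab, ← hub', mul_assoc]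
    · rintro ⟨a', ⟨u', hu'⟩, b'⟩ h
      simp only [Set.Finite.mem_toFinset] at h
      obtain ⟨ha', hb', hab'⟩ := h
      have hu'Q : u' ∈ (Q p : Subgroup G) := by rw [hQp]; exact hu'
      have h1 := hinj (x₁ := (a', u' * b')) ⟨ha', Set.mul_mem_mul hu'Q hb'⟩
        (x₂ := (a, ub)) ⟨ha, hub⟩ (by
          show a' * (u' * b') = a * ub
          rw [hab, ← hab', mul_assoc])
      rw [Prod.mk.injEq] at h1
      have h2 := hinj2 (x₁ := (u', b')) ⟨hu'Q, hb'⟩ (x₂ := (u, b)) ⟨hu, hb⟩ (by
          show u' * b' = u * b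
          rw [hub', h1.2])
      rw [Prod.mk.injEq] at h2
      rw [Prod.mk.injEq, Prod.mk.injEq]
      exact ⟨h1.1, Subtype.ext h2.1, h2.2⟩
  · intro s hs
    refine ⟨Q s, fun g => ?_⟩
    rw [Set.Finite.mem_toFinset, hX₂, hs]
    simp

end H96S
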