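import Pool.Agent.Lib.H96S.N2B

/-!
# Chunk N2C: Sylow subgroups with two orbits
-/

namespace H96S

/-- `G` acts transitively on a finite set `Ω` such that some Sylow subgroup `P` has exactly two orbits,
of sizes `n₁` and `n₂`, and the integer `(n₁ + n₂) / gcd (n₁, n₂)` is not a power of a prime
(it is divisible by two different primes). -/
def TwoOrbit (G : Type) [Group G] : Prop :=
  ∃ (p : ℕ) (P : Sylow p G) (Ω : Type) (_ : Finite Ω) (_ : MulAction G Ω) (x y : Ω) (r s : ℕ),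
    p.Prime ∧ MulAction.IsPretransitive G Ω ∧
    Disjoint (MulAction.orbit P x) (MulAction.orbit P y) ∧
    MulAction.orbit P x ∪ MulAction.orbit P y = Set.univ ∧
    r.Prime ∧ s.Prime ∧ r ≠ s ∧
    r * s ∣ (Nat.card (MulAction.orbit P x) + Nat.card (MulAction.orbit P y)) /
      Nat.gcd (Nat.card (MulAction.orbit P x)) (Nat.card (MulAction.orbit P y))

lemma n2c_split {Ω : Type} [Fintype Ω] (A B : Set Ω) (hd : Disjoint A B) (hu : A ∪ B = Set.univ)
    (φ : Ω → ℚ) (a b : ℚ) (ha : ∀ z ∈ A, φ z = a) (hb : ∀ z ∈ B, φ z = b) :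
    ∑ z : Ω, φ z = Nat.card A * a + Nat.card B * b := by
  classical
  have hB : B = Aᶜ := by
    apply Set.Subset.antisymm
    · intro z hz hzA
      exact Set.disjoint_left.1 hd hzA hz
    · intro z hz
      have : z ∈ A ∪ B := by rw [hu]; trivial
      exact this.resolve_left hz
  have h1 : ∀ z : Ω, φ z = (if z ∈ A then a else 0) + (if z ∈ B then b else 0) := by
    intro z
    by_cases hz : z ∈ A
    · have hzB : z ∉ B := Set.disjoint_left.1 hd hz
      rw [if_pos hz, if_neg hzB, ha z hz, add_zero]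
    · have hzB : z ∈ B := by rw [hB]; exact hz
      rw [if_neg hz, if_pos hzB, hb z hzB, zero_add]
  rw [Finset.sum_congr rfl (fun z _ => h1 z), Finset.sum_add_distrib]
  rw [Finset.sum_ite, Finset.sum_ite]
  simp only [Finset.sum_const, add_zero, nsmul_eq_mul, mul_zero]
  rw [Nat.card_eq_fintype_card, Nat.card_eq_fintype_card, Fintype.card_subtype,
    Fintype.card_subtype]

/-- Proof.  Put `n₁ = |P x|`, `n₂ = |P y|`, `d = gcd`, `n₁ = d m₁`, `n₂ = d m₂`, `m₁, m₂` coprime,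
`(n₁ + n₂) / d = m₁ + m₂`.  Let `v = m₂` on the orbit of `x` and `v = - m₁` on the orbit of `y`, and
`f g = v (g • x)`.
* `∑_{z ∈ Ω} v z = n₁ m₂ - n₂ m₁ = 0`.
* For fixed `g` the function `φ z = ∑_{u ∈ P} v (g • u • z)` is constant on the orbits of `P`
  (substitute `u ↦ u u'`), and `∑_z φ z = |P| ∑ v = 0`; so with `α` the value on `P x`, `β` the value on
  `P y`: `n₁ α + n₂ β = 0`, `m₁ α + m₂ β = 0`, and with `lam = α / m₂` (`m₂ > 0`) `φ = lam v`.
  Hence `∑_u f(g u h) = φ (h • x) = lam v (h • x) = lam f h`.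
* `f` takes the two values `m₂ > 0` (at `g = 1`) and `- m₁ < 0` (`G` is transitive).
* `m₁ + m₂ ∣ f g - m₂` for all `g`, so `r s ∣ f g - m₂`; `m₂` is prime to `m₁ + m₂`, hence to `r s`.
* `n₁`, `n₂` are powers of `p` (orbits of a `p`-group, `IsPGroup.card_orbit`; `P.isPGroup'`), so the
  coprime numbers `m₁, m₂` are powers of `p` and one of them is 1.  They are not both 1
  (`r s` does not divide 2), so `m₁ + m₂ = 1 + p ^ j`, `j ≥ 1`, is prime to `p`; hence `p ≠ r, s`.
* `p ∣ |G|`: one of the orbits has more than one element, so `P ≠ 1`, `p ∣ |P| ∣ |G|`. -/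
theorem zonal_of_twoOrbit {G : Type} [Group G] [Finite G] (h : TwoOrbit G) : Zonal G := by
  classical
  obtain ⟨p, P, Ω, hΩ, act, x, y, r, s, hp, htr, hdis, hun, hr, hs, hrs, hdvd⟩ := h
  haveI := Fact.mk hp
  haveI := Fintype.ofFinite G
  haveI := Fintype.ofFinite Ω
  haveI : Fintype (P : Subgroup G) := Fintype.ofFinite _
  set n₁ := Nat.card (MulAction.orbit P x) with hn₁
  set n₂ := Nat.card (MulAction.orbit P y) with hn₂
  obtain ⟨a, ha⟩ := P.isPGroup'.card_orbit x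
  obtain ⟨b, hb⟩ := P.isPGroup'.card_orbit y
  have hn₁pos : 0 < n₁ := by
    rw [hn₁]; rw [ha]; exact pow_pos hp.pos _
  have hn₂pos : 0 < n₂ := by
    rw [hn₂]; rw [hb]; exact pow_pos hp.pos _
  obtain ⟨d, m₁, m₂, hdpos, hcop, hm₁, hm₂⟩ := Nat.exists_coprime' (m := n₁) (n := n₂)
    (Nat.gcd_pos_of_pos_left _ hn₁pos)
  have hgcd : Nat.gcd n₁ n₂ = d := by
    rw [hm₁, hm₂, Nat.gcd_mul_right, hcop, one_mul]
  have hsum : (n₁ + n₂) / Nat.gcd n₁ n₂ = m₁ + m₂ := by
    rw [hgcd, hm₁, hm₂, ← add_mul, Nat.mul_div_cancel _ hdpos]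
  rw [hsum] at hdvd
  have hm₁pos : 0 < m₁ := by
    rcases Nat.eq_zero_or_pos m₁ with h | h
    · rw [h, zero_mul] at hm₁; omega
    · exact h
  have hm₂pos : 0 < m₂ := by
    rcases Nat.eq_zero_or_pos m₂ with h | h
    · rw [h, zero_mul] at hm₂; omega
    · exact h
  have hrs2 : ¬ r * s ∣ 2 := by
    intro h
    have h2 := Nat.le_of_dvd (by norm_num) h
    have hr2 := hr.two_le
    have hs2 := hs.two_le
    nlinarith
  have hm12 : ¬ (m₁ = 1 ∧ m₂ = 1) := by
    rintro ⟨h1, h2⟩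
    rw [h1, h2] at hdvd
    exact hrs2 hdvd
  have hpow₁ : ∃ k, m₁ = p ^ k := by
    have h1 : m₁ ∣ p ^ a := by
      rw [← ha, ← hn₁, hm₁]; exact dvd_mul_right _ _
    obtain ⟨k, _, hk⟩ := (Nat.dvd_prime_pow hp).1 h1
    exact ⟨k, hk⟩
  have hpow₂ : ∃ k, m₂ = p ^ k := by
    have h1 : m₂ ∣ p ^ b := by
      rw [← hb, ← hn₂, hm₂]; exact dvd_mul_right _ _
    obtain ⟨k, _, hk⟩ := (Nat.dvd_prime_pow hp).1 h1
    exact ⟨k, hk⟩
  have hpn : ¬ p ∣ m₁ + m₂ := by
    intro hd
    obtain ⟨k, hk⟩ := hpow₁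
    obtain ⟨l, hl⟩ := hpow₂
    rcases Nat.eq_zero_or_pos k with hk0 | hk0
    · rcases Nat.eq_zero_or_pos l with hl0 | hl0
      · exact hm12 ⟨by rw [hk, hk0, pow_zero], by rw [hl, hl0, pow_zero]⟩
      · have h2 : p ∣ m₂ := by rw [hl]; exact dvd_pow_self p hl0.ne'
        have h1 : p ∣ m₁ := (Nat.dvd_add_left h2).1 hd
        exact hp.one_lt.ne' (Nat.dvd_one.1 (hcop ▸ Nat.dvd_gcd h1 h2))
    · have h1 : p ∣ m₁ := by rw [hk]; exact dvd_pow_self p hk0.ne'
      have h2 : p ∣ m₂ := (Nat.dvd_add_right h1).1 hd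
      exact hp.one_lt.ne' (Nat.dvd_one.1 (hcop ▸ Nat.dvd_gcd h1 h2))
  have hpr : p ≠ r := by
    rintro rfl
    exact hpn (dvd_trans (dvd_mul_right _ _) hdvd)
  have hps : p ≠ s := by
    rintro rfl
    exact hpn (dvd_trans (dvd_mul_left _ _) hdvd)
  have hpG : p ∣ Nat.card G := by
    by_contra hpG
    obtain ⟨k, hk⟩ := IsPGroup.iff_card.1 P.isPGroup'
    have hk0 : k = 0 := by
      by_contra hk0
      apply hpG
      refine dvd_trans ?_ (Subgroup.card_subgroup_dvd_card (P : Subgroup G))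
      rw [show Nat.card (P : Subgroup G) = p ^ k from hk]
      exact dvd_pow_self p hk0
    have hP1 : Nat.card (P : Subgroup G) = 1 := by
      rw [show Nat.card (P : Subgroup G) = p ^ k from hk, hk0, pow_zero]
    have hsub : Subsingleton (P : Subgroup G) := (Nat.card_eq_one_iff_unique.1 hP1).1
    have horb : ∀ z : Ω, Nat.card (MulAction.orbit P z) = 1 := by
      intro z
      rw [Nat.card_eq_one_iff_unique]
      refine ⟨⟨?_⟩, ⟨⟨z, MulAction.mem_orbit_self z⟩⟩⟩
      rintro ⟨_, u, rfl⟩ ⟨_, u', rfl⟩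
      have : u = u' := hsub.elim u u'
      rw [this]
    have e1 : n₁ = 1 := horb x
    have e2 : n₂ = 1 := horb y
    apply hm12
    constructor
    · rw [hm₁] at e1; exact Nat.eq_one_of_mul_eq_one_right e1
    · rw [hm₂] at e2; exact Nat.eq_one_of_mul_eq_one_right e2
  have hyx : y ∉ MulAction.orbit P x := fun hy =>
    Set.disjoint_left.1 hdis hy (MulAction.mem_orbit_self y)
  set v : Ω → ℤ := fun z => if z ∈ MulAction.orbit P x then (m₂ : ℤ) else -(m₁ : ℤ) with hv
  have hvx : ∀ z ∈ MulAction.orbit P x, v z = m₂ := fun z hz => if_pos hz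
  have hvy : ∀ z ∈ MulAction.orbit P y, v z = -(m₁ : ℤ) := fun z hz =>
    if_neg fun hz' => Set.disjoint_left.1 hdis hz' hz
  have hvsum : ∑ z : Ω, (v z : ℚ) = 0 := by
    rw [n2c_split _ _ hdis hun (fun z => (v z : ℚ)) m₂ (-(m₁ : ℚ))
      (fun z hz => by rw [hvx z hz]; push_cast; rfl) (fun z hz => by rw [hvy z hz]; push_cast; rfl)]
    rw [← hn₁, ← hn₂, hm₁, hm₂]
    push_cast
    ring
  refine ⟨p, r, s, P, fun g => v (g • x), m₂, hp, hr, hs, hpr, hps, hrs, hpG, ?_, ?_, ?_, ?_⟩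
  · obtain ⟨g, hg⟩ := htr.exists_smul_eq x y
    refine ⟨1, g, ?_⟩
    show v ((1 : G) • x) ≠ v (g • x)
    rw [one_smul, hg, hvx x (MulAction.mem_orbit_self x), hvy y (MulAction.mem_orbit_self y)]
    have h1 : (0 : ℤ) < m₁ := by exact_mod_cast hm₁pos
    have h2 : (0 : ℤ) < m₂ := by exact_mod_cast hm₂pos
    intro h
    omega
  · intro g
    set φ : Ω → ℚ := fun z => ∑ u : (P : Subgroup G), (v (g • (u : G) • z) : ℚ) with hφ
    have hφinv : ∀ (u' : (P : Subgroup G)) (z : Ω), φ ((u' : G) • z) = φ z := by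
      intro u' z
      rw [hφ]
      refine Fintype.sum_equiv (Equiv.mulRight u') _ _ ?_
      intro u
      simp [mul_smul]
    have hφx : ∀ z ∈ MulAction.orbit P x, φ z = φ x := by
      rintro _ ⟨u, rfl⟩
      exact hφinv u x
    have hφy : ∀ z ∈ MulAction.orbit P y, φ z = φ y := by
      rintro _ ⟨u, rfl⟩
      exact hφinv u y
    have hφsum : ∑ z : Ω, φ z = 0 := by
      rw [hφ, Finset.sum_comm]
      have : ∀ u : (P : Subgroup G), ∑ z : Ω, (v (g • (u : G) • z) : ℚ) = 0 := by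
        intro u
        rw [← hvsum]
        refine Fintype.sum_equiv (MulAction.toPerm (g * (u : G))) _ _ ?_
        intro z
        simp [mul_smul]
      exact Finset.sum_eq_zero fun u _ => this u
    have hrel : (n₁ : ℚ) * φ x + n₂ * φ y = 0 := by
      rw [← hφsum, n2c_split _ _ hdis hun φ (φ x) (φ y) hφx hφy]
    have hm₂q : (m₂ : ℚ) ≠ 0 := by exact_mod_cast hm₂pos.ne'
    have hdq : (d : ℚ) ≠ 0 := by exact_mod_cast hdpos.ne'
    have hrel' : (m₁ : ℚ) * φ x + m₂ * φ y = 0 := by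
      rw [hm₁, hm₂] at hrel
      push_cast at hrel
      have : (d : ℚ) * ((m₁ : ℚ) * φ x + m₂ * φ y) = 0 := by linarith
      exact (mul_eq_zero.1 this).resolve_left hdq
    refine ⟨φ x / m₂, fun h => ?_⟩
    have e1 : (∑ᶠ u : (P : Subgroup G), ((fun g => v (g • x)) (g * u * h) : ℚ)) = φ (h • x) := by
      rw [finsum_eq_sum_of_fintype, hφ]
      refine Finset.sum_congr rfl fun u _ => ?_
      simp [mul_smul]
    refine Eq.trans e1 ?_
    show φ (h • x) = φ x / m₂ * (v (h • x) : ℚ)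
    have hmem : h • x ∈ MulAction.orbit P x ∪ MulAction.orbit P y := by rw [hun]; trivial
    rcases hmem with hz | hz
    · rw [hφx _ hz, hvx _ hz]
      push_cast
      field_simp
    · rw [hφy _ hz, hvy _ hz]
      push_cast
      field_simp
      linarith
  · intro g
    show ((r : ℤ) * s) ∣ v (g • x) - m₂
    have hd : ((r : ℤ) * s) ∣ (m₁ : ℤ) + m₂ := by exact_mod_cast hdvd
    have hmem : g • x ∈ MulAction.orbit P x ∪ MulAction.orbit P y := by rw [hun]; trivial
    rcases hmem with hz | hz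
    · rw [hvx _ hz, sub_self]; exact dvd_zero _
    · rw [hvy _ hz]
      have : -(m₁ : ℤ) - m₂ = -((m₁ : ℤ) + m₂) := by ring
      rw [this]
      exact (dvd_neg).2 hd
  · have h1 : Nat.Coprime m₂ (m₁ + m₂) := by
      rw [Nat.coprime_add_self_right]
      exact (Nat.coprime_comm).1 hcop
    have h2 : Nat.Coprime m₂ (r * s) := Nat.Coprime.coprime_dvd_right hdvd h1
    have h3 := Nat.isCoprime_iff_coprime.2 h2
    push_cast at h3
    exact h3

end H96S
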