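import Pool.Agent.Lib.H96S.Defs

/-!
# Chunk N3A: the order of `SL(2, F)`
-/

namespace H96S

open Matrix

/-- the matrices of determinant one with a given first row and entries -/
noncomputable def n3aEquiv (F : Type) [Field F] [DecidableEq F] :
    (Fˣ × F × F) ⊕ (Fˣ × F) ≃ SpecialLinearGroup (Fin 2) F where
  toFun t := Sum.elim
    (fun t => ⟨!![(t.1 : F), t.2.1; t.2.2, (1 + t.2.1 * t.2.2) * ((t.1⁻¹ : Fˣ) : F)], by
      rw [Matrix.det_fin_two_of]
      have := t.1.mul_inv
      linear_combination (1 + t.2.1 * t.2.2) * this⟩)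
    (fun t => ⟨!![0, (t.1 : F); -((t.1⁻¹ : Fˣ) : F), t.2], by
      rw [Matrix.det_fin_two_of]
      have := t.1.mul_inv
      linear_combination this⟩) t
  invFun g := if h : (g : Matrix (Fin 2) (Fin 2) F) 0 0 = 0 then
      Sum.inr (⟨(g : Matrix (Fin 2) (Fin 2) F) 0 1, -(g : Matrix (Fin 2) (Fin 2) F) 1 0, by
        have := g.det_coe; rw [Matrix.det_fin_two, h] at this; linear_combination this, by
        have := g.det_coe; rw [Matrix.det_fin_two, h] at this; linear_combination this⟩,
        (g : Matrix (Fin 2) (Fin 2) F) 1 1)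
    else Sum.inl (Units.mk0 _ h, (g : Matrix (Fin 2) (Fin 2) F) 0 1,
      (g : Matrix (Fin 2) (Fin 2) F) 1 0)
  left_inv := by
    rintro (⟨a, b, c⟩ | ⟨a, b⟩)
    · have ha : (a : F) ≠ 0 := a.ne_zero
      simp [ha]
    · simp
  right_inv := by
    intro g
    by_cases h : (g : Matrix (Fin 2) (Fin 2) F) 0 0 = 0
    · simp only [h, dif_pos]
      ext i j
      fin_cases i <;> fin_cases j <;> simp [h]
      have h1 := g.det_coe
      rw [Matrix.det_fin_two, h] at h1
      have h2 : (g : Matrix (Fin 2) (Fin 2) F) 0 1 ≠ 0 := by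
        intro h0
        rw [h0] at h1
        simp at h1
      field_simp
      linear_combination h1
    · simp only [h, dif_neg, not_false_eq_true]
      ext i j
      fin_cases i <;> fin_cases j <;> simp
      have := g.det_coe
      rw [Matrix.det_fin_two] at this
      field_simp
      linear_combination -this

/-- `|SL(2, F)| = q (q - 1) (q + 1)`.
Proof: `Matrix.card_GL_field` gives `|GL(2, F)| = (q² - 1)(q² - q)`; the determinant
`GL(2, F) → Fˣ` is surjective with kernel `SL(2, F)` (`Matrix.SpecialLinearGroup.toGL`), and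
`|Fˣ| = q - 1`.  Or directly: the first column `(a, c) ≠ 0` (`q² - 1` choices), and for each there are
`q` second columns. -/
theorem card_sl2 (F : Type) [Field F] [Fintype F] [DecidableEq F] :
    Nat.card (SpecialLinearGroup (Fin 2) F) =
      Fintype.card F * (Fintype.card F - 1) * (Fintype.card F + 1) := by
  rw [← Nat.card_congr (n3aEquiv F), Nat.card_eq_fintype_card, Fintype.card_sum]
  simp only [Fintype.card_prod, Fintype.card_units]
  ring

end H96S
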