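import Pool.Agent.Lib.H96S.N2B
import Pool.Agent.Lib.H96S.N3A

/-!
# Chunk N3: `SL(2, F)` when `q + 1` is divisible by two primes
-/

namespace H96S

open Matrix

/-- the upper unitriangular matrices -/
def n3U (F : Type) [Field F] : Multiplicative F →* SpecialLinearGroup (Fin 2) F where
  toFun t := ⟨!![1, Multiplicative.toAdd t; 0, 1], by simp [Matrix.det_fin_two]⟩
  map_one' := by
    ext i j
    fin_cases i <;> fin_cases j <;> simp
  map_mul' s t := by
    ext i j
    fin_cases i <;> fin_cases j <;>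
      simp [Matrix.mul_apply, Fin.sum_univ_two, add_comm]

lemma n3U_injective (F : Type) [Field F] : Function.Injective (n3U F) := by
  intro s t h
  have := congrArg (fun g : SpecialLinearGroup (Fin 2) F => (g : Matrix (Fin 2) (Fin 2) F) 0 1) h
  simpa [n3U] using this

lemma n3_entry {F : Type} [Field F] (g h : SpecialLinearGroup (Fin 2) F) (t : F) :
    ((g * n3U F (Multiplicative.ofAdd t) * h : SpecialLinearGroup (Fin 2) F) :
      Matrix (Fin 2) (Fin 2) F) 1 0 =
      (g : Matrix (Fin 2) (Fin 2) F) 1 0 * ((h : Matrix (Fin 2) (Fin 2) F) 0 0 +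
        t * (h : Matrix (Fin 2) (Fin 2) F) 1 0) +
      (g : Matrix (Fin 2) (Fin 2) F) 1 1 * (h : Matrix (Fin 2) (Fin 2) F) 1 0 := by
  simp [n3U, Matrix.mul_apply, Fin.sum_univ_two]
  ring

/-- Proof.  Let `p` be the characteristic, `q = p ^ n`.  `P = {!![1, t; 0, 1]}` is a subgroup of order `q`
and `q` is the exact power of `p` in `|SL(2,F)| = q (q-1)(q+1)`, so it is a Sylow `p`-subgroup
(`Sylow.ofCard` or `IsPGroup.toSylow`).  Put `f g = q` if `g 1 0 = 0` and `f g = -1` otherwise, `lam g = f g`.
Claim `∑_{t ∈ F} f(g u_t h) = f(g) f(h)`: let `(a, b)` be the first column of `h`; the lower left entry of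
`g u_t h` is `g10 (a + t b) + g11 b`.
* `b = 0` (then `a ≠ 0`): it is `g10 a`, zero iff `g10 = 0`: the sum is `q f(g) = f(h) f(g)`.
* `b ≠ 0`, `g10 ≠ 0`: it vanishes for exactly one `t`: the sum is `q - (q - 1) = 1 = f(g) f(h)`.
* `b ≠ 0`, `g10 = 0` (then `g11 ≠ 0`): it never vanishes: the sum is `- q = f(g) f(h)`.
All values are `≡ -1 mod (q + 1)`, so mod `r s`; `c = -1`.  `f` is not constant (`1` and `!![0,-1;1,0]`).
`p ≠ r, s` because `r, s ∣ q + 1` and `p ∣ q`. -/
theorem sl2_zonal (F : Type) [Field F] [Fintype F] [DecidableEq F] (r s : ℕ) (hr : r.Prime)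
    (hs : s.Prime) (hrs : r ≠ s) (h : r * s ∣ Fintype.card F + 1) :
    Zonal (SpecialLinearGroup (Fin 2) F) := by
  classical
  obtain ⟨p, hchar⟩ := CharP.exists F
  obtain ⟨n, hp, hq⟩ := FiniteField.card F p
  have hpf := Fact.mk hp
  set q := Fintype.card F with hqdef
  have hpq : p ∣ q := by rw [hq]; exact dvd_pow_self p n.ne_zero
  have hq2 : 2 ≤ q := by
    rw [hq]
    calc 2 ≤ p := hp.two_le
      _ = p ^ 1 := (pow_one p).symm
      _ ≤ p ^ (n : ℕ) := Nat.pow_le_pow_right hp.pos n.pos
  have hcardR : Nat.card (n3U F).range = q := by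
    rw [← Nat.card_congr (MonoidHom.ofInjective (n3U_injective F)).toEquiv]
    rw [Nat.card_eq_fintype_card, Fintype.card_multiplicative]
  have hcardG := card_sl2 F
  rw [← hqdef] at hcardG
  have hindex : (n3U F).range.index = (q - 1) * (q + 1) := by
    have h1 := (n3U F).range.card_mul_index
    rw [hcardR, hcardG, mul_assoc] at h1
    exact Nat.eq_of_mul_eq_mul_left (by omega) h1
  have hp1 : ¬ p ∣ q - 1 := by
    intro hd
    have h1 : p ∣ q - (q - 1) := Nat.dvd_sub hpq hd
    rw [show q - (q - 1) = 1 by omega] at h1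
    exact hp.one_lt.ne' (Nat.dvd_one.1 h1)
  have hp2 : ¬ p ∣ q + 1 := by
    intro hd
    have h1 : p ∣ 1 := (Nat.dvd_add_right hpq).1 hd
    exact hp.one_lt.ne' (Nat.dvd_one.1 h1)
  have hpi : ¬ p ∣ (n3U F).range.index := by
    rw [hindex]
    intro hd
    rcases hp.dvd_mul.1 hd with h' | h'
    · exact hp1 h'
    · exact hp2 h'
  have hpg : IsPGroup p (n3U F).range := IsPGroup.of_card (n := n) (by rw [hcardR, hq])
  have hpr : p ≠ r := by
    rintro rfl
    exact hp2 (dvd_trans (dvd_mul_right _ _) h)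
  have hps : p ≠ s := by
    rintro rfl
    exact hp2 (dvd_trans (dvd_mul_left _ _) h)
  have hqq : (Fintype.card F : ℚ) = q := rfl
  refine ⟨p, r, s, hpg.toSylow hpi,
    fun g => if (g : Matrix (Fin 2) (Fin 2) F) 1 0 = 0 then (q : ℤ) else -1, -1,
    hp, hr, hs, hpr, hps, hrs, ?_, ?_, ?_, ?_, ?_⟩
  · rw [hcardG]
    exact dvd_mul_of_dvd_left (dvd_mul_of_dvd_left hpq _) _
  · refine ⟨1, ⟨!![0, -1; 1, 0], by simp [Matrix.det_fin_two]⟩, ?_⟩
    simp
  · intro g
    refine ⟨if (g : Matrix (Fin 2) (Fin 2) F) 1 0 = 0 then (q : ℚ) else -1, fun h => ?_⟩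
    let e : F ≃ (n3U F).range :=
      Multiplicative.ofAdd.trans (MonoidHom.ofInjective (n3U_injective F)).toEquiv
    have he : ∀ t : F, ((e t : (n3U F).range) : SpecialLinearGroup (Fin 2) F) =
        n3U F (Multiplicative.ofAdd t) := fun t => rfl
    have hfin : (∑ᶠ u : (n3U F).range, (((if ((g * u * h : SpecialLinearGroup (Fin 2) F) :
        Matrix (Fin 2) (Fin 2) F) 1 0 = 0 then (q : ℤ) else -1 : ℤ)) : ℚ)) =
        ∑ t : F, (if (g : Matrix (Fin 2) (Fin 2) F) 1 0 * ((h : Matrix (Fin 2) (Fin 2) F) 0 0 +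
        t * (h : Matrix (Fin 2) (Fin 2) F) 1 0) +
      (g : Matrix (Fin 2) (Fin 2) F) 1 1 * (h : Matrix (Fin 2) (Fin 2) F) 1 0 = 0 then (q : ℚ)
        else -1) := by
      rw [← finsum_comp_equiv e, finsum_eq_sum_of_fintype]
      refine Finset.sum_congr rfl fun t _ => ?_
      rw [he, n3_entry]
      split_ifs <;> simp
    refine Eq.trans hfin ?_
    push_cast
    set c := (g : Matrix (Fin 2) (Fin 2) F) 1 0 with hc
    set d := (g : Matrix (Fin 2) (Fin 2) F) 1 1 with hd
    set a := (h : Matrix (Fin 2) (Fin 2) F) 0 0 with ha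
    set b := (h : Matrix (Fin 2) (Fin 2) F) 1 0 with hb
    have hdet := h.det_coe
    have hdetg := g.det_coe
    rw [Matrix.det_fin_two] at hdet hdetg
    rw [← ha, ← hb] at hdet
    rw [← hc, ← hd] at hdetg
    by_cases hb0 : b = 0
    · have ha0 : a ≠ 0 := by
        intro h0
        rw [h0, hb0] at hdet
        simp at hdet
      have e1 : ∀ t : F, (if c * (a + t * b) + d * b = 0 then (q : ℚ) else -1) =
          if c = 0 then (q : ℚ) else -1 := by
        intro t
        rw [hb0, mul_zero, mul_zero, add_zero, add_zero]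
        congr 1
        exact propext ⟨fun h => (mul_eq_zero.1 h).resolve_right ha0, fun h => by rw [h, zero_mul]⟩
      rw [Finset.sum_congr rfl (fun t _ => e1 t), if_pos hb0]
      simp only [Finset.sum_const, Finset.card_univ, nsmul_eq_mul, hqq]
      push_cast
      ring
    · rw [if_neg hb0]
      by_cases hc0 : c = 0
      · have hd0 : d ≠ 0 := by
          intro h0
          rw [h0, hc0] at hdetg
          simp at hdetg
        have e1 : ∀ t : F, (if c * (a + t * b) + d * b = 0 then (q : ℚ) else -1) = -1 := by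
          intro t
          rw [hc0, zero_mul, zero_add, if_neg (mul_ne_zero hd0 hb0)]
        rw [Finset.sum_congr rfl (fun t _ => e1 t), if_pos hc0]
        simp only [Finset.sum_const, Finset.card_univ, nsmul_eq_mul, hqq]
      · have e1 : ∀ t : F, (if c * (a + t * b) + d * b = 0 then (q : ℚ) else -1) =
            (if t = -(c * a + d * b) / (c * b) then ((q : ℚ) + 1) else 0) + -1 := by
          intro t
          have hcb : c * b ≠ 0 := mul_ne_zero hc0 hb0
          by_cases ht : t = -(c * a + d * b) / (c * b)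
          · rw [if_pos ht, if_pos]
            · ring
            · rw [ht]; field_simp; ring
          · rw [if_neg ht, if_neg]
            · ring
            · intro hcon
              apply ht
              rw [eq_div_iff hcb]
              linear_combination hcon
        rw [Finset.sum_congr rfl (fun t _ => e1 t), Finset.sum_add_distrib, if_neg hc0,
          Finset.sum_ite_eq']
        simp only [Finset.sum_const, Finset.card_univ, nsmul_eq_mul, hqq, Finset.mem_univ, if_true]
        push_cast
        ring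
  · intro g
    have h' : ((r : ℤ) * s) ∣ (q : ℤ) + 1 := by exact_mod_cast h
    show ((r : ℤ) * s) ∣ (if (g : Matrix (Fin 2) (Fin 2) F) 1 0 = 0 then (q : ℤ) else -1) - -1
    split_ifs
    · rw [sub_neg_eq_add]; exact h'
    · simp
  · exact isCoprime_one_left.neg_left

end H96S
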