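import Mathlib

/-!
# Chunk N4 (pure algebra): a convolution lemma for groups of prime power order
-/

namespace H96S

open MonoidAlgebra

lemma n4_single_sum {Γ : Type} [CommGroup Γ] {k : Type} [CommRing k] (u : Γ) {ι : Type}
    (S : Finset ι) (f : ι → k) :
    ∑ x ∈ S, (single u (f x) : MonoidAlgebra k Γ) = single u (∑ x ∈ S, f x) := by
  classical
  induction S using Finset.induction_on with
  | empty => simp
  | insert a s ha ih => rw [Finset.sum_insert ha, Finset.sum_insert ha, ih, single_add]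

/-- one step: everything is divisible by `ell` -/
lemma n4_step {Γ : Type} [CommGroup Γ] [Fintype Γ] (ell j : ℕ) (hell : ell.Prime)
    (hΓ : Fintype.card Γ = ell ^ j) (α d : Γ → ℤ)
    (h : ∀ t, ∑ s, α s * d (t * s⁻¹) = 0) (hα : ¬ (ell : ℤ) ∣ ∑ s, α s) :
    ∀ t, (ell : ℤ) ∣ d t := by
  classical
  have hFact := Fact.mk hell
  have hchar : CharP (MonoidAlgebra (ZMod ell) Γ) ell := charP_of_injective_algebraMap
    (R := ZMod ell) (A := MonoidAlgebra (ZMod ell) Γ) (algebraMap (ZMod ell) _).injective ell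
  have hexp : ExpChar (MonoidAlgebra (ZMod ell) Γ) ell := ExpChar.prime hell
  set A : MonoidAlgebra (ZMod ell) Γ := ∑ s : Γ, single s ((α s : ℤ) : ZMod ell) with hA
  set D : MonoidAlgebra (ZMod ell) Γ := ∑ t : Γ, single t ((d t : ℤ) : ZMod ell) with hD
  have hAD : A * D = 0 := by
    rw [hA, hD, Finset.sum_mul]
    have h1 : ∀ s : Γ, (single s ((α s : ℤ) : ZMod ell) : MonoidAlgebra (ZMod ell) Γ) *
        ∑ t : Γ, single t ((d t : ℤ) : ZMod ell) =
        ∑ u : Γ, single u (((α s * d (u * s⁻¹) : ℤ)) : ZMod ell) := by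
      intro s
      rw [Finset.mul_sum]
      refine Fintype.sum_equiv (Equiv.mulLeft s) _ _ ?_
      intro t
      rw [single_mul_single]
      simp only [Equiv.coe_mulLeft]
      congr 1
      rw [mul_comm s t, mul_inv_cancel_right]
      push_cast
      rfl
    rw [Finset.sum_congr rfl (fun s _ => h1 s), Finset.sum_comm]
    refine Finset.sum_eq_zero fun u _ => ?_
    rw [n4_single_sum]
    have h2 : ∑ x : Γ, (((α x * d (u * x⁻¹) : ℤ)) : ZMod ell) = 0 := by
      rw [← Int.cast_sum, h u]; simp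
    rw [h2, single_zero]
  have hpow : A ^ ell ^ j = single 1 ((∑ s, α s : ℤ) : ZMod ell) := by
    rw [hA, sum_pow_char_pow]
    have h1 : ∀ s : Γ, (single s ((α s : ℤ) : ZMod ell) : MonoidAlgebra (ZMod ell) Γ) ^ ell ^ j =
        single 1 ((α s : ℤ) : ZMod ell) := by
      intro s
      rw [single_pow, ← hΓ, pow_card_eq_one, hΓ, ZMod.pow_card_pow]
    rw [Finset.sum_congr rfl (fun s _ => h1 s), n4_single_sum]
    congr 1
    push_cast
    rfl
  have hunit : ((∑ s, α s : ℤ) : ZMod ell) ≠ 0 := by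
    intro h0
    exact hα ((ZMod.intCast_zmod_eq_zero_iff_dvd _ _).1 h0)
  have hD0 : D = 0 := by
    have h1 : A ^ ell ^ j * D = 0 := by
      obtain ⟨n, hn⟩ : ∃ n, ell ^ j = n + 1 := ⟨ell ^ j - 1, by
        have := Nat.pos_of_ne_zero (pow_ne_zero j hell.ne_zero); omega⟩
      rw [hn, pow_succ, mul_assoc, hAD, mul_zero]
    rw [hpow] at h1
    have h2 : (single 1 (((∑ s, α s : ℤ) : ZMod ell)⁻¹) : MonoidAlgebra (ZMod ell) Γ) *
        (single 1 ((∑ s, α s : ℤ) : ZMod ell) * D) = 0 := by rw [h1, mul_zero]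
    rw [← mul_assoc, single_mul_single, one_mul, inv_mul_cancel₀ hunit] at h2
    rwa [← one_def, one_mul] at h2
  intro t
  rw [← ZMod.intCast_zmod_eq_zero_iff_dvd]
  have h3 : D.coeff t = ((d t : ℤ) : ZMod ell) := by
    rw [hD, coeff_sum, Finsupp.finsetSum_apply]
    have h4 : ∀ t' : Γ, (single t' ((d t' : ℤ) : ZMod ell) : MonoidAlgebra (ZMod ell) Γ).coeff t =
        if t' = t then ((d t' : ℤ) : ZMod ell) else 0 := fun t' => by
      rw [coeff_single, Finsupp.single_apply]
    rw [Finset.sum_congr rfl (fun t' _ => h4 t')]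
    simp
  rw [← h3, hD0]
  simp

/-- A convolution lemma. -/
theorem conv_uniform {Γ : Type} [CommGroup Γ] [Fintype Γ] (ell j : ℕ) (hell : ell.Prime)
    (hΓ : Fintype.card Γ = ell ^ j) (α β : Γ → ℤ) (C : ℤ)
    (h : ∀ t, ∑ s, α s * β (t * s⁻¹) = C) (hα : ¬ (ell : ℤ) ∣ ∑ s, α s) :
    ∀ s t, β s = β t := by
  classical
  set n : ℤ := (Fintype.card Γ : ℤ) with hn
  have hshift : ∀ s : Γ, ∑ t : Γ, β (t * s⁻¹) = ∑ t : Γ, β t := fun s =>
    Fintype.sum_equiv (Equiv.mulRight s⁻¹) _ _ (fun _ => rfl)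
  have htot : (∑ s, α s) * ∑ t, β t = n * C := by
    have h1 : ∑ t : Γ, ∑ s, α s * β (t * s⁻¹) = n * C := by
      rw [Finset.sum_congr rfl (fun t _ => h t)]
      simp [hn]
    rw [← h1, Finset.sum_comm, Finset.sum_mul]
    refine Finset.sum_congr rfl fun s _ => ?_
    rw [← Finset.mul_sum, hshift s]
  set d : Γ → ℤ := fun t => n * β t - ∑ u, β u with hd
  have hconv : ∀ t, ∑ s, α s * d (t * s⁻¹) = 0 := by
    intro t
    have h1 : ∀ s, α s * d (t * s⁻¹) = n * (α s * β (t * s⁻¹)) - α s * ∑ u, β u := by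
      intro s; simp only [hd]; ring
    rw [Finset.sum_congr rfl (fun s _ => h1 s), Finset.sum_sub_distrib, ← Finset.mul_sum, h t,
      ← Finset.sum_mul, htot, sub_self]
  have hpow : ∀ i : ℕ, ∀ d' : Γ → ℤ, (∀ t, ∑ s, α s * d' (t * s⁻¹) = 0) →
      ∀ t, (ell : ℤ) ^ i ∣ d' t := by
    intro i
    induction i with
    | zero => intro d' _ t; simp
    | succ i ih =>
      intro d' hd' t
      have h1 := n4_step ell j hell hΓ α d' hd' hα
      choose e he using h1
      have hell0 : (ell : ℤ) ≠ 0 := by exact_mod_cast hell.ne_zero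
      have h2 : ∀ t, ∑ s, α s * e (t * s⁻¹) = 0 := by
        intro t
        have h3 := hd' t
        have h4 : ∀ s, α s * d' (t * s⁻¹) = ell * (α s * e (t * s⁻¹)) := by
          intro s; rw [he (t * s⁻¹)]; ring
        rw [Finset.sum_congr rfl (fun s _ => h4 s), ← Finset.mul_sum] at h3
        exact (mul_eq_zero.1 h3).resolve_left hell0
      have h5 := ih e h2 t
      rw [he t, pow_succ, mul_comm ((ell : ℤ) ^ i)]
      exact mul_dvd_mul_left _ h5
  have hd0 : ∀ t, d t = 0 := by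
    intro t
    by_contra hne
    have h1 := hpow (d t).natAbs d hconv t
    have h2 : ((ell : ℤ) ^ (d t).natAbs).natAbs ∣ (d t).natAbs := Int.natAbs_dvd_natAbs.2 h1
    have h3 : (((ell : ℤ) ^ (d t).natAbs).natAbs) = ell ^ (d t).natAbs := by
      rw [Int.natAbs_pow]; simp
    rw [h3] at h2
    have h4 := Nat.le_of_dvd (Int.natAbs_pos.2 hne) h2
    have h5 := Nat.lt_pow_self hell.one_lt (n := (d t).natAbs)
    omega
  intro s t
  have h1 := hd0 s
  have h2 := hd0 t
  simp only [hd] at h1 h2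
  have hn0 : n ≠ 0 := by
    have := Fintype.card_pos (α := Γ)
    rw [hn]; exact_mod_cast this.ne'
  have : n * β s = n * β t := by linarith
  exact mul_left_cancel₀ hn0 this

end H96S
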