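import Pool.Agent.Lib.H96S.N3A

/-!
# Definitions for the chunks N6 - N16 (Sylow subgroup acting regularly on the projective line)
-/

namespace H96S

open Matrix

/-- the group `SL(2, F)` -/
abbrev SL2 (F : Type) [Field F] : Type := SpecialLinearGroup (Fin 2) F

/-- the action of `SL(2, F)` on column vectors -/
def act {F : Type} [Field F] (g : SL2 F) (x : Fin 2 → F) : Fin 2 → F :=
  (g : Matrix (Fin 2) (Fin 2) F).mulVec x

theorem act_mul {F : Type} [Field F] (g h : SL2 F) (x : Fin 2 → F) :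
    act (g * h) x = act g (act h x) := by
  exact (Matrix.mulVec_mulVec x (g : Matrix (Fin 2) (Fin 2) F) (h : Matrix (Fin 2) (Fin 2) F)).symm

theorem act_one {F : Type} [Field F] (x : Fin 2 → F) : act (1 : SL2 F) x = x := by
  simp [act]

theorem act_smul {F : Type} [Field F] (g : SL2 F) (c : F) (x : Fin 2 → F) :
    act g (c • x) = c • act g x := by
  simp [act, Matrix.mulVec_smul]

theorem act_zero {F : Type} [Field F] (g : SL2 F) : act g 0 = 0 := by
  simp [act]

theorem act_eq_zero {F : Type} [Field F] (g : SL2 F) (x : Fin 2 → F) (h : act g x = 0) : x = 0 := by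
  have := congrArg (act g⁻¹) h
  rwa [← act_mul, inv_mul_cancel, act_one, act_zero] at this

/-- the diagonal matrix with entries `s`, `s⁻¹` -/
def diag {F : Type} [Field F] (s : Fˣ) : SL2 F :=
  ⟨!![(s : F), 0; 0, ((s⁻¹ : Fˣ) : F)], by simp [Matrix.det_fin_two]⟩

theorem act_diag {F : Type} [Field F] (s : Fˣ) (x : Fin 2 → F) :
    act (diag s) x = ![(s : F) * x 0, ((s⁻¹ : Fˣ) : F) * x 1] := by
  ext i
  fin_cases i <;> simp [act, diag, Matrix.mulVec, dotProduct, Fin.sum_univ_two]

/-- `KData K Q`: `Q` is an anisotropic binary quadratic form over `F`, `K` is a group of matrices which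
multiply `Q` by `± 1` and which acts regularly on every set `{y : Q y = ± Q x}`, `x ≠ 0`; every nonzero
element of `F` is a square or minus a square. -/
structure KData {F : Type} [Field F] (K : Subgroup (SL2 F)) (Q : (Fin 2 → F) → F) : Prop where
  quad : ∃ a b c : F, ∀ x, Q x = a * x 0 ^ 2 + b * x 0 * x 1 + c * x 1 ^ 2
  aniso : ∀ x, Q x = 0 → x = 0
  inv : ∀ κ ∈ K, ∀ x, Q (act κ x) = Q x ∨ Q (act κ x) = - Q x
  trans : ∀ x y, x ≠ 0 → y ≠ 0 → (Q y = Q x ∨ Q y = - Q x) → ∃! κ : SL2 F, κ ∈ K ∧ act κ x = y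
  sq : ∀ c : F, c ≠ 0 → ∃ d : F, c = d ^ 2 ∨ c = - d ^ 2

end H96S
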