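import Pool.Agent.Lib.H96S.GDefs

/-!
# Chunk QA: the unitriangular subgroup of `Sp(4, F)`
-/

namespace H96S

open Matrix

/-- `A` is upper unitriangular. -/
def Unitri {F : Type} [Field F] (A : SpecialLinearGroup (Fin 4) F) : Prop :=
  ∀ i j : Fin 4, (A.1 i i = 1) ∧ (j < i → A.1 i j = 0)

theorem qa_det {F : Type} [Field F] (M : Matrix (Fin 4) (Fin 4) F) (h : ∀ i j : Fin 4, (M i i = 1) ∧ (j < i → M i j = 0)) :
    M.det = 1 := by
  have htri : M.IsUpperTriangular := by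
    intro i j hij
    exact (h i j).2 hij
  rw [Matrix.det_of_isUpperTriangular htri]
  exact Finset.prod_eq_one fun i _ => (h i i).1

theorem qa_col {F : Type} [Field F] (M : Matrix (Fin 4) (Fin 4) F) (i j : Fin 4) :
    M.mulVec (Pi.single i 1) j = M j i := by
  rw [Matrix.mulVec_single_one]
  rfl

theorem qa_mv {F : Type} [Field F] (M : Matrix (Fin 4) (Fin 4) F) (x : Fin 4 → F) (i : Fin 4) :
    M.mulVec x i = M i 0 * x 0 + M i 1 * x 1 + M i 2 * x 2 + M i 3 * x 3 := by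
  show ∑ j, M i j * x j = _
  rw [Fin.sum_univ_four]

theorem qa_mk {F : Type} [Field F] (M : Matrix (Fin 4) (Fin 4) F) (h : ∀ i j : Fin 4, (M i i = 1) ∧ (j < i → M i j = 0))
    (hM : ∀ x y : Fin 4 → F, altf (M.mulVec x) (M.mulVec y) = altf x y) (x : Fin 4 → F) (i : Fin 4)
    (hx : ∀ j, M j i = (x i)⁻¹ * x j) :
    ∃ A ∈ Sp4 F, Unitri A ∧ A.1.mulVec (Pi.single i 1) = (x i)⁻¹ • x := by
  refine ⟨⟨M, qa_det M h⟩, hM, h, ?_⟩
  funext j
  rw [qa_col]
  exact hx j

/-- The matrix for the last coordinate. -/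
def qaM3 {F : Type} [Field F] (a b c : F) : Matrix (Fin 4) (Fin 4) F :=
  !![1, -c, b, a; 0, 1, 0, b; 0, 0, 1, c; 0, 0, 0, 1]

/-- The matrix for the coordinate `2`. -/
def qaM2 {F : Type} [Field F] (a b : F) : Matrix (Fin 4) (Fin 4) F :=
  !![1, 0, a, 0; 0, 1, b, a; 0, 0, 1, 0; 0, 0, 0, 1]

/-- The matrix for the coordinate `1`. -/
def qaM1 {F : Type} [Field F] (a : F) : Matrix (Fin 4) (Fin 4) F :=
  !![1, a, 0, 0; 0, 1, 0, 0; 0, 0, 1, -a; 0, 0, 0, 1]

/-- For every vector `x` whose last nonzero coordinate is `x i` there is a unitriangular element of `Sp(4, F)` which maps `e_i` to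
`x / x_i`.
Proof.  `i = 0`: the identity.  `i = 1`: `e₁ ↦ e₁ + a e₀`, `e₃ ↦ e₃ - a e₂`, other basis vectors fixed.  `i = 2`: product of
`e₂ ↦ e₂ + b e₁` (others fixed) and `e₂ ↦ e₂ + a e₀`, `e₃ ↦ e₃ + a e₁` (others fixed).  `i = 3`: `e₃ ↦ e₃ + a e₀ + b e₁ + c e₂` with
`e₁ ↦ e₁ - c e₀`, `e₂ ↦ e₂ + b e₀`, `e₀` fixed (check the six values of the form: `altf(e₀,e₃) = 1`, `altf(e₁,e₂) = 1`). -/
theorem qa_trans {F : Type} [Field F] (x : Fin 4 → F) (i : Fin 4) (hx : x i ≠ 0)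
    (h0 : ∀ j, i < j → x j = 0) :
    ∃ A ∈ Sp4 F, Unitri A ∧ A.1.mulVec (Pi.single i 1) = (x i)⁻¹ • x := by
  fin_cases i
  · refine qa_mk 1 ?_ ?_ x 0 ?_
    · intro i j
      exact ⟨Matrix.one_apply_eq i, fun hij => Matrix.one_apply_ne hij.ne'⟩
    · intro x y
      rw [Matrix.one_mulVec, Matrix.one_mulVec]
    · intro j
      have hx0 : x 0 ≠ 0 := hx
      by_cases hj : j = 0
      · rw [hj, Matrix.one_apply_eq, inv_mul_cancel₀ hx0]
      · rw [Matrix.one_apply_ne hj, h0 j (Fin.pos_of_ne_zero hj), mul_zero]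
  · have hx1 : x 1 ≠ 0 := hx
    have h2 : x 2 = 0 := h0 2 (by decide)
    have h3 : x 3 = 0 := h0 3 (by decide)
    refine qa_mk (qaM1 ((x 1)⁻¹ * x 0)) ?_ ?_ x 1 ?_
    · intro i j
      fin_cases i <;> fin_cases j <;> simp [qaM1]
    · intro x y
      simp only [altf, qa_mv, qaM1]
      simp
      ring
    · intro j
      fin_cases j <;> simp [qaM1, h2, h3, hx1]
  · have hx2 : x 2 ≠ 0 := hx
    have h3 : x 3 = 0 := h0 3 (by decide)
    refine qa_mk (qaM2 ((x 2)⁻¹ * x 0) ((x 2)⁻¹ * x 1)) ?_ ?_ x 2 ?_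
    · intro i j
      fin_cases i <;> fin_cases j <;> simp [qaM2]
    · intro x y
      simp only [altf, qa_mv, qaM2]
      simp
      ring
    · intro j
      fin_cases j <;> simp [qaM2, h3, hx2]
  · have hx3 : x 3 ≠ 0 := hx
    refine qa_mk (qaM3 ((x 3)⁻¹ * x 0) ((x 3)⁻¹ * x 1) ((x 3)⁻¹ * x 2)) ?_ ?_ x 3 ?_
    · intro i j
      fin_cases i <;> fin_cases j <;> simp [qaM3]
    · intro x y
      simp only [altf, qa_mv, qaM3]
      simp
      ring
    · intro j
      fin_cases j <;> simp [qaM3, hx3]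

theorem qa_mono0 {F : Type} [Field F] (M : Matrix (Fin 4) (Fin 4) F) (hd : M.det = 1)
    (hM : ∀ x y : Fin 4 → F, altf (M.mulVec x) (M.mulVec y) = altf x y) (c : F) (i : Fin 4)
    (hx : ∀ j, M j 0 = c * (Pi.single i 1 : Fin 4 → F) j) :
    ∃ A ∈ Sp4 F, A.1.mulVec (Pi.single 0 1) = c • (Pi.single i 1 : Fin 4 → F) := by
  refine ⟨⟨M, hd⟩, hM, ?_⟩
  funext j
  rw [qa_col]
  exact hx j

theorem qa_mono {F : Type} [Field F] (c : F) (hc : c ≠ 0) (i : Fin 4) :
    ∃ A ∈ Sp4 F, A.1.mulVec (Pi.single 0 1) = c • (Pi.single i 1 : Fin 4 → F) := by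
  fin_cases i
  · refine qa_mono0 !![c, 0, 0, 0; 0, 1, 0, 0; 0, 0, 1, 0; 0, 0, 0, c⁻¹] ?_ ?_ c 0 ?_
    · rw [Matrix.det_succ_row_zero]
      simp [Fin.sum_univ_four, Matrix.det_fin_three, Matrix.submatrix, Fin.succAbove, hc]
    · intro x y
      simp only [altf, qa_mv]
      simp
      field_simp
    · intro j
      fin_cases j <;> simp
  · refine qa_mono0 !![0, 1, 0, 0; c, 0, 0, 0; 0, 0, 0, c⁻¹; 0, 0, 1, 0] ?_ ?_ c 1 ?_
    · rw [Matrix.det_succ_row_zero]
      simp [Fin.sum_univ_four, Matrix.det_fin_three, Matrix.submatrix, Fin.succAbove, hc]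
    · intro x y
      simp only [altf, qa_mv]
      simp
      field_simp
      ring
    · intro j
      fin_cases j <;> simp
  · refine qa_mono0 !![0, 1, 0, 0; 0, 0, 0, -c⁻¹; c, 0, 0, 0; 0, 0, 1, 0] ?_ ?_ c 2 ?_
    · rw [Matrix.det_succ_row_zero]
      simp [Fin.sum_univ_four, Matrix.det_fin_three, Matrix.submatrix, Fin.succAbove, hc]
    · intro x y
      simp only [altf, qa_mv]
      simp
      field_simp
      ring
    · intro j
      fin_cases j <;> simp
  · refine qa_mono0 !![0, 0, 0, -c⁻¹; 0, 1, 0, 0; 0, 0, 1, 0; c, 0, 0, 0] ?_ ?_ c 3 ?_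
    · rw [Matrix.det_succ_row_zero]
      simp [Fin.sum_univ_four, Matrix.det_fin_three, Matrix.submatrix, Fin.succAbove, hc]
      ring
    · intro x y
      simp only [altf, qa_mv]
      simp
      field_simp
      ring
    · intro j
      fin_cases j <;> simp

theorem qa_e0 {F : Type} [Field F] (x : Fin 4 → F) (hx : x ≠ 0) :
    ∃ A ∈ Sp4 F, A.1.mulVec (Pi.single 0 1) = x := by
  have hlast : ∃ i, x i ≠ 0 ∧ ∀ j, i < j → x j = 0 := by
    by_cases h3 : x 3 = 0
    · by_cases h2 : x 2 = 0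
      · by_cases h1 : x 1 = 0
        · refine ⟨0, ?_, ?_⟩
          · intro h0
            apply hx
            funext j
            fin_cases j
            · exact h0
            · exact h1
            · exact h2
            · exact h3
          · intro j hj
            fin_cases j
            · exact absurd hj (lt_irrefl _)
            · exact h1
            · exact h2
            · exact h3
        · refine ⟨1, h1, ?_⟩
          intro j hj
          fin_cases j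
          · exact absurd hj (by decide)
          · exact absurd hj (lt_irrefl _)
          · exact h2
          · exact h3
      · refine ⟨2, h2, ?_⟩
        intro j hj
        fin_cases j
        · exact absurd hj (by decide)
        · exact absurd hj (by decide)
        · exact absurd hj (lt_irrefl _)
        · exact h3
    · refine ⟨3, h3, ?_⟩
      intro j hj
      fin_cases j
      · exact absurd hj (by decide)
      · exact absurd hj (by decide)
      · exact absurd hj (by decide)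
      · exact absurd hj (lt_irrefl _)
  obtain ⟨i, hi, h0⟩ := hlast
  obtain ⟨A, hA, -, hAx⟩ := qa_trans x i hi h0
  obtain ⟨D, hD, hDx⟩ := qa_mono (x i) hi i
  refine ⟨A * D, (Sp4 F).mul_mem hA hD, ?_⟩
  have h1 : (A * D : SpecialLinearGroup (Fin 4) F).1.mulVec (Pi.single 0 1) = A.1.mulVec (D.1.mulVec (Pi.single 0 1)) :=
    (Matrix.mulVec_mulVec _ A.1 D.1).symm
  rw [h1, hDx, Matrix.mulVec_smul, hAx, smul_smul, mul_inv_cancel₀ hi, one_smul]

/-- `Sp(4, F)` is transitive on the nonzero vectors.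
Proof.  By `qa_trans` (and diagonal matrices `diag(c, 1, 1, c⁻¹)`, `diag(1, c, c⁻¹, 1)`) it is enough to move `e₁, e₂, e₃` to `e₀`: the
monomial matrices `e₀ ↦ e₁ ↦ e₀, e₃ ↦ e₂ ↦ e₃` and `e₀ ↦ e₃ ↦ - e₀` (`e₁, e₂` fixed) are in `Sp(4, F)`. -/
theorem qa_trans' {F : Type} [Field F] (x y : Fin 4 → F) (hx : x ≠ 0) (hy : y ≠ 0) :
    ∃ A ∈ Sp4 F, A.1.mulVec x = y := by
  obtain ⟨A, hA, hAx⟩ := qa_e0 x hx
  obtain ⟨B, hB, hBy⟩ := qa_e0 y hy
  refine ⟨B * A⁻¹, (Sp4 F).mul_mem hB ((Sp4 F).inv_mem hA), ?_⟩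
  have h1 : (B * A⁻¹ : SpecialLinearGroup (Fin 4) F).1.mulVec x = B.1.mulVec ((A⁻¹ : SpecialLinearGroup (Fin 4) F).1.mulVec x) :=
    (Matrix.mulVec_mulVec _ B.1 (A⁻¹ : SpecialLinearGroup (Fin 4) F).1).symm
  have h2 : (A⁻¹ : SpecialLinearGroup (Fin 4) F).1.mulVec x = Pi.single 0 1 := by
    rw [← hAx]
    have h3 := Matrix.mulVec_mulVec (Pi.single 0 1) (A⁻¹ : SpecialLinearGroup (Fin 4) F).1 A.1
    have h4 : (A⁻¹ : SpecialLinearGroup (Fin 4) F).1 * A.1 = 1 := congrArg Subtype.val (inv_mul_cancel A)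
    rw [h3, h4, Matrix.one_mulVec]
  rw [h1, h2, hBy]

end H96S
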