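import Mathlib

/-!
# Chunk QB (pure): a determinant modulo 2
-/

namespace H96S

theorem qb_two (α β γ δ ε : ZMod 2) :
    (!![α, γ, β, 1; δ, ε, δ + 1, 0; β, γ + 1, α, 1; 1, 0, 1, 0] : Matrix (Fin 4) (Fin 4) (ZMod 2)).det = 1 := by
  rw [Matrix.det_succ_row_zero]
  simp [Fin.sum_univ_four, Matrix.det_fin_three, Matrix.submatrix, Fin.succAbove]
  revert α β γ δ ε
  decide

/-- Rows and columns are numbered 0, 1, 2, 3 (they stand for 1, 2, 3, 4).
Proof.  Work in `ZMod 2`.  With `α = N 0 0`, `γ = N 0 1`, `β = N 0 2`, `δ = N 1 0`, `ε = N 1 1` the hypotheses give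
`N = !![α, γ, β, 1; δ, ε, δ+1, 0; β, γ+1, α, 1; 1, 0, 1, 0]` mod 2, whose determinant is 1 for all 32 values (`decide`).
(`hdual`: `N (2-i) (2-j) ≡ N i j + C (i + j)`: `N 2 2 = N 0 0`, `N 2 0 = N 0 2`, `N 2 1 = N 0 1 + 1`, `N 1 2 = N 1 0 + 1`.) -/
theorem qb_det (N : Matrix (Fin 4) (Fin 4) ℤ) (C : ℤ) (hC : Odd C)
    (hrow : ∀ j : Fin 4, (2 : ℤ) ∣ N 3 j - C * (j + 1)) (hcol : ∀ i : Fin 4, (2 : ℤ) ∣ N i 3 - C * (i + 1))
    (h22 : (2 : ℤ) ∣ N 2 2 - N 0 0) (h20 : (2 : ℤ) ∣ N 2 0 - N 0 2)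
    (h21 : (2 : ℤ) ∣ N 2 1 - N 0 1 - C) (h12 : (2 : ℤ) ∣ N 1 2 - N 1 0 - C) : Odd N.det := by
  have hC2 : (C : ZMod 2) = 1 := by
    obtain ⟨k, rfl⟩ := hC
    push_cast
    have : (2 : ZMod 2) = 0 := rfl
    rw [this]
    ring
  have hz : ∀ a : ℤ, (2 : ℤ) ∣ a → (a : ZMod 2) = 0 := by
    intro a ha
    exact (ZMod.intCast_zmod_eq_zero_iff_dvd a 2).mpr ha
  have r0 := hz _ (hrow 0)
  have r1 := hz _ (hrow 1)
  have r2 := hz _ (hrow 2)
  have r3 := hz _ (hrow 3)
  have c0 := hz _ (hcol 0)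
  have c1 := hz _ (hcol 1)
  have c2 := hz _ (hcol 2)
  have d22 := hz _ h22
  have d20 := hz _ h20
  have d21 := hz _ h21
  have d12 := hz _ h12
  push_cast at r0 r1 r2 r3 c0 c1 c2 d22 d20 d21 d12
  rw [hC2] at r0 r1 r2 r3 c0 c1 c2 d21 d12
  have e2 : (2 : ZMod 2) = 0 := rfl
  have hM : N.map (Int.castRingHom (ZMod 2)) =
      !![(N 0 0 : ZMod 2), (N 0 1 : ZMod 2), (N 0 2 : ZMod 2), 1; (N 1 0 : ZMod 2), (N 1 1 : ZMod 2), (N 1 0 : ZMod 2) + 1, 0;
        (N 0 2 : ZMod 2), (N 0 1 : ZMod 2) + 1, (N 0 0 : ZMod 2), 1; 1, 0, 1, 0] := by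
    ext i j
    fin_cases i <;> fin_cases j
    all_goals simp at *
    all_goals first
      | rfl
      | linear_combination c0
      | linear_combination c1
      | linear_combination c2
      | linear_combination r0
      | linear_combination r1
      | linear_combination r2
      | linear_combination r3
      | linear_combination d22
      | linear_combination d20
      | linear_combination d21
      | linear_combination d12
      | linear_combination c1 + e2
      | linear_combination r1 + e2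
      | linear_combination c2 + e2
      | linear_combination r2 + e2
      | linear_combination r3 + 2 * e2
  have hdet : ((N.det : ℤ) : ZMod 2) = 1 := by
    have h1 := (Int.castRingHom (ZMod 2)).map_det N
    rw [RingHom.mapMatrix_apply, hM, qb_two] at h1
    exact h1
  rw [← Int.not_even_iff_odd, even_iff_two_dvd]
  intro h2
  rw [hz _ h2] at hdet
  exact zero_ne_one hdet

end H96S
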