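import Pool.Agent.Lib.H96S.GDefs

/-!
# Chunk QC: numbers of points in intersections of the subspaces `E_i` and `g E_j`
-/

namespace H96S

open Matrix

/-- number of points of projective 3-space in `E_i ∩ g E_j`, where `E_i` is spanned by the first `i` basis vectors: the number of
lines (one-dimensional subspaces) `L` with `L ≤ E_i`, `g⁻¹ L ≤ E_j`; here counted as the number of nonzero vectors
divided by `q - 1`. -/
noncomputable def qcN {F : Type} [Field F] [Fintype F] (g : SpecialLinearGroup (Fin 4) F) (i j : ℕ) : ℕ :=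
  Nat.card {x : Fin 4 → F // x ≠ 0 ∧ (∀ k : Fin 4, i ≤ k → x k = 0) ∧
    ∀ k : Fin 4, j ≤ k → (((g⁻¹ : SpecialLinearGroup (Fin 4) F)).1.mulVec x) k = 0} / (Fintype.card F - 1)

section
variable {F : Type} [Field F]

/-- vectors with the coordinates from `i` on equal to `0` -/
def qc_E (F : Type) [Field F] (i : ℕ) : Submodule F (Fin 4 → F) where
  carrier := {x | ∀ k : Fin 4, i ≤ k → x k = 0}
  add_mem' := by
    intro x y hx hy k hk
    rw [Pi.add_apply, hx k hk, hy k hk, add_zero]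
  zero_mem' := fun k _ => rfl
  smul_mem' := by
    intro c x hx k hk
    rw [Pi.smul_apply, hx k hk, smul_zero]

theorem qc_mem_E {i : ℕ} {x : Fin 4 → F} : x ∈ qc_E F i ↔ ∀ k : Fin 4, i ≤ k → x k = 0 := Iff.rfl

theorem qc_E_rank (i : ℕ) (hi : i ≤ 4) : Module.finrank F ↥(qc_E F i) = i := by
  let e : ↥(qc_E F i) ≃ₗ[F] (Fin i → F) :=
    { toFun := fun x k => x.1 (Fin.castLE hi k)
      invFun := fun y => ⟨fun k => if h : k.1 < i then y ⟨k.1, h⟩ else 0, by
        intro k hk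
        show (if h : k.1 < i then y ⟨k.1, h⟩ else 0) = 0
        rw [dif_neg (by omega)]⟩
      map_add' := fun x y => rfl
      map_smul' := fun c x => rfl
      left_inv := by
        intro x
        apply Subtype.ext
        funext k
        by_cases h : k.1 < i
        · show (if h : k.1 < i then x.1 (Fin.castLE hi ⟨k.1, h⟩) else 0) = x.1 k
          rw [dif_pos h]
          rfl
        · show (if h : k.1 < i then x.1 (Fin.castLE hi ⟨k.1, h⟩) else 0) = x.1 k
          rw [dif_neg h]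
          exact (x.2 k (not_lt.1 h)).symm
      right_inv := by
        intro y
        funext k
        show (if h : k.1 < i then y ⟨k.1, h⟩ else 0) = y k
        rw [dif_pos k.2] }
  rw [e.finrank_eq, Module.finrank_fin_fun]

/-- multiplication by a matrix of determinant one -/
def qc_e (g : SpecialLinearGroup (Fin 4) F) : (Fin 4 → F) ≃ₗ[F] (Fin 4 → F) :=
  LinearEquiv.ofLinearMap g.1.mulVecLin (g⁻¹ : SpecialLinearGroup (Fin 4) F).1.mulVecLin
    (by
      refine LinearMap.ext fun x => ?_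
      have h1 := Matrix.mulVec_mulVec x g.1 (g⁻¹ : SpecialLinearGroup (Fin 4) F).1
      have h2 : g.1 * (g⁻¹ : SpecialLinearGroup (Fin 4) F).1 = 1 :=
        congrArg Subtype.val (mul_inv_cancel g)
      rw [h2, Matrix.one_mulVec] at h1
      exact h1)
    (by
      refine LinearMap.ext fun x => ?_
      have h1 := Matrix.mulVec_mulVec x (g⁻¹ : SpecialLinearGroup (Fin 4) F).1 g.1
      have h2 : (g⁻¹ : SpecialLinearGroup (Fin 4) F).1 * g.1 = 1 :=
        congrArg Subtype.val (inv_mul_cancel g)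
      rw [h2, Matrix.one_mulVec] at h1
      exact h1)

/-- `E_i ∩ g E_j` -/
def qc_U (g : SpecialLinearGroup (Fin 4) F) (i j : ℕ) : Submodule F (Fin 4 → F) :=
  qc_E F i ⊓ (qc_E F j).map (qc_e g : (Fin 4 → F) →ₗ[F] (Fin 4 → F))

theorem qc_mem_map (g : SpecialLinearGroup (Fin 4) F) (j : ℕ) (x : Fin 4 → F) :
    x ∈ (qc_E F j).map (qc_e g : (Fin 4 → F) →ₗ[F] (Fin 4 → F)) ↔
      ∀ k : Fin 4, j ≤ k → (((g⁻¹ : SpecialLinearGroup (Fin 4) F)).1.mulVec x) k = 0 := by
  rw [Submodule.map_equiv_eq_comap_symm]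
  rfl

theorem qc_mem_U (g : SpecialLinearGroup (Fin 4) F) (i j : ℕ) (x : Fin 4 → F) :
    x ∈ qc_U g i j ↔ (∀ k : Fin 4, i ≤ k → x k = 0) ∧
      ∀ k : Fin 4, j ≤ k → (((g⁻¹ : SpecialLinearGroup (Fin 4) F)).1.mulVec x) k = 0 := by
  unfold qc_U
  rw [Submodule.mem_inf, qc_mem_E, qc_mem_map]

theorem qc_map_rank (g : SpecialLinearGroup (Fin 4) F) (j : ℕ) (hj : j ≤ 4) :
    Module.finrank F ↥((qc_E F j).map (qc_e g : (Fin 4 → F) →ₗ[F] (Fin 4 → F))) = j := by
  rw [LinearEquiv.finrank_map_eq, qc_E_rank j hj]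

theorem qc_E_top : qc_E F 4 = ⊤ := by
  rw [eq_top_iff]
  intro x _ k hk
  exact absurd k.2 (not_lt.2 hk)

theorem qc_U_right (g : SpecialLinearGroup (Fin 4) F) (i : ℕ) (hi : i ≤ 4) :
    Module.finrank F ↥(qc_U g i 4) = i := by
  unfold qc_U
  rw [qc_E_top (F := F), Submodule.map_top, LinearEquiv.range, inf_top_eq, qc_E_rank i hi]

theorem qc_U_left (g : SpecialLinearGroup (Fin 4) F) (j : ℕ) (hj : j ≤ 4) :
    Module.finrank F ↥(qc_U g 4 j) = j := by
  unfold qc_U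
  rw [qc_E_top (F := F), top_inf_eq, qc_map_rank g j hj]

/-- the alternating form as a bilinear form -/
def qc_B (F : Type) [Field F] : LinearMap.BilinForm F (Fin 4 → F) :=
  LinearMap.mk₂ F altf
    (by intro x y z; simp only [altf, Pi.add_apply]; ring)
    (by intro c x y; simp only [altf, Pi.smul_apply, smul_eq_mul]; ring)
    (by intro x y z; simp only [altf, Pi.add_apply]; ring)
    (by intro c x y; simp only [altf, Pi.smul_apply, smul_eq_mul]; ring)

theorem qc_B_apply (x y : Fin 4 → F) : qc_B F x y = altf x y := rfl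

theorem qc_perp (i : ℕ) (hi : i ≤ 4) (m : Fin 4 → F) :
    m ∈ qc_E F (4 - i) ↔ ∀ x ∈ qc_E F i, altf x m = 0 := by
  constructor
  · intro hm x hx
    rw [qc_mem_E] at hm hx
    have h : ∀ k l : Fin 4, k.1 + l.1 = 3 → x k * m l = 0 := by
      intro k l hkl
      by_cases h1 : i ≤ k
      · rw [hx k h1, zero_mul]
      · rw [hm l (by omega), mul_zero]
    have h0 := h 0 3 rfl
    have h1 := h 1 2 rfl
    have h2 := h 2 1 rfl
    have h3 := h 3 0 rfl
    unfold altf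
    rw [h0, h1, h2, h3]
    ring
  · intro h
    rw [qc_mem_E]
    intro k hk
    have hs : ∀ l : Fin 4, k.1 + l.1 = 3 → altf (Pi.single l (1 : F)) m = 0 := by
      intro l hl
      refine h _ fun k' hk' => ?_
      rw [Pi.single_apply, if_neg]
      rintro rfl
      omega
    fin_cases k
    · have := hs 3 rfl
      simpa [altf] using this
    · have := hs 2 rfl
      simpa [altf] using this
    · have := hs 1 rfl
      simpa [altf] using this
    · have := hs 0 rfl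
      simpa [altf] using this

theorem qc_B_nondeg : (qc_B F).Nondegenerate := by
  have h1 : ∀ m : Fin 4 → F, (∀ x, altf x m = 0) → m = 0 := by
    intro m hm
    have h2 := (qc_perp (F := F) 4 le_rfl m).2 fun x _ => hm x
    funext k
    exact h2 k (Nat.zero_le _)
  have h2 : ∀ x y : Fin 4 → F, altf x y = - altf y x := by
    intro x y
    unfold altf
    ring
  refine ⟨fun x hx => h1 x fun y => ?_, fun y hy => h1 y fun x => hy x⟩
  rw [h2, show altf x y = 0 from hx y, neg_zero]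

theorem qc_perp_map (g : SpecialLinearGroup (Fin 4) F) (hg : g ∈ Sp4 F) (j : ℕ) (hj : j ≤ 4)
    (m : Fin 4 → F) :
    m ∈ (qc_E F (4 - j)).map (qc_e g : (Fin 4 → F) →ₗ[F] (Fin 4 → F)) ↔
      ∀ x ∈ (qc_E F j).map (qc_e g : (Fin 4 → F) →ₗ[F] (Fin 4 → F)), altf x m = 0 := by
  have hg' : ∀ x y : Fin 4 → F, altf (g.1.mulVec x) (g.1.mulVec y) = altf x y := hg
  have hc : ∀ z : Fin 4 → F, g.1.mulVec ((g⁻¹ : SpecialLinearGroup (Fin 4) F).1.mulVec z) = z := by
    intro z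
    exact (qc_e g).apply_symm_apply z
  have h1 : m ∈ (qc_E F (4 - j)).map (qc_e g : (Fin 4 → F) →ₗ[F] (Fin 4 → F)) ↔
      ((g⁻¹ : SpecialLinearGroup (Fin 4) F)).1.mulVec m ∈ qc_E F (4 - j) := by
    rw [qc_mem_map, qc_mem_E]
  rw [h1, qc_perp j hj]
  constructor
  · rintro h x ⟨y, hy, rfl⟩
    have h2 := h y hy
    rw [← hg', hc] at h2
    exact h2
  · intro h x hx
    rw [← hg', hc]
    exact h _ ⟨x, hx, rfl⟩

theorem qc_dual (g : SpecialLinearGroup (Fin 4) F) (hg : g ∈ Sp4 F) (i j : ℕ) (hi : i ≤ 4)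
    (hj : j ≤ 4) : Module.finrank F ↥(qc_U g (4 - i) (4 - j)) + i + j =
      4 + Module.finrank F ↥(qc_U g i j) := by
  have h1 : qc_U g (4 - i) (4 - j) = (qc_B F).orthogonal
      (qc_E F i ⊔ (qc_E F j).map (qc_e g : (Fin 4 → F) →ₗ[F] (Fin 4 → F))) := by
    ext m
    rw [LinearMap.BilinForm.mem_orthogonal_iff]
    unfold qc_U
    rw [Submodule.mem_inf, qc_perp i hi, qc_perp_map g hg j hj]
    constructor
    · rintro ⟨h2, h3⟩ x hx
      obtain ⟨y, hy, z, hz, rfl⟩ := Submodule.mem_sup.1 hx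
      rw [map_add, LinearMap.add_apply, qc_B_apply, qc_B_apply, h2 y hy, h3 z hz, add_zero]
    · intro h
      refine ⟨fun x hx => ?_, fun x hx => ?_⟩
      · exact h x (Submodule.mem_sup_left hx)
      · exact h x (Submodule.mem_sup_right hx)
  have h2 := LinearMap.BilinForm.finrank_orthogonal (qc_B_nondeg (F := F))
    (qc_E F i ⊔ (qc_E F j).map (qc_e g : (Fin 4 → F) →ₗ[F] (Fin 4 → F)))
  have h3 := Submodule.finrank_sup_add_finrank_inf_eq (qc_E F i)
    ((qc_E F j).map (qc_e g : (Fin 4 → F) →ₗ[F] (Fin 4 → F)))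
  rw [qc_E_rank i hi, qc_map_rank g j hj] at h3
  have h4 := Submodule.finrank_le
    (qc_E F i ⊔ (qc_E F j).map (qc_e g : (Fin 4 → F) →ₗ[F] (Fin 4 → F)))
  rw [Module.finrank_fin_fun] at h2 h4
  rw [h1, h2]
  unfold qc_U
  omega

variable [Fintype F]

theorem qc_count (g : SpecialLinearGroup (Fin 4) F) (i j : ℕ) :
    Nat.card {x : Fin 4 → F // x ≠ 0 ∧ (∀ k : Fin 4, i ≤ k → x k = 0) ∧
      ∀ k : Fin 4, j ≤ k → (((g⁻¹ : SpecialLinearGroup (Fin 4) F)).1.mulVec x) k = 0} =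
    Fintype.card F ^ Module.finrank F ↥(qc_U g i j) - 1 := by
  have h1 : Nat.card ↥(qc_U g i j) = Fintype.card F ^ Module.finrank F ↥(qc_U g i j) := by
    rw [Module.natCard_eq_pow_finrank (K := F), Nat.card_eq_fintype_card]
  rw [← h1]
  have h2 : Nat.card {x : Fin 4 → F // x ≠ 0 ∧ (∀ k : Fin 4, i ≤ k → x k = 0) ∧
      ∀ k : Fin 4, j ≤ k → (((g⁻¹ : SpecialLinearGroup (Fin 4) F)).1.mulVec x) k = 0} =
      ((qc_U g i j : Set (Fin 4 → F)) \ {0}).ncard := by
    rw [← Nat.card_coe_set_eq]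
    refine Nat.card_congr (Equiv.subtypeEquivRight fun x => ?_)
    rw [Set.mem_sdiff, Set.mem_singleton_iff, SetLike.mem_coe, qc_mem_U]
    tauto
  rw [h2, Set.ncard_sdiff_singleton_of_mem (by exact Submodule.zero_mem _), ← Nat.card_coe_set_eq]
  rfl

theorem qc_par (hodd : Odd (Fintype.card F)) (g : SpecialLinearGroup (Fin 4) F) (i j : ℕ) :
    (2 : ℤ) ∣ (qcN g i j : ℤ) - (Module.finrank F ↥(qc_U g i j) : ℤ) := by
  unfold qcN
  rw [qc_count, ← Nat.geomSum_eq Fintype.one_lt_card]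
  push_cast
  generalize Module.finrank F ↥(qc_U g i j) = d
  have h1 : (d : ℤ) = ∑ _k ∈ Finset.range d, (1 : ℤ) := by simp
  rw [h1, ← Finset.sum_sub_distrib]
  refine Finset.dvd_sum fun k _ => ?_
  have h2 : Odd ((Fintype.card F : ℤ) ^ k) := by
    exact Odd.pow (by exact_mod_cast hodd)
  exact (h2.sub_odd odd_one).two_dvd

end

/-- For odd `q`: the number of points in a subspace of dimension `d` is `1 + q + ... + q^(d-1) ≡ d mod 2`, so `qcN g i j ≡ dim (E_i ∩ g E_j)`.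
For `g ∈ Sp(4, F)`: `E_i^⊥ = E_(4-i)`, so
`dim (E_(4-i) ∩ g E_(4-j)) = dim (E_i + g E_j)^⊥ = 4 - i - j + dim (E_i ∩ g E_j)`.
Statements: last row and column, and the four duality congruences used in `qb_det` (rows and columns `1, 2, 3, 4`). -/
theorem qc_parity (F : Type) [Field F] [Fintype F] (hodd : Odd (Fintype.card F))
    (g : SpecialLinearGroup (Fin 4) F) (hg : g ∈ Sp4 F) :
    (∀ j, j ≤ 4 → (2 : ℤ) ∣ (qcN g 4 j : ℤ) - j) ∧ (∀ i, i ≤ 4 → (2 : ℤ) ∣ (qcN g i 4 : ℤ) - i) ∧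
    (2 : ℤ) ∣ (qcN g 3 3 : ℤ) - qcN g 1 1 ∧ (2 : ℤ) ∣ (qcN g 3 1 : ℤ) - qcN g 1 3 ∧
    (2 : ℤ) ∣ (qcN g 3 2 : ℤ) - qcN g 1 2 - 1 ∧ (2 : ℤ) ∣ (qcN g 2 3 : ℤ) - qcN g 2 1 - 1 ∧
    (∀ i j, (Fintype.card F - 1) ∣ Nat.card {x : Fin 4 → F // x ≠ 0 ∧ (∀ k : Fin 4, i ≤ k → x k = 0) ∧
      ∀ k : Fin 4, j ≤ k → (((g⁻¹ : SpecialLinearGroup (Fin 4) F)).1.mulVec x) k = 0}) := by
  have hp := qc_par hodd g
  refine ⟨fun j hj => ?_, fun i hi => ?_, ?_, ?_, ?_, ?_, fun i j => ?_⟩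
  · have h1 := hp 4 j
    rw [qc_U_left g j hj] at h1
    exact h1
  · have h1 := hp i 4
    rw [qc_U_right g i hi] at h1
    exact h1
  · have h1 : Module.finrank F ↥(qc_U g 3 3) + 1 + 1 = 4 + Module.finrank F ↥(qc_U g 1 1) :=
      qc_dual g hg 1 1 (by norm_num) (by norm_num)
    have h2 := hp 3 3
    have h3 := hp 1 1
    omega
  · have h1 : Module.finrank F ↥(qc_U g 3 1) + 1 + 3 = 4 + Module.finrank F ↥(qc_U g 1 3) :=
      qc_dual g hg 1 3 (by norm_num) (by norm_num)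
    have h2 := hp 3 1
    have h3 := hp 1 3
    omega
  · have h1 : Module.finrank F ↥(qc_U g 3 2) + 1 + 2 = 4 + Module.finrank F ↥(qc_U g 1 2) :=
      qc_dual g hg 1 2 (by norm_num) (by norm_num)
    have h2 := hp 3 2
    have h3 := hp 1 2
    omega
  · have h1 : Module.finrank F ↥(qc_U g 2 3) + 2 + 1 = 4 + Module.finrank F ↥(qc_U g 2 1) :=
      qc_dual g hg 2 1 (by norm_num) (by norm_num)
    have h2 := hp 2 3
    have h3 := hp 2 1
    omega
  · have h := Nat.sub_dvd_pow_sub_pow (Fintype.card F) 1 (Module.finrank F ↥(qc_U g i.1 j.1))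
    rw [one_pow, ← qc_count g i.1 j.1] at h
    exact h

end H96S
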