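import Pool.Agent.Lib.H96S.QA
import Pool.Agent.Lib.H96S.QB
import Pool.Agent.Lib.H96S.QC

/-!
# The points of projective 3-space and the unitriangular subgroup (for chunk QD)
-/

namespace H96S

open Matrix
open scoped LinearAlgebra.Projectivization

/-- points of projective 3-space -/
abbrev QdP (F : Type) [Field F] : Type := ℙ F (Fin 4 → F)

/-- the last nonzero coordinate -/
def QdLev {F : Type} [Field F] (v : Fin 4 → F) (i : Fin 4) : Prop := v i ≠ 0 ∧ ∀ j, i < j → v j = 0

lemma qd_lev_exists {F : Type} [Field F] (v : Fin 4 → F) (hv : v ≠ 0) : ∃ i, QdLev v i := by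
  classical
  have hne : (Finset.univ.filter fun i => v i ≠ 0).Nonempty := by
    obtain ⟨i, hi⟩ := Function.ne_iff.1 hv
    exact ⟨i, Finset.mem_filter.2 ⟨Finset.mem_univ _, hi⟩⟩
  refine ⟨(Finset.univ.filter fun i => v i ≠ 0).max' hne, ?_, ?_⟩
  · exact (Finset.mem_filter.1 (Finset.max'_mem _ hne)).2
  · intro j hj
    by_contra hcon
    exact absurd (Finset.le_max' _ j (Finset.mem_filter.2 ⟨Finset.mem_univ _, hcon⟩)) (not_le.2 hj)

lemma qd_lev_unique {F : Type} [Field F] {v : Fin 4 → F} {i j : Fin 4} (h : QdLev v i)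
    (h' : QdLev v j) : i = j := by
  rcases lt_trichotomy i j with h1 | h1 | h1
  · exact absurd (h.2 j h1) h'.1
  · exact h1
  · exact absurd (h'.2 i h1) h.1

lemma qd_lev_smul {F : Type} [Field F] {v : Fin 4 → F} {i : Fin 4} {c : F} (hc : c ≠ 0) :
    QdLev (c • v) i ↔ QdLev v i := by
  simp only [QdLev, Pi.smul_apply, smul_eq_mul, mul_eq_zero, hc, false_or, ne_eq, not_false_eq_true]

/-- the cell of a point -/
noncomputable def qdCell {F : Type} [Field F] (ω : QdP F) : Fin 4 :=
  (qd_lev_exists ω.rep ω.rep_nonzero).choose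

lemma qd_cell_mk {F : Type} [Field F] (v : Fin 4 → F) (hv : v ≠ 0) (i : Fin 4) :
    qdCell (Projectivization.mk F v hv) = i ↔ QdLev v i := by
  have h1 := (qd_lev_exists (Projectivization.mk F v hv).rep
    (Projectivization.mk F v hv).rep_nonzero).choose_spec
  obtain ⟨a, ha⟩ := Projectivization.exists_smul_eq_mk_rep F v hv
  have h2 : QdLev v (qdCell (Projectivization.mk F v hv)) := by
    have h3 : QdLev (Projectivization.mk F v hv).rep (qdCell (Projectivization.mk F v hv)) := h1
    rw [← ha] at h3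
    exact (qd_lev_smul (c := (a : F)) a.ne_zero).1 h3
  constructor
  · rintro rfl
    exact h2
  · intro h
    exact qd_lev_unique h2 h

lemma qd_cell_le {F : Type} [Field F] (v : Fin 4 → F) (hv : v ≠ 0) (i : Fin 4) :
    qdCell (Projectivization.mk F v hv) ≤ i ↔ ∀ k, i < k → v k = 0 := by
  have h2 := (qd_cell_mk v hv _).1 rfl
  constructor
  · intro h k hk
    exact h2.2 k (lt_of_le_of_lt h hk)
  · intro h
    by_contra hcon
    exact h2.1 (h _ (not_le.1 hcon))

lemma qd_count {F : Type} [Field F] [Fintype F] (S : QdP F → Prop) :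
    Nat.card {v : Fin 4 → F // ∃ h : v ≠ 0, S (Projectivization.mk F v h)} =
      Nat.card {ω : QdP F // S ω} * (Fintype.card F - 1) := by
  classical
  have e1 : {v : Fin 4 → F // ∃ h : v ≠ 0, S (Projectivization.mk F v h)} ≃
      {w : {v : Fin 4 → F // v ≠ 0} // S (Projectivization.mk F w.1 w.2)} :=
    (Equiv.subtypeSubtypeEquivSubtypeExists (fun v : Fin 4 → F => v ≠ 0)
      (fun w => S (Projectivization.mk F w.1 w.2))).symm
  have e2 : {w : {v : Fin 4 → F // v ≠ 0} // S (Projectivization.mk F w.1 w.2)} ≃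
      {t : QdP F × Fˣ // S t.1} :=
    (Projectivization.nonZeroEquivProjectivizationProdUnits F (Fin 4 → F)).subtypeEquiv
      (fun w => Iff.rfl)
  have e3 : {t : QdP F × Fˣ // S t.1} ≃ {ω : QdP F // S ω} × Fˣ :=
    Equiv.prodSubtypeFstEquivSubtypeProd
  rw [Nat.card_congr ((e1.trans e2).trans e3), Nat.card_prod, Nat.card_eq_fintype_card (α := Fˣ),
    Fintype.card_units]

lemma qd_lev_card {F : Type} [Field F] [Fintype F] (i : Fin 4) :
    Nat.card {v : Fin 4 → F // QdLev v i} = Fintype.card F ^ (i : ℕ) * (Fintype.card F - 1) := by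
  classical
  set S : Fin 4 → Finset F := fun j => if j < i then Finset.univ else
    if j = i then Finset.univ.erase 0 else {0} with hS
  have h1 : Nat.card {v : Fin 4 → F // QdLev v i} = (Fintype.piFinset S).card := by
    rw [Nat.card_eq_fintype_card, Fintype.card_subtype]
    congr 1
    ext v
    rw [Finset.mem_filter, Fintype.mem_piFinset]
    constructor
    · rintro ⟨_, h⟩ j
      rw [hS]
      dsimp only
      split_ifs with h1 h2
      · exact Finset.mem_univ _
      · rw [h2]; exact Finset.mem_erase.2 ⟨h.1, Finset.mem_univ _⟩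
      · rw [Finset.mem_singleton]
        exact h.2 j (lt_of_le_of_ne (not_lt.1 h1) (Ne.symm h2))
    · intro h
      refine ⟨Finset.mem_univ _, ?_, ?_⟩
      · have h1 := h i
        rw [hS] at h1
        simp only [lt_irrefl, if_false, if_true] at h1
        exact (Finset.mem_erase.1 h1).1
      · intro j hj
        have h1 := h j
        rw [hS] at h1
        simp only [not_lt.2 hj.le, if_false, hj.ne'] at h1
        exact Finset.mem_singleton.1 h1
  rw [h1, Fintype.card_piFinset, Fin.prod_univ_four]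
  have hc : (Finset.univ.erase (0 : F)).card = Fintype.card F - 1 := by
    rw [Finset.card_erase_of_mem (Finset.mem_univ _), Finset.card_univ]
  fin_cases i
  · simp [hS]
  · simp [hS]
  · simp [hS]
    left; ring
  · simp [hS]
    left; ring

lemma qd_cell_card {F : Type} [Field F] [Fintype F] (i : Fin 4) :
    Nat.card {ω : QdP F // qdCell ω = i} = Fintype.card F ^ (i : ℕ) := by
  have h1 := qd_count (F := F) (fun ω => qdCell ω = i)
  have h2 : Nat.card {v : Fin 4 → F // ∃ h : v ≠ 0, qdCell (Projectivization.mk F v h) = i} =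
      Nat.card {v : Fin 4 → F // QdLev v i} := by
    refine Nat.card_congr (Equiv.subtypeEquivRight fun v => ?_)
    constructor
    · rintro ⟨h, h'⟩
      exact (qd_cell_mk v h i).1 h'
    · intro h
      have hv : v ≠ 0 := by
        rintro rfl
        exact h.1 rfl
      exact ⟨hv, (qd_cell_mk v hv i).2 h⟩
  rw [h2, qd_lev_card] at h1
  have hF : 1 < Fintype.card F := Fintype.one_lt_card
  exact (Nat.eq_of_mul_eq_mul_right (by omega) h1).symm

/-! ## The unitriangular subgroup -/

lemma qd_uni_mul {F : Type} [Field F] {A B : SpecialLinearGroup (Fin 4) F} (hA : Unitri A)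
    (hB : Unitri B) : Unitri (A * B) := by
  intro i j
  constructor
  · show (A.1 * B.1) i i = 1
    rw [Matrix.mul_apply, Finset.sum_eq_single i]
    · rw [(hA i i).1, (hB i i).1, mul_one]
    · intro k _ hk
      rcases lt_or_gt_of_ne hk with h | h
      · rw [(hA i k).2 h, zero_mul]
      · rw [(hB k i).2 h, mul_zero]
    · intro h; exact absurd (Finset.mem_univ _) h
  · intro hji
    show (A.1 * B.1) i j = 0
    rw [Matrix.mul_apply]
    refine Finset.sum_eq_zero fun k _ => ?_
    rcases lt_or_ge k i with h | h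
    · rw [(hA i k).2 h, zero_mul]
    · rw [(hB k j).2 (lt_of_lt_of_le hji h), mul_zero]

lemma qd_uni_pow {F : Type} [Field F] (p : ℕ) [CharP F p] (hp : p.Prime)
    {A : SpecialLinearGroup (Fin 4) F} (hA : Unitri A) : A ^ (p ^ 2) = 1 := by
  have hpf := Fact.mk hp
  have htri : A.1.IsUpperTriangular := by
    intro i j hij
    exact (hA i j).2 hij
  have h1 := Matrix.aeval_self_charpoly A.1
  rw [Matrix.charpoly_of_isUpperTriangular _ htri] at h1
  have h2 : ∏ i : Fin 4, (Polynomial.X - Polynomial.C (A.1 i i)) =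
      (Polynomial.X - 1 : Polynomial F) ^ 4 := by
    have : ∀ i : Fin 4, (Polynomial.X - Polynomial.C (A.1 i i)) = (Polynomial.X - 1 : Polynomial F) := by
      intro i
      rw [(hA i i).1, map_one]
    rw [Finset.prod_congr rfl (fun i _ => this i), Finset.prod_const, Finset.card_univ,
      Fintype.card_fin]
  rw [h2] at h1
  simp only [map_pow, map_sub, Polynomial.aeval_X, map_one] at h1
  have h4 : 4 ≤ p ^ 2 := by
    have := hp.two_le
    nlinarith
  have h3 : (A.1 - 1) ^ (p ^ 2) = 0 := by
    rw [← Nat.add_sub_of_le h4, pow_add, h1, zero_mul]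
  have hcm : CharP (Matrix (Fin 4) (Fin 4) F) p := inferInstance
  rw [sub_pow_char_pow_of_commute p 2 (Commute.one_right _), one_pow, sub_eq_zero] at h3
  exact Subtype.ext h3

/-- the unitriangular elements of `Sp(4, F)` -/
def qdU (F : Type) [Field F] [Finite F] : Subgroup (Sp4 F) where
  carrier := {g | Unitri g.1}
  one_mem' := by
    intro i j
    refine ⟨?_, fun h => ?_⟩
    · show (1 : Matrix (Fin 4) (Fin 4) F) i i = 1
      exact Matrix.one_apply_eq i
    · show (1 : Matrix (Fin 4) (Fin 4) F) i j = 0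
      exact Matrix.one_apply_ne h.ne'
  mul_mem' := fun {a b} ha hb => qd_uni_mul ha hb
  inv_mem' := by
    intro g hg
    obtain ⟨p, hchar⟩ := CharP.exists F
    have hF := Fintype.ofFinite F
    obtain ⟨n, hp, _⟩ := FiniteField.card F p
    have h1 : g.1 ^ (p ^ 2) = 1 := qd_uni_pow p hp hg
    have hpos : 0 < p ^ 2 := by have := hp.pos; positivity
    have hpow : ∀ n : ℕ, Unitri (g.1 ^ n) := by
      intro n
      induction n with
      | zero =>
        rw [pow_zero]
        intro i j
        refine ⟨?_, fun h => ?_⟩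
        · show (1 : Matrix (Fin 4) (Fin 4) F) i i = 1
          exact Matrix.one_apply_eq i
        · show (1 : Matrix (Fin 4) (Fin 4) F) i j = 0
          exact Matrix.one_apply_ne h.ne'
      | succ n ih => rw [pow_succ]; exact qd_uni_mul ih hg
    have h2 : g.1⁻¹ = g.1 ^ (p ^ 2 - 1) := by
      apply inv_eq_of_mul_eq_one_right
      rw [← pow_succ', Nat.sub_add_cancel hpos, h1]
    show Unitri (g⁻¹).1
    have h3 : (g⁻¹).1 = g.1⁻¹ := rfl
    rw [h3, h2]
    exact hpow _

lemma qd_U_pgroup (F : Type) [Field F] [Finite F] (p : ℕ) [CharP F p] (hp : p.Prime) :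
    IsPGroup p (qdU F) := by
  intro g
  refine ⟨2, ?_⟩
  apply Subtype.ext
  apply Subtype.ext
  exact qd_uni_pow p hp g.2

/-- the unitriangular subgroup is transitive on every cell -/
lemma qd_U_trans (F : Type) [Field F] [Finite F] (ω ω' : QdP F) (h : qdCell ω = qdCell ω') :
    ∃ u ∈ qdU F, u • ω' = ω := by
  have key : ∀ (i : Fin 4) (ω : QdP F), qdCell ω = i → ∃ u ∈ qdU F,
      u • Projectivization.mk F (Pi.single i 1) (by simp) = ω := by
    intro i ω hω
    obtain ⟨v, hv, rfl⟩ : ∃ (v : Fin 4 → F) (hv : v ≠ 0), Projectivization.mk F v hv = ω :=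
      ⟨ω.rep, ω.rep_nonzero, ω.mk_rep⟩
    have hl := (qd_cell_mk v hv i).1 hω
    obtain ⟨A, hA, hAu, hAx⟩ := qa_trans v i hl.1 hl.2
    refine ⟨⟨A, hA⟩, hAu, ?_⟩
    have hne : A.1.mulVec (Pi.single i 1) ≠ 0 := by
      rw [hAx]
      exact smul_ne_zero (inv_ne_zero hl.1) hv
    show Projectivization.mk F (A.1.mulVec (Pi.single i 1)) hne = Projectivization.mk F v hv
    rw [Projectivization.mk_eq_mk_iff']
    exact ⟨(v i)⁻¹, hAx.symm⟩
  obtain ⟨u, hu, hu'⟩ := key _ ω rfl
  obtain ⟨w, hw, hw'⟩ := key _ ω' h.symm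
  refine ⟨u * w⁻¹, (qdU F).mul_mem hu ((qdU F).inv_mem hw), ?_⟩
  rw [mul_smul, ← hw', inv_smul_smul, hu']

end H96S
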