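import Pool.Agent.Lib.H96S.GDefs
import Pool.Agent.Lib.H96S.N14

/-!
# Chunk UA (pure): two counting facts for `SU(3, q)`
-/

namespace H96S

open Polynomial

/-- `q³ + 1` is not a prime power for `q ≥ 3`.
Proof.  By `prime_pow_or` it is enough to exclude `q³ + 1 = r^e`, `r` prime.  Then `q + 1` and `q² - q + 1` divide `r^e`, both are `> 1`, so both are
divisible by `r`; `q² - q + 1 = (q + 1)(q - 2) + 3`, so `r ∣ 3`, `r = 3`.  Both numbers are powers of 3 and `9` does not divide
both (it would divide 3); so one of them is 3 (and not 1), but `q + 1 ≥ 4` and `q² - q + 1 ≥ 7`. -/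
theorem ua_two_primes (q : ℕ) (hq : 3 ≤ q) :
    ∃ r s : ℕ, r.Prime ∧ s.Prime ∧ r ≠ s ∧ r * s ∣ q ^ 3 + 1 := by
  rcases prime_pow_or (q ^ 3 + 1) (by have : 0 < q ^ 3 := by positivity
                                      omega) with h | ⟨r, e, hr, he, hre⟩
  · exact h
  · exfalso
    obtain ⟨m, rfl⟩ : ∃ m, q = m + 2 := ⟨q - 2, by omega⟩
    have hm : 1 ≤ m := by omega
    have hfac : (m + 2) ^ 3 + 1 = (m + 3) * ((m + 3) * m + 3) := by ring
    rw [hfac] at hre
    have h1 : (m + 3) ∣ r ^ e := by rw [← hre]; exact dvd_mul_right _ _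
    have h2 : ((m + 3) * m + 3) ∣ r ^ e := by rw [← hre]; exact dvd_mul_left _ _
    obtain ⟨i, _, hi⟩ := (Nat.dvd_prime_pow hr).1 h1
    obtain ⟨j, _, hj⟩ := (Nat.dvd_prime_pow hr).1 h2
    have hi1 : i ≠ 0 := by rintro rfl; rw [pow_zero] at hi; omega
    have hj1 : j ≠ 0 := by rintro rfl; rw [pow_zero] at hj; omega
    have hr1 : r ∣ m + 3 := by rw [hi]; exact dvd_pow_self r hi1
    have hr2 : r ∣ (m + 3) * m + 3 := by rw [hj]; exact dvd_pow_self r hj1
    have hr3 : r ∣ 3 := (Nat.dvd_add_right (dvd_mul_of_dvd_left hr1 m)).1 hr2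
    have hr3' : r = 3 := (Nat.prime_dvd_prime_iff_eq hr Nat.prime_three).1 hr3
    subst hr3'
    have hi2 : 2 ≤ i := by
      by_contra hcon
      have : i = 1 := by omega
      rw [this] at hi
      omega
    have hj2 : 2 ≤ j := by
      by_contra hcon
      have : j = 1 := by omega
      rw [this] at hj
      nlinarith
    have h9i : 3 ^ 2 ∣ m + 3 := by rw [hi]; exact pow_dvd_pow 3 hi2
    have h9j : 3 ^ 2 ∣ (m + 3) * m + 3 := by rw [hj]; exact pow_dvd_pow 3 hj2
    have h9 : 3 ^ 2 ∣ 3 := (Nat.dvd_add_right (dvd_mul_of_dvd_left h9i m)).1 h9j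
    have := Nat.le_of_dvd (by norm_num) h9
    omega

lemma ua_roots {F : Type} [Field F] [Fintype F] (f : F[X]) (hf : f ≠ 0) :
    Nat.card {x : F // f.eval x = 0} ≤ f.natDegree := by
  classical
  rw [Nat.card_eq_fintype_card, Fintype.card_subtype]
  refine le_trans (Finset.card_le_card (t := f.roots.toFinset) ?_)
    ((Multiset.toFinset_card_le _).trans (card_roots' f))
  intro x hx
  rw [Finset.mem_filter] at hx
  rw [Multiset.mem_toFinset, mem_roots hf]
  exact hx.2

/-- the trace map -/
def uaT (F : Type) [Field F] (p f : ℕ) [CharP F p] [Fact p.Prime] : F →+ F where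
  toFun t := t + t ^ (p ^ f)
  map_zero' := by
    have : (p ^ f) ≠ 0 := pow_ne_zero _ (Fact.out (p := p.Prime)).ne_zero
    rw [zero_pow this, add_zero]
  map_add' x y := by
    rw [add_pow_char_pow]
    ring

lemma ua_frob {F : Type} [Field F] [Fintype F] (q : ℕ) (hF : Fintype.card F = q ^ 2) (x : F) :
    (x ^ q) ^ q = x := by
  rw [← pow_mul, ← sq, ← hF, FiniteField.pow_card]

lemma ua_neg {F : Type} [Field F] (p f : ℕ) [CharP F p] [Fact p.Prime] (x : F) :
    (-x) ^ (p ^ f) = -(x ^ (p ^ f)) := by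
  have h := sub_pow_char_pow (R := F) (p := p) (n := f) 0 x
  have h0 : (p ^ f) ≠ 0 := pow_ne_zero _ (Fact.out (p := p.Prime)).ne_zero
  rw [zero_sub, zero_pow h0, zero_sub] at h
  exact h

/-- In a field with `q²` elements, `q` a power of the characteristic `p`, the equation `t + t^q + b^(q+1) = 0` has exactly `q³`
solutions `(b, t)`.
Proof.  `φ x = x^q` is a field automorphism of order `≤ 2` (`x^(q²) = x`).  `T t = t + t^q` is additive; its kernel `{t : t^q = - t}` has at most
`q` elements (roots of `X^q + X`) and its image lies in `{c : c^q = c}`, which has at most `q` elements; since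
`q² = |ker T| |im T|`, both have exactly `q` elements and every `c` with `c^q = c` has exactly `q` preimages.
For every `b` the element `c = - b^(q+1)` satisfies `c^q = c` (`(-1)^q = -1` in characteristic `p`, and `b^(q² + q) = b^(1+q)`).
So there are `q² · q` solutions. -/
theorem ua_card (F : Type) [Field F] [Fintype F] (p f q : ℕ) [CharP F p] (hp : p.Prime)
    (hq : q = p ^ f) (hF : Fintype.card F = q ^ 2) :
    Nat.card {z : F × F // z.2 + z.2 ^ q + z.1 ^ (q + 1) = 0} = q ^ 3 := by
  classical
  have hpf := Fact.mk hp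
  have hF2 : 2 ≤ Fintype.card F := Fintype.one_lt_card
  have hq2 : 1 < q := by
    by_contra hcon
    have h1 : q ≤ 1 := by omega
    have : q ^ 2 ≤ 1 ^ 2 := Nat.pow_le_pow_left h1 2
    omega
  set T := uaT F p f with hT
  have hTt : ∀ t, T t = t + t ^ q := by
    intro t; rw [hq]; rfl
  have hker : Nat.card T.ker ≤ q := by
    have hne : (X ^ q + X : F[X]) ≠ 0 := by
      intro h0
      have := congrArg (fun g : F[X] => g.coeff q) h0
      simp only [coeff_add, coeff_X_pow, coeff_X, coeff_zero, if_true] at this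
      rw [if_neg (by omega)] at this
      simp at this
    have hdeg : (X ^ q + X : F[X]).natDegree ≤ q := by
      refine (natDegree_add_le _ _).trans ?_
      rw [natDegree_X_pow, natDegree_X]
      exact max_le le_rfl hq2.le
    refine le_trans (le_of_eq ?_) ((ua_roots (X ^ q + X : F[X]) hne).trans hdeg)
    refine Nat.card_congr (Equiv.subtypeEquivRight fun x => ?_)
    rw [AddMonoidHom.mem_ker, hTt]
    simp [add_comm]
  have hfix : Nat.card {c : F // c ^ q = c} ≤ q := by
    have hne : (X ^ q - X : F[X]) ≠ 0 := FiniteField.X_pow_card_sub_X_ne_zero F hq2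
    have hdeg : (X ^ q - X : F[X]).natDegree = q := FiniteField.X_pow_card_sub_X_natDegree_eq F hq2
    refine le_trans (le_of_eq ?_) ((ua_roots (X ^ q - X : F[X]) hne).trans hdeg.le)
    refine Nat.card_congr (Equiv.subtypeEquivRight fun x => ?_)
    simp [sub_eq_zero]
  have hrange : ∀ c ∈ T.range, c ^ q = c := by
    rintro _ ⟨t, rfl⟩
    rw [hTt]
    have h1 : (t + t ^ q) ^ q = t ^ q + (t ^ q) ^ q := by
      rw [hq]; exact add_pow_char_pow _ _ _ _
    rw [h1, ua_frob q hF, add_comm]
  have hmul : Nat.card T.ker * Nat.card T.range = q ^ 2 := by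
    rw [← hF, ← Nat.card_eq_fintype_card, ← T.ker.card_mul_index, AddSubgroup.index_ker]
  have hrle : Nat.card T.range ≤ Nat.card {c : F // c ^ q = c} :=
    Nat.card_le_card_of_injective (fun c : T.range => (⟨c, hrange c c.2⟩ : {c : F // c ^ q = c}))
      (fun a b h => Subtype.ext (congrArg (fun u : {c : F // c ^ q = c} => (u : F)) h))
  have hkerq : Nat.card T.ker = q := by
    apply le_antisymm hker
    by_contra hcon
    have h1 : Nat.card T.ker < q := by omega
    have h2 : Nat.card T.ker * Nat.card T.range ≤ Nat.card T.ker * q :=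
      Nat.mul_le_mul_left _ (hrle.trans hfix)
    have h3 : Nat.card T.ker * q < q * q := Nat.mul_lt_mul_of_pos_right h1 (by omega)
    rw [hmul, sq] at h2
    omega
  have hrangeq : Nat.card T.range = q := by
    rw [hkerq, sq] at hmul
    exact Nat.eq_of_mul_eq_mul_left (by omega) hmul
  have hall : ∀ c : F, c ^ q = c → c ∈ T.range := by
    have hsub : (T.range : Set F) ⊆ {c : F | c ^ q = c} := fun c hc => hrange c hc
    have heq : (T.range : Set F) = {c : F | c ^ q = c} := by
      apply Set.eq_of_subset_of_ncard_le hsub _ (Set.toFinite _)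
      rw [← Nat.card_coe_set_eq, ← Nat.card_coe_set_eq]
      exact hfix.trans (le_of_eq hrangeq.symm)
    intro c hc
    have : c ∈ (T.range : Set F) := by rw [heq]; exact hc
    exact this
  have hfib : ∀ b : F, Nat.card {t : F // (b, t).2 + (b, t).2 ^ q + (b, t).1 ^ (q + 1) = 0} = q := by
    intro b
    have hc : (-(b ^ (q + 1))) ^ q = -(b ^ (q + 1)) := by
      have h1 : (-(b ^ (q + 1))) ^ q = -((b ^ (q + 1)) ^ q) := by
        rw [hq]; exact ua_neg p f _
      rw [h1, ← pow_mul, add_mul, one_mul, pow_add, pow_mul, ua_frob q hF, pow_succ, mul_comm]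
    obtain ⟨t₀, ht₀⟩ := hall _ hc
    have e : T.ker ≃ {t : F // (b, t).2 + (b, t).2 ^ q + (b, t).1 ^ (q + 1) = 0} :=
      (Equiv.addRight t₀).subtypeEquiv (fun t => by
        show t ∈ T.ker ↔ (t + t₀) + (t + t₀) ^ q + b ^ (q + 1) = 0
        rw [← hTt, map_add, ht₀, AddMonoidHom.mem_ker]
        constructor
        · intro h; rw [h]; ring
        · intro h; linear_combination h)
    rw [← Nat.card_congr e, hkerq]
  rw [Nat.card_congr (Equiv.subtypeProdEquivSigmaSubtype
    (fun b t : F => (b, t).2 + (b, t).2 ^ q + (b, t).1 ^ (q + 1) = 0)), Nat.card_sigma]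
  rw [Finset.sum_congr rfl (fun b _ => hfib b), Finset.sum_const, Finset.card_univ, hF]
  simp only [smul_eq_mul]
  ring

end H96S
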