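import Pool.Agent.Lib.H96S.UA

/-!
# Chunk UB: `SU(3, q)` is doubly transitive on the isotropic points
-/

namespace H96S

open Matrix

/-- the unitriangular elements of `SU(3, q)` -/
def uU {F : Type} [Field F] (q : ℕ) (b t : F) : Matrix (Fin 3) (Fin 3) F :=
  !![1, - b ^ q, t; 0, 1, b; 0, 0, 1]

/-- the antidiagonal element -/
def uW (F : Type) [Field F] : Matrix (Fin 3) (Fin 3) F := !![0, 0, 1; 0, -1, 0; 1, 0, 0]

/-- (1) `uU q b t ∈ SU(3, q)` if `t + t^q + b^(q+1) = 0`, and `uW ∈ SU(3, q)`; products: `uU` are closed under multiplication.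
(2) For `g ∈ SU(3, q)` with `(g 1 0, g 2 0) ≠ (0, 0)` we have `g 2 0 ≠ 0` and there are unique `b, t` with
`t + t^q + b^(q+1) = 0` such that `(uU q b t) uW` and `g` have proportional first columns.
Proof.  `x ↦ x^q` is additive (`q = p^f`, `add_pow_char_pow`) and `x^(q²) = x`.  (1): expand `herm` (it is enough to check it on
the columns: `herm q (A x) (A y) = ∑ x_i y_j^q herm q (A e_i) (A e_j)`).  (2): the first column `x = g e₀` satisfies
`herm q x x = herm q e₀ e₀ = 0`, i.e. `x₀ x₂^q + x₁^(q+1) + x₂ x₀^q = 0`; if `x₂ = 0` then `x₁ = 0`.  So `x₂ ≠ 0`; put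
`b = x₁ / x₂`, `t = x₀ / x₂`: dividing by `x₂^(q+1)` gives `t + b^(q+1) + t^q = 0`.  The first column of `(uU q b t) uW` is
`(t, b, 1)`. -/
theorem ub_facts (F : Type) [Field F] [Fintype F] (p f q : ℕ) [CharP F p] (hp : p.Prime)
    (hq : q = p ^ f) (hF : Fintype.card F = q ^ 2) :
    (∀ b t : F, t + t ^ q + b ^ (q + 1) = 0 → ∃ A ∈ SU3 F q, A.1 = uU q b t) ∧
    (∃ A ∈ SU3 F q, A.1 = uW F) ∧
    (∀ g ∈ SU3 F q, (g.1 1 0 ≠ 0 ∨ g.1 2 0 ≠ 0) →
      ∃ b t c : F, c ≠ 0 ∧ t + t ^ q + b ^ (q + 1) = 0 ∧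
        g.1 0 0 = c * t ∧ g.1 1 0 = c * b ∧ g.1 2 0 = c) := by
  have hpf := Fact.mk hp
  have hq0 : q ≠ 0 := by rw [hq]; exact pow_ne_zero _ hp.ne_zero
  have hadd : ∀ x y : F, (x + y) ^ q = x ^ q + y ^ q := by
    intro x y; rw [hq]; exact add_pow_char_pow _ _ _ _
  have hneg : ∀ x : F, (-x) ^ q = -(x ^ q) := by
    intro x; rw [hq]; exact ua_neg p f x
  have hfrob : ∀ x : F, (x ^ q) ^ q = x := ua_frob q hF
  refine ⟨?_, ?_, ?_⟩
  · intro b t hbt
    refine ⟨⟨uU q b t, ?_⟩, ?_, rfl⟩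
    · simp [uU, Matrix.det_fin_three]
    · intro x y
      have hU : ∀ z : Fin 3 → F, (uU q b t).mulVec z =
          ![z 0 + - b ^ q * z 1 + t * z 2, z 1 + b * z 2, z 2] := by
        intro z
        ext i
        fin_cases i <;> simp [uU, Matrix.mulVec, dotProduct, Fin.sum_univ_three]
      show herm q ((uU q b t).mulVec x) ((uU q b t).mulVec y) = herm q x y
      rw [hU, hU]
      simp only [herm, Matrix.cons_val_zero, Matrix.cons_val_one, Matrix.cons_val]
      have e1 : (y 0 + - b ^ q * y 1 + t * y 2) ^ q = y 0 ^ q + -(b * y 1 ^ q) + t ^ q * y 2 ^ q := by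
        rw [hadd, hadd, mul_pow, mul_pow, hneg, hfrob]
        ring
      have e2 : (y 1 + b * y 2) ^ q = y 1 ^ q + b ^ q * y 2 ^ q := by
        rw [hadd, mul_pow]
      rw [e1, e2]
      rw [pow_succ] at hbt
      linear_combination (x 2 * y 2 ^ q) * hbt
  · refine ⟨⟨uW F, ?_⟩, ?_, rfl⟩
    · simp [uW, Matrix.det_fin_three]
    · intro x y
      have hW : ∀ z : Fin 3 → F, (uW F).mulVec z = ![z 2, -z 1, z 0] := by
        intro z
        ext i
        fin_cases i <;> simp [uW, Matrix.mulVec, dotProduct, Fin.sum_univ_three]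
      show herm q ((uW F).mulVec x) ((uW F).mulVec y) = herm q x y
      rw [hW, hW]
      simp only [herm, Matrix.cons_val_zero, Matrix.cons_val_one, Matrix.cons_val]
      rw [hneg]
      ring
  · intro g hg hne
    have h1 := hg ![1, 0, 0] ![1, 0, 0]
    have hcol : g.1.mulVec ![1, 0, 0] = ![g.1 0 0, g.1 1 0, g.1 2 0] := by
      ext i
      fin_cases i <;> simp [Matrix.mulVec, dotProduct, Fin.sum_univ_three]
    rw [hcol] at h1
    simp only [herm, Matrix.cons_val_zero, Matrix.cons_val_one, Matrix.cons_val] at h1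
    rw [zero_pow hq0] at h1
    set x0 := g.1 0 0
    set x1 := g.1 1 0
    set x2 := g.1 2 0
    have h2 : x0 * x2 ^ q + x1 * x1 ^ q + x2 * x0 ^ q = 0 := by rw [h1]; ring
    have hx2 : x2 ≠ 0 := by
      intro h0
      rw [h0, zero_pow hq0, mul_zero, zero_add, zero_mul, add_zero, ← pow_succ'] at h2
      have hx1 : x1 = 0 := pow_eq_zero_iff (Nat.succ_ne_zero q) |>.1 h2
      rcases hne with h | h
      · exact h hx1
      · exact h h0
    refine ⟨x1 / x2, x0 / x2, x2, hx2, ?_, ?_, ?_, rfl⟩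
    · rw [div_pow, div_pow, pow_succ, pow_succ]
      have hx2q : x2 ^ q ≠ 0 := pow_ne_zero _ hx2
      field_simp
      linear_combination h2
    · field_simp
    · field_simp

end H96S
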